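import Mathlib

set_option autoImplicit false

/-!
The Berger spheres and the energy of their unit vector fields. Vector fields on `S³ ⊂ ℝ⁴` are
functions `ℝ⁴ → ℝ⁴` that are tangent to `S³` at the points of `S³`; directional derivatives of
functions along tangent fields and Lie brackets of tangent fields at points of `S³` depend only on
the restrictions to `S³`.
-/

namespace Pool.Agent.X154.Berger

open MeasureTheory Set Metric
open scoped RealInnerProductSpace ContDiff

/-- `ℝ⁴`, identified with the quaternions `x 0 + (x 1) i + (x 2) j + (x 3) k`. -/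
abbrev R4 : Type := EuclideanSpace ℝ (Fin 4)

/-- Left multiplication by `i`. On `S³` this is the Hopf vector field `H`. -/
noncomputable def J0 (x : R4) : R4 := !₂[-x 1, x 0, -x 3, x 2]

/-- Left multiplication by `j`. On `S³` this is the vector field `E₁`. -/
noncomputable def J1 (x : R4) : R4 := !₂[-x 2, x 3, x 0, -x 1]

/-- Left multiplication by `k`. On `S³` this is the vector field `E₂`. -/
noncomputable def J2 (x : R4) : R4 := !₂[-x 3, -x 2, x 1, x 0]

/-- The Berger metric `g_μ` at `x ∈ S³` of the tangent vectors `u, v`: the round metric plus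
`(μ - 1) g(u, H) g(v, H)`. So `g_μ(H, H) = μ`, `g_μ = g` on `H^⊥` and `g_μ(H, H^⊥) = 0`. -/
noncomputable def gm (μ : ℝ) (x u v : R4) : ℝ :=
  ⟪u, v⟫ + (μ - 1) * ⟪u, J0 x⟫ * ⟪v, J0 x⟫

/-- The derivative of the function `f` along the vector field `X`. -/
noncomputable def dir (X : R4 → R4) (f : R4 → ℝ) (x : R4) : ℝ := fderiv ℝ f x (X x)

/-- The Lie bracket `[X, Y]`. -/
noncomputable def bra (X Y : R4 → R4) (x : R4) : R4 := fderiv ℝ Y x (X x) - fderiv ℝ X x (Y x)

/-- `g_μ(∇_X Y, Z)` for the Levi-Civita connection `∇` of `g_μ`, by the Koszul formula. -/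
noncomputable def koszul (μ : ℝ) (X Y Z : R4 → R4) (x : R4) : ℝ :=
  (dir X (fun y => gm μ y (Y y) (Z y)) x + dir Y (fun y => gm μ y (X y) (Z y)) x -
    dir Z (fun y => gm μ y (X y) (Y y)) x + gm μ x (bra X Y x) (Z x) -
    gm μ x (bra X Z x) (Y x) - gm μ x (bra Y Z x) (X x)) / 2

/-- The `g_μ`-orthonormal frame `H_μ = H / √μ`, `E₁`, `E₂`. -/
noncomputable def frame (μ : ℝ) : Fin 3 → R4 → R4 := ![fun x => (√μ)⁻¹ • J0 x, J1, J2]

/-- `‖∇V‖²` at `x`, for the Levi-Civita connection and the norm of `g_μ`: the sum over the frame of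
`g_μ(∇_{eᵢ} V, eⱼ)²`. -/
noncomputable def gradSq (μ : ℝ) (V : R4 → R4) (x : R4) : ℝ :=
  ∑ i, ∑ j, koszul μ (frame μ i) V (frame μ j) x ^ 2

/-- The Riemannian volume measure of `g_μ` on `S³`: `√μ` times the surface measure (`g_μ` scales the
direction of `H` by `√μ` and is the round metric on `H^⊥`). -/
noncomputable def vm (μ : ℝ) : Measure (sphere (0 : R4) 1) :=
  ENNReal.ofReal (√μ) • (volume : Measure R4).toSphere

/-- The volume of `(S³, g_μ)`. -/
noncomputable def vol (μ : ℝ) : ℝ := (vm μ).real univ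

/-- The energy `(3/2) vol + (1/2) ∫ ‖∇V‖²`. -/
noncomputable def energy (μ : ℝ) (V : R4 → R4) : ℝ :=
  3 / 2 * vol μ + 1 / 2 * ∫ x : sphere (0 : R4) 1, gradSq μ V x ∂(vm μ)

/-- `V` is a smooth `g_μ`-unit vector field on `S³` (given with a smooth extension to `ℝ⁴`). -/
def IsUnitField (μ : ℝ) (V : R4 → R4) : Prop :=
  ContDiff ℝ ∞ V ∧ ∀ x : R4, ‖x‖ = 1 → ⟪V x, x⟫ = 0 ∧ gm μ x (V x) (V x) = 1

end Pool.Agent.X154.Berger
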