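import Pool.Agent.X154.Berger

set_option autoImplicit false

namespace Pool.Agent.X154.Berger

open MeasureTheory Set Metric
open scoped RealInnerProductSpace ContDiff

theorem inner4 (u v : R4) : ⟪u, v⟫ = u 0 * v 0 + u 1 * v 1 + u 2 * v 2 + u 3 * v 3 := by
  simp [PiLp.inner_apply, Fin.sum_univ_four]
  ring

theorem ext4 {u v : R4} (h0 : u 0 = v 0) (h1 : u 1 = v 1) (h2 : u 2 = v 2) (h3 : u 3 = v 3) :
    u = v := by
  ext i
  fin_cases i
  · exact h0
  · exact h1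
  · exact h2
  · exact h3

@[simp] theorem J0_0 (x : R4) : J0 x 0 = -x 1 := rfl
@[simp] theorem J0_1 (x : R4) : J0 x 1 = x 0 := rfl
@[simp] theorem J0_2 (x : R4) : J0 x 2 = -x 3 := rfl
@[simp] theorem J0_3 (x : R4) : J0 x 3 = x 2 := rfl
@[simp] theorem J1_0 (x : R4) : J1 x 0 = -x 2 := rfl
@[simp] theorem J1_1 (x : R4) : J1 x 1 = x 3 := rfl
@[simp] theorem J1_2 (x : R4) : J1 x 2 = x 0 := rfl
@[simp] theorem J1_3 (x : R4) : J1 x 3 = -x 1 := rfl
@[simp] theorem J2_0 (x : R4) : J2 x 0 = -x 3 := rfl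
@[simp] theorem J2_1 (x : R4) : J2 x 1 = -x 2 := rfl
@[simp] theorem J2_2 (x : R4) : J2 x 2 = x 1 := rfl
@[simp] theorem J2_3 (x : R4) : J2 x 3 = x 0 := rfl

/-- right multiplication by `i` -/
noncomputable def R (x : R4) : R4 := !₂[-x 1, x 0, x 3, -x 2]

@[simp] theorem R_0 (x : R4) : R x 0 = -x 1 := rfl
@[simp] theorem R_1 (x : R4) : R x 1 = x 0 := rfl
@[simp] theorem R_2 (x : R4) : R x 2 = x 3 := rfl
@[simp] theorem R_3 (x : R4) : R x 3 = -x 2 := rfl

/-- a linear map with the given values -/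
noncomputable def mkL (f : R4 → R4) (h1 : ∀ x y, f (x + y) = f x + f y)
    (h2 : ∀ (c : ℝ) x, f (c • x) = c • f x) : R4 →L[ℝ] R4 :=
  LinearMap.toContinuousLinearMap { toFun := f, map_add' := h1, map_smul' := h2 }

theorem mkL_apply (f : R4 → R4) (h1 : ∀ x y, f (x + y) = f x + f y)
    (h2 : ∀ (c : ℝ) x, f (c • x) = c • f x) (x : R4) : mkL f h1 h2 x = f x := rfl

theorem J0_add (x y : R4) : J0 (x + y) = J0 x + J0 y := by
  apply ext4 <;> simp <;> ring
theorem J0_smul (c : ℝ) (x : R4) : J0 (c • x) = c • J0 x := by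
  apply ext4 <;> simp
theorem J1_add (x y : R4) : J1 (x + y) = J1 x + J1 y := by
  apply ext4 <;> simp <;> ring
theorem J1_smul (c : ℝ) (x : R4) : J1 (c • x) = c • J1 x := by
  apply ext4 <;> simp
theorem J2_add (x y : R4) : J2 (x + y) = J2 x + J2 y := by
  apply ext4 <;> simp <;> ring
theorem J2_smul (c : ℝ) (x : R4) : J2 (c • x) = c • J2 x := by
  apply ext4 <;> simp
theorem R_add (x y : R4) : R (x + y) = R x + R y := by
  apply ext4 <;> simp <;> ring
theorem R_smul (c : ℝ) (x : R4) : R (c • x) = c • R x := by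
  apply ext4 <;> simp

/-- value and derivative of a field at a point -/
def HasD (X : R4 → R4) (x : R4) (X' : R4 → R4) : Prop :=
  DifferentiableAt ℝ X x ∧ ∀ u, fderiv ℝ X x u = X' u

theorem hasD_lin {f : R4 → R4} (h1 : ∀ x y, f (x + y) = f x + f y)
    (h2 : ∀ (c : ℝ) x, f (c • x) = c • f x) (x : R4) : HasD f x f := by
  have h : HasFDerivAt f (mkL f h1 h2) x := (mkL f h1 h2).hasFDerivAt
  exact ⟨h.differentiableAt, fun u => by rw [h.fderiv]; rfl⟩

theorem hasD_J0 (x : R4) : HasD J0 x J0 := hasD_lin J0_add J0_smul x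
theorem hasD_J1 (x : R4) : HasD J1 x J1 := hasD_lin J1_add J1_smul x
theorem hasD_J2 (x : R4) : HasD J2 x J2 := hasD_lin J2_add J2_smul x
theorem hasD_R (x : R4) : HasD R x R := hasD_lin R_add R_smul x

theorem hasD_smul {X X' : R4 → R4} {x : R4} (h : HasD X x X') (c : ℝ) :
    HasD (fun y => c • X y) x (fun u => c • X' u) := by
  have h1 : HasFDerivAt (fun y => c • X y) (c • fderiv ℝ X x) x := h.1.hasFDerivAt.const_smul c
  refine ⟨h1.differentiableAt, fun u => ?_⟩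
  rw [h1.fderiv]
  change c • (fderiv ℝ X x u) = _
  rw [h.2]

theorem hasD_add {X X' Y Y' : R4 → R4} {x : R4} (h : HasD X x X') (k : HasD Y x Y') :
    HasD (fun y => X y + Y y) x (fun u => X' u + Y' u) := by
  have h1 := h.1.hasFDerivAt.add k.1.hasFDerivAt
  refine ⟨h1.differentiableAt, fun u => ?_⟩
  have h2 := h1.fderiv
  change fderiv ℝ (fun y => X y + Y y) x = _ at h2
  rw [h2]
  change (fderiv ℝ X x u) + (fderiv ℝ Y x u) = _
  rw [h.2, k.2]

/-- scalar version -/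
def Hasd (f : R4 → ℝ) (x : R4) (f' : R4 → ℝ) : Prop :=
  DifferentiableAt ℝ f x ∧ ∀ u, fderiv ℝ f x u = f' u

theorem hasd_inner {X X' Y Y' : R4 → R4} {x : R4} (h : HasD X x X') (k : HasD Y x Y') :
    Hasd (fun y => ⟪X y, Y y⟫) x (fun u => ⟪X' u, Y x⟫ + ⟪X x, Y' u⟫) := by
  have h1 := h.1.hasFDerivAt.inner ℝ k.1.hasFDerivAt
  refine ⟨h1.differentiableAt, fun u => ?_⟩
  rw [h1.fderiv]
  simp only [ContinuousLinearMap.comp_apply, ContinuousLinearMap.prod_apply,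
    fderivInnerCLM_apply, h.2, k.2]
  ring

theorem hasd_mul {f f' g g' : R4 → ℝ} {x : R4} (h : Hasd f x f') (k : Hasd g x g') :
    Hasd (fun y => f y * g y) x (fun u => f' u * g x + f x * g' u) := by
  have h1 := h.1.hasFDerivAt.mul k.1.hasFDerivAt
  refine ⟨h1.differentiableAt, fun u => ?_⟩
  have h2 := h1.fderiv
  change fderiv ℝ (fun y => f y * g y) x = _ at h2
  rw [h2]
  change f x * fderiv ℝ g x u + g x * fderiv ℝ f x u = _
  rw [h.2, k.2]
  ring

theorem hasd_add {f f' g g' : R4 → ℝ} {x : R4} (h : Hasd f x f') (k : Hasd g x g') :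
    Hasd (fun y => f y + g y) x (fun u => f' u + g' u) := by
  have h1 := h.1.hasFDerivAt.add k.1.hasFDerivAt
  refine ⟨h1.differentiableAt, fun u => ?_⟩
  have h2 := h1.fderiv
  change fderiv ℝ (fun y => f y + g y) x = _ at h2
  rw [h2]
  change fderiv ℝ f x u + fderiv ℝ g x u = _
  rw [h.2, k.2]

theorem hasd_const_mul {f f' : R4 → ℝ} {x : R4} (h : Hasd f x f') (c : ℝ) :
    Hasd (fun y => c * f y) x (fun u => c * f' u) := by
  have h1 := h.1.hasFDerivAt.const_mul c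
  refine ⟨h1.differentiableAt, fun u => ?_⟩
  rw [h1.fderiv]
  change c * fderiv ℝ f x u = _
  rw [h.2]

theorem hasD_fsmul {f f' : R4 → ℝ} {X X' : R4 → R4} {x : R4} (h : Hasd f x f') (k : HasD X x X') :
    HasD (fun y => f y • X y) x (fun u => f' u • X x + f x • X' u) := by
  have h1 := h.1.hasFDerivAt.smul k.1.hasFDerivAt
  refine ⟨h1.differentiableAt, fun u => ?_⟩
  have h2 := h1.fderiv
  change fderiv ℝ (fun y => f y • X y) x = _ at h2
  rw [h2]
  change f x • fderiv ℝ X x u + (fderiv ℝ f x u) • X x = _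
  rw [h.2, k.2, add_comm]

/-- the derivative of the metric -/
theorem hasd_gm (μ : ℝ) {X X' Y Y' : R4 → R4} {x : R4} (h : HasD X x X') (k : HasD Y x Y') :
    Hasd (fun y => gm μ y (X y) (Y y)) x (fun u => (⟪X' u, Y x⟫ + ⟪X x, Y' u⟫) +
      (((μ - 1) * (⟪X' u, J0 x⟫ + ⟪X x, J0 u⟫)) * ⟪Y x, J0 x⟫ +
        ((μ - 1) * ⟪X x, J0 x⟫) * (⟪Y' u, J0 x⟫ + ⟪Y x, J0 u⟫))) :=
  hasd_add (hasd_inner h k)
    (hasd_mul (hasd_const_mul (hasd_inner h (hasD_J0 x)) (μ - 1)) (hasd_inner k (hasD_J0 x)))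

theorem dir_eq {f f' : R4 → ℝ} {x : R4} (h : Hasd f x f') (X : R4 → R4) : dir X f x = f' (X x) :=
  h.2 _

theorem bra_eq {X X' Y Y' : R4 → R4} {x : R4} (h : HasD X x X') (k : HasD Y x Y') :
    bra X Y x = Y' (X x) - X' (Y x) := by
  unfold bra
  rw [h.2, k.2]

end Pool.Agent.X154.Berger
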