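import Pool.Agent.X154.BergerP

set_option autoImplicit false

namespace Pool.Agent.X154.Berger

open MeasureTheory Set Metric
open scoped RealInnerProductSpace ContDiff

/-- derivative formula of the metric -/
noncomputable def dg (μ : ℝ) (x Xx X'u Yx Y'u u : R4) : ℝ :=
  (⟪X'u, Yx⟫ + ⟪Xx, Y'u⟫) + (((μ - 1) * (⟪X'u, J0 x⟫ + ⟪Xx, J0 u⟫)) * ⟪Yx, J0 x⟫ +
        ((μ - 1) * ⟪Xx, J0 x⟫) * (⟪Y'u, J0 x⟫ + ⟪Yx, J0 u⟫))

theorem koszul_eq (μ : ℝ) {X X' Y Y' Z Z' : R4 → R4} {x : R4} (hX : HasD X x X') (hY : HasD Y x Y')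
    (hZ : HasD Z x Z') : koszul μ X Y Z x =
      (dg μ x (Y x) (Y' (X x)) (Z x) (Z' (X x)) (X x) + dg μ x (X x) (X' (Y x)) (Z x) (Z' (Y x)) (Y x) -
        dg μ x (X x) (X' (Z x)) (Y x) (Y' (Z x)) (Z x) +
        gm μ x (Y' (X x) - X' (Y x)) (Z x) - gm μ x (Z' (X x) - X' (Z x)) (Y x) -
        gm μ x (Z' (Y x) - Y' (Z x)) (X x)) / 2 := by
  unfold koszul
  rw [dir_eq (hasd_gm μ hY hZ), dir_eq (hasd_gm μ hX hZ), dir_eq (hasd_gm μ hX hY),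
    bra_eq hX hY, bra_eq hX hZ, bra_eq hY hZ]
  rfl

/-- vectors in the moving frame -/
noncomputable def vec (x : R4) (a b c d : ℝ) : R4 := a • x + b • J0 x + c • J1 x + d • J2 x

theorem nsq {x : R4} (hx : ‖x‖ = 1) : x 0 * x 0 + x 1 * x 1 + x 2 * x 2 + x 3 * x 3 = 1 := by
  rw [← inner4, real_inner_self_eq_norm_sq, hx]
  norm_num

theorem inner_vec {x : R4} (hx : ‖x‖ = 1) (a b c d a' b' c' d' : ℝ) :
    ⟪vec x a b c d, vec x a' b' c' d'⟫ = a * a' + b * b' + c * c' + d * d' := by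
  rw [inner4]
  simp only [vec, PiLp.add_apply, PiLp.smul_apply, smul_eq_mul, J0_0, J0_1, J0_2, J0_3, J1_0, J1_1,
    J1_2, J1_3, J2_0, J2_1, J2_2, J2_3]
  linear_combination (a * a' + b * b' + c * c' + d * d') * nsq hx

theorem vec_add (x : R4) (a b c d a' b' c' d' : ℝ) :
    vec x a b c d + vec x a' b' c' d' = vec x (a + a') (b + b') (c + c') (d + d') := by
  unfold vec
  module

theorem vec_sub (x : R4) (a b c d a' b' c' d' : ℝ) :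
    vec x a b c d - vec x a' b' c' d' = vec x (a - a') (b - b') (c - c') (d - d') := by
  unfold vec
  module

theorem smul_vec (x : R4) (t a b c d : ℝ) :
    t • vec x a b c d = vec x (t * a) (t * b) (t * c) (t * d) := by
  unfold vec
  module

theorem J0_vec (x : R4) (a b c d : ℝ) : J0 (vec x a b c d) = vec x (-b) a (-d) c := by
  apply ext4 <;> simp [vec] <;> ring

theorem J1_vec (x : R4) (a b c d : ℝ) : J1 (vec x a b c d) = vec x (-c) d a (-b) := by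
  apply ext4 <;> simp [vec] <;> ring

theorem J2_vec (x : R4) (a b c d : ℝ) : J2 (vec x a b c d) = vec x (-d) (-c) b a := by
  apply ext4 <;> simp [vec] <;> ring

theorem J0_eq (x : R4) : J0 x = vec x 0 1 0 0 := by
  unfold vec; module

theorem J1_eq (x : R4) : J1 x = vec x 0 0 1 0 := by
  unfold vec; module

theorem J2_eq (x : R4) : J2 x = vec x 0 0 0 1 := by
  unfold vec; module

/-- the coefficients of the field `R` -/
noncomputable def r0 (x : R4) : ℝ := ⟪R x, J0 x⟫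
noncomputable def r1 (x : R4) : ℝ := ⟪R x, J1 x⟫
noncomputable def r2 (x : R4) : ℝ := ⟪R x, J2 x⟫

theorem R_eq {x : R4} (hx : ‖x‖ = 1) : R x = vec x 0 (r0 x) (r1 x) (r2 x) := by
  have h := nsq hx
  unfold r0 r1 r2
  simp only [inner4]
  apply ext4
  · simp only [vec, PiLp.add_apply, PiLp.smul_apply, smul_eq_mul, J0_0, J0_1, J0_2, J0_3, J1_0, J1_1,
    J1_2, J1_3, J2_0, J2_1, J2_2, J2_3, R_0, R_1, R_2, R_3]
    linear_combination (x 1) * h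
  · simp only [vec, PiLp.add_apply, PiLp.smul_apply, smul_eq_mul, J0_0, J0_1, J0_2, J0_3, J1_0, J1_1,
    J1_2, J1_3, J2_0, J2_1, J2_2, J2_3, R_0, R_1, R_2, R_3]
    linear_combination (-x 0) * h
  · simp only [vec, PiLp.add_apply, PiLp.smul_apply, smul_eq_mul, J0_0, J0_1, J0_2, J0_3, J1_0, J1_1,
    J1_2, J1_3, J2_0, J2_1, J2_2, J2_3, R_0, R_1, R_2, R_3]
    linear_combination (-x 3) * h
  · simp only [vec, PiLp.add_apply, PiLp.smul_apply, smul_eq_mul, J0_0, J0_1, J0_2, J0_3, J1_0, J1_1,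
    J1_2, J1_3, J2_0, J2_1, J2_2, J2_3, R_0, R_1, R_2, R_3]
    linear_combination (x 2) * h

theorem R_vec {x : R4} (hx : ‖x‖ = 1) (a b c d : ℝ) : R (vec x a b c d) =
    vec x (-b * r0 x - c * r1 x - d * r2 x) (a * r0 x - d * r1 x + c * r2 x)
      (a * r1 x + d * r0 x - b * r2 x) (a * r2 x - c * r0 x + b * r1 x) := by
  have h : R (vec x a b c d) = a • R x + b • J0 (R x) + c • J1 (R x) + d • J2 (R x) := by
    apply ext4 <;> simp [vec] <;> ring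
  rw [h, R_eq hx, J0_vec, J1_vec, J2_vec]
  unfold vec
  module

/-- the test field: the coefficients of `R` in the orthonormal frame of the round metric, used in the
orthonormal frame of the Berger metric -/
noncomputable def VV (μ : ℝ) (y : R4) : R4 :=
  ⟪R y, J0 y⟫ • ((√μ)⁻¹ • J0 y) + ⟪R y, J1 y⟫ • J1 y + ⟪R y, J2 y⟫ • J2 y

/-- its derivative -/
noncomputable def VV' (μ : ℝ) (x u : R4) : R4 :=
  ((⟪R u, J0 x⟫ + ⟪R x, J0 u⟫) • ((√μ)⁻¹ • J0 x) + ⟪R x, J0 x⟫ • ((√μ)⁻¹ • J0 u)) +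
  ((⟪R u, J1 x⟫ + ⟪R x, J1 u⟫) • J1 x + ⟪R x, J1 x⟫ • J1 u) +
  ((⟪R u, J2 x⟫ + ⟪R x, J2 u⟫) • J2 x + ⟪R x, J2 x⟫ • J2 u)

theorem hasD_VV (μ : ℝ) (x : R4) : HasD (VV μ) x (VV' μ x) :=
  hasD_add (hasD_add
    (hasD_fsmul (hasd_inner (hasD_R x) (hasD_J0 x)) (hasD_smul (hasD_J0 x) _))
    (hasD_fsmul (hasd_inner (hasD_R x) (hasD_J1 x)) (hasD_J1 x)))
    (hasD_fsmul (hasd_inner (hasD_R x) (hasD_J2 x)) (hasD_J2 x))

theorem VV_eq {μ : ℝ} {x : R4} :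
    VV μ x = vec x 0 (r0 x * (√μ)⁻¹) (r1 x) (r2 x) := by
  unfold VV vec r0 r1 r2
  module

theorem VV'_eq {μ : ℝ} {x : R4} (hx : ‖x‖ = 1) (b c d : ℝ) :
    VV' μ x (vec x 0 b c d) = vec x (-(r0 x * (√μ)⁻¹ * b) - r1 x * c - r2 x * d)
      (2 * (√μ)⁻¹ * (c * r2 x - d * r1 x) + r1 x * d - r2 x * c)
      (2 * (d * r0 x - b * r2 x) - r0 x * (√μ)⁻¹ * d + r2 x * b)
      (2 * (b * r1 x - c * r0 x) + r0 x * (√μ)⁻¹ * c - r1 x * b) := by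
  unfold VV'
  rw [R_vec hx, J0_vec, J1_vec, J2_vec, R_eq hx, J0_eq x, J1_eq x, J2_eq x]
  simp only [inner_vec hx, smul_vec, vec_add]
  congr 1 <;> ring

theorem VV'_J0 {μ : ℝ} {x : R4} (hx : ‖x‖ = 1) : VV' μ x ((√μ)⁻¹ • J0 x) =
    vec x (-(r0 x * (√μ)⁻¹ * (√μ)⁻¹)) 0 (-2 * (√μ)⁻¹ * r2 x + r2 x * (√μ)⁻¹)
      (2 * (√μ)⁻¹ * r1 x - r1 x * (√μ)⁻¹) := by
  rw [J0_eq, smul_vec, mul_zero, VV'_eq hx]
  congr 1 <;> ring

theorem VV'_J1 {μ : ℝ} {x : R4} (hx : ‖x‖ = 1) : VV' μ x (J1 x) =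
    vec x (-r1 x) (2 * (√μ)⁻¹ * r2 x - r2 x) 0 (-2 * r0 x + r0 x * (√μ)⁻¹) := by
  rw [J1_eq, VV'_eq hx]
  congr 1 <;> ring

theorem VV'_J2 {μ : ℝ} {x : R4} (hx : ‖x‖ = 1) : VV' μ x (J2 x) =
    vec x (-r2 x) (-2 * (√μ)⁻¹ * r1 x + r1 x) (2 * r0 x - r0 x * (√μ)⁻¹) 0 := by
  rw [J2_eq, VV'_eq hx]
  congr 1 <;> ring

section
variable {μ : ℝ} (hμ : 0 < μ) {x : R4} (hx : ‖x‖ = 1)
include hμ hx

theorem K00 : koszul μ (fun x => (√μ)⁻¹ • J0 x) (VV μ) (fun x => (√μ)⁻¹ • J0 x) x = 0 := by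
  obtain ⟨s, hs⟩ : ∃ s, s = √μ := ⟨_, rfl⟩
  have hs0 : s ≠ 0 := by rw [hs]; exact (Real.sqrt_pos.mpr hμ).ne'
  have hμs : μ = s * s := by rw [hs]; exact (Real.mul_self_sqrt hμ.le).symm
  rw [koszul_eq μ (hasD_smul (hasD_J0 x) _) (hasD_VV μ x) (hasD_smul (hasD_J0 x) _)]
  simp only [VV'_J0 hx, VV'_J1 hx, VV'_J2 hx, VV_eq, dg, gm]
  simp only [J0_eq x, J1_eq x, J2_eq x, J0_vec, J1_vec, J2_vec, smul_vec, vec_sub, inner_vec hx]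
  rw [← hs, hμs]
  field_simp
  ring

theorem K01 : koszul μ (fun x => (√μ)⁻¹ • J0 x) (VV μ) J1 x = -(√μ * r2 x) := by
  obtain ⟨s, hs⟩ : ∃ s, s = √μ := ⟨_, rfl⟩
  have hs0 : s ≠ 0 := by rw [hs]; exact (Real.sqrt_pos.mpr hμ).ne'
  have hμs : μ = s * s := by rw [hs]; exact (Real.mul_self_sqrt hμ.le).symm
  rw [koszul_eq μ (hasD_smul (hasD_J0 x) _) (hasD_VV μ x) (hasD_J1 x)]
  simp only [VV'_J0 hx, VV'_J1 hx, VV'_J2 hx, VV_eq, dg, gm]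
  simp only [J0_eq x, J1_eq x, J2_eq x, J0_vec, J1_vec, J2_vec, smul_vec, vec_sub, inner_vec hx]
  rw [← hs, hμs]
  field_simp
  ring

theorem K02 : koszul μ (fun x => (√μ)⁻¹ • J0 x) (VV μ) J2 x = √μ * r1 x := by
  obtain ⟨s, hs⟩ : ∃ s, s = √μ := ⟨_, rfl⟩
  have hs0 : s ≠ 0 := by rw [hs]; exact (Real.sqrt_pos.mpr hμ).ne'
  have hμs : μ = s * s := by rw [hs]; exact (Real.mul_self_sqrt hμ.le).symm
  rw [koszul_eq μ (hasD_smul (hasD_J0 x) _) (hasD_VV μ x) (hasD_J2 x)]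
  simp only [VV'_J0 hx, VV'_J1 hx, VV'_J2 hx, VV_eq, dg, gm]
  simp only [J0_eq x, J1_eq x, J2_eq x, J0_vec, J1_vec, J2_vec, smul_vec, vec_sub, inner_vec hx]
  rw [← hs, hμs]
  field_simp
  ring

theorem K10 : koszul μ J1 (VV μ) (fun x => (√μ)⁻¹ • J0 x) x = (2 - √μ) * r2 x := by
  obtain ⟨s, hs⟩ : ∃ s, s = √μ := ⟨_, rfl⟩
  have hs0 : s ≠ 0 := by rw [hs]; exact (Real.sqrt_pos.mpr hμ).ne'
  have hμs : μ = s * s := by rw [hs]; exact (Real.mul_self_sqrt hμ.le).symm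
  rw [koszul_eq μ (hasD_J1 x) (hasD_VV μ x) (hasD_smul (hasD_J0 x) _)]
  simp only [VV'_J0 hx, VV'_J1 hx, VV'_J2 hx, VV_eq, dg, gm]
  simp only [J0_eq x, J1_eq x, J2_eq x, J0_vec, J1_vec, J2_vec, smul_vec, vec_sub, inner_vec hx]
  rw [← hs, hμs]
  field_simp
  ring

theorem K11 : koszul μ J1 (VV μ) J1 x = 0 := by
  obtain ⟨s, hs⟩ : ∃ s, s = √μ := ⟨_, rfl⟩
  have hs0 : s ≠ 0 := by rw [hs]; exact (Real.sqrt_pos.mpr hμ).ne'
  have hμs : μ = s * s := by rw [hs]; exact (Real.mul_self_sqrt hμ.le).symm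
  rw [koszul_eq μ (hasD_J1 x) (hasD_VV μ x) (hasD_J1 x)]
  simp only [VV'_J0 hx, VV'_J1 hx, VV'_J2 hx, VV_eq, dg, gm]
  simp only [J0_eq x, J1_eq x, J2_eq x, J0_vec, J1_vec, J2_vec, smul_vec, vec_sub, inner_vec hx]
  rw [← hs, hμs]
  field_simp
  ring

theorem K12 : koszul μ J1 (VV μ) J2 x = -((2 - √μ) * r0 x) := by
  obtain ⟨s, hs⟩ : ∃ s, s = √μ := ⟨_, rfl⟩
  have hs0 : s ≠ 0 := by rw [hs]; exact (Real.sqrt_pos.mpr hμ).ne'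
  have hμs : μ = s * s := by rw [hs]; exact (Real.mul_self_sqrt hμ.le).symm
  rw [koszul_eq μ (hasD_J1 x) (hasD_VV μ x) (hasD_J2 x)]
  simp only [VV'_J0 hx, VV'_J1 hx, VV'_J2 hx, VV_eq, dg, gm]
  simp only [J0_eq x, J1_eq x, J2_eq x, J0_vec, J1_vec, J2_vec, smul_vec, vec_sub, inner_vec hx]
  rw [← hs, hμs]
  field_simp
  ring

theorem K20 : koszul μ J2 (VV μ) (fun x => (√μ)⁻¹ • J0 x) x = -((2 - √μ) * r1 x) := by
  obtain ⟨s, hs⟩ : ∃ s, s = √μ := ⟨_, rfl⟩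
  have hs0 : s ≠ 0 := by rw [hs]; exact (Real.sqrt_pos.mpr hμ).ne'
  have hμs : μ = s * s := by rw [hs]; exact (Real.mul_self_sqrt hμ.le).symm
  rw [koszul_eq μ (hasD_J2 x) (hasD_VV μ x) (hasD_smul (hasD_J0 x) _)]
  simp only [VV'_J0 hx, VV'_J1 hx, VV'_J2 hx, VV_eq, dg, gm]
  simp only [J0_eq x, J1_eq x, J2_eq x, J0_vec, J1_vec, J2_vec, smul_vec, vec_sub, inner_vec hx]
  rw [← hs, hμs]
  field_simp
  ring

theorem K21 : koszul μ J2 (VV μ) J1 x = (2 - √μ) * r0 x := by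
  obtain ⟨s, hs⟩ : ∃ s, s = √μ := ⟨_, rfl⟩
  have hs0 : s ≠ 0 := by rw [hs]; exact (Real.sqrt_pos.mpr hμ).ne'
  have hμs : μ = s * s := by rw [hs]; exact (Real.mul_self_sqrt hμ.le).symm
  rw [koszul_eq μ (hasD_J2 x) (hasD_VV μ x) (hasD_J1 x)]
  simp only [VV'_J0 hx, VV'_J1 hx, VV'_J2 hx, VV_eq, dg, gm]
  simp only [J0_eq x, J1_eq x, J2_eq x, J0_vec, J1_vec, J2_vec, smul_vec, vec_sub, inner_vec hx]
  rw [← hs, hμs]
  field_simp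
  ring

theorem K22 : koszul μ J2 (VV μ) J2 x = 0 := by
  obtain ⟨s, hs⟩ : ∃ s, s = √μ := ⟨_, rfl⟩
  have hs0 : s ≠ 0 := by rw [hs]; exact (Real.sqrt_pos.mpr hμ).ne'
  have hμs : μ = s * s := by rw [hs]; exact (Real.mul_self_sqrt hμ.le).symm
  rw [koszul_eq μ (hasD_J2 x) (hasD_VV μ x) (hasD_J2 x)]
  simp only [VV'_J0 hx, VV'_J1 hx, VV'_J2 hx, VV_eq, dg, gm]
  simp only [J0_eq x, J1_eq x, J2_eq x, J0_vec, J1_vec, J2_vec, smul_vec, vec_sub, inner_vec hx]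
  rw [← hs, hμs]
  field_simp
  ring

end

end Pool.Agent.X154.Berger
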