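import Pool.Agent.X154.BergerQ

set_option autoImplicit false

namespace Pool.Agent.X154.Berger

open MeasureTheory Set Metric
open scoped RealInnerProductSpace ContDiff Pointwise

theorem rsum {x : R4} (hx : ‖x‖ = 1) : r0 x ^ 2 + r1 x ^ 2 + r2 x ^ 2 = 1 := by
  have h1 := inner_vec hx 0 (r0 x) (r1 x) (r2 x) 0 (r0 x) (r1 x) (r2 x)
  rw [← R_eq hx] at h1
  have h2 : ⟪R x, R x⟫ = 1 := by
    rw [inner4]
    have := nsq hx
    simp only [R_0, R_1, R_2, R_3]
    linarith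
  rw [h2] at h1
  linarith

theorem gradSq_VV {μ : ℝ} (hμ : 0 < μ) {x : R4} (hx : ‖x‖ = 1) :
    gradSq μ (VV μ) x = (2 - √μ) ^ 2 + μ + ((2 - √μ) ^ 2 - μ) * r0 x ^ 2 := by
  have h : gradSq μ (VV μ) x =
      (koszul μ (fun x => (√μ)⁻¹ • J0 x) (VV μ) (fun x => (√μ)⁻¹ • J0 x) x ^ 2 +
       koszul μ (fun x => (√μ)⁻¹ • J0 x) (VV μ) J1 x ^ 2 +
       koszul μ (fun x => (√μ)⁻¹ • J0 x) (VV μ) J2 x ^ 2) +
      (koszul μ J1 (VV μ) (fun x => (√μ)⁻¹ • J0 x) x ^ 2 +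
       koszul μ J1 (VV μ) J1 x ^ 2 +
       koszul μ J1 (VV μ) J2 x ^ 2) +
      (koszul μ J2 (VV μ) (fun x => (√μ)⁻¹ • J0 x) x ^ 2 +
       koszul μ J2 (VV μ) J1 x ^ 2 +
       koszul μ J2 (VV μ) J2 x ^ 2) := by
    unfold gradSq
    simp only [Fin.sum_univ_three]
    rfl
  rw [h, K00 hμ hx, K01 hμ hx, K02 hμ hx, K10 hμ hx, K11 hμ hx, K12 hμ hx, K20 hμ hx, K21 hμ hx,
    K22 hμ hx]
  have hs : √μ * √μ = μ := Real.mul_self_sqrt hμ.le
  have h1 := rsum hx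
  have h2 : r1 x ^ 2 = 1 - r0 x ^ 2 - r2 x ^ 2 := by linarith
  have h3 : (√μ) ^ 2 = μ := Real.sq_sqrt hμ.le
  calc _ = (√μ) ^ 2 * (r1 x ^ 2 + r2 x ^ 2) + (2 - √μ) ^ 2 *
      (2 * r0 x ^ 2 + r1 x ^ 2 + r2 x ^ 2) := by ring
    _ = _ := by rw [h3, h2]; ring

theorem unit_VV {μ : ℝ} (hμ : 0 < μ) : IsUnitField μ (VV μ) := by
  constructor
  · have hJ : ∀ f : R4 → R4, (∀ x y, f (x + y) = f x + f y) → (∀ (c : ℝ) x, f (c • x) = c • f x) →
        ContDiff ℝ ∞ f := fun f h1 h2 => (mkL f h1 h2).contDiff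
    have hR := hJ R R_add R_smul
    have h0 := hJ J0 J0_add J0_smul
    have h1 := hJ J1 J1_add J1_smul
    have h2 := hJ J2 J2_add J2_smul
    exact (((hR.inner ℝ h0).smul (h0.const_smul _)).add ((hR.inner ℝ h1).smul h1)).add
      ((hR.inner ℝ h2).smul h2)
  · intro x hx
    have hx1 : x = vec x 1 0 0 0 := by unfold vec; module
    constructor
    · have h5 : ⟪VV μ x, vec x 1 0 0 0⟫ = 0 := by
        rw [VV_eq, inner_vec hx]
        ring
      rwa [← hx1] at h5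
    · unfold gm
      rw [VV_eq, J0_eq, inner_vec hx, inner_vec hx]
      have hs : √μ * √μ = μ := Real.mul_self_sqrt hμ.le
      have hs0 : √μ ≠ 0 := (Real.sqrt_pos.mpr hμ).ne'
      have h1 := rsum hx
      have h2 : r1 x ^ 2 = 1 - r0 x ^ 2 - r2 x ^ 2 := by linarith
      have h3 : (√μ)⁻¹ * (√μ)⁻¹ = μ⁻¹ := by rw [← mul_inv, hs]
      have h4 : μ * μ⁻¹ = 1 := mul_inv_cancel₀ hμ.ne'
      calc _ = r0 x ^ 2 * ((√μ)⁻¹ * (√μ)⁻¹) * μ + r1 x ^ 2 + r2 x ^ 2 := by ring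
        _ = _ := by
          rw [h3, h2, mul_assoc, mul_comm μ⁻¹, h4]
          ring

/-! ### The surface measure -/

/-- restriction of a linear isometry to the unit sphere -/
noncomputable def sphMap (U : R4 ≃ₗᵢ[ℝ] R4) (x : sphere (0 : R4) 1) : sphere (0 : R4) 1 :=
  ⟨U x, by simp⟩

theorem continuous_sphMap (U : R4 ≃ₗᵢ[ℝ] R4) : Continuous (sphMap U) :=
  (U.continuous.comp continuous_subtype_val).subtype_mk _

theorem toSphere_preimage (U : R4 ≃ₗᵢ[ℝ] R4) {s : Set (sphere (0 : R4) 1)}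
    (hs : MeasurableSet s) :
    (volume : Measure R4).toSphere (sphMap U ⁻¹' s) = (volume : Measure R4).toSphere s := by
  rw [Measure.toSphere_apply' _ hs,
    Measure.toSphere_apply' _ ((continuous_sphMap U).measurable hs)]
  congr 1
  have h : (Ioo (0 : ℝ) 1 • ((↑) '' (sphMap U ⁻¹' s)) : Set R4) =
      U ⁻¹' (Ioo (0 : ℝ) 1 • ((↑) '' s)) := by
    ext x
    simp only [mem_smul, mem_image, mem_preimage, Subtype.exists, exists_and_right,
      exists_eq_right]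
    constructor
    · rintro ⟨r, hr, y, ⟨hy, hys⟩, rfl⟩
      exact ⟨r, hr, U y, ⟨by simpa using hy, hys⟩, by simp⟩
    · rintro ⟨r, hr, y, ⟨hy, hys⟩, hxy⟩
      refine ⟨r, hr, U.symm y, ⟨by simpa using hy, ?_⟩, ?_⟩
      · have : sphMap U ⟨U.symm y, by simpa using hy⟩ = ⟨y, hy⟩ := by
          simp [sphMap]
        rw [this]; exact hys
      · apply U.injective
        rw [← hxy]; simp
  rw [h]
  exact (U.measurePreserving).measure_preimage_emb U.toHomeomorph.measurableEmbedding _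

theorem integral_comp (U : R4 ≃ₗᵢ[ℝ] R4) (f : sphere (0 : R4) 1 → ℝ) (hf : Continuous f) :
    ∫ x, f (sphMap U x) ∂(volume : Measure R4).toSphere = ∫ x, f x ∂(volume : Measure R4).toSphere := by
  have h : ((volume : Measure R4).toSphere).map (sphMap U) = (volume : Measure R4).toSphere := by
    ext s hs
    rw [Measure.map_apply (continuous_sphMap U).measurable hs, toSphere_preimage U hs]
  conv_rhs => rw [← h]
  rw [integral_map (continuous_sphMap U).measurable.aemeasurable hf.aestronglyMeasurable]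

/-- left multiplication by `(1 + i + j + k) / 2` -/
noncomputable def Q (x : R4) : R4 := (1 / 2 : ℝ) • (x + J0 x + J1 x + J2 x)

theorem Q_add (x y : R4) : Q (x + y) = Q x + Q y := by
  unfold Q
  rw [J0_add, J1_add, J2_add]
  module

theorem Q_smul (c : ℝ) (x : R4) : Q (c • x) = c • Q x := by
  unfold Q
  rw [J0_smul, J1_smul, J2_smul]
  module

theorem Q_coord (x : R4) : Q x 0 = (x 0 - x 1 - x 2 - x 3) / 2 ∧
    Q x 1 = (x 1 + x 0 + x 3 - x 2) / 2 ∧ Q x 2 = (x 2 - x 3 + x 0 + x 1) / 2 ∧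
    Q x 3 = (x 3 + x 2 - x 1 + x 0) / 2 := by
  unfold Q
  simp only [PiLp.smul_apply, PiLp.add_apply, smul_eq_mul, J0_0, J0_1, J0_2, J0_3, J1_0, J1_1,
    J1_2, J1_3, J2_0, J2_1, J2_2, J2_3]
  refine ⟨?_, ?_, ?_, ?_⟩ <;> ring

theorem Q_norm (x : R4) : ‖Q x‖ = ‖x‖ := by
  have h : ‖Q x‖ ^ 2 = ‖x‖ ^ 2 := by
    rw [← real_inner_self_eq_norm_sq, ← real_inner_self_eq_norm_sq, inner4, inner4]
    obtain ⟨h0, h1, h2, h3⟩ := Q_coord x
    rw [h0, h1, h2, h3]
    ring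
  have h1 := abs_eq_abs.mpr (sq_eq_sq_iff_eq_or_eq_neg.mp h)
  rwa [abs_of_nonneg (norm_nonneg _), abs_of_nonneg (norm_nonneg _)] at h1

/-- the isometry -/
noncomputable def QL : R4 ≃ₗᵢ[ℝ] R4 :=
  LinearIsometry.toLinearIsometryEquiv
    { toFun := Q, map_add' := Q_add, map_smul' := Q_smul, norm_map' := Q_norm } rfl

theorem QL_apply (x : R4) : QL x = Q x := rfl

theorem r0_coord (x : R4) : r0 x = x 0 ^ 2 + x 1 ^ 2 - x 2 ^ 2 - x 3 ^ 2 := by
  unfold r0
  rw [inner4]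
  simp only [J0_0, J0_1, J0_2, J0_3, R_0, R_1, R_2, R_3]
  ring

theorem r1_coord (x : R4) : r1 x = 2 * (x 1 * x 2 + x 0 * x 3) := by
  unfold r1
  rw [inner4]
  simp only [J1_0, J1_1, J1_2, J1_3, R_0, R_1, R_2, R_3]
  ring

theorem r2_coord (x : R4) : r2 x = 2 * (x 1 * x 3 - x 0 * x 2) := by
  unfold r2
  rw [inner4]
  simp only [J2_0, J2_1, J2_2, J2_3, R_0, R_1, R_2, R_3]
  ring

theorem r0_Q (x : R4) : r0 (Q x) = r2 x := by
  obtain ⟨h0, h1, h2, h3⟩ := Q_coord x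
  rw [r0_coord, r2_coord, h0, h1, h2, h3]
  ring

theorem r2_Q (x : R4) : r2 (Q x) = r1 x := by
  obtain ⟨h0, h1, h2, h3⟩ := Q_coord x
  rw [r2_coord, r1_coord, h0, h1, h2, h3]
  ring

theorem cont_coord (i : Fin 4) : Continuous fun x : sphere (0 : R4) 1 => (x : R4) i := by
  fun_prop

theorem cont_r0 : Continuous fun x : sphere (0 : R4) 1 => r0 (x : R4) := by
  simp only [r0_coord]
  fun_prop

theorem cont_r1 : Continuous fun x : sphere (0 : R4) 1 => r1 (x : R4) := by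
  simp only [r1_coord]
  fun_prop

theorem cont_r2 : Continuous fun x : sphere (0 : R4) 1 => r2 (x : R4) := by
  simp only [r2_coord]
  fun_prop

theorem integral_r0 : ∫ x : sphere (0 : R4) 1, r0 (x : R4) ^ 2 ∂(volume : Measure R4).toSphere =
    1 / 3 * ((volume : Measure R4).toSphere).real univ := by
  set σ := (volume : Measure R4).toSphere with hσ
  have h1 : ∫ x : sphere (0 : R4) 1, r2 (x : R4) ^ 2 ∂σ = ∫ x : sphere (0 : R4) 1, r0 (x : R4) ^ 2 ∂σ := by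
    rw [← integral_comp QL (fun x => r0 (x : R4) ^ 2) (cont_r0.pow 2)]
    congr 1
    ext x
    change r2 (x : R4) ^ 2 = r0 (Q x) ^ 2
    rw [r0_Q]
  have h2 : ∫ x : sphere (0 : R4) 1, r1 (x : R4) ^ 2 ∂σ = ∫ x : sphere (0 : R4) 1, r2 (x : R4) ^ 2 ∂σ := by
    rw [← integral_comp QL (fun x => r2 (x : R4) ^ 2) (cont_r2.pow 2)]
    congr 1
    ext x
    change r1 (x : R4) ^ 2 = r2 (Q x) ^ 2
    rw [r2_Q]
  have hi : ∀ f : sphere (0 : R4) 1 → ℝ, Continuous f → Integrable f σ := fun f hf =>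
    hf.integrable_of_hasCompactSupport (HasCompactSupport.of_compactSpace _)
  have h3 : ∫ x : sphere (0 : R4) 1, (r0 (x : R4) ^ 2 + r1 (x : R4) ^ 2 + r2 (x : R4) ^ 2) ∂σ =
      σ.real univ := by
    have : ∀ x : sphere (0 : R4) 1, r0 (x : R4) ^ 2 + r1 (x : R4) ^ 2 + r2 (x : R4) ^ 2 = 1 :=
      fun x => rsum (by simp)
    simp only [this, integral_const, smul_eq_mul, mul_one]
  have i0 : Integrable (fun x : sphere (0 : R4) 1 => r0 (x : R4) ^ 2) σ := hi _ (cont_r0.pow 2)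
  have i1 : Integrable (fun x : sphere (0 : R4) 1 => r1 (x : R4) ^ 2) σ := hi _ (cont_r1.pow 2)
  have i2 : Integrable (fun x : sphere (0 : R4) 1 => r2 (x : R4) ^ 2) σ := hi _ (cont_r2.pow 2)
  have i01 : Integrable (fun x : sphere (0 : R4) 1 => r0 (x : R4) ^ 2 + r1 (x : R4) ^ 2) σ := i0.add i1
  rw [integral_add i01 i2, integral_add i0 i1, h2, h1] at h3
  linarith

theorem vol_eq (μ : ℝ) : vol μ = √μ * ((volume : Measure R4).toSphere).real univ := by
  unfold vol vm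
  rw [measureReal_ennreal_smul_apply, ENNReal.toReal_ofReal (Real.sqrt_nonneg _)]

theorem sphere_pos : 0 < ((volume : Measure R4).toSphere).real univ := by
  rw [measureReal_def]
  apply ENNReal.toReal_pos
  · rw [Measure.toSphere_apply_univ]
    apply mul_ne_zero
    · simp
    · exact (measure_ball_pos _ _ one_pos).ne'
  · exact measure_ne_top _ _

theorem energy_VV {μ : ℝ} (hμ : 0 < μ) :
    energy μ (VV μ) = (3 / 2 + μ + 8 / 3 * (1 - √μ)) * vol μ := by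
  set σ := (volume : Measure R4).toSphere with hσ
  have hi : ∀ f : sphere (0 : R4) 1 → ℝ, Continuous f → Integrable f σ := fun f hf =>
    hf.integrable_of_hasCompactSupport (HasCompactSupport.of_compactSpace _)
  have h1 : ∫ x : sphere (0 : R4) 1, gradSq μ (VV μ) x ∂σ =
      ((2 - √μ) ^ 2 + μ + ((2 - √μ) ^ 2 - μ) / 3) * σ.real univ := by
    have h2 : ∀ x : sphere (0 : R4) 1, gradSq μ (VV μ) x =
        (2 - √μ) ^ 2 + μ + ((2 - √μ) ^ 2 - μ) * r0 (x : R4) ^ 2 :=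
      fun x => gradSq_VV hμ (by simp)
    simp only [h2]
    have i1 : Integrable (fun x : sphere (0 : R4) 1 => (2 - √μ) ^ 2 + μ) σ := hi _ continuous_const
    have i2 : Integrable (fun x : sphere (0 : R4) 1 => ((2 - √μ) ^ 2 - μ) * r0 (x : R4) ^ 2) σ :=
      hi _ (continuous_const.mul (cont_r0.pow 2))
    rw [integral_add i1 i2, integral_const_mul, integral_r0, integral_const, smul_eq_mul, ← hσ]
    ring
  unfold energy
  rw [vol_eq]
  unfold vm
  rw [integral_smul_measure, ENNReal.toReal_ofReal (Real.sqrt_nonneg _), ← hσ, h1, smul_eq_mul]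
  have h3 : (√μ) ^ 2 = μ := Real.sq_sqrt hμ.le
  have h4 : (2 - √μ) ^ 2 = 4 - 4 * √μ + μ := by
    calc (2 - √μ) ^ 2 = 4 - 4 * √μ + (√μ) ^ 2 := by ring
      _ = _ := by rw [h3]
  rw [h4]
  ring

end Pool.Agent.X154.Berger
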