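import Pool.Agent.X154.BergerR

set_option autoImplicit false

/-! The energy of the fields with constant coefficients `X = a E₁ + b E₂`. -/

namespace Pool.Agent.X154.Berger

open MeasureTheory Set Metric
open scoped RealInnerProductSpace ContDiff

/-- the field `X = a E₁ + b E₂` -/
noncomputable def XX (a b : ℝ) (y : R4) : R4 := a • J1 y + b • J2 y

theorem hasD_XX (a b : ℝ) (x : R4) : HasD (XX a b) x (XX a b) :=
  hasD_add (hasD_smul (hasD_J1 x) a) (hasD_smul (hasD_J2 x) b)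

theorem XX_vec (a b : ℝ) (x : R4) (p q r t : ℝ) : XX a b (vec x p q r t) =
    vec x (-a * r - b * t) (a * t - b * r) (a * p + b * q) (b * p - a * q) := by
  unfold XX
  rw [J1_vec, J2_vec, smul_vec, smul_vec, vec_add]
  congr 1 <;> ring

theorem XX_eq (a b : ℝ) (x : R4) : XX a b x = vec x 0 0 a b := by
  unfold XX vec
  module

section
variable {μ : ℝ} (hμ : 0 < μ) {x : R4} (hx : ‖x‖ = 1) (a b : ℝ)
include hμ hx

theorem X00 : koszul μ (fun x => (√μ)⁻¹ • J0 x) (XX a b) (fun x => (√μ)⁻¹ • J0 x) x = 0 := by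
  obtain ⟨s, hs⟩ : ∃ s, s = √μ := ⟨_, rfl⟩
  have hs0 : s ≠ 0 := by rw [hs]; exact (Real.sqrt_pos.mpr hμ).ne'
  have hμs : μ = s * s := by rw [hs]; exact (Real.mul_self_sqrt hμ.le).symm
  rw [koszul_eq μ (hasD_smul (hasD_J0 x) _) (hasD_XX a b x) (hasD_smul (hasD_J0 x) _)]
  simp only [dg, gm, J0_eq x, J1_eq x, J2_eq x, XX_eq a b x, J0_vec, J1_vec, J2_vec, XX_vec, smul_vec,
    vec_sub, inner_vec hx]
  try rw [← hs]
  rw [hμs]
  first
  | ring1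
  | (field_simp; ring1)
  | field_simp

theorem X01 : koszul μ (fun x => (√μ)⁻¹ • J0 x) (XX a b) J1 x = -((√μ - 2 / √μ) * b) := by
  obtain ⟨s, hs⟩ : ∃ s, s = √μ := ⟨_, rfl⟩
  have hs0 : s ≠ 0 := by rw [hs]; exact (Real.sqrt_pos.mpr hμ).ne'
  have hμs : μ = s * s := by rw [hs]; exact (Real.mul_self_sqrt hμ.le).symm
  rw [koszul_eq μ (hasD_smul (hasD_J0 x) _) (hasD_XX a b x) (hasD_J1 x)]
  simp only [dg, gm, J0_eq x, J1_eq x, J2_eq x, XX_eq a b x, J0_vec, J1_vec, J2_vec, XX_vec, smul_vec,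
    vec_sub, inner_vec hx]
  try rw [← hs]
  rw [hμs]
  first
  | ring1
  | (field_simp; ring1)
  | field_simp

theorem X02 : koszul μ (fun x => (√μ)⁻¹ • J0 x) (XX a b) J2 x = (√μ - 2 / √μ) * a := by
  obtain ⟨s, hs⟩ : ∃ s, s = √μ := ⟨_, rfl⟩
  have hs0 : s ≠ 0 := by rw [hs]; exact (Real.sqrt_pos.mpr hμ).ne'
  have hμs : μ = s * s := by rw [hs]; exact (Real.mul_self_sqrt hμ.le).symm
  rw [koszul_eq μ (hasD_smul (hasD_J0 x) _) (hasD_XX a b x) (hasD_J2 x)]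
  simp only [dg, gm, J0_eq x, J1_eq x, J2_eq x, XX_eq a b x, J0_vec, J1_vec, J2_vec, XX_vec, smul_vec,
    vec_sub, inner_vec hx]
  try rw [← hs]
  rw [hμs]
  first
  | ring1
  | (field_simp; ring1)
  | field_simp

theorem X10 : koszul μ J1 (XX a b) (fun x => (√μ)⁻¹ • J0 x) x = -(√μ * b) := by
  obtain ⟨s, hs⟩ : ∃ s, s = √μ := ⟨_, rfl⟩
  have hs0 : s ≠ 0 := by rw [hs]; exact (Real.sqrt_pos.mpr hμ).ne'
  have hμs : μ = s * s := by rw [hs]; exact (Real.mul_self_sqrt hμ.le).symm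
  rw [koszul_eq μ (hasD_J1 x) (hasD_XX a b x) (hasD_smul (hasD_J0 x) _)]
  simp only [dg, gm, J0_eq x, J1_eq x, J2_eq x, XX_eq a b x, J0_vec, J1_vec, J2_vec, XX_vec, smul_vec,
    vec_sub, inner_vec hx]
  try rw [← hs]
  rw [hμs]
  first
  | ring1
  | (field_simp; ring1)
  | field_simp

theorem X11 : koszul μ J1 (XX a b) J1 x = 0 := by
  obtain ⟨s, hs⟩ : ∃ s, s = √μ := ⟨_, rfl⟩
  have hs0 : s ≠ 0 := by rw [hs]; exact (Real.sqrt_pos.mpr hμ).ne'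
  have hμs : μ = s * s := by rw [hs]; exact (Real.mul_self_sqrt hμ.le).symm
  rw [koszul_eq μ (hasD_J1 x) (hasD_XX a b x) (hasD_J1 x)]
  simp only [dg, gm, J0_eq x, J1_eq x, J2_eq x, XX_eq a b x, J0_vec, J1_vec, J2_vec, XX_vec, smul_vec,
    vec_sub, inner_vec hx]
  try rw [← hs]
  rw [hμs]
  first
  | ring1
  | (field_simp; ring1)
  | field_simp

theorem X12 : koszul μ J1 (XX a b) J2 x = 0 := by
  obtain ⟨s, hs⟩ : ∃ s, s = √μ := ⟨_, rfl⟩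
  have hs0 : s ≠ 0 := by rw [hs]; exact (Real.sqrt_pos.mpr hμ).ne'
  have hμs : μ = s * s := by rw [hs]; exact (Real.mul_self_sqrt hμ.le).symm
  rw [koszul_eq μ (hasD_J1 x) (hasD_XX a b x) (hasD_J2 x)]
  simp only [dg, gm, J0_eq x, J1_eq x, J2_eq x, XX_eq a b x, J0_vec, J1_vec, J2_vec, XX_vec, smul_vec,
    vec_sub, inner_vec hx]
  try rw [← hs]
  rw [hμs]
  first
  | ring1
  | (field_simp; ring1)
  | field_simp

theorem X20 : koszul μ J2 (XX a b) (fun x => (√μ)⁻¹ • J0 x) x = √μ * a := by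
  obtain ⟨s, hs⟩ : ∃ s, s = √μ := ⟨_, rfl⟩
  have hs0 : s ≠ 0 := by rw [hs]; exact (Real.sqrt_pos.mpr hμ).ne'
  have hμs : μ = s * s := by rw [hs]; exact (Real.mul_self_sqrt hμ.le).symm
  rw [koszul_eq μ (hasD_J2 x) (hasD_XX a b x) (hasD_smul (hasD_J0 x) _)]
  simp only [dg, gm, J0_eq x, J1_eq x, J2_eq x, XX_eq a b x, J0_vec, J1_vec, J2_vec, XX_vec, smul_vec,
    vec_sub, inner_vec hx]
  try rw [← hs]
  rw [hμs]
  first
  | ring1
  | (field_simp; ring1)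
  | field_simp

theorem X21 : koszul μ J2 (XX a b) J1 x = 0 := by
  obtain ⟨s, hs⟩ : ∃ s, s = √μ := ⟨_, rfl⟩
  have hs0 : s ≠ 0 := by rw [hs]; exact (Real.sqrt_pos.mpr hμ).ne'
  have hμs : μ = s * s := by rw [hs]; exact (Real.mul_self_sqrt hμ.le).symm
  rw [koszul_eq μ (hasD_J2 x) (hasD_XX a b x) (hasD_J1 x)]
  simp only [dg, gm, J0_eq x, J1_eq x, J2_eq x, XX_eq a b x, J0_vec, J1_vec, J2_vec, XX_vec, smul_vec,
    vec_sub, inner_vec hx]
  try rw [← hs]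
  rw [hμs]
  first
  | ring1
  | (field_simp; ring1)
  | field_simp

theorem X22 : koszul μ J2 (XX a b) J2 x = 0 := by
  obtain ⟨s, hs⟩ : ∃ s, s = √μ := ⟨_, rfl⟩
  have hs0 : s ≠ 0 := by rw [hs]; exact (Real.sqrt_pos.mpr hμ).ne'
  have hμs : μ = s * s := by rw [hs]; exact (Real.mul_self_sqrt hμ.le).symm
  rw [koszul_eq μ (hasD_J2 x) (hasD_XX a b x) (hasD_J2 x)]
  simp only [dg, gm, J0_eq x, J1_eq x, J2_eq x, XX_eq a b x, J0_vec, J1_vec, J2_vec, XX_vec, smul_vec,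
    vec_sub, inner_vec hx]
  try rw [← hs]
  rw [hμs]
  first
  | ring1
  | (field_simp; ring1)
  | field_simp

end

theorem gradSq_XX {μ : ℝ} (hμ : 0 < μ) {x : R4} (hx : ‖x‖ = 1) {a b : ℝ} (hab : a ^ 2 + b ^ 2 = 1) :
    gradSq μ (XX a b) x = 2 * (μ + 2 * ((1 - μ) / μ)) := by
  have h : gradSq μ (XX a b) x =
      (koszul μ (fun x => (√μ)⁻¹ • J0 x) (XX a b) (fun x => (√μ)⁻¹ • J0 x) x ^ 2 +
       koszul μ (fun x => (√μ)⁻¹ • J0 x) (XX a b) J1 x ^ 2 +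
       koszul μ (fun x => (√μ)⁻¹ • J0 x) (XX a b) J2 x ^ 2) +
      (koszul μ J1 (XX a b) (fun x => (√μ)⁻¹ • J0 x) x ^ 2 +
       koszul μ J1 (XX a b) J1 x ^ 2 +
       koszul μ J1 (XX a b) J2 x ^ 2) +
      (koszul μ J2 (XX a b) (fun x => (√μ)⁻¹ • J0 x) x ^ 2 +
       koszul μ J2 (XX a b) J1 x ^ 2 +
       koszul μ J2 (XX a b) J2 x ^ 2) := by
    unfold gradSq
    simp only [Fin.sum_univ_three]
    rfl
  rw [h, X00 hμ hx, X01 hμ hx, X02 hμ hx, X10 hμ hx, X11 hμ hx, X12 hμ hx, X20 hμ hx, X21 hμ hx,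
    X22 hμ hx]
  obtain ⟨s, hs⟩ : ∃ s, s = √μ := ⟨_, rfl⟩
  have hs0 : s ≠ 0 := by rw [hs]; exact (Real.sqrt_pos.mpr hμ).ne'
  have hμs : μ = s * s := by rw [hs]; exact (Real.mul_self_sqrt hμ.le).symm
  rw [← hs, hμs]
  have hb : b ^ 2 = 1 - a ^ 2 := by linarith
  calc _ = ((s - 2 / s) ^ 2 + s ^ 2) * (a ^ 2 + b ^ 2) := by ring
    _ = _ := by
      rw [hb]
      field_simp
      ring

/-- the known value of the energy of `X` -/
theorem energy_XX {μ : ℝ} (hμ : 0 < μ) {a b : ℝ} (hab : a ^ 2 + b ^ 2 = 1) :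
    energy μ (XX a b) = (3 / 2 + μ + 2 * ((1 - μ) / μ)) * vol μ := by
  have h2 : ∀ x : sphere (0 : R4) 1, gradSq μ (XX a b) x = 2 * (μ + 2 * ((1 - μ) / μ)) :=
    fun x => gradSq_XX hμ (by simp) hab
  unfold energy
  simp only [h2]
  rw [integral_const, smul_eq_mul]
  unfold vol
  ring

end Pool.Agent.X154.Berger
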