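import Mathlib

set_option autoImplicit false

/-!
Conformal Riemannian planes `(ℂ, e^{2u} |dz|²)` and geodesic nets in them.
-/

namespace Pool.Agent.X154.Cone

open MeasureTheory Set
open scoped ContDiff ENNReal Laplacian

/-- The Gaussian curvature `K = - e^{-2u} Δu` of the metric `e^{2u} |dz|²` at `z`. -/
noncomputable def gaussK (u : ℂ → ℝ) (z : ℂ) : ℝ :=
  -(Real.exp (-2 * u z) * (Δ u) z)

/-- The integral `∫ K⁺ dA` of the positive part of the curvature with respect to the area form
`dA = e^{2u} dx dy` of the metric `e^{2u} |dz|²`. -/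
noncomputable def posCurv (u : ℂ → ℝ) : ℝ≥0∞ :=
  ∫⁻ z, ENNReal.ofReal (max (gaussK u z) 0 * Real.exp (2 * u z))

/-- The Euclidean gradient of `u`, as a complex number. -/
noncomputable def grad (u : ℂ → ℝ) (z : ℂ) : ℂ :=
  ⟨fderiv ℝ u z 1, fderiv ℝ u z Complex.I⟩

/-- `c`, with velocity `v`, satisfies on `[0, 1]` the geodesic equation of the metric `e^{2u} |dz|²`,
`c'' = - 2 ⟨∇u, c'⟩ c' + |c'|² ∇u` (Euclidean gradient and inner product), and is not constant.
(`c` is defined on a larger interval: every geodesic segment is part of a longer one.) -/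
def IsGeodesic (u : ℂ → ℝ) (c v : ℝ → ℂ) : Prop :=
  ∀ t ∈ Icc (0 : ℝ) 1, HasDerivAt c (v t) t ∧ v t ≠ 0 ∧
    HasDerivAt v (-((2 * inner ℝ (grad u (c t)) (v t) : ℝ) : ℂ) * v t +
      ((‖v t‖ ^ 2 : ℝ) : ℂ) * grad u (c t)) t

/-- The positive multiple of `v ≠ 0` that has length `1` at `z` in the metric `e^{2u} |dz|²`. -/
noncomputable def unitVec (u : ℂ → ℝ) (z v : ℂ) : ℂ :=
  ((Real.exp (u z) * ‖v‖)⁻¹ : ℝ) * v

/-- A geodesic net in the Riemannian plane `(ℂ, e^{2u} |dz|²)`: a finite connected graph embedded in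
the plane whose edges are nonconstant geodesic segments. The vertices in `unb` are unbalanced, the
others are balanced. -/
structure GeodesicNet (u : ℂ → ℝ) where
  /-- the number of vertices -/
  n : ℕ
  /-- the number of edges -/
  m : ℕ
  /-- the position of the vertices -/
  pos : Fin n → ℂ
  pos_inj : Function.Injective pos
  /-- the set of unbalanced vertices -/
  unb : Finset (Fin n)
  /-- the starting vertex of an edge -/
  src : Fin m → Fin n
  /-- the end vertex of an edge -/
  tgt : Fin m → Fin n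
  /-- the curves of the edges, on `[0, 1]` -/
  c : Fin m → ℝ → ℂ
  /-- the velocities of these curves -/
  v : Fin m → ℝ → ℂ
  geod : ∀ e, IsGeodesic u (c e) (v e)
  start : ∀ e, c e 0 = pos (src e)
  finish : ∀ e, c e 1 = pos (tgt e)
  /-- an edge does not meet itself, except that its end points may agree -/
  inj : ∀ e, ∀ s ∈ Ioo (0 : ℝ) 1, ∀ t ∈ Icc (0 : ℝ) 1, c e s = c e t → s = t
  /-- distinct edges meet only at common end points -/
  disj : ∀ e f, e ≠ f → ∀ s ∈ Ioo (0 : ℝ) 1, ∀ t ∈ Icc (0 : ℝ) 1, c e s ≠ c f t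
  /-- no vertex lies in the interior of an edge -/
  avoid : ∀ e, ∀ s ∈ Ioo (0 : ℝ) 1, ∀ p, c e s ≠ pos p
  conn : ∀ p q, Relation.ReflTransGen
    (fun a b => ∃ e, (src e = a ∧ tgt e = b) ∨ (src e = b ∧ tgt e = a)) p q
  /-- balanced vertices have degree at least three -/
  deg : ∀ p, p ∉ unb → 3 ≤ (Finset.univ.filter fun e => src e = p).card +
    (Finset.univ.filter fun e => tgt e = p).card
  /-- at a balanced vertex the unit tangent vectors of the incident edges, pointing away from the
  vertex, sum to zero -/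
  bal : ∀ p, p ∉ unb → (∑ e ∈ Finset.univ.filter (fun e => src e = p), unitVec u (pos p) (v e 0)) +
    (∑ e ∈ Finset.univ.filter (fun e => tgt e = p), unitVec u (pos p) (-(v e 1))) = 0
  /-- no edge joins two unbalanced vertices -/
  noUU : ∀ e, ¬ (src e ∈ unb ∧ tgt e ∈ unb)

/-- The graph has neither loops nor multiple edges. -/
def GeodesicNet.IsSimple {u : ℂ → ℝ} (G : GeodesicNet u) : Prop :=
  (∀ e, G.src e ≠ G.tgt e) ∧ ∀ e f, e ≠ f → s(G.src e, G.tgt e) ≠ s(G.src f, G.tgt f)

end Pool.Agent.X154.Cone
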