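import Pool.Agent.X154.Cone

set_option autoImplicit false

namespace Pool.Agent.X154.Cone

open MeasureTheory Set Filter Topology
open scoped ContDiff ENNReal Laplacian

theorem two_le_inf : (2 : WithTop ℕ∞) ≤ ((⊤ : ℕ∞) : WithTop ℕ∞) := by
  have h : ((2 : ℕ∞) : WithTop ℕ∞) ≤ ((⊤ : ℕ∞) : WithTop ℕ∞) := WithTop.coe_le_coe.mpr le_top
  exact h

/-- a smooth function equal to `(1/2) log s` for `s ≥ 1` -/
noncomputable def phi (s : ℝ) : ℝ := 1 / 2 * (Real.smoothTransition (2 * s - 1) * Real.log s)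

theorem phi_contDiff : ContDiff ℝ ∞ phi := by
  rw [contDiff_iff_contDiffAt]
  intro s
  rcases lt_or_ge s (1 / 2) with hs | hs
  · have h : phi =ᶠ[𝓝 s] fun _ => 0 := by
      filter_upwards [Iio_mem_nhds hs] with t ht
      unfold phi
      rw [Real.smoothTransition.zero_of_nonpos (by have : t < 1 / 2 := ht; linarith)]
      ring
    exact contDiffAt_const.congr_of_eventuallyEq h
  · have h1 : ContDiffAt ℝ ∞ (fun s : ℝ => Real.smoothTransition (2 * s - 1)) s := by
      have : ContDiff ℝ ∞ (fun s : ℝ => Real.smoothTransition (2 * s - 1)) :=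
        Real.smoothTransition.contDiff.comp (by fun_prop)
      exact this.contDiffAt
    have h2 : ContDiffAt ℝ ∞ Real.log s := Real.contDiffAt_log.mpr (by linarith)
    exact contDiffAt_const.mul (h1.mul h2)

theorem phi_eq {s : ℝ} (hs : 1 ≤ s) : phi s = 1 / 2 * Real.log s := by
  unfold phi
  rw [Real.smoothTransition.one_of_one_le (by linarith), one_mul]

/-- the conformal exponent before scaling -/
noncomputable def hh (z : ℂ) : ℝ := phi (‖z‖ ^ 2)

theorem hh_contDiff : ContDiff ℝ ∞ hh :=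
  phi_contDiff.comp (contDiff_norm_sq ℝ)

theorem hh_eq {z : ℂ} (hz : 1 < ‖z‖) : hh =ᶠ[𝓝 z] fun w => Real.log ‖w‖ := by
  filter_upwards [(isOpen_lt continuous_const continuous_norm).mem_nhds hz] with w hw
  have hw' : 1 < ‖w‖ := hw
  unfold hh
  rw [phi_eq (by nlinarith), Real.log_pow]
  push_cast
  ring

theorem lap_zero {z : ℂ} (hz : 1 < ‖z‖) : (Δ hh) z = 0 := by
  have h1 : InnerProductSpace.HarmonicAt (fun w : ℂ => Real.log ‖w‖) z :=
    AnalyticAt.harmonicAt_log_norm (f := fun w => w) analyticAt_id (by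
      intro h0
      rw [h0, norm_zero] at hz
      linarith)
  have h2 := (InnerProductSpace.laplacian_congr_nhds (hh_eq hz)).trans h1.2
  exact h2.self_of_nhds

theorem lap_cont : Continuous (Δ hh : ℂ → ℝ) := by
  rw [InnerProductSpace.laplacian_eq_iteratedFDeriv_complexPlane]
  have h : Continuous (fun x => iteratedFDeriv ℝ 2 hh x) :=
    hh_contDiff.continuous_iteratedFDeriv (m := 2) two_le_inf
  have key : ∀ m : Fin 2 → ℂ, Continuous (fun x => iteratedFDeriv ℝ 2 hh x m) := fun m =>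
    (ContinuousMultilinearMap.apply ℝ (fun _ : Fin 2 => ℂ) ℝ m).continuous.comp h
  exact (key _).add (key _)

/-- the total positive Laplacian -/
noncomputable def MM : ℝ≥0∞ := ∫⁻ z, ENNReal.ofReal (max ((Δ hh) z) 0)

theorem MM_lt : MM < ⊤ := by
  obtain ⟨C, hC⟩ := (isCompact_closedBall (0 : ℂ) 1).exists_bound_of_continuousOn
    (f := fun z => max ((Δ hh) z) 0) (lap_cont.max continuous_const).continuousOn
  have h1 : ∀ z, ENNReal.ofReal (max ((Δ hh) z) 0) ≤
      (Metric.closedBall (0 : ℂ) 1).indicator (fun _ => ENNReal.ofReal C) z := by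
    intro z
    by_cases hz : z ∈ Metric.closedBall (0 : ℂ) 1
    · rw [indicator_of_mem hz]
      apply ENNReal.ofReal_le_ofReal
      exact (le_abs_self _).trans (hC z hz)
    · rw [indicator_of_notMem hz]
      rw [mem_closedBall_zero_iff, not_le] at hz
      rw [lap_zero hz]
      simp
  calc MM ≤ ∫⁻ z, (Metric.closedBall (0 : ℂ) 1).indicator (fun _ => ENNReal.ofReal C) z :=
        lintegral_mono h1
    _ = ENNReal.ofReal C * volume (Metric.closedBall (0 : ℂ) 1) := by
        rw [lintegral_indicator Metric.isClosed_closedBall.measurableSet, setLIntegral_const]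
    _ < ⊤ := ENNReal.mul_lt_top ENNReal.ofReal_lt_top (isCompact_closedBall _ _).measure_lt_top

/-- the conformal exponent of the smoothed cone -/
noncomputable def uu (β : ℝ) (z : ℂ) : ℝ := (β - 1) * hh z

theorem uu_contDiff (β : ℝ) : ContDiff ℝ ∞ (uu β) := contDiff_const.mul hh_contDiff

theorem posCurv_uu {β : ℝ} (hβ : β ≤ 1) : posCurv (uu β) = ENNReal.ofReal (1 - β) * MM := by
  unfold posCurv MM
  rw [← lintegral_const_mul' _ _ ENNReal.ofReal_ne_top]
  congr 1
  ext z
  rw [← ENNReal.ofReal_mul (by linarith)]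
  congr 1
  have h1 : (Δ (uu β)) z = (β - 1) * (Δ hh) z := by
    have h2 : ContDiffAt ℝ 2 hh z := (hh_contDiff.of_le two_le_inf).contDiffAt
    have h3 := InnerProductSpace.laplacian_smul (β - 1) h2
    exact h3
  unfold gaussK
  rw [h1]
  have h2 : Real.exp (-2 * uu β z) * Real.exp (2 * uu β z) = 1 := by
    rw [← Real.exp_add]
    have : -2 * uu β z + 2 * uu β z = 0 := by ring
    rw [this, Real.exp_zero]
  have h3 : 0 ≤ Real.exp (2 * uu β z) := (Real.exp_pos _).le
  rw [max_mul_of_nonneg _ _ h3, mul_max_of_nonneg _ _ (by linarith : 0 ≤ 1 - β)]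
  congr 1
  · calc -(Real.exp (-2 * uu β z) * ((β - 1) * (Δ hh) z)) * Real.exp (2 * uu β z)
        = (Real.exp (-2 * uu β z) * Real.exp (2 * uu β z)) * ((1 - β) * (Δ hh) z) := by ring
      _ = _ := by rw [h2, one_mul]
  · ring

theorem grad_uu (β : ℝ) {z : ℂ} (hz : 1 < ‖z‖) :
    grad (uu β) z = ((β - 1) / ‖z‖ ^ 2 : ℝ) * z := by
  have hz0 : z ≠ 0 := by
    intro h0
    rw [h0, norm_zero] at hz
    linarith
  have h1 : uu β =ᶠ[𝓝 z] fun w => (β - 1) * (1 / 2 * Real.log (‖w‖ ^ 2)) := by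
    filter_upwards [hh_eq hz] with w hw
    unfold uu
    rw [hw, Real.log_pow]
    push_cast
    ring
  have h2 : HasFDerivAt (fun w : ℂ => (β - 1) * (1 / 2 * Real.log (‖w‖ ^ 2)))
      ((β - 1) • ((1 / 2 : ℝ) • ((‖z‖ ^ 2)⁻¹ • (2 • (innerSL ℝ z))))) z := by
    have h3 : HasFDerivAt (fun w : ℂ => ‖w‖ ^ 2) (2 • (innerSL ℝ z)) z :=
      (hasStrictFDerivAt_norm_sq z).hasFDerivAt
    have h4 := h3.log (by positivity)
    exact (h4.const_mul (1 / 2)).const_mul (β - 1)
  have h5 : fderiv ℝ (uu β) z = _ := (h2.congr_of_eventuallyEq h1).fderiv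
  have h6 : ∀ w : ℂ, fderiv ℝ (uu β) z w = (β - 1) / ‖z‖ ^ 2 * inner ℝ z w := by
    intro w
    rw [h5]
    simp only [ContinuousLinearMap.smul_apply, innerSL_apply_apply, smul_eq_mul, nsmul_eq_mul]
    push_cast
    ring
  unfold grad
  apply Complex.ext
  · rw [Complex.re_ofReal_mul]
    change fderiv ℝ (uu β) z 1 = _
    rw [h6, Complex.inner]
    simp
  · rw [Complex.im_ofReal_mul]
    change fderiv ℝ (uu β) z Complex.I = _
    rw [h6, Complex.inner]
    simp

end Pool.Agent.X154.Cone
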