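import Pool.Agent.X154.ConeA

set_option autoImplicit false

namespace Pool.Agent.X154.Cone

open Set Filter Topology
open scoped ComplexConjugate

theorem geodesic_of_cone {β : ℝ} {c v : ℝ → ℂ}
    (h : ∀ t ∈ Icc (0 : ℝ) 1, HasDerivAt c (v t) t ∧ v t ≠ 0 ∧ 1 < ‖c t‖ ∧
      HasDerivAt v ((1 - β) * v t ^ 2 / c t) t) : IsGeodesic (uu β) c v := by
  intro t ht
  obtain ⟨h1, h2, h3, h4⟩ := h t ht
  refine ⟨h1, h2, ?_⟩
  have hc : c t ≠ 0 := by
    intro h0
    rw [h0, norm_zero] at h3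
    linarith
  have hcc : conj (c t) ≠ 0 := by
    rw [Ne, map_eq_zero]
    exact hc
  have key : -((2 * inner ℝ (grad (uu β) (c t)) (v t) : ℝ) : ℂ) * v t +
      ((‖v t‖ ^ 2 : ℝ) : ℂ) * grad (uu β) (c t) = (1 - β) * v t ^ 2 / c t := by
    rw [grad_uu β h3]
    have e1 : ((‖v t‖ ^ 2 : ℝ) : ℂ) = v t * conj (v t) := by
      rw [Complex.mul_conj, Complex.normSq_eq_norm_sq]
    have e2 : ((‖c t‖ ^ 2 : ℝ) : ℂ) = c t * conj (c t) := by
      rw [Complex.mul_conj, Complex.normSq_eq_norm_sq]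
    have e3 : ((2 * inner ℝ ((((β - 1) / ‖c t‖ ^ 2 : ℝ) : ℂ) * c t) (v t) : ℝ) : ℂ) =
        (((β - 1) / ‖c t‖ ^ 2 : ℝ) : ℂ) * (conj (c t) * v t + c t * conj (v t)) := by
      rw [Complex.inner, map_mul, Complex.conj_ofReal]
      have e6 : v t * ((((β - 1) / ‖c t‖ ^ 2 : ℝ) : ℂ) * conj (c t)) =
          (((β - 1) / ‖c t‖ ^ 2 : ℝ) : ℂ) * (conj (c t) * v t) := by ring
      rw [e6, Complex.re_ofReal_mul]
      have e4 : conj (c t) * v t + c t * conj (v t) = ((2 * (conj (c t) * v t).re : ℝ) : ℂ) := by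
        rw [← Complex.add_conj, map_mul, Complex.conj_conj]
      rw [e4]
      push_cast
      ring
    rw [e1, e3]
    have e5 : (((β - 1) / ‖c t‖ ^ 2 : ℝ) : ℂ) = (β - 1) / (c t * conj (c t)) := by
      rw [← e2]
      push_cast
      ring
    rw [e5]
    field_simp
    ring
  rw [key]
  exact h4

/-- the inverse of the developing map of the cone -/
noncomputable def F (β : ℝ) (w : ℂ) : ℂ := Complex.exp (Complex.log w / β)

/-- a segment -/
noncomputable def seg (a b : ℂ) (t : ℝ) : ℂ := a + t * (b - a)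

/-- velocity of the image of a segment -/
noncomputable def vel (β : ℝ) (a b : ℂ) (t : ℝ) : ℂ := F β (seg a b t) * (b - a) / (β * seg a b t)

theorem seg_deriv (a b : ℂ) (t : ℝ) : HasDerivAt (seg a b) (b - a) t := by
  have h1 : HasDerivAt (fun t : ℝ => (t : ℂ)) 1 t := Complex.ofRealCLM.hasDerivAt
  have h2 := (h1.mul_const (b - a)).const_add a
  rw [one_mul] at h2
  exact h2

theorem F_ne (β : ℝ) (w : ℂ) : F β w ≠ 0 := Complex.exp_ne_zero _

theorem F_norm {β : ℝ} (w : ℂ) : ‖F β w‖ = Real.exp (Real.log ‖w‖ / β) := by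
  unfold F
  rw [Complex.norm_exp, Complex.div_ofReal_re, Complex.log_re]

theorem curve_deriv {β : ℝ} (hβ : β ≠ 0) {a b : ℂ} {t : ℝ} (h : seg a b t ∈ Complex.slitPlane) :
    HasDerivAt (fun t => F β (seg a b t)) (vel β a b t) t := by
  have hβ' : (β : ℂ) ≠ 0 := by exact_mod_cast hβ
  have h1 := ((seg_deriv a b t).clog_real h).div_const (β : ℂ)
  have h2 := h1.cexp
  have h3 : Complex.exp (Complex.log (seg a b t) / β) * ((b - a) / seg a b t / β) = vel β a b t := by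
    unfold vel F
    have := Complex.slitPlane_ne_zero h
    field_simp
  rw [h3] at h2
  exact h2

theorem vel_deriv {β : ℝ} (hβ : β ≠ 0) {a b : ℂ} {t : ℝ} (h : seg a b t ∈ Complex.slitPlane) :
    HasDerivAt (vel β a b) ((1 - β) * vel β a b t ^ 2 / F β (seg a b t)) t := by
  have hβ' : (β : ℂ) ≠ 0 := by exact_mod_cast hβ
  have h0 := Complex.slitPlane_ne_zero h
  have h1 := (curve_deriv hβ h).mul_const (b - a)
  have h2 := (seg_deriv a b t).const_mul (β : ℂ)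
  have h3 := h1.div h2 (mul_ne_zero hβ' h0)
  refine HasDerivAt.congr_deriv (f := vel β a b) h3 ?_
  unfold vel
  have hF := F_ne β (seg a b t)
  field_simp

theorem geodesic_seg {β : ℝ} (hβ : 0 < β) {a b : ℂ} (hab : a ≠ b)
    (h : ∀ t ∈ Icc (0 : ℝ) 1, seg a b t ∈ Complex.slitPlane ∧ 1 < ‖seg a b t‖) :
    IsGeodesic (uu β) (fun t => F β (seg a b t)) (vel β a b) := by
  apply geodesic_of_cone
  intro t ht
  obtain ⟨h1, h2⟩ := h t ht
  have hβ' : (β : ℂ) ≠ 0 := by exact_mod_cast hβ.ne'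
  refine ⟨curve_deriv hβ.ne' h1, ?_, ?_, vel_deriv hβ.ne' h1⟩
  · unfold vel
    apply div_ne_zero
    · exact mul_ne_zero (F_ne _ _) (sub_ne_zero.mpr hab.symm)
    · exact mul_ne_zero hβ' (Complex.slitPlane_ne_zero h1)
  · rw [F_norm, Real.one_lt_exp_iff]
    exact div_pos (Real.log_pos h2) hβ

theorem geodesic_seg_conj {β : ℝ} (hβ : 0 < β) {a b : ℂ} (hab : a ≠ b)
    (h : ∀ t ∈ Icc (0 : ℝ) 1, seg a b t ∈ Complex.slitPlane ∧ 1 < ‖seg a b t‖) :
    IsGeodesic (uu β) (fun t => conj (F β (seg a b t))) (fun t => conj (vel β a b t)) := by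
  apply geodesic_of_cone
  intro t ht
  obtain ⟨h1, h2⟩ := h t ht
  have hβ' : (β : ℂ) ≠ 0 := by exact_mod_cast hβ.ne'
  have conjd : ∀ (f : ℝ → ℂ) (f' : ℂ) (t : ℝ), HasDerivAt f f' t →
      HasDerivAt (fun t => conj (f t)) (conj f') t := by
    intro f f' t hf
    exact hf.star
  refine ⟨conjd _ _ _ (curve_deriv hβ.ne' h1), ?_, ?_, ?_⟩
  · rw [Ne, map_eq_zero]
    unfold vel
    apply div_ne_zero
    · exact mul_ne_zero (F_ne _ _) (sub_ne_zero.mpr hab.symm)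
    · exact mul_ne_zero hβ' (Complex.slitPlane_ne_zero h1)
  · rw [RCLike.norm_conj, F_norm, Real.one_lt_exp_iff]
    exact div_pos (Real.log_pos h2) hβ
  · have h3 := conjd _ _ _ (vel_deriv hβ.ne' h1)
    convert h3 using 1
    simp

/-! ### The sector -/

/-- the closed sector `0 ≤ arg w ≤ π - α` -/
def Sec (α : ℝ) (w : ℂ) : Prop :=
  w ≠ 0 ∧ 0 ≤ w.im ∧ 0 ≤ Real.sin α * w.re + Real.cos α * w.im

theorem arg_mem {α : ℝ} (hα : 0 < α) (hα' : α < Real.pi) {w : ℂ} (h : Sec α w) :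
    0 ≤ w.arg ∧ w.arg ≤ Real.pi - α := by
  obtain ⟨h0, h1, h2⟩ := h
  have h3 : 0 ≤ w.arg := Complex.arg_nonneg_iff.mpr h1
  refine ⟨h3, ?_⟩
  by_contra hc
  push Not at hc
  have h4 : w.arg ≤ Real.pi := Complex.arg_le_pi w
  have hn : 0 < ‖w‖ := norm_pos_iff.mpr h0
  have h5 : Real.sin (w.arg + α) < 0 := by
    have h6 : 0 < Real.sin (w.arg + α - Real.pi) :=
      Real.sin_pos_of_pos_of_lt_pi (by linarith) (by linarith)
    rw [Real.sin_sub_pi] at h6
    linarith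
  have h7 : Real.sin α * w.re + Real.cos α * w.im = ‖w‖ * Real.sin (w.arg + α) := by
    rw [Real.sin_add, ← Complex.norm_mul_cos_arg w, ← Complex.norm_mul_sin_arg w]
    have e1 : (‖w‖ * Real.cos w.arg : ℝ) = ‖w‖ * Real.cos w.arg := rfl
    simp only [Complex.norm_mul_cos_arg, Complex.norm_mul_sin_arg]
    ring_nf
    rw [← Complex.norm_mul_cos_arg w, ← Complex.norm_mul_sin_arg w]
    ring
  rw [h7] at h2
  nlinarith

end Pool.Agent.X154.Cone
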