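import Pool.Agent.X154.ConeB

set_option autoImplicit false

namespace Pool.Agent.X154.Cone

open Set Filter Topology
open scoped ComplexConjugate

theorem Sec.slit {α : ℝ} (hα : 0 < α) (hα' : α < Real.pi) {w : ℂ} (h : Sec α w) :
    w ∈ Complex.slitPlane := by
  obtain ⟨h0, h1, h2⟩ := h
  rw [Complex.mem_slitPlane_iff]
  by_cases hi : w.im = 0
  · left
    rw [hi, mul_zero, add_zero] at h2
    have hs := Real.sin_pos_of_pos_of_lt_pi hα hα'
    have h3 : 0 ≤ w.re := by
      by_contra hc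
      push Not at hc
      nlinarith
    rcases h3.lt_or_eq with h4 | h4
    · exact h4
    · exfalso
      apply h0
      exact Complex.ext h4.symm hi
  · right
    exact hi

section
variable {α β : ℝ} (hα : 0 < α) (hα' : α < Real.pi) (hβ : 0 < β) (hαβ : β * Real.pi = Real.pi - α)
include hα hα' hβ hαβ

theorem F_log {w : ℂ} (h : Sec α w) : Complex.log (F β w) = Complex.log w / β := by
  obtain ⟨h1, h2⟩ := arg_mem hα hα' h
  have h3 : (Complex.log w / β).im = w.arg / β := by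
    rw [Complex.div_ofReal_im, Complex.log_im]
  unfold F
  have hp := Real.pi_pos
  apply Complex.log_exp
  · rw [h3]
    have : 0 ≤ w.arg / β := div_nonneg h1 hβ.le
    linarith
  · rw [h3, div_le_iff₀ hβ]
    linarith

theorem F_inj {w w' : ℂ} (h : Sec α w) (h' : Sec α w') (he : F β w = F β w') : w = w' := by
  have h1 := F_log hα hα' hβ hαβ h
  have h2 := F_log hα hα' hβ hαβ h'
  rw [he, h2] at h1
  have hβ' : (β : ℂ) ≠ 0 := by exact_mod_cast hβ.ne'
  have h3 : Complex.log w' = Complex.log w := by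
    field_simp at h1
    exact h1
  rw [← Complex.exp_log h.1, ← Complex.exp_log h'.1, h3]

theorem F_im_nonneg {w : ℂ} (h : Sec α w) : 0 ≤ (F β w).im := by
  obtain ⟨h1, h2⟩ := arg_mem hα hα' h
  unfold F
  rw [Complex.exp_im, Complex.div_ofReal_im, Complex.log_im]
  apply mul_nonneg (Real.exp_pos _).le
  apply Real.sin_nonneg_of_nonneg_of_le_pi (div_nonneg h1 hβ.le)
  rw [div_le_iff₀ hβ]
  linarith

theorem F_im_pos {w : ℂ} (h1 : 0 < w.im) (h2 : 0 < Real.sin α * w.re + Real.cos α * w.im) :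
    0 < (F β w).im := by
  have h0 : w ≠ 0 := by
    intro h; rw [h] at h1; simp at h1
  obtain ⟨h3, h4⟩ := arg_mem hα hα' ⟨h0, h1.le, h2.le⟩
  have hn : 0 < ‖w‖ := norm_pos_iff.mpr h0
  have h5 : w.arg ≠ 0 := by
    intro h
    rw [Complex.arg_eq_zero_iff] at h
    linarith [h.2]
  have h6 : w.arg ≠ Real.pi - α := by
    intro h
    have e1 := Complex.norm_mul_cos_arg w
    have e2 := Complex.norm_mul_sin_arg w
    rw [h, Real.cos_pi_sub] at e1
    rw [h, Real.sin_pi_sub] at e2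
    rw [← e1, ← e2] at h2
    nlinarith
  have h7 : 0 < w.arg := lt_of_le_of_ne h3 h5.symm
  have h8 : w.arg < Real.pi - α := lt_of_le_of_ne h4 h6
  unfold F
  rw [Complex.exp_im, Complex.div_ofReal_im, Complex.log_im]
  apply mul_pos (Real.exp_pos _)
  apply Real.sin_pos_of_pos_of_lt_pi (div_pos h7 hβ)
  rw [div_lt_iff₀ hβ]
  linarith

theorem F_real_left {w : ℂ} {r : ℝ} (hr : 0 < r) (hw : w = ⟨-(r * Real.cos α), r * Real.sin α⟩) :
    (F β w).im = 0 := by
  have hp := Real.pi_pos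
  have h1 : w.arg = Real.pi - α := by
    have h2 : w = (r : ℂ) * (Complex.cos ((Real.pi - α : ℝ) : ℂ) +
        Complex.sin ((Real.pi - α : ℝ) : ℂ) * Complex.I) := by
      have h3 : ∀ a b r : ℝ, (r : ℂ) * ((a : ℂ) + (b : ℂ) * Complex.I) = ⟨r * a, r * b⟩ := by
        intro a b r
        apply Complex.ext <;> simp
      rw [hw, ← Complex.ofReal_cos, ← Complex.ofReal_sin, Real.cos_pi_sub, Real.sin_pi_sub, h3,
        mul_neg]
    rw [h2]
    exact Complex.arg_mul_cos_add_sin_mul_I hr ⟨by linarith, by linarith⟩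
  unfold F
  rw [Complex.exp_im, Complex.div_ofReal_im, Complex.log_im, h1]
  have h2 : (Real.pi - α) / β = Real.pi := by
    rw [← hαβ]
    field_simp
  rw [h2, Real.sin_pi, mul_zero]

end

theorem F_real_right {β : ℝ} {x : ℝ} (hx : 0 < x) : (F β (x : ℂ)).im = 0 := by
  unfold F
  rw [Complex.exp_im, Complex.div_ofReal_im, Complex.log_im, Complex.arg_ofReal_of_nonneg hx.le]
  simp

theorem F_real_right_pos {β : ℝ} {x : ℝ} (hx : 0 < x) :
    F β (x : ℂ) = ((Real.exp (Real.log x / β) : ℝ) : ℂ) := by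
  unfold F
  rw [← Complex.ofReal_log hx.le]
  push_cast
  rfl

/-! ### Unit vectors -/

theorem unitVec_mul (u : ℂ → ℝ) (z lam d : ℂ) {ρ : ℝ} (hρ : 0 < ρ) (hd : ‖d‖ = 1) :
    unitVec u z (lam * (ρ * d)) = (((Real.exp (u z) * ‖lam‖)⁻¹ : ℝ) : ℂ) * lam * d := by
  unfold unitVec
  rw [norm_mul, norm_mul, hd, Complex.norm_real, Real.norm_eq_abs, abs_of_pos hρ]
  push_cast
  have : (ρ : ℂ) ≠ 0 := by exact_mod_cast hρ.ne'
  rw [mul_inv, mul_inv, mul_inv, mul_inv]
  field_simp

theorem unitVec_conj (u : ℂ → ℝ) {z : ℂ} (v : ℂ) (hu : u (conj z) = u z) :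
    unitVec u (conj z) (conj v) = conj (unitVec u z v) := by
  unfold unitVec
  rw [hu, RCLike.norm_conj, map_mul, Complex.conj_ofReal]

theorem uu_conj (β : ℝ) (z : ℂ) : uu β (conj z) = uu β z := by
  unfold uu hh
  rw [RCLike.norm_conj]

end Pool.Agent.X154.Cone
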