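import Pool.Agent.X154.ConeC

set_option autoImplicit false

namespace Pool.Agent.X154.Cone

open Set Filter Topology
open scoped ComplexConjugate

/-- parameters of the configuration -/
structure Par where
  ψ : ℝ
  c : ℝ
  s : ℝ
  r : ℝ
  L : ℝ
  hc : c = Real.cos ψ
  hs : s = Real.sin ψ
  cs : c ^ 2 + s ^ 2 = 1
  r0 : 0 < r
  r3 : r ^ 2 = 3
  s0 : 0 < s
  c0 : 0 < c
  d0 : 0 < c - r * s
  L0 : 1 < L * (2 * s * c)

namespace Par

variable (p : Par)

/-- `cos α` and `sin α` for `α = 2 ψ` -/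
def k : ℝ := p.c ^ 2 - p.s ^ 2
def σ : ℝ := 2 * p.s * p.c
/-- the parameter of the crossing point -/
noncomputable def t0 : ℝ := p.σ / (p.σ + p.r / 2)

/-- Fermat point -/
noncomputable def P : ℂ := ⟨p.L * (3 - p.k), p.L * p.σ⟩
/-- the unbalanced vertex on the left -/
noncomputable def A : ℂ := ⟨-(4 * p.L * p.k), 4 * p.L * p.σ⟩
/-- the unbalanced vertex on the upper right -/
noncomputable def B : ℂ := ⟨p.L * (5 / 2), p.L * (p.r / 2)⟩
/-- the real coordinate of the crossing point -/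
noncomputable def x0 : ℝ := p.L * (3 - p.k + p.t0 * (p.k - 1 / 2))
/-- the crossing point -/
noncomputable def X : ℂ := ⟨p.x0, 0⟩

theorem σ0 : 0 < p.σ := by
  have := p.s0; have := p.c0
  unfold σ; positivity

theorem k1 : p.k < 1 := by
  have := p.s0; have := p.cs
  unfold k; nlinarith

theorem khalf : 1 / 2 < p.k := by
  have h1 := p.cs; have h2 := p.d0; have h3 := p.r3; have h4 := p.s0; have h5 := p.r0; have h6 := p.c0
  unfold k
  have h7 : 0 < (p.c - p.r * p.s) * (p.c + p.r * p.s) := by positivity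
  have h8 : (p.c - p.r * p.s) * (p.c + p.r * p.s) = p.c ^ 2 - p.r ^ 2 * p.s ^ 2 := by ring
  rw [h8, h3] at h7
  nlinarith

theorem kσ : p.k ^ 2 + p.σ ^ 2 = 1 := by
  have := p.cs
  unfold k σ
  calc (p.c ^ 2 - p.s ^ 2) ^ 2 + (2 * p.s * p.c) ^ 2 = (p.c ^ 2 + p.s ^ 2) ^ 2 := by ring
    _ = 1 := by rw [this]; norm_num

theorem σr : p.σ < p.r / 2 := by
  have h1 := p.kσ; have h2 := p.khalf; have h3 := p.r3; have h4 := p.σ0; have h5 := p.r0
  by_contra hc
  push Not at hc
  nlinarith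

theorem L1 : 1 < p.L := by
  have h1 := p.L0
  have h2 := p.kσ
  have h3 := p.σ0
  have h4 : p.σ < 1 := by nlinarith [p.khalf]
  have h5 : 1 < p.L * p.σ := h1
  by_contra hc
  push Not at hc
  nlinarith

theorem t00 : 0 < p.t0 := by
  have h4 := p.σ0; have h5 := p.r0
  unfold t0; positivity

theorem t01 : p.t0 < 1 := by
  have h4 := p.σ0; have h5 := p.r0
  unfold t0
  rw [div_lt_one (by positivity)]
  linarith

theorem t0_eq : p.t0 * (p.σ + p.r / 2) = p.σ := by
  have h4 := p.σ0; have h5 := p.r0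
  unfold t0
  rw [div_mul_cancel₀]
  positivity

/-- the four edges in the developed upper half plane -/
noncomputable def ea : Fin 4 → ℂ := ![p.P, p.P, p.P, p.X]
noncomputable def eb : Fin 4 → ℂ := ![p.A, p.B, p.X, p.B]

theorem seg_re (a b : ℂ) (t : ℝ) : (seg a b t).re = a.re + t * (b.re - a.re) := by
  unfold seg
  rw [Complex.add_re, Complex.re_ofReal_mul, Complex.sub_re]

theorem seg_im (a b : ℂ) (t : ℝ) : (seg a b t).im = a.im + t * (b.im - a.im) := by
  unfold seg
  rw [Complex.add_im, Complex.im_ofReal_mul, Complex.sub_im]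

/-- all edges are in the sector, outside the unit disc -/
theorem edge_mem (i : Fin 4) (t : ℝ) (ht : t ∈ Icc (0 : ℝ) 1) :
    0 ≤ (seg (p.ea i) (p.eb i) t).im ∧
    0 ≤ p.σ * (seg (p.ea i) (p.eb i) t).re + p.k * (seg (p.ea i) (p.eb i) t).im ∧
    1 < ‖seg (p.ea i) (p.eb i) t‖ := by
  have hL := p.L1; have hσ := p.σ0; have hk := p.khalf; have hk1 := p.k1; have hr := p.r0
  have ht0 := p.t00; have ht1 := p.t01
  have hLσ : 1 < p.L * p.σ := p.L0
  obtain ⟨h0, h1⟩ := ht
  have hx : 2 * p.L ≤ p.x0 := by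
    unfold x0
    have : 0 ≤ p.t0 * (p.k - 1 / 2) := mul_nonneg ht0.le (by linarith)
    nlinarith
  have hP : 2 * p.L ≤ p.L * (3 - p.k) := by nlinarith
  rw [seg_re, seg_im]
  fin_cases i
  · simp only [ea, eb, P, A, Matrix.cons_val_zero, Fin.zero_eta]
    have e1 : p.L * p.σ + t * (4 * p.L * p.σ - p.L * p.σ) = p.L * p.σ * (1 + 3 * t) := by ring
    refine ⟨?_, ?_, ?_⟩
    · rw [e1]; nlinarith
    · have e2 : p.σ * (p.L * (3 - p.k) + t * (-(4 * p.L * p.k) - p.L * (3 - p.k))) +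
          p.k * (p.L * p.σ + t * (4 * p.L * p.σ - p.L * p.σ)) = 3 * (p.L * p.σ) * (1 - t) := by ring
      rw [e2]
      nlinarith
    · refine lt_of_lt_of_le ?_ (Complex.abs_im_le_norm _)
      rw [seg_im]
      simp only
      rw [e1]
      refine lt_of_lt_of_le ?_ (le_abs_self _)
      nlinarith
  · simp only [ea, eb, P, B, Matrix.cons_val_one, Matrix.cons_val_zero, Fin.mk_one]
    have e1 : 0 ≤ p.L * p.σ + t * (p.L * (p.r / 2) - p.L * p.σ) := by
      have : p.L * p.σ + t * (p.L * (p.r / 2) - p.L * p.σ) =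
        (1 - t) * (p.L * p.σ) + t * (p.L * (p.r / 2)) := by ring
      rw [this]
      have h2 : 0 ≤ (1 - t) * (p.L * p.σ) := mul_nonneg (by linarith) (by linarith)
      have h3 : 0 ≤ t * (p.L * (p.r / 2)) := by positivity
      linarith
    have e2 : 2 * p.L ≤ p.L * (3 - p.k) + t * (p.L * (5 / 2) - p.L * (3 - p.k)) := by
      have : 0 ≤ t * (p.L * (5 / 2) - p.L * (3 - p.k)) := mul_nonneg h0 (by nlinarith)
      linarith
    refine ⟨e1, ?_, ?_⟩
    · have h2 : 0 ≤ p.σ * (p.L * (3 - p.k) + t * (p.L * (5 / 2) - p.L * (3 - p.k))) :=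
        mul_nonneg hσ.le (by linarith)
      have h3 : 0 ≤ p.k * (p.L * p.σ + t * (p.L * (p.r / 2) - p.L * p.σ)) :=
        mul_nonneg (by linarith) e1
      linarith
    · refine lt_of_lt_of_le ?_ (Complex.abs_re_le_norm _)
      rw [seg_re]
      simp only
      refine lt_of_lt_of_le ?_ (le_abs_self _)
      linarith
  · simp only [ea, eb, P, X, Matrix.cons_val, Fin.reduceFinMk]
    have e1 : 0 ≤ p.L * p.σ + t * (0 - p.L * p.σ) := by
      have : p.L * p.σ + t * (0 - p.L * p.σ) = (1 - t) * (p.L * p.σ) := by ring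
      rw [this]
      exact mul_nonneg (by linarith) (by linarith)
    have e2 : 2 * p.L ≤ p.L * (3 - p.k) + t * (p.x0 - p.L * (3 - p.k)) := by
      have : p.L * (3 - p.k) + t * (p.x0 - p.L * (3 - p.k)) =
        (1 - t) * (p.L * (3 - p.k)) + t * p.x0 := by ring
      rw [this]
      nlinarith
    refine ⟨e1, ?_, ?_⟩
    · have h2 : 0 ≤ p.σ * (p.L * (3 - p.k) + t * (p.x0 - p.L * (3 - p.k))) :=
        mul_nonneg hσ.le (by linarith)
      have h3 : 0 ≤ p.k * (p.L * p.σ + t * (0 - p.L * p.σ)) :=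
        mul_nonneg (by linarith) e1
      linarith
    · refine lt_of_lt_of_le ?_ (Complex.abs_re_le_norm _)
      rw [seg_re]
      simp only
      refine lt_of_lt_of_le ?_ (le_abs_self _)
      linarith
  · simp only [ea, eb, B, X, Matrix.cons_val, Fin.reduceFinMk]
    have e1 : 0 ≤ 0 + t * (p.L * (p.r / 2) - 0) := by
      have : 0 + t * (p.L * (p.r / 2) - 0) = t * (p.L * (p.r / 2)) := by ring
      rw [this]
      positivity
    have e2 : 2 * p.L ≤ p.x0 + t * (p.L * (5 / 2) - p.x0) := by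
      have : p.x0 + t * (p.L * (5 / 2) - p.x0) = (1 - t) * p.x0 + t * (p.L * (5 / 2)) := by ring
      rw [this]
      nlinarith
    refine ⟨e1, ?_, ?_⟩
    · have h2 : 0 ≤ p.σ * (p.x0 + t * (p.L * (5 / 2) - p.x0)) :=
        mul_nonneg hσ.le (by linarith)
      have h3 : 0 ≤ p.k * (0 + t * (p.L * (p.r / 2) - 0)) :=
        mul_nonneg (by linarith) e1
      linarith
    · refine lt_of_lt_of_le ?_ (Complex.abs_re_le_norm _)
      rw [seg_re]
      simp only
      refine lt_of_lt_of_le ?_ (le_abs_self _)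
      linarith

end Par

end Pool.Agent.X154.Cone
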