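import Pool.Agent.X154.ConeD

set_option autoImplicit false

namespace Pool.Agent.X154.Cone

open Set Filter Topology
open scoped ComplexConjugate

namespace Par

variable (p : Par)

/-- interior points are in the open sector -/
theorem edge_int (i : Fin 4) (t : ℝ) (ht : t ∈ Ioo (0 : ℝ) 1) :
    0 < (seg (p.ea i) (p.eb i) t).im ∧
    0 < p.σ * (seg (p.ea i) (p.eb i) t).re + p.k * (seg (p.ea i) (p.eb i) t).im := by
  have hL := p.L1; have hσ := p.σ0; have hk := p.khalf; have hk1 := p.k1; have hr := p.r0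
  have ht0 := p.t00; have ht1 := p.t01
  have hLσ : 1 < p.L * p.σ := p.L0
  obtain ⟨h0, h1⟩ := ht
  have hx : 2 * p.L ≤ p.x0 := by
    unfold x0
    have : 0 ≤ p.t0 * (p.k - 1 / 2) := mul_nonneg ht0.le (by linarith)
    nlinarith
  have hP : 2 * p.L ≤ p.L * (3 - p.k) := by nlinarith
  rw [seg_re, seg_im]
  fin_cases i
  · simp only [ea, eb, P, A, Matrix.cons_val_zero, Fin.zero_eta]
    have e1 : p.L * p.σ + t * (4 * p.L * p.σ - p.L * p.σ) = p.L * p.σ * (1 + 3 * t) := by ring
    refine ⟨?_, ?_⟩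
    · rw [e1]; nlinarith
    · have e2 : p.σ * (p.L * (3 - p.k) + t * (-(4 * p.L * p.k) - p.L * (3 - p.k))) +
          p.k * (p.L * p.σ + t * (4 * p.L * p.σ - p.L * p.σ)) = 3 * (p.L * p.σ) * (1 - t) := by ring
      rw [e2]
      have : 0 < 1 - t := by linarith
      positivity
  · simp only [ea, eb, P, B, Matrix.cons_val_one, Matrix.cons_val_zero, Fin.mk_one]
    have e1 : 0 < p.L * p.σ + t * (p.L * (p.r / 2) - p.L * p.σ) := by
      have : p.L * p.σ + t * (p.L * (p.r / 2) - p.L * p.σ) =
        (1 - t) * (p.L * p.σ) + t * (p.L * (p.r / 2)) := by ring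
      rw [this]
      have h2 : 0 ≤ (1 - t) * (p.L * p.σ) := mul_nonneg (by linarith) (by linarith)
      have h3 : 0 < t * (p.L * (p.r / 2)) := by positivity
      linarith
    have e2 : 2 * p.L ≤ p.L * (3 - p.k) + t * (p.L * (5 / 2) - p.L * (3 - p.k)) := by
      have : 0 ≤ t * (p.L * (5 / 2) - p.L * (3 - p.k)) := mul_nonneg h0.le (by nlinarith)
      linarith
    refine ⟨e1, ?_⟩
    have h2 : 0 < p.σ * (p.L * (3 - p.k) + t * (p.L * (5 / 2) - p.L * (3 - p.k))) :=
      mul_pos hσ (by linarith)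
    have h3 : 0 ≤ p.k * (p.L * p.σ + t * (p.L * (p.r / 2) - p.L * p.σ)) :=
      mul_nonneg (by linarith) e1.le
    linarith
  · simp only [ea, eb, P, X, Matrix.cons_val, Fin.reduceFinMk]
    have e1 : 0 < p.L * p.σ + t * (0 - p.L * p.σ) := by
      have : p.L * p.σ + t * (0 - p.L * p.σ) = (1 - t) * (p.L * p.σ) := by ring
      rw [this]
      exact mul_pos (by linarith) (by linarith)
    have e2 : 2 * p.L ≤ p.L * (3 - p.k) + t * (p.x0 - p.L * (3 - p.k)) := by
      have : p.L * (3 - p.k) + t * (p.x0 - p.L * (3 - p.k)) =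
        (1 - t) * (p.L * (3 - p.k)) + t * p.x0 := by ring
      rw [this]
      nlinarith
    refine ⟨e1, ?_⟩
    have h2 : 0 < p.σ * (p.L * (3 - p.k) + t * (p.x0 - p.L * (3 - p.k))) :=
      mul_pos hσ (by linarith)
    have h3 : 0 ≤ p.k * (p.L * p.σ + t * (0 - p.L * p.σ)) :=
      mul_nonneg (by linarith) e1.le
    linarith
  · simp only [ea, eb, B, X, Matrix.cons_val, Fin.reduceFinMk]
    have e1 : 0 < 0 + t * (p.L * (p.r / 2) - 0) := by
      have : 0 + t * (p.L * (p.r / 2) - 0) = t * (p.L * (p.r / 2)) := by ring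
      rw [this]
      positivity
    have e2 : 2 * p.L ≤ p.x0 + t * (p.L * (5 / 2) - p.x0) := by
      have : p.x0 + t * (p.L * (5 / 2) - p.x0) = (1 - t) * p.x0 + t * (p.L * (5 / 2)) := by ring
      rw [this]
      nlinarith
    refine ⟨e1, ?_⟩
    have h2 : 0 < p.σ * (p.x0 + t * (p.L * (5 / 2) - p.x0)) :=
      mul_pos hσ (by linarith)
    have h3 : 0 ≤ p.k * (0 + t * (p.L * (p.r / 2) - 0)) :=
      mul_nonneg (by linarith) e1.le
    linarith

/-- the endpoints differ -/
theorem edge_ne (i : Fin 4) : p.ea i ≠ p.eb i := by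
  have hL := p.L1; have hσ := p.σ0; have hr := p.r0
  have hLσ : 1 < p.L * p.σ := p.L0
  intro h
  have h1 := congrArg Complex.im h
  have h2 := congrArg Complex.re h
  fin_cases i
  · simp only [ea, eb, P, A, Matrix.cons_val_zero, Fin.zero_eta] at h1
    nlinarith
  · simp only [ea, eb, P, B, Matrix.cons_val_one, Matrix.cons_val_zero, Fin.mk_one] at h2
    have hk := p.khalf
    nlinarith
  · simp only [ea, eb, P, X, Matrix.cons_val, Fin.reduceFinMk] at h1
    nlinarith
  · simp only [ea, eb, B, X, Matrix.cons_val, Fin.reduceFinMk] at h1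
    have : 0 < p.L * (p.r / 2) := by positivity
    linarith

/-- disjointness of distinct edges in the developed half plane -/
theorem edge_disj (i j : Fin 4) (hij : i ≠ j) (u : ℝ) (hu : u ∈ Ioo (0 : ℝ) 1) (t : ℝ)
    (ht : t ∈ Icc (0 : ℝ) 1) : seg (p.ea i) (p.eb i) u ≠ seg (p.ea j) (p.eb j) t := by
  have hL := p.L1; have hσ := p.σ0; have hk := p.khalf; have hk1 := p.k1; have hr := p.r0
  have ht0 := p.t00; have ht1 := p.t01; have hσr := p.σr; have hte := p.t0_eq
  have hL0 : 0 < p.L := by linarith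
  obtain ⟨h0, h1⟩ := ht
  obtain ⟨u0, u1⟩ := hu
  intro h
  have hre := congrArg Complex.re h
  have him := congrArg Complex.im h
  rw [seg_re, seg_re] at hre
  rw [seg_im, seg_im] at him
  have hq : 0 < p.t0 * (p.k - 1 / 2) := mul_pos ht0 (by linarith)
  have hq' : 0 < (1 - p.t0) * (p.k - 1 / 2) := mul_pos (by linarith) (by linarith)
  fin_cases i <;> fin_cases j <;>
    simp only [ea, eb, P, A, B, X, x0, Matrix.cons_val_zero, Matrix.cons_val_one, Matrix.cons_val,
      Fin.zero_eta, Fin.mk_one, Fin.reduceFinMk, ne_eq, not_true_eq_false] at hre him hij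
  · -- 0 1
    have e : p.L * (u * (-(3 + 3 * p.k)) - t * (p.k - 1 / 2)) = 0 := by linear_combination hre
    have e' : u * (-(3 + 3 * p.k)) - t * (p.k - 1 / 2) = 0 := by
      rcases mul_eq_zero.mp e with h | h
      · linarith
      · exact h
    nlinarith [mul_nonneg h0 (by linarith : 0 ≤ p.k - 1 / 2)]
  · -- 0 2
    have e : p.L * (u * (-(3 + 3 * p.k)) - t * (p.t0 * (p.k - 1 / 2))) = 0 := by
      linear_combination hre
    have e' : u * (-(3 + 3 * p.k)) - t * (p.t0 * (p.k - 1 / 2)) = 0 := by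
      rcases mul_eq_zero.mp e with h | h
      · linarith
      · exact h
    nlinarith [mul_nonneg h0 hq.le]
  · -- 0 3
    have e : p.L * (u * (-(3 + 3 * p.k)) - p.t0 * (p.k - 1 / 2) - t * ((1 - p.t0) * (p.k - 1 / 2))) = 0 := by
      linear_combination hre
    have e' : u * (-(3 + 3 * p.k)) - p.t0 * (p.k - 1 / 2) - t * ((1 - p.t0) * (p.k - 1 / 2)) = 0 := by
      rcases mul_eq_zero.mp e with h | h
      · linarith
      · exact h
    nlinarith [mul_nonneg h0 hq'.le]
  · -- 1 0
    have e : p.L * (t * (-(3 + 3 * p.k)) - u * (p.k - 1 / 2)) = 0 := by linear_combination -hre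
    have e' : t * (-(3 + 3 * p.k)) - u * (p.k - 1 / 2) = 0 := by
      rcases mul_eq_zero.mp e with h | h
      · linarith
      · exact h
    nlinarith [mul_pos u0 (by linarith : 0 < p.k - 1 / 2)]
  · -- 1 2
    have e : p.L * (u * (p.r / 2 - p.σ) + t * p.σ) = 0 := by linear_combination him
    have e' : u * (p.r / 2 - p.σ) + t * p.σ = 0 := by
      rcases mul_eq_zero.mp e with h | h
      · linarith
      · exact h
    nlinarith [mul_pos u0 (by linarith : 0 < p.r / 2 - p.σ), mul_nonneg h0 hσ.le]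
  · -- 1 3
    have e : p.L * (p.k - 1 / 2) * ((1 - u) - (1 - t) * (1 - p.t0)) = 0 := by
      linear_combination -hre
    have e' : (1 - u) = (1 - t) * (1 - p.t0) := by
      rcases mul_eq_zero.mp e with h | h
      · have : 0 < p.L * (p.k - 1 / 2) := mul_pos hL0 (by linarith)
        linarith
      · linarith
    have f : p.L * ((1 - u) * (p.r / 2 - p.σ) - (1 - t) * (p.r / 2)) = 0 := by
      linear_combination -him
    have f' : (1 - u) * (p.r / 2 - p.σ) = (1 - t) * (p.r / 2) := by
      rcases mul_eq_zero.mp f with h | h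
      · linarith
      · linarith
    have h3 : 0 < 1 - t := by
      by_contra hc
      push Not at hc
      have : t = 1 := by linarith
      rw [this] at e'
      linarith
    rw [e'] at f'
    have f'' : (1 - p.t0) * (p.r / 2 - p.σ) = p.r / 2 := by
      have : (1 - t) * ((1 - p.t0) * (p.r / 2 - p.σ)) = (1 - t) * (p.r / 2) := by
        rw [← f']; ring
      exact mul_left_cancel₀ h3.ne' this
    nlinarith [mul_pos ht0 (by linarith : 0 < p.r / 2 - p.σ)]
  · -- 2 0
    have e : p.L * (t * (-(3 + 3 * p.k)) - u * (p.t0 * (p.k - 1 / 2))) = 0 := by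
      linear_combination -hre
    have e' : t * (-(3 + 3 * p.k)) - u * (p.t0 * (p.k - 1 / 2)) = 0 := by
      rcases mul_eq_zero.mp e with h | h
      · linarith
      · exact h
    nlinarith [mul_pos u0 hq]
  · -- 2 1
    have e : p.L * (t * (p.r / 2 - p.σ) + u * p.σ) = 0 := by linear_combination -him
    have e' : t * (p.r / 2 - p.σ) + u * p.σ = 0 := by
      rcases mul_eq_zero.mp e with h | h
      · linarith
      · exact h
    nlinarith [mul_nonneg h0 (by linarith : 0 ≤ p.r / 2 - p.σ), mul_pos u0 hσ]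
  · -- 2 3
    have e : p.L * ((1 - u) * (p.t0 * (p.k - 1 / 2)) + t * ((1 - p.t0) * (p.k - 1 / 2))) = 0 := by
      linear_combination -hre
    have e' : (1 - u) * (p.t0 * (p.k - 1 / 2)) + t * ((1 - p.t0) * (p.k - 1 / 2)) = 0 := by
      rcases mul_eq_zero.mp e with h | h
      · linarith
      · exact h
    nlinarith [mul_pos (by linarith : 0 < 1 - u) hq, mul_nonneg h0 hq'.le]
  · -- 3 0
    have e : p.L * (t * (-(3 + 3 * p.k)) - p.t0 * (p.k - 1 / 2) - u * ((1 - p.t0) * (p.k - 1 / 2))) = 0 := by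
      linear_combination -hre
    have e' : t * (-(3 + 3 * p.k)) - p.t0 * (p.k - 1 / 2) - u * ((1 - p.t0) * (p.k - 1 / 2)) = 0 := by
      rcases mul_eq_zero.mp e with h | h
      · linarith
      · exact h
    nlinarith [mul_pos u0 hq']
  · -- 3 1
    have e : p.L * (p.k - 1 / 2) * ((1 - t) - (1 - u) * (1 - p.t0)) = 0 := by
      linear_combination hre
    have e' : (1 - t) = (1 - u) * (1 - p.t0) := by
      rcases mul_eq_zero.mp e with h | h
      · have : 0 < p.L * (p.k - 1 / 2) := mul_pos hL0 (by linarith)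
        linarith
      · linarith
    have f : p.L * ((1 - t) * (p.r / 2 - p.σ) - (1 - u) * (p.r / 2)) = 0 := by
      linear_combination him
    have f' : (1 - t) * (p.r / 2 - p.σ) = (1 - u) * (p.r / 2) := by
      rcases mul_eq_zero.mp f with h | h
      · linarith
      · linarith
    have h3 : 0 < 1 - u := by linarith
    rw [e'] at f'
    have f'' : (1 - p.t0) * (p.r / 2 - p.σ) = p.r / 2 := by
      have : (1 - u) * ((1 - p.t0) * (p.r / 2 - p.σ)) = (1 - u) * (p.r / 2) := by
        rw [← f']; ring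
      exact mul_left_cancel₀ h3.ne' this
    nlinarith [mul_pos ht0 (by linarith : 0 < p.r / 2 - p.σ)]
  · -- 3 2
    have e : p.L * ((1 - t) * (p.t0 * (p.k - 1 / 2)) + u * ((1 - p.t0) * (p.k - 1 / 2))) = 0 := by
      linear_combination hre
    have e' : (1 - t) * (p.t0 * (p.k - 1 / 2)) + u * ((1 - p.t0) * (p.k - 1 / 2)) = 0 := by
      rcases mul_eq_zero.mp e with h | h
      · linarith
      · exact h
    nlinarith [mul_nonneg (by linarith : 0 ≤ 1 - t) hq.le, mul_pos u0 hq']

end Par

end Pool.Agent.X154.Cone
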