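import Pool.Agent.X154.ConeE

set_option autoImplicit false

namespace Pool.Agent.X154.Cone

open Set Filter Topology
open scoped ComplexConjugate

theorem seg_zero (a b : ℂ) : seg a b 0 = a := by simp [seg]
theorem seg_one (a b : ℂ) : seg a b 1 = b := by simp [seg]

theorem vel_zero (β : ℝ) (a b : ℂ) : vel β a b 0 = (F β a / (β * a)) * (b - a) := by
  unfold vel
  rw [seg_zero]
  ring

theorem vel_one (β : ℝ) (a b : ℂ) : vel β a b 1 = (F β b / (β * b)) * (b - a) := by
  unfold vel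
  rw [seg_one]
  ring

namespace Par

variable (p : Par)

noncomputable def d1 : ℂ := ⟨-p.c, p.s⟩
noncomputable def d3 : ℂ := ⟨(p.c + p.r * p.s) / 2, (p.r * p.c - p.s) / 2⟩
noncomputable def d2 : ℂ := ⟨(p.c - p.r * p.s) / 2, -(p.r * p.c + p.s) / 2⟩

theorem norm_one_of {z : ℂ} (h : z.re ^ 2 + z.im ^ 2 = 1) : ‖z‖ = 1 := by
  have h1 : ‖z‖ ^ 2 = 1 := by
    rw [← Complex.normSq_eq_norm_sq, Complex.normSq_apply]
    nlinarith
  have h2 := norm_nonneg z
  nlinarith

theorem norm_d1 : ‖p.d1‖ = 1 := norm_one_of (by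
  have := p.cs
  simp only [d1]
  nlinarith)

theorem norm_d3 : ‖p.d3‖ = 1 := norm_one_of (by
  have h1 := p.cs; have h2 := p.r3
  simp only [d3]
  calc ((p.c + p.r * p.s) / 2) ^ 2 + ((p.r * p.c - p.s) / 2) ^ 2 =
      (1 + p.r ^ 2) / 4 * (p.c ^ 2 + p.s ^ 2) := by ring
    _ = 1 := by rw [h1, h2]; norm_num)

theorem norm_d2 : ‖p.d2‖ = 1 := norm_one_of (by
  have h1 := p.cs; have h2 := p.r3
  simp only [d2]
  calc ((p.c - p.r * p.s) / 2) ^ 2 + (-(p.r * p.c + p.s) / 2) ^ 2 =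
      (1 + p.r ^ 2) / 4 * (p.c ^ 2 + p.s ^ 2) := by ring
    _ = 1 := by rw [h1, h2]; norm_num)

theorem sum_d : p.d1 + p.d3 + p.d2 = 0 := by
  apply Complex.ext
  · simp only [d1, d2, d3, Complex.add_re, Complex.zero_re]; ring
  · simp only [d1, d2, d3, Complex.add_im, Complex.zero_im]; ring

theorem AP : p.A - p.P = ((6 * p.L * p.c : ℝ) : ℂ) * p.d1 := by
  have h1 := p.cs
  apply Complex.ext
  · rw [Complex.re_ofReal_mul, Complex.sub_re]
    simp only [A, P, d1, k, σ]
    linear_combination 3 * p.L * h1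
  · rw [Complex.im_ofReal_mul, Complex.sub_im]
    simp only [A, P, d1, k, σ]
    ring

theorem BP : p.B - p.P = ((p.L * (p.c - p.r * p.s) : ℝ) : ℂ) * p.d3 := by
  have h1 := p.cs; have h2 := p.r3
  apply Complex.ext
  · rw [Complex.re_ofReal_mul, Complex.sub_re]
    simp only [B, P, d3, k, σ]
    linear_combination ((1 / 2) * p.L) * h1 + (1 / 2 * p.L * p.s ^ 2) * h2
  · rw [Complex.im_ofReal_mul, Complex.sub_im]
    simp only [B, P, d3, k, σ]
    linear_combination (-(1 / 2) * p.L * p.r) * h1 + (1 / 2 * p.L * p.s * p.c) * h2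

theorem XP : p.X - p.P = ((p.t0 * p.L * (p.c + p.r * p.s) : ℝ) : ℂ) * p.d2 := by
  have h1 := p.cs; have h2 := p.r3; have h3 := p.t0_eq
  apply Complex.ext
  · rw [Complex.re_ofReal_mul, Complex.sub_re]
    simp only [X, x0, P, d2, k, σ]
    linear_combination ((1 / 2) * p.L * p.t0) * h1 + (1 / 2 * p.L * p.t0 * p.s ^ 2) * h2
  · rw [Complex.im_ofReal_mul, Complex.sub_im]
    simp only [σ] at h3
    simp only [X, P, d2, σ]
    linear_combination (p.L) * h3 + (1 / 2 * p.L * p.r * p.t0) * h1 +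
      (1 / 2 * p.L * p.s * p.c * p.t0) * h2

theorem BX : p.B - p.X = (((1 - p.t0) * p.L * (p.c + p.r * p.s) : ℝ) : ℂ) * conj p.d2 := by
  have h1 := p.cs; have h2 := p.r3; have h3 := p.t0_eq
  apply Complex.ext
  · rw [Complex.re_ofReal_mul, Complex.sub_re, Complex.conj_re]
    simp only [B, X, x0, d2, k]
    linear_combination ((1 / 2) * p.L * (1 - p.t0)) * h1 +
      (1 / 2 * p.L * (1 - p.t0) * p.s ^ 2) * h2
  · rw [Complex.im_ofReal_mul, Complex.sub_im, Complex.conj_im]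
    simp only [σ] at h3
    simp only [B, X, d2]
    linear_combination (p.L) * h3 + (1 / 2 * p.L * p.r * (p.t0 - 1)) * h1 +
      (1 / 2 * p.L * p.s * p.c * (p.t0 - 1)) * h2

theorem crs : 0 < p.c + p.r * p.s := by
  have := p.c0; have := p.r0; have := p.s0; positivity

/-- the cone parameter -/
noncomputable def α : ℝ := 2 * p.ψ
noncomputable def β : ℝ := 1 - p.α / Real.pi

theorem k_eq : p.k = Real.cos p.α := by
  unfold k α
  rw [p.hc, p.hs, Real.cos_two_mul']

theorem σ_eq : p.σ = Real.sin p.α := by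
  unfold σ α
  rw [p.hc, p.hs, Real.sin_two_mul]

theorem αβ : p.β * Real.pi = Real.pi - p.α := by
  have := Real.pi_pos
  unfold β
  field_simp

/-- the angle is in the range we need -/
structure Good (p : Par) : Prop where
  ψ0 : 0 < p.ψ
  ψ1 : p.ψ < Real.pi / 6

variable {p} (g : p.Good)
include g

theorem Good.α0 : 0 < p.α := by
  have := g.ψ0
  unfold α; linarith

theorem Good.α1 : p.α < Real.pi := by
  have := g.ψ1; have := Real.pi_pos
  unfold α; linarith

theorem Good.β0 : 0 < p.β := by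
  have := g.α1; have hp := Real.pi_pos
  unfold β
  have : p.α / Real.pi < 1 := by rw [div_lt_one hp]; exact this
  linarith

theorem Good.sec (i : Fin 4) (t : ℝ) (ht : t ∈ Icc (0 : ℝ) 1) : Sec p.α (seg (p.ea i) (p.eb i) t) := by
  obtain ⟨h1, h2, h3⟩ := p.edge_mem i t ht
  refine ⟨?_, h1, ?_⟩
  · intro h0
    rw [h0, norm_zero] at h3
    linarith
  · rw [← p.σ_eq, ← p.k_eq]
    exact h2

theorem Good.secP : Sec p.α p.P := by
  have := g.sec 0 0 ⟨le_rfl, zero_le_one⟩
  rwa [seg_zero] at this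

theorem Good.secX : Sec p.α p.X := by
  have := g.sec 2 1 ⟨zero_le_one, le_rfl⟩
  rwa [seg_one] at this

theorem Good.secA : Sec p.α p.A := by
  have := g.sec 0 1 ⟨zero_le_one, le_rfl⟩
  rwa [seg_one] at this

theorem Good.secB : Sec p.α p.B := by
  have := g.sec 1 1 ⟨zero_le_one, le_rfl⟩
  rwa [seg_one] at this

/-- the curves in the closed upper half plane -/
theorem Good.inj {w w' : ℂ} (h : Sec p.α w) (h' : Sec p.α w') (he : F p.β w = F p.β w') : w = w' :=
  F_inj g.α0 g.α1 g.β0 p.αβ h h' he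

theorem Good.im_int (i : Fin 4) (t : ℝ) (ht : t ∈ Ioo (0 : ℝ) 1) :
    0 < (F p.β (seg (p.ea i) (p.eb i) t)).im := by
  obtain ⟨h1, h2⟩ := p.edge_int i t ht
  rw [p.σ_eq, p.k_eq] at h2
  exact F_im_pos g.α0 g.α1 g.β0 p.αβ h1 h2

theorem Good.im_cl (i : Fin 4) (t : ℝ) (ht : t ∈ Icc (0 : ℝ) 1) :
    0 ≤ (F p.β (seg (p.ea i) (p.eb i) t)).im :=
  F_im_nonneg g.α0 g.α1 g.β0 p.αβ (g.sec i t ht)

theorem Good.imA : (F p.β p.A).im = 0 := by
  have hL := p.L1
  apply F_real_left g.α0 g.α1 g.β0 p.αβ (r := 4 * p.L) (by linarith)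
  rw [← p.k_eq, ← p.σ_eq]
  rfl

omit g in
theorem x0_pos : 0 < p.x0 := by
  have hL := p.L1; have hk := p.khalf; have hk1 := p.k1
  have ht0 := p.t00
  unfold x0
  have : 0 ≤ p.t0 * (p.k - 1 / 2) := mul_nonneg ht0.le (by linarith)
  have h2 : 0 < 3 - p.k + p.t0 * (p.k - 1 / 2) := by linarith
  have h3 : 0 < p.L := by linarith
  positivity

omit g in
theorem X_eq : p.X = (p.x0 : ℂ) := rfl

theorem Good.imX : (F p.β p.X).im = 0 := by
  rw [X_eq]
  exact F_real_right x0_pos

theorem Good.imP : 0 < (F p.β p.P).im := by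
  have hL := p.L1; have hσ := p.σ0; have hk := p.khalf; have hk1 := p.k1
  have h0 : 0 < p.L * p.σ := by have : 0 < p.L := by linarith
                                positivity
  have h1 : 0 < p.P.im := h0
  apply F_im_pos g.α0 g.α1 g.β0 p.αβ h1
  rw [← p.k_eq, ← p.σ_eq]
  have h2 : 0 < p.P.re := by
    change 0 < p.L * (3 - p.k)
    apply mul_pos <;> linarith
  have h3 : 0 < p.σ * p.P.re := mul_pos hσ h2
  have h4 : 0 < p.k * p.P.im := mul_pos (by linarith) h1
  linarith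

theorem Good.imB : 0 < (F p.β p.B).im := by
  have hL := p.L1; have hσ := p.σ0; have hk := p.khalf; have hk1 := p.k1; have hr := p.r0
  have h0 : 0 < p.L * (p.r / 2) := by have : 0 < p.L := by linarith
                                      positivity
  have h1 : 0 < p.B.im := h0
  apply F_im_pos g.α0 g.α1 g.β0 p.αβ h1
  rw [← p.k_eq, ← p.σ_eq]
  have h2 : 0 < p.B.re := by
    change 0 < p.L * (5 / 2)
    apply mul_pos <;> linarith
  have h3 : 0 < p.σ * p.B.re := mul_pos hσ h2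
  have h4 : 0 < p.k * p.B.im := mul_pos (by linarith) h1
  linarith

end Par

end Pool.Agent.X154.Cone
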