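import Pool.Agent.X154.ConeG

set_option autoImplicit false

namespace Pool.Agent.X154.Cone

open Set Filter Topology
open scoped ComplexConjugate

namespace Par

variable (p : Par)

/-- is the edge in the lower half plane -/
def lo : Fin 8 → Bool := ![false, false, false, false, true, true, true, true]
/-- its type -/
def ix : Fin 8 → Fin 4 := ![0, 1, 2, 3, 0, 1, 2, 3]
def src : Fin 8 → Fin 6 := ![3, 3, 3, 5, 4, 4, 4, 5]
def tgt : Fin 8 → Fin 6 := ![0, 2, 5, 2, 0, 1, 5, 1]

/-- curve in the upper half plane -/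
noncomputable def G (i : Fin 4) (t : ℝ) : ℂ := F p.β (seg (p.ea i) (p.eb i) t)
noncomputable def W (i : Fin 4) (t : ℝ) : ℂ := vel p.β (p.ea i) (p.eb i) t

noncomputable def cc (e : Fin 8) (t : ℝ) : ℂ := if lo e then conj (p.G (ix e) t) else p.G (ix e) t
noncomputable def vv (e : Fin 8) (t : ℝ) : ℂ := if lo e then conj (p.W (ix e) t) else p.W (ix e) t

noncomputable def pos : Fin 6 → ℂ :=
  ![F p.β p.A, conj (F p.β p.B), F p.β p.B, F p.β p.P, conj (F p.β p.P), F p.β p.X]

variable {p} (g : p.Good)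
include g

theorem Good.conjA : conj (F p.β p.A) = F p.β p.A := Complex.conj_eq_iff_im.mpr g.imA
theorem Good.conjX : conj (F p.β p.X) = F p.β p.X := Complex.conj_eq_iff_im.mpr g.imX

theorem Good.AX : F p.β p.A ≠ F p.β p.X := by
  intro h
  have h1 := congrArg Complex.im (g.inj g.secA g.secX h)
  have hσ := p.σ0; have hL := p.L1
  simp only [A, X] at h1
  nlinarith

theorem Good.BP' : F p.β p.B ≠ F p.β p.P := by
  intro h
  have h1 := g.inj g.secB g.secP h
  exact p.edge_ne 1 h1.symm

theorem Good.pos_inj : Function.Injective p.pos := by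
  have hA := g.imA; have hX := g.imX; have hP := g.imP; have hB := g.imB
  have hAX := g.AX; have hBP := g.BP'
  have cB : (conj (F p.β p.B)).im = -(F p.β p.B).im := Complex.conj_im _
  have cP : (conj (F p.β p.P)).im = -(F p.β p.P).im := Complex.conj_im _
  have key : ∀ a b : Fin 6, a < b → p.pos a ≠ p.pos b := by
    intro a b hab h
    have him := congrArg Complex.im h
    fin_cases a <;> fin_cases b <;>
      first
      | exact absurd hab (by decide)
      | exact hAX h
      | exact hBP h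
      | exact hBP ((starRingEnd ℂ).injective h)
      | (simp only [pos, Matrix.cons_val_zero, Matrix.cons_val_one, Matrix.cons_val, Fin.zero_eta,
          Fin.mk_one, Fin.reduceFinMk, cB, cP, hA, hX] at him
         linarith)
  intro a b h
  rcases lt_trichotomy a b with h1 | h1 | h1
  · exact absurd h (key a b h1)
  · exact h1
  · exact absurd h.symm (key b a h1)

theorem Good.geod (e : Fin 8) : IsGeodesic (uu p.β) (p.cc e) (p.vv e) := by
  have hs : ∀ i, ∀ t ∈ Icc (0 : ℝ) 1, seg (p.ea i) (p.eb i) t ∈ Complex.slitPlane ∧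
      1 < ‖seg (p.ea i) (p.eb i) t‖ := fun i t ht =>
    ⟨(g.sec i t ht).slit g.α0 g.α1, (p.edge_mem i t ht).2.2⟩
  cases hlo : lo e
  · have h1 : p.cc e = fun t => F p.β (seg (p.ea (ix e)) (p.eb (ix e)) t) := by
      ext t; simp [cc, hlo, G]
    have h2 : p.vv e = vel p.β (p.ea (ix e)) (p.eb (ix e)) := by
      ext t; simp [vv, hlo, W]
    rw [h1, h2]
    exact geodesic_seg g.β0 (p.edge_ne _) (hs _)
  · have h1 : p.cc e = fun t => conj (F p.β (seg (p.ea (ix e)) (p.eb (ix e)) t)) := by
      ext t; simp [cc, hlo, G]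
    have h2 : p.vv e = fun t => conj (vel p.β (p.ea (ix e)) (p.eb (ix e)) t) := by
      ext t; simp [vv, hlo, W]
    rw [h1, h2]
    exact geodesic_seg_conj g.β0 (p.edge_ne _) (hs _)

theorem Good.start (e : Fin 8) : p.cc e 0 = p.pos (src e) := by
  unfold cc G
  rw [seg_zero]
  fin_cases e
  · rfl
  · rfl
  · rfl
  · rfl
  · rfl
  · rfl
  · rfl
  · exact g.conjX

theorem Good.finish (e : Fin 8) : p.cc e 1 = p.pos (tgt e) := by
  unfold cc G
  rw [seg_one]
  fin_cases e
  · rfl
  · rfl
  · rfl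
  · rfl
  · exact g.conjA
  · rfl
  · exact g.conjX
  · rfl

/-- sign of the imaginary part in the interior of an edge -/
theorem Good.cc_im (e : Fin 8) (t : ℝ) (ht : t ∈ Ioo (0 : ℝ) 1) :
    (lo e = false → 0 < (p.cc e t).im) ∧ (lo e = true → (p.cc e t).im < 0) := by
  have := g.im_int (ix e) t ht
  constructor
  · intro h
    simp only [cc, h, G]
    exact this
  · intro h
    simp only [cc, h, G, if_true, Complex.conj_im]
    linarith

theorem Good.cc_im' (e : Fin 8) (t : ℝ) (ht : t ∈ Icc (0 : ℝ) 1) :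
    (lo e = false → 0 ≤ (p.cc e t).im) ∧ (lo e = true → (p.cc e t).im ≤ 0) := by
  have := g.im_cl (ix e) t ht
  constructor
  · intro h
    simp only [cc, h, G]
    exact this
  · intro h
    simp only [cc, h, G, if_true, Complex.conj_im]
    linarith

theorem Good.selfinj (e : Fin 8) (s : ℝ) (hs : s ∈ Ioo (0 : ℝ) 1) (t : ℝ) (ht : t ∈ Icc (0 : ℝ) 1)
    (h : p.cc e s = p.cc e t) : s = t := by
  have h1 : p.G (ix e) s = p.G (ix e) t := by
    cases hlo : lo e
    · simpa [cc, hlo] using h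
    · apply (starRingEnd ℂ).injective
      simpa only [cc, hlo, if_true] using h
  have h2 := g.inj (g.sec (ix e) s (Ioo_subset_Icc_self hs)) (g.sec (ix e) t ht) h1
  have h3 : ((s : ℂ) - t) * (p.eb (ix e) - p.ea (ix e)) = 0 := by
    unfold seg at h2
    linear_combination h2
  rcases mul_eq_zero.mp h3 with h4 | h4
  · have h5 : (s : ℂ) = t := sub_eq_zero.mp h4
    exact_mod_cast h5
  · exact absurd (sub_eq_zero.mp h4).symm (p.edge_ne _)

theorem Good.disj (e f : Fin 8) (hef : e ≠ f) (s : ℝ) (hs : s ∈ Ioo (0 : ℝ) 1) (t : ℝ)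
    (ht : t ∈ Icc (0 : ℝ) 1) : p.cc e s ≠ p.cc f t := by
  intro h
  have h1 := g.cc_im e s hs
  have h2 := g.cc_im' f t ht
  have key : ∀ e f : Fin 8, e ≠ f → lo e = lo f → ix e ≠ ix f := by decide
  cases hle : lo e <;> cases hlf : lo f
  · have h3 : p.G (ix e) s = p.G (ix f) t := by simpa [cc, hle, hlf] using h
    exact p.edge_disj _ _ (key e f hef (by rw [hle, hlf])) s hs t ht
      (g.inj (g.sec _ s (Ioo_subset_Icc_self hs)) (g.sec _ t ht) h3)
  · have h3 := h1.1 hle
    have h4 := h2.2 hlf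
    rw [h] at h3
    linarith
  · have h3 := h1.2 hle
    have h4 := h2.1 hlf
    rw [h] at h3
    linarith
  · have h3 : p.G (ix e) s = p.G (ix f) t := by
      apply (starRingEnd ℂ).injective
      simpa only [cc, hle, hlf, if_true] using h
    exact p.edge_disj _ _ (key e f hef (by rw [hle, hlf])) s hs t ht
      (g.inj (g.sec _ s (Ioo_subset_Icc_self hs)) (g.sec _ t ht) h3)

theorem Good.avoid (e : Fin 8) (s : ℝ) (hs : s ∈ Ioo (0 : ℝ) 1) (q : Fin 6) : p.cc e s ≠ p.pos q := by
  have key : ∀ q : Fin 6, ∀ e : Fin 8, ∃ f, f ≠ e ∧ (src f = q ∨ tgt f = q) := by decide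
  obtain ⟨f, hf, h | h⟩ := key q e
  · rw [← h, ← g.start f]
    exact g.disj e f hf.symm s hs 0 ⟨le_rfl, zero_le_one⟩
  · rw [← h, ← g.finish f]
    exact g.disj e f hf.symm s hs 1 ⟨zero_le_one, le_rfl⟩

end Par

end Pool.Agent.X154.Cone
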