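import Pool.Agent.X154.ConeH

set_option autoImplicit false

namespace Pool.Agent.X154.Cone

open Set Filter Topology
open scoped ComplexConjugate

namespace Par

variable {p : Par} (g : p.Good)

theorem unitVec_neg (u : ℂ → ℝ) (z v : ℂ) : unitVec u z (-v) = -unitVec u z v := by
  unfold unitVec
  rw [norm_neg]; ring

noncomputable def KK (p : Par) (w : ℂ) : ℂ :=
  (((Real.exp (uu p.β (F p.β w)) * ‖F p.β w / (p.β * w)‖)⁻¹ : ℝ) : ℂ) * (F p.β w / (p.β * w))

theorem UA : unitVec (uu p.β) (F p.β p.P) (p.W 0 0) = KK p p.P * p.d1 := by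
  have h : p.W 0 0 = (F p.β p.P / (p.β * p.P)) * (p.A - p.P) := vel_zero _ _ _
  rw [h, p.AP, unitVec_mul _ _ _ _ (by have := p.c0; have := p.L1; positivity) p.norm_d1]
  rfl

theorem UB : unitVec (uu p.β) (F p.β p.P) (p.W 1 0) = KK p p.P * p.d3 := by
  have h : p.W 1 0 = (F p.β p.P / (p.β * p.P)) * (p.B - p.P) := vel_zero _ _ _
  rw [h, p.BP, unitVec_mul _ _ _ _ (by have := p.d0; have := p.L1; positivity) p.norm_d3]
  rfl

theorem UX : unitVec (uu p.β) (F p.β p.P) (p.W 2 0) = KK p p.P * p.d2 := by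
  have h : p.W 2 0 = (F p.β p.P / (p.β * p.P)) * (p.X - p.P) := vel_zero _ _ _
  rw [h, p.XP, unitVec_mul _ _ _ _
    (by have := p.crs; have := p.L1; have := p.t00; positivity) p.norm_d2]
  rfl

theorem UXP : unitVec (uu p.β) (F p.β p.X) (-(p.W 2 1)) = - (KK p p.X * p.d2) := by
  have h : p.W 2 1 = (F p.β p.X / (p.β * p.X)) * (p.X - p.P) := vel_one _ _ _
  rw [unitVec_neg, h, p.XP, unitVec_mul _ _ _ _
    (by have := p.crs; have := p.L1; have := p.t00; positivity) p.norm_d2]
  rfl

theorem UXB : unitVec (uu p.β) (F p.β p.X) (p.W 3 0) = KK p p.X * conj p.d2 := by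
  have h : p.W 3 0 = (F p.β p.X / (p.β * p.X)) * (p.B - p.X) := vel_zero _ _ _
  rw [h, p.BX, unitVec_mul _ _ _ _
    (by have := p.crs; have := p.L1; have := p.t01
        have : 0 < 1 - p.t0 := by linarith
        positivity) (by rw [RCLike.norm_conj]; exact p.norm_d2)]
  rfl

include g in
theorem Good.KX : conj (KK p p.X) = KK p p.X := by
  unfold KK
  rw [map_mul, Complex.conj_ofReal]
  congr 1
  have hX : conj p.X = p.X := by rw [p.X_eq, Complex.conj_ofReal]
  rw [map_div₀, map_mul, Complex.conj_ofReal, g.conjX, hX]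

theorem sum_src (q : Fin 6) (f : Fin 8 → ℂ) (s : Fin 8 → Fin 6) :
    ∑ e ∈ Finset.univ.filter (fun e => s e = q), f e =
      ∑ e, if s e = q then f e else 0 := Finset.sum_filter _ _

include g in
theorem Good.bal (q : Fin 6) (hq : q ∉ ({0, 1, 2} : Finset (Fin 6))) :
    (∑ e ∈ Finset.univ.filter (fun e => src e = q), unitVec (uu p.β) (p.pos q) (p.vv e 0)) +
    (∑ e ∈ Finset.univ.filter (fun e => tgt e = q), unitVec (uu p.β) (p.pos q) (-(p.vv e 1))) = 0 := by
  have hsum := p.sum_d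
  have hq' : q = 3 ∨ q = 4 ∨ q = 5 := by revert q; decide
  rcases hq' with rfl | rfl | rfl
  · have e1 : Finset.univ.filter (fun e => src e = 3) = ({0, 1, 2} : Finset (Fin 8)) := by decide
    have e2 : Finset.univ.filter (fun e => tgt e = 3) = (∅ : Finset (Fin 8)) := by decide
    rw [e1, e2, Finset.sum_insert (by decide), Finset.sum_insert (by decide), Finset.sum_singleton,
      Finset.sum_empty]
    have hp : p.pos 3 = F p.β p.P := rfl
    have h0 : p.vv 0 0 = p.W 0 0 := rfl
    have h1 : p.vv 1 0 = p.W 1 0 := rfl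
    have h2 : p.vv 2 0 = p.W 2 0 := rfl
    rw [hp, h0, h1, h2, UA, UB, UX]
    linear_combination (KK p p.P) * hsum
  · have e1 : Finset.univ.filter (fun e => src e = 4) = ({4, 5, 6} : Finset (Fin 8)) := by decide
    have e2 : Finset.univ.filter (fun e => tgt e = 4) = (∅ : Finset (Fin 8)) := by decide
    rw [e1, e2, Finset.sum_insert (by decide), Finset.sum_insert (by decide), Finset.sum_singleton,
      Finset.sum_empty]
    have hp : p.pos 4 = conj (F p.β p.P) := rfl
    have h0 : p.vv 4 0 = conj (p.W 0 0) := rfl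
    have h1 : p.vv 5 0 = conj (p.W 1 0) := rfl
    have h2 : p.vv 6 0 = conj (p.W 2 0) := rfl
    rw [hp, h0, h1, h2, unitVec_conj _ _ (uu_conj _ _), unitVec_conj _ _ (uu_conj _ _),
      unitVec_conj _ _ (uu_conj _ _), UA, UB, UX]
    have h3 := congrArg conj hsum
    simp only [map_add, map_mul, map_zero] at h3 ⊢
    linear_combination (conj (KK p p.P)) * h3
  · have e1 : Finset.univ.filter (fun e => src e = 5) = ({3, 7} : Finset (Fin 8)) := by decide
    have e2 : Finset.univ.filter (fun e => tgt e = 5) = ({2, 6} : Finset (Fin 8)) := by decide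
    rw [e1, e2, Finset.sum_insert (by decide), Finset.sum_insert (by decide), Finset.sum_singleton,
      Finset.sum_singleton]
    have hp : p.pos 5 = F p.β p.X := rfl
    have h0 : p.vv 3 0 = p.W 3 0 := rfl
    have h1 : p.vv 7 0 = conj (p.W 3 0) := rfl
    have h2 : p.vv 2 1 = p.W 2 1 := rfl
    have h3 : p.vv 6 1 = conj (p.W 2 1) := rfl
    have k1 : unitVec (uu p.β) (F p.β p.X) (conj (p.W 3 0)) = conj (KK p p.X * conj p.d2) := by
      rw [← UXB, ← unitVec_conj _ _ (uu_conj _ _), g.conjX]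
    have k2 : unitVec (uu p.β) (F p.β p.X) (-conj (p.W 2 1)) = conj (-(KK p p.X * p.d2)) := by
      rw [← UXP, ← unitVec_conj _ _ (uu_conj _ _), g.conjX, map_neg]
    rw [hp, h0, h1, h2, h3, UXB, UXP, k1, k2, map_neg, map_mul, map_mul, g.KX, Complex.conj_conj]
    ring

/-- the net -/
noncomputable def Good.net : GeodesicNet (uu p.β) where
  n := 6
  m := 8
  pos := p.pos
  pos_inj := g.pos_inj
  unb := {0, 1, 2}
  src := src
  tgt := tgt
  c := p.cc
  v := p.vv
  geod := g.geod
  start := g.start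
  finish := g.finish
  inj := g.selfinj
  disj := g.disj
  avoid := g.avoid
  conn := by
    have h5 : ∀ q : Fin 6, Relation.ReflTransGen
        (fun a b => ∃ e : Fin 8, (src e = a ∧ tgt e = b) ∨ (src e = b ∧ tgt e = a)) q 5 := by
      have a3 : Relation.ReflTransGen
        (fun a b => ∃ e : Fin 8, (src e = a ∧ tgt e = b) ∨ (src e = b ∧ tgt e = a)) 3 5 :=
        Relation.ReflTransGen.single ⟨2, by decide⟩
      intro q
      have hq : q = 0 ∨ q = 1 ∨ q = 2 ∨ q = 3 ∨ q = 4 ∨ q = 5 := by revert q; decide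
      rcases hq with rfl | rfl | rfl | rfl | rfl | rfl
      · exact Relation.ReflTransGen.head ⟨0, by decide⟩ a3
      · exact Relation.ReflTransGen.single ⟨7, by decide⟩
      · exact Relation.ReflTransGen.head ⟨1, by decide⟩ a3
      · exact a3
      · exact Relation.ReflTransGen.single ⟨6, by decide⟩
      · exact Relation.ReflTransGen.refl
    intro a b
    refine (h5 a).trans ?_
    have := h5 b
    have hs : ∀ x y, Relation.ReflTransGen
        (fun a b => ∃ e : Fin 8, (src e = a ∧ tgt e = b) ∨ (src e = b ∧ tgt e = a)) x y →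
        Relation.ReflTransGen
        (fun a b => ∃ e : Fin 8, (src e = a ∧ tgt e = b) ∨ (src e = b ∧ tgt e = a)) y x := by
      intro x y h
      induction h with
      | refl => exact Relation.ReflTransGen.refl
      | tail _ h2 ih =>
        obtain ⟨e, h | h⟩ := h2
        · exact Relation.ReflTransGen.head ⟨e, Or.inr h⟩ ih
        · exact Relation.ReflTransGen.head ⟨e, Or.inl h⟩ ih
    exact hs _ _ this
  deg := by decide
  bal := g.bal
  noUU := by decide

theorem Good.net_simple : g.net.IsSimple := by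
  constructor
  · change ∀ e : Fin 8, src e ≠ tgt e
    decide
  · change ∀ e f : Fin 8, e ≠ f → s(src e, tgt e) ≠ s(src f, tgt f)
    decide

end Par

theorem exists_par {η : ℝ} (hη : 0 < η) : ∃ p : Par, p.Good ∧ 1 - p.β < η := by
  have hπ := Real.pi_pos
  set ψ := min (Real.pi / 12) (η * Real.pi / 4) with hψ
  have h0 : 0 < ψ := by positivity
  have h1 : ψ < Real.pi / 6 := lt_of_le_of_lt (min_le_left _ _) (by linarith)
  have h2 : ψ ≤ η * Real.pi / 4 := min_le_right _ _
  have hs : 0 < Real.sin ψ := Real.sin_pos_of_pos_of_lt_pi h0 (by linarith)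
  have hc : 0 < Real.cos ψ := Real.cos_pos_of_mem_Ioo ⟨by linarith, by linarith⟩
  have hr : 0 < √(3 : ℝ) := by positivity
  have hd : 0 < Real.cos ψ - √3 * Real.sin ψ := by
    have h3 : 0 < Real.sin (Real.pi / 6 - ψ) :=
      Real.sin_pos_of_pos_of_lt_pi (by linarith) (by linarith)
    rw [Real.sin_sub, Real.sin_pi_div_six, Real.cos_pi_div_six] at h3
    linarith
  refine ⟨⟨ψ, Real.cos ψ, Real.sin ψ, √3, 2 / (2 * Real.sin ψ * Real.cos ψ), rfl, rfl,
    Real.cos_sq_add_sin_sq ψ, hr, Real.sq_sqrt (by norm_num), hs, hc, hd, ?_⟩, ⟨h0, h1⟩, ?_⟩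
  · rw [div_mul_cancel₀ _ (by positivity)]
    norm_num
  · unfold Par.β Par.α
    simp only
    have : 2 * ψ / Real.pi ≤ η / 2 := by
      rw [div_le_iff₀ hπ]
      linarith
    linarith

theorem main {ε : ℝ} (hε : 0 < ε) : ∃ β : ℝ, posCurv (uu β) < ENNReal.ofReal ε ∧
    ∃ N : GeodesicNet (uu β), N.unb.card = 3 ∧ N.n = 6 ∧ N.IsSimple := by
  have hM := MM_lt
  obtain ⟨M, hM'⟩ : ∃ M : ℝ, 0 ≤ M ∧ MM = ENNReal.ofReal M :=
    ⟨MM.toReal, ENNReal.toReal_nonneg, (ENNReal.ofReal_toReal hM.ne).symm⟩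
  obtain ⟨hM0, hMe⟩ := hM'
  obtain ⟨p, g, hp⟩ := exists_par (η := ε / (M + 1)) (by positivity)
  have hβ : p.β ≤ 1 := by
    unfold Par.β
    have := g.α0
    have := Real.pi_pos
    have : 0 < p.α / Real.pi := by positivity
    linarith
  refine ⟨p.β, ?_, g.net, rfl, rfl, g.net_simple⟩
  rw [posCurv_uu hβ, hMe, ← ENNReal.ofReal_mul (by linarith)]
  rw [ENNReal.ofReal_lt_ofReal_iff hε]
  have h1 : (1 - p.β) * M ≤ (1 - p.β) * (M + 1) := by
    apply mul_le_mul_of_nonneg_left <;> linarith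
  have h2 : (1 - p.β) * (M + 1) < ε := by
    rw [lt_div_iff₀ (by linarith)] at hp
    exact hp
  linarith

end Pool.Agent.X154.Cone
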