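import Mathlib

set_option autoImplicit false

/-!
Smooth closed `1`-forms on a manifold (Mathlib's `ModelWithCorners` manifolds), the integral of a
`1`-form over a `C¹` circle map, and the scaled gap potential of a continuous circle map.
-/

namespace Pool.Agent.X154.Hur

open Set Real MeasureTheory
open scoped ContDiff Manifold ENNReal

section forms

variable {E : Type*} [NormedAddCommGroup E] [NormedSpace ℝ E]
  {H : Type*} [TopologicalSpace H] (𝓜 : ModelWithCorners ℝ E H)
  {N : Type*} [TopologicalSpace N] [ChartedSpace H N]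

/-- The `1`-form `α` (a continuous linear functional on each tangent space; in Mathlib the tangent
space at every point is a copy of the model space `E`) read in the preferred chart at `p`: its
pullback under the inverse of that chart, a function on (the target of the chart in) the model
space `E` with values in `E →L[ℝ] ℝ`. -/
noncomputable def chartForm (α : N → E →L[ℝ] ℝ) (p : N) (y : E) : E →L[ℝ] ℝ :=
  (α ((extChartAt 𝓜 p).symm y)).comp
    (mfderivWithin 𝓘(ℝ, E) 𝓜 (extChartAt 𝓜 p).symm (range 𝓜) y)

/-- The derivative at `y` in the direction `u` of the form `α` read in the preferred chart at `p`,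
applied to `v` (so `dα (u, v) = chartDeriv α p y u v - chartDeriv α p y v u` in this chart). -/
noncomputable def chartDeriv (α : N → E →L[ℝ] ℝ) (p : N) (y u v : E) : ℝ :=
  fderivWithin ℝ (chartForm 𝓜 α p) (extChartAt 𝓜 p).target y u v

/-- `α` is smooth: so is its expression in every preferred chart. -/
def IsSmoothForm (α : N → E →L[ℝ] ℝ) : Prop :=
  ∀ p : N, ContDiffOn ℝ ∞ (chartForm 𝓜 α p) (extChartAt 𝓜 p).target

/-- `α` is a smooth closed `1`-form: it is smooth and `dα = 0` in every preferred chart. -/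
def IsClosedForm (α : N → E →L[ℝ] ℝ) : Prop :=
  IsSmoothForm 𝓜 α ∧ ∀ p : N, ∀ y ∈ (extChartAt 𝓜 p).target, ∀ u v : E,
    chartDeriv 𝓜 α p y u v = chartDeriv 𝓜 α p y v u

variable (N) in
/-- The set of smooth closed `1`-forms on `N`. -/
def ClosedForm : Type _ := {α : N → E →L[ℝ] ℝ // IsClosedForm 𝓜 α}

/-- The velocity at `θ` of the curve `t ↦ g (e^{it})`. -/
noncomputable def velocity (g : C(Circle, N)) (θ : ℝ) : E :=
  mfderiv 𝓘(ℝ, ℝ) 𝓜 (fun t : ℝ => g (Circle.exp t)) θ (1 : ℝ)

/-- The integral over the circle of the pullback of the closed `1`-form `α` under `g`: the integral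
over `θ ∈ [0, 2π]` of `α` applied to the velocity of the curve `θ ↦ g (e^{iθ})`. -/
noncomputable def circleIntegral (g : C(Circle, N)) (α : ClosedForm 𝓜 N) : ℝ :=
  ∫ θ in (0 : ℝ)..(2 * π), α.1 (g (Circle.exp θ)) (velocity 𝓜 g θ)

/-- `g` is a `C¹` map from the circle to `N`. -/
def IsC1 (g : C(Circle, N)) : Prop := ContMDiff (𝓡 1) 𝓜 1 g

end forms

/-- The scaled gap potential of a continuous circle map, with the non-strict inequality
`d(f(e^{iφ}), f(e^{iθ})) ≥ ε`: the double arc-length integral of `ε / |e^{iφ} - e^{iθ}|²` over the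
pairs of such angles `θ, φ ∈ [0, 2π]`. -/
noncomputable def scaledGap {N : Type*} [PseudoEMetricSpace N] (ε : ℝ) (f : C(Circle, N)) : ℝ≥0∞ :=
  open Classical in
  ∫⁻ θ in Icc (0 : ℝ) (2 * π), ∫⁻ φ in Icc (0 : ℝ) (2 * π),
    if ENNReal.ofReal ε ≤ edist (f (Circle.exp φ)) (f (Circle.exp θ)) then
      ENNReal.ofReal (ε / ‖(Circle.exp φ : ℂ) - (Circle.exp θ : ℂ)‖ ^ 2) else 0

end Pool.Agent.X154.Hur
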