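import Mathlib

set_option autoImplicit false

/-! Locally constant torsors of local primitives, and global primitives along maps from simply
connected spaces. -/

namespace Pool.Agent.X154.Hur

open Set Topology Filter

/-- a system of local primitives on `Y`: `Loc q h` says that `h` is a primitive near `q` -/
structure LocSys (Y : Type*) [TopologicalSpace Y] where
  Loc : Y → (Y → ℝ) → Prop
  ex : ∀ q, ∃ h, Loc q h
  nh : ∀ q h, Loc q h → ∀ᶠ y in 𝓝 q, Loc y h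
  un : ∀ q h h', Loc q h → Loc q h' → ∀ᶠ y in 𝓝 q, h y - h q = h' y - h' q

/-- the reals with the discrete topology -/
def Rd : Type := ℝ

noncomputable instance : AddCommGroup Rd := inferInstanceAs (AddCommGroup ℝ)

instance : TopologicalSpace Rd := ⊥

instance : DiscreteTopology Rd := ⟨rfl⟩

variable {Y : Type*} [TopologicalSpace Y] (𝓛 : LocSys Y)

/-- chosen primitive near a point -/
noncomputable def hh (q : Y) : Y → ℝ := (𝓛.ex q).choose

theorem hh_spec (q : Y) : 𝓛.Loc q (hh 𝓛 q) := (𝓛.ex q).choose_spec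

/-- the open set where the chosen primitive is good -/
def bs (q : Y) : Set Y := interior {y | 𝓛.Loc y (hh 𝓛 q)}

theorem mem_bs (q : Y) : q ∈ bs 𝓛 q := by
  unfold bs
  rw [mem_interior_iff_mem_nhds]
  exact 𝓛.nh q _ (hh_spec 𝓛 q)

theorem loc_of_mem_bs {q y : Y} (h : y ∈ bs 𝓛 q) : 𝓛.Loc y (hh 𝓛 q) :=
  (interior_subset h : y ∈ {y | 𝓛.Loc y (hh 𝓛 q)})

/-- real number as a discrete real -/
def toRd (x : ℝ) : Rd := x

/-- discrete real as real -/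
def ofRd (x : Rd) : ℝ := x

theorem continuousOn_chg (i j : Y) :
    ContinuousOn (fun p : Y × Rd => p.2 + toRd (hh 𝓛 i p.1 - hh 𝓛 j p.1))
      ((bs 𝓛 i ∩ bs 𝓛 j) ×ˢ univ) := by
  rintro ⟨y, v⟩ ⟨⟨hi, hj⟩, -⟩
  apply ContinuousAt.continuousWithinAt
  have h1 := 𝓛.un y _ _ (loc_of_mem_bs 𝓛 hi) (loc_of_mem_bs 𝓛 hj)
  have h2 : ∀ᶠ p : Y × Rd in 𝓝 (y, v), p.2 + toRd (hh 𝓛 i p.1 - hh 𝓛 j p.1) =
      v + toRd (hh 𝓛 i y - hh 𝓛 j y) := by
    rw [nhds_prod_eq, nhds_discrete Rd]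
    have h3 : ∀ᶠ p : Y × Rd in 𝓝 y ×ˢ pure v,
        (hh 𝓛 i p.1 - hh 𝓛 i y = hh 𝓛 j p.1 - hh 𝓛 j y) ∧ p.2 = v :=
      Filter.Eventually.prod_mk (pa := fun x : Y => hh 𝓛 i x - hh 𝓛 i y = hh 𝓛 j x - hh 𝓛 j y)
        (pb := fun x : Rd => x = v) h1 (Filter.eventually_pure.mpr rfl)
    refine h3.mono ?_
    rintro p ⟨h4, h5⟩
    rw [h5]
    congr 2
    linarith
  exact (continuousAt_const (y := v + toRd (hh 𝓛 i y - hh 𝓛 j y))).congr
    (h2.mono fun _ h => h.symm)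

/-- the bundle of primitives -/
noncomputable def ZZ : FiberBundleCore Y Y Rd where
  baseSet := bs 𝓛
  isOpen_baseSet i := isOpen_interior
  indexAt := id
  mem_baseSet_at := mem_bs 𝓛
  coordChange i j b x := x + toRd (hh 𝓛 i b - hh 𝓛 j b)
  coordChange_self i x hx v := by
    have : toRd (hh 𝓛 i x - hh 𝓛 i x) = 0 := sub_self _
    rw [this, add_zero]
  continuousOn_coordChange := continuousOn_chg 𝓛
  coordChange_comp i j k x hx v := by
    rw [add_assoc]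
    congr 1
    change (hh 𝓛 i x - hh 𝓛 j x) + (hh 𝓛 j x - hh 𝓛 k x) = (hh 𝓛 i x - hh 𝓛 k x : ℝ)
    ring

/-- `F` is a primitive along `φ` -/
def Prim {X : Type*} [TopologicalSpace X] (φ : X → Y) (F : X → ℝ) : Prop :=
  ∀ x, ∃ h, 𝓛.Loc (φ x) h ∧ ∀ᶠ y in 𝓝 x, F y - F x = h (φ y) - h (φ x)

variable {𝓛}

theorem Prim.of_loc {X : Type*} [TopologicalSpace X] {φ : X → Y} {F : X → ℝ} (H : Prim 𝓛 φ F)
    (hφ : Continuous φ) (x : X) {h : Y → ℝ} (hh : 𝓛.Loc (φ x) h) :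
    ∀ᶠ y in 𝓝 x, F y - F x = h (φ y) - h (φ x) := by
  obtain ⟨h', h1, h2⟩ := H x
  filter_upwards [h2, hφ.continuousAt.eventually (𝓛.un _ _ _ hh h1)] with y h3 h4
  rw [h3, h4]

theorem Prim.comp {X Z : Type*} [TopologicalSpace X] [TopologicalSpace Z] {φ : X → Y} {F : X → ℝ}
    (H : Prim 𝓛 φ F) {ψ : Z → X} (hψ : Continuous ψ) : Prim 𝓛 (φ ∘ ψ) (F ∘ ψ) := by
  intro z
  obtain ⟨h, h1, h2⟩ := H (ψ z)
  exact ⟨h, h1, hψ.continuousAt.eventually h2⟩

theorem Prim.add_const {X : Type*} [TopologicalSpace X] {φ : X → Y} {F : X → ℝ} (H : Prim 𝓛 φ F)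
    (c : ℝ) : Prim 𝓛 φ (fun x => F x + c) := by
  intro x
  obtain ⟨h, h1, h2⟩ := H x
  exact ⟨h, h1, h2.mono fun y hy => by linarith⟩

theorem Prim.unique {X : Type*} [TopologicalSpace X] [PreconnectedSpace X] {φ : X → Y}
    (hφ : Continuous φ) {F G : X → ℝ} (hF : Prim 𝓛 φ F) (hG : Prim 𝓛 φ G) (x y : X) :
    F x - F y = G x - G y := by
  have h1 : IsLocallyConstant (fun x => F x - G x) := by
    rw [IsLocallyConstant.iff_eventually_eq]
    intro z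
    obtain ⟨h, h1, h2⟩ := hF z
    filter_upwards [h2, hG.of_loc hφ z h1] with w h3 h4
    linarith
  have h2 := h1.apply_eq_of_preconnectedSpace x y
  linarith

theorem exists_prim {X : Type*} [TopologicalSpace X] [SimplyConnectedSpace X]
    [LocallyPathConnectedSpace X] (φ : C(X, Y)) : ∃ F : X → ℝ, Prim 𝓛 φ F := by
  have cov : IsCoveringMap (Bundle.TotalSpace.proj : Bundle.TotalSpace Rd (ZZ 𝓛).Fiber → Y) :=
    FiberBundle.isCoveringMap
  obtain ⟨x0⟩ : Nonempty X := inferInstance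
  obtain ⟨Φ, ⟨-, hΦ⟩, -⟩ := cov.existsUnique_continuousMap_lifts φ x0 ⟨φ x0, toRd 0⟩ rfl
  have hΦ' : ∀ x, (Φ x).proj = φ x := fun x => congrFun hΦ x
  refine ⟨fun x => hh 𝓛 (φ x) (φ x) + ofRd (Φ x).2, fun x => ⟨hh 𝓛 (φ x), hh_spec 𝓛 _, ?_⟩⟩
  -- coordinate in the trivialization at `φ x`
  set i := φ x with hi
  have hc : ContinuousAt (fun z : Bundle.TotalSpace Rd (ZZ 𝓛).Fiber => ((ZZ 𝓛).localTriv i z).2)
      (Φ x) := by
    apply continuousAt_snd.comp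
    apply ((ZZ 𝓛).localTriv i).continuousAt
    rw [FiberBundleCore.mem_localTriv_source, ← FiberBundleCore.baseSet_at, hΦ']
    exact mem_bs 𝓛 _
  have hc2 : ContinuousAt (fun z => ((ZZ 𝓛).localTriv i (Φ z)).2) x :=
    ContinuousAt.comp (f := Φ) hc Φ.continuous.continuousAt
  have hc3 : ∀ᶠ z in 𝓝 x, ((ZZ 𝓛).localTriv i (Φ z)).2 = ((ZZ 𝓛).localTriv i (Φ x)).2 := by
    have := hc2.eventually (show {((ZZ 𝓛).localTriv i (Φ x)).2} ∈ 𝓝 ((ZZ 𝓛).localTriv i (Φ x)).2 by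
      rw [nhds_discrete]; exact Filter.mem_pure.mpr rfl)
    exact this
  have key : ∀ z, ofRd ((ZZ 𝓛).localTriv i (Φ z)).2 =
      ofRd (Φ z).2 + (hh 𝓛 (φ z) (φ z) - hh 𝓛 i (φ z)) := by
    intro z
    rw [FiberBundleCore.localTriv_apply]
    change ofRd (Φ z).2 + (hh 𝓛 (Φ z).proj (Φ z).proj - hh 𝓛 i (Φ z).proj) = _
    rw [hΦ']
  refine hc3.mono fun z hz => ?_
  have h1 := key z
  have h2 := key x
  rw [hz] at h1
  rw [h1] at h2
  simp only [← hi] at h2 ⊢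
  linarith

end Pool.Agent.X154.Hur
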