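import Pool.Agent.X154.HurA
import Pool.Agent.H259R3.GP8

set_option autoImplicit false

/-! Integrals of a system of local primitives along continuous curves and circle maps. -/

namespace Pool.Agent.X154.Hur

open Set Topology Filter Real
open scoped unitInterval
open Pool.Agent.H259R3.GP (lc lc_exp lc_homotopic LG PC)

variable {Y : Type*} [TopologicalSpace Y] (𝓛 : LocSys Y)

/-- integral along a continuous curve -/
noncomputable def pint (γ : C(ℝ, Y)) (a b : ℝ) : ℝ :=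
  (exists_prim (𝓛 := 𝓛) γ).choose b - (exists_prim (𝓛 := 𝓛) γ).choose a

variable {𝓛}

theorem pint_eq {γ : C(ℝ, Y)} {F : ℝ → ℝ} (h : Prim 𝓛 γ F) (a b : ℝ) :
    pint 𝓛 γ a b = F b - F a :=
  Prim.unique γ.continuous (exists_prim (𝓛 := 𝓛) γ).choose_spec h b a

variable (𝓛)

theorem pint_comp (γ : C(ℝ, Y)) (φ : C(ℝ, ℝ)) (a b : ℝ) :
    pint 𝓛 (γ.comp φ) a b = pint 𝓛 γ (φ a) (φ b) := by
  obtain ⟨F, hF⟩ := exists_prim (𝓛 := 𝓛) γ
  rw [pint_eq hF, pint_eq (F := F ∘ φ) (hF.comp φ.continuous)]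
  rfl

theorem pint_add (γ : C(ℝ, Y)) (a b c : ℝ) :
    pint 𝓛 γ a b + pint 𝓛 γ b c = pint 𝓛 γ a c := by
  unfold pint
  ring

theorem pint_symm (γ : C(ℝ, Y)) (a b : ℝ) : pint 𝓛 γ b a = - pint 𝓛 γ a b := by
  unfold pint
  ring

theorem pint_congr {γ γ' : C(ℝ, Y)} {a b : ℝ} (hab : a ≤ b) (h : ∀ t ∈ Icc a b, γ t = γ' t) :
    pint 𝓛 γ a b = pint 𝓛 γ' a b := by
  set φ : C(ℝ, ℝ) := ⟨fun t => (projIcc a b hab t : ℝ),
    continuous_subtype_val.comp continuous_projIcc⟩ with hφ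
  have e1 : γ.comp φ = γ'.comp φ := by
    ext t
    exact h _ (projIcc a b hab t).2
  have ea : φ a = a := by
    change ((projIcc a b hab a : Icc a b) : ℝ) = a
    rw [projIcc_left]
  have eb : φ b = b := by
    change ((projIcc a b hab b : Icc a b) : ℝ) = b
    rw [projIcc_right]
  calc pint 𝓛 γ a b = pint 𝓛 (γ.comp φ) a b := by rw [pint_comp, ea, eb]
    _ = pint 𝓛 γ' a b := by rw [e1, pint_comp, ea, eb]

/-- the lift of a circle map to the line -/
noncomputable def lft (f : C(Circle, Y)) : C(ℝ, Y) := ⟨fun x => f (Circle.exp x), by fun_prop⟩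

/-- integral over the circle -/
noncomputable def cint (f : C(Circle, Y)) : ℝ := pint 𝓛 (lft f) 0 (2 * π)

theorem cint_homotopic {f g : C(Circle, Y)} (h : f.Homotopic g) : cint 𝓛 f = cint 𝓛 g := by
  obtain ⟨H⟩ := h
  set Γ : C(ℝ × ℝ, Y) := ⟨fun q => H (projIcc 0 1 zero_le_one q.1, Circle.exp q.2), by
    refine H.continuous.comp (Continuous.prodMk ?_ ?_)
    · exact continuous_projIcc.comp continuous_fst
    · exact Circle.exp.continuous.comp continuous_snd⟩ with hΓ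
  obtain ⟨F, hF⟩ := exists_prim (𝓛 := 𝓛) Γ
  set τ : C(ℝ × ℝ, ℝ × ℝ) := ⟨fun q => (q.1, q.2 + 2 * π), by fun_prop⟩ with hτ
  have h1 : Prim 𝓛 Γ (F ∘ τ) := by
    have h2 := hF.comp τ.continuous
    have h3 : Γ ∘ τ = Γ := by
      ext q
      change H (projIcc 0 1 zero_le_one q.1, Circle.exp (q.2 + 2 * π)) =
        H (projIcc 0 1 zero_le_one q.1, Circle.exp q.2)
      rw [Circle.exp_add_two_pi]
    rwa [h3] at h2
  have h2 := Prim.unique Γ.continuous h1 hF (0, 0) (1, 0)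
  have key : ∀ (s : ℝ) (k : C(Circle, Y)), (∀ z, H (projIcc 0 1 zero_le_one s, z) = k z) →
      cint 𝓛 k = F (s, 2 * π) - F (s, 0) := by
    intro s k hk
    have h3 : Prim 𝓛 (lft k) (fun t => F (s, t)) := by
      have h4 := hF.comp (ψ := fun t : ℝ => (s, t)) (by fun_prop)
      have h5 : (Γ ∘ fun t : ℝ => (s, t)) = lft k := by
        ext t
        exact hk _
      rwa [h5] at h4
    unfold cint
    rw [pint_eq h3]
  rw [key 0 f (by intro z; simp), key 1 g (by intro z; simp)]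
  simp only [Function.comp_apply, hτ, ContinuousMap.coe_mk, zero_add] at h2
  linarith

/-- extension of a path to the line -/
noncomputable def pex {p q : Y} (δ : Path p q) : C(ℝ, Y) := ⟨δ.extend, δ.continuous_extend⟩

/-- integral along a path -/
noncomputable def pathint {p q : Y} (δ : Path p q) : ℝ := pint 𝓛 (pex δ) 0 1

theorem cint_lc {p : Y} (δ : Path p p) : cint 𝓛 (lc δ) = pathint 𝓛 δ := by
  set φ : C(ℝ, ℝ) := ⟨fun t => 2 * π * t, by fun_prop⟩ with hφ
  have h1 : pathint 𝓛 δ = pint 𝓛 ((lft (lc δ)).comp φ) 0 1 := by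
    apply pint_congr 𝓛 zero_le_one
    intro t ht
    have := lc_exp δ ⟨t, ht⟩
    change δ.extend t = lc δ (Circle.exp (2 * π * t))
    rw [this, Path.extend_apply _ ht]
  rw [h1, pint_comp]
  unfold cint
  congr 1
  · simp [hφ]
  · simp [hφ]

theorem pathint_homotopic {p : Y} {δ δ' : Path p p} (h : δ.Homotopic δ') :
    pathint 𝓛 δ = pathint 𝓛 δ' := by
  rw [← cint_lc, ← cint_lc]
  exact cint_homotopic 𝓛 (lc_homotopic h)

theorem pathint_trans {p : Y} (δ δ' : Path p p) :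
    pathint 𝓛 (δ.trans δ') = pathint 𝓛 δ + pathint 𝓛 δ' := by
  unfold pathint
  rw [← pint_add 𝓛 (pex (δ.trans δ')) 0 (1 / 2) 1]
  congr 1
  · set φ : C(ℝ, ℝ) := ⟨fun t => 2 * t, by fun_prop⟩ with hφ
    have h1 : pint 𝓛 (pex (δ.trans δ')) 0 (1 / 2) = pint 𝓛 ((pex δ).comp φ) 0 (1 / 2) := by
      apply pint_congr 𝓛 (by norm_num)
      intro t ht
      change (δ.trans δ').extend t = δ.extend (2 * t)
      rw [Path.extend_trans_of_le_half _ _ ht.2]
    rw [h1, pint_comp]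
    congr 1
    · simp [hφ]
    · simp [hφ]
  · set φ : C(ℝ, ℝ) := ⟨fun t => 2 * t - 1, by fun_prop⟩ with hφ
    have h1 : pint 𝓛 (pex (δ.trans δ')) (1 / 2) 1 = pint 𝓛 ((pex δ').comp φ) (1 / 2) 1 := by
      apply pint_congr 𝓛 (by norm_num)
      intro t ht
      change (δ.trans δ').extend t = δ'.extend (2 * t - 1)
      rw [Path.extend_trans_of_half_le _ _ ht.1]
    rw [h1, pint_comp]
    congr 1
    · simp [hφ]
    · change (2 * 1 - 1 : ℝ) = 1
      norm_num

theorem pathint_refl (p : Y) : pathint 𝓛 (Path.refl p) = 0 := by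
  have h1 : pathint 𝓛 ((Path.refl p).trans (Path.refl p)) = pathint 𝓛 (Path.refl p) :=
    pathint_homotopic 𝓛 ⟨(Path.Homotopy.reflTrans (Path.refl p))⟩
  rw [pathint_trans] at h1
  linarith

theorem pathint_symm {p : Y} (δ : Path p p) : pathint 𝓛 δ.symm = - pathint 𝓛 δ := by
  have h1 : pathint 𝓛 (δ.trans δ.symm) = pathint 𝓛 (Path.refl p) :=
    (pathint_homotopic 𝓛 ⟨(Path.Homotopy.reflTransSymm δ)⟩).symm
  rw [pathint_trans, pathint_refl] at h1
  linarith

/-- integral of a loop class -/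
noncomputable def lint {p : Y} (w : LG p) : ℝ :=
  pathint 𝓛 (LG.mk_surj w).choose

theorem lint_mk {p : Y} (δ : Path p p) : lint 𝓛 (LG.mk δ) = pathint 𝓛 δ := by
  unfold lint
  apply pathint_homotopic
  exact LG.mk_eq.mp (LG.mk_surj (LG.mk δ)).choose_spec

theorem lint_mul {p : Y} (a b : LG p) : lint 𝓛 (a * b) = lint 𝓛 a + lint 𝓛 b := by
  obtain ⟨δ, rfl⟩ := LG.mk_surj a
  obtain ⟨δ', rfl⟩ := LG.mk_surj b
  rw [← LG.mk_mul, lint_mk, lint_mk, lint_mk, pathint_trans]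

theorem lint_inv {p : Y} (a : LG p) : lint 𝓛 a⁻¹ = - lint 𝓛 a := by
  obtain ⟨δ, rfl⟩ := LG.mk_surj a
  rw [← LG.mk_inv, lint_mk, lint_mk, pathint_symm]

theorem lint_one {p : Y} : lint 𝓛 (1 : LG p) = 0 := by
  rw [← LG.mk_refl, lint_mk, pathint_refl]

end Pool.Agent.X154.Hur
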