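import Pool.Agent.X154.HurB
import Pool.Agent.X154.DeRham1

set_option autoImplicit false

/-! Closed forms give systems of local primitives (Poincaré lemma in charts). -/

namespace Pool.Agent.X154.Hur

open Set Topology Filter Real
open scoped ContDiff Manifold

variable {E : Type*} [NormedAddCommGroup E] [NormedSpace ℝ E]
  {H : Type*} [TopologicalSpace H] {𝓜 : ModelWithCorners ℝ E H}
  {N : Type*} [TopologicalSpace N] [ChartedSpace H N] [IsManifold 𝓜 1 N]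

/-- a function with vanishing derivative near `q` is constant near `q` -/
theorem locconst {u : N → ℝ} {q : N}
    (hu : ∀ᶠ x in 𝓝 q, HasMFDerivAt 𝓜 𝓘(ℝ, ℝ) u x (0 : TangentSpace 𝓜 x →L[ℝ] ℝ)) :
    ∀ᶠ x in 𝓝 q, u x = u q := by
  set e := extChartAt 𝓜 q with he
  set U := {x | HasMFDerivAt 𝓜 𝓘(ℝ, ℝ) u x (0 : TangentSpace 𝓜 x →L[ℝ] ℝ)} with hU
  have h1 : e.target ∩ e.symm ⁻¹' U ∈ 𝓝[range 𝓜] (e q) :=
    Filter.inter_mem (extChartAt_target_mem_nhdsWithin q)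
      (mem_nhdsWithin_of_mem_nhds (extChartAt_preimage_mem_nhds hu))
  obtain ⟨ρ, hρ, hball⟩ := Metric.mem_nhdsWithin_iff.mp h1
  set W := Metric.ball (e q) ρ ∩ range 𝓜 with hW
  have hWc : Convex ℝ W := (convex_ball _ _).inter 𝓜.convex_range
  have hd : ∀ y ∈ W, HasFDerivWithinAt (u ∘ e.symm) (0 : E →L[ℝ] ℝ) W y := by
    intro y hy
    obtain ⟨h2, h3⟩ := hball hy
    have h4 := (mdifferentiableWithinAt_extChartAt_symm (I := 𝓜) h2).hasMFDerivWithinAt
    have h5 : HasMFDerivWithinAt 𝓘(ℝ, E) 𝓘(ℝ, ℝ) (u ∘ e.symm) (range 𝓜) y _ :=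
      HasMFDerivAt.comp_hasMFDerivWithinAt y h3 h4
    have h6 : HasFDerivWithinAt (u ∘ e.symm) ((0 : E →L[ℝ] ℝ).comp
        (show E →L[ℝ] E from mfderivWithin 𝓘(ℝ, E) 𝓜 e.symm (range 𝓜) y)) (range 𝓜) y :=
      hasMFDerivWithinAt_iff_hasFDerivWithinAt.mp h5
    rw [ContinuousLinearMap.zero_comp] at h6
    exact h6.mono inter_subset_right
  have hq : e q ∈ W := ⟨Metric.mem_ball_self hρ, extChartAt_target_subset_range q
    (mem_extChartAt_target q)⟩
  filter_upwards [extChartAt_source_mem_nhds (I := 𝓜) q,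
    (continuousAt_extChartAt (I := 𝓜) q).preimage_mem_nhds (Metric.ball_mem_nhds _ hρ)] with x hx hx'
  have hxW : e x ∈ W := ⟨hx', extChartAt_target_subset_range q (e.map_source hx)⟩
  have h2 := Convex.norm_image_sub_le_of_norm_hasFDerivWithin_le (C := 0) hd
    (fun y _ => by simp) hWc hq hxW
  rw [zero_mul] at h2
  have h3 : (u ∘ e.symm) (e x) - (u ∘ e.symm) (e q) = 0 := norm_le_zero_iff.mp h2
  simp only [Function.comp_apply] at h3
  rw [e.left_inv hx, e.left_inv (mem_extChartAt_source q)] at h3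
  linarith

/-- Poincaré lemma: local primitives of a closed form -/
theorem poincare {α : N → E →L[ℝ] ℝ} (hα : IsClosedForm 𝓜 α) (q : N) :
    ∃ h : N → ℝ, ContMDiffAt 𝓜 𝓘(ℝ, ℝ) 1 h q ∧
      ∀ᶠ x in 𝓝 q, HasMFDerivAt 𝓜 𝓘(ℝ, ℝ) h x (α x) := by
  set e := extChartAt 𝓜 q with he
  obtain ⟨ρ, hρ, hball⟩ := Metric.mem_nhdsWithin_iff.mp
    (extChartAt_target_mem_nhdsWithin (I := 𝓜) q)
  set W := Metric.ball (e q) ρ ∩ range 𝓜 with hW
  have hWc : Convex ℝ W := (convex_ball _ _).inter 𝓜.convex_range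
  have hWt : W ⊆ e.target := hball
  have hs := hα.1 q
  have hsym := hα.2 q
  set D : E → E →L[ℝ] E →L[ℝ] ℝ := fun y => fderivWithin ℝ (chartForm 𝓜 α q) e.target y with hD
  have hd : ∀ y ∈ W, HasFDerivWithinAt (chartForm 𝓜 α q) (D y) W y :=
    fun y hy => ((hs.differentiableOn (by simp) y (hWt hy)).hasFDerivWithinAt).mono hWt
  obtain ⟨f, hf⟩ := hWc.exists_forall_hasFDerivWithinAt_of_hasFDerivWithinAt_symmetric hd
    (fun y hy u _ v _ => hsym y (hWt hy) u v)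
  set V := e.source ∩ e ⁻¹' (Metric.ball (e q) ρ) with hV
  have hVo : IsOpen V := isOpen_extChartAt_preimage' q Metric.isOpen_ball
  have hVW : ∀ x ∈ V, e x ∈ W := fun x hx =>
    ⟨hx.2, extChartAt_target_subset_range q (e.map_source hx.1)⟩
  have hqV : q ∈ V := ⟨mem_extChartAt_source q, Metric.mem_ball_self hρ⟩
  refine ⟨f ∘ e, ?_, ?_⟩
  · have h1 : ContDiffWithinAt ℝ 1 f W (e q) := by
      have h2 : ContDiffWithinAt ℝ (0 + 1) f W (e q) := by
        rw [contDiffWithinAt_succ_iff_hasFDerivWithinAt (by simp)]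
        refine ⟨W, ?_, by simp, chartForm 𝓜 α q, hf, ?_⟩
        · rw [insert_eq_of_mem (hVW q hqV)]
          exact self_mem_nhdsWithin
        · exact ((hs.mono hWt).of_le (by simp)) (e q) (hVW q hqV)
      simpa using h2
    have h2 : ContMDiffWithinAt 𝓘(ℝ, E) 𝓘(ℝ, ℝ) 1 f W (e q) := h1.contMDiffWithinAt
    have h3 : ContMDiffAt 𝓜 𝓘(ℝ, E) 1 e q := contMDiffAt_extChartAt
    have h4 : ContMDiffWithinAt 𝓜 𝓘(ℝ, ℝ) 1 (f ∘ e) V q :=
      ContMDiffWithinAt.comp q h2 (h3.contMDiffWithinAt) hVW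
    exact h4.contMDiffAt (hVo.mem_nhds hqV)
  · filter_upwards [hVo.mem_nhds hqV] with x hx
    have h0 : HasFDerivWithinAt f (chartForm 𝓜 α q (e x)) W (e x) := hf _ (hVW x hx)
    have h1 := hasMFDerivWithinAt_iff_hasFDerivWithinAt.mpr h0
    have hxs : x ∈ (chartAt H q).source := by
      rw [← extChartAt_source (I := 𝓜)]; exact hx.1
    have h2 : HasMFDerivAt 𝓜 𝓘(ℝ, E) e x (mfderiv 𝓜 𝓘(ℝ, E) e x) :=
      (mdifferentiableAt_extChartAt hxs).hasMFDerivAt
    have h3 := HasMFDerivWithinAt.comp x h1 (h2.hasMFDerivWithinAt (s := V)) hVW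
    have h4 := h3.hasMFDerivAt (hVo.mem_nhds hx)
    have h5 := mfderivWithin_extChartAt_symm_comp_mfderiv_extChartAt' (I := 𝓜) (x := q) hx.1
    have h6 : (chartForm 𝓜 α q (e x)).comp (show E →L[ℝ] E from mfderiv 𝓜 𝓘(ℝ, E) e x) =
        (show E →L[ℝ] ℝ from α x) := by
      unfold chartForm
      have key : ∀ z : N, z = x → ∀ (A : E →L[ℝ] E) (B : E →L[ℝ] E),
          A.comp B = ContinuousLinearMap.id ℝ E →
          ((show E →L[ℝ] ℝ from α z).comp A).comp B = (show E →L[ℝ] ℝ from α x) := by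
        rintro z rfl A B hAB
        rw [ContinuousLinearMap.comp_assoc, hAB, ContinuousLinearMap.comp_id]
      exact key (e.symm (e x)) (e.left_inv hx.1) _ _ h5
    exact (congrArg (fun D : E →L[ℝ] ℝ => HasMFDerivAt 𝓜 𝓘(ℝ, ℝ) (f ∘ e) x D) h6).mp h4

/-- the system of local primitives of a closed form -/
def sys (α : ClosedForm 𝓜 N) : LocSys N where
  Loc q h := ContMDiffAt 𝓜 𝓘(ℝ, ℝ) 1 h q ∧
    ∀ᶠ x in 𝓝 q, HasMFDerivAt 𝓜 𝓘(ℝ, ℝ) h x (α.1 x)
  ex q := poincare α.2 q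
  nh q h hh := by
    filter_upwards [(contMDiffAt_iff_contMDiffAt_nhds (by simp)).1 hh.1,
      eventually_eventually_nhds.mpr hh.2] with x h1 h2
    exact ⟨h1, h2⟩
  un q h h' hh hh' := by
    have h1 : ∀ᶠ x in 𝓝 q, HasMFDerivAt 𝓜 𝓘(ℝ, ℝ) (h - h') x
        (0 : TangentSpace 𝓜 x →L[ℝ] ℝ) := by
      filter_upwards [hh.2, hh'.2] with x h2 h3
      have h4 := h2.sub h3
      rwa [sub_self] at h4
    filter_upwards [locconst h1] with x h2
    simp only [Pi.sub_apply] at h2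
    linarith

end Pool.Agent.X154.Hur
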