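import Pool.Agent.X154.HurC

set_option autoImplicit false

/-! The Hurewicz functional of a continuous circle map. -/

namespace Pool.Agent.X154.Hur

open Set Topology Filter Real MeasureTheory
open scoped ContDiff Manifold
open Pool.Agent.H259R3.GP (lc lc_exp lc_homotopic LG PC)

variable {E : Type*} [NormedAddCommGroup E] [NormedSpace ℝ E]
  {H : Type*} [TopologicalSpace H] {𝓜 : ModelWithCorners ℝ E H}
  {N : Type*} [TopologicalSpace N] [ChartedSpace H N] [IsManifold 𝓜 1 N]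

variable (𝓜) in
/-- the speed of a curve measured by a form -/
noncomputable def spd (α : N → E →L[ℝ] ℝ) (γ : ℝ → N) (t : ℝ) : ℝ :=
  α (γ t) (mfderiv 𝓘(ℝ, ℝ) 𝓜 γ t (1 : ℝ))

omit [IsManifold 𝓜 1 N] in
theorem spd_hasDeriv {α : N → E →L[ℝ] ℝ} {γ : ℝ → N} (hγ : ContMDiff 𝓘(ℝ, ℝ) 𝓜 1 γ) {h : N → ℝ}
    {t : ℝ} (hh : HasMFDerivAt 𝓜 𝓘(ℝ, ℝ) h (γ t) (α (γ t))) :
    HasDerivAt (h ∘ γ) (spd 𝓜 α γ t) t := by
  have h1 : HasMFDerivAt 𝓘(ℝ, ℝ) 𝓜 γ t (mfderiv 𝓘(ℝ, ℝ) 𝓜 γ t) :=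
    (hγ.mdifferentiable (by simp) t).hasMFDerivAt
  have h2 := HasMFDerivAt.comp t hh h1
  have h3 : HasFDerivAt (h ∘ γ) ((show E →L[ℝ] ℝ from α (γ t)).comp
      (show ℝ →L[ℝ] E from mfderiv 𝓘(ℝ, ℝ) 𝓜 γ t)) t := hasMFDerivAt_iff_hasFDerivAt.mp h2
  exact h3.hasDerivAt

theorem spd_continuous (α : ClosedForm 𝓜 N) {γ : ℝ → N} (hγ : ContMDiff 𝓘(ℝ, ℝ) 𝓜 1 γ) :
    Continuous (spd 𝓜 α.1 γ) := by
  rw [continuous_iff_continuousAt]
  intro t
  obtain ⟨h, h1, h2⟩ := (sys α).ex (γ t)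
  have h3 : ContDiffAt ℝ 1 (h ∘ γ) t := by
    have h4 : ContMDiffAt 𝓘(ℝ, ℝ) 𝓘(ℝ, ℝ) 1 (h ∘ γ) t := ContMDiffAt.comp t h1 (hγ t)
    exact h4.contDiffAt
  have h4 : ∀ᶠ s in 𝓝 t, deriv (h ∘ γ) s = spd 𝓜 α.1 γ s := by
    filter_upwards [hγ.continuous.continuousAt.eventually h2] with s hs
    exact (spd_hasDeriv hγ hs).deriv
  have h5 : ContinuousAt (deriv (h ∘ γ)) t := by
    have h6 : ContDiffAt ℝ 0 (fderiv ℝ (h ∘ γ)) t := h3.fderiv_right (by norm_num)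
    have h7 : ContinuousAt (fun s => fderiv ℝ (h ∘ γ) s 1) t :=
      h6.continuousAt.clm_apply continuousAt_const
    exact h7
  exact h5.congr h4

theorem prim_integral (α : ClosedForm 𝓜 N) {γ : ℝ → N} (hγ : ContMDiff 𝓘(ℝ, ℝ) 𝓜 1 γ) :
    Prim (sys α) γ (fun t => ∫ s in (0 : ℝ)..t, spd 𝓜 α.1 γ s) := by
  intro t
  obtain ⟨h, h1, h2⟩ := (sys α).ex (γ t)
  refine ⟨h, ⟨h1, h2⟩, ?_⟩
  set F : ℝ → ℝ := fun t => ∫ s in (0 : ℝ)..t, spd 𝓜 α.1 γ s with hF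
  have hc := spd_continuous α hγ
  have hF' : ∀ s, HasDerivAt F (spd 𝓜 α.1 γ s) s := fun s =>
    intervalIntegral.integral_hasDerivAt_right (hc.intervalIntegrable _ _)
      (hc.stronglyMeasurableAtFilter _ _) hc.continuousAt
  obtain ⟨ρ, hρ, hball⟩ := Metric.eventually_nhds_iff_ball.mp
    (hγ.continuous.continuousAt.eventually h2)
  filter_upwards [Metric.ball_mem_nhds t hρ] with s hs
  have hd : ∀ x ∈ Metric.ball t ρ, HasDerivWithinAt (fun x => F x - (h ∘ γ) x) 0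
      (Metric.ball t ρ) x := by
    intro x hx
    have h3 := (hF' x).sub (spd_hasDeriv hγ (hball x hx))
    rw [sub_self] at h3
    exact h3.hasDerivWithinAt
  have h4 := Convex.norm_image_sub_le_of_norm_hasDerivWithin_le (C := 0) hd
    (fun y _ => by simp) (convex_ball _ _) (Metric.mem_ball_self hρ) hs
  rw [zero_mul] at h4
  have h5 := norm_le_zero_iff.mp h4
  simp only [Function.comp_apply] at h5
  linarith

omit [IsManifold 𝓜 1 N] in
/-- the curve of a circle map -/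
theorem curve_contMDiff {g : C(Circle, N)} (hg : IsC1 𝓜 g) :
    ContMDiff 𝓘(ℝ, ℝ) 𝓜 1 (fun t : ℝ => g (Circle.exp t)) :=
  ContMDiff.comp hg contMDiff_circleExp

theorem cint_eq_circleIntegral (α : ClosedForm 𝓜 N) {g : C(Circle, N)}
    (hg : IsC1 𝓜 g) :
    cint (sys α) g = circleIntegral 𝓜 g α := by
  have h1 := prim_integral α (curve_contMDiff hg)
  unfold cint
  rw [pint_eq (γ := lft g) h1]
  simp only [intervalIntegral.integral_same, sub_zero]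
  rfl

variable (𝓜)

/-- the Hurewicz functional -/
noncomputable def hur (f : C(Circle, N)) : ClosedForm 𝓜 N → ℝ := fun α => cint (sys α) f

theorem hur_homotopic {f g : C(Circle, N)} (h : f.Homotopic g) : hur 𝓜 f = hur 𝓜 g := by
  ext α
  exact cint_homotopic _ h

/-- the functional of a loop class -/
noncomputable def hurL {p : N} (w : LG p) : ClosedForm 𝓜 N → ℝ := fun α => lint (sys α) w

theorem hurL_mk {p : N} (δ : Path p p) : hurL 𝓜 (LG.mk δ) = hur 𝓜 (lc δ) := by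
  ext α
  unfold hurL hur
  rw [lint_mk, cint_lc]

theorem hurL_conj_mul {p : N} (a s g : LG p) :
    hurL 𝓜 (a * s * a⁻¹ * g) = hurL 𝓜 s + hurL 𝓜 g := by
  ext α
  simp only [hurL, Pi.add_apply]
  rw [lint_mul, lint_mul, lint_mul, lint_inv]
  ring

theorem hurL_one {p : N} : hurL 𝓜 (1 : LG p) = 0 := by
  ext α
  simp only [hurL, Pi.zero_apply]
  rw [lint_one]

theorem seminorm_PC (P : Seminorm ℝ (ClosedForm 𝓜 N → ℝ)) {p : N} {S : Set (LG p)} {M : ℝ}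
    (hM : ∀ s ∈ S, P (hurL 𝓜 s) ≤ M) {n : ℕ} {w : LG p} (h : PC S n w) :
    P (hurL 𝓜 w) ≤ n * M := by
  induction h with
  | one => rw [hurL_one]; simp
  | @mul n g a s hs _ ih =>
    rw [hurL_conj_mul]
    calc P (hurL 𝓜 s + hurL 𝓜 g) ≤ P (hurL 𝓜 s) + P (hurL 𝓜 g) := map_add_le_add P _ _
      _ ≤ M + n * M := add_le_add (hM s hs) ih
      _ = ((n + 1 : ℕ) : ℝ) * M := by push_cast; ring

end Pool.Agent.X154.Hur
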