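import Pool.Agent.X154.HurD
import Pool.Agent.H259R3.GP10

set_option autoImplicit false

/-! The main theorem of `Pool.Agent.H259R3.GP10` in terms of products of conjugates in the loop
group (the proof is the one given there, with another last step). -/

namespace Pool.Agent.X154.Hur

open Set Real
open scoped unitInterval ENNReal
open Pool.Agent.H259R3.GP

variable {N : Type*} [PseudoEMetricSpace N]

/-- Main theorem for compact spaces with the uniform local structure. -/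
theorem main_pc [CompactSpace N] {r1 r2 : ENNReal} {ρ : ℝ} (hρ : 0 < ρ)
    (hr2 : r2 = ENNReal.ofReal (5 * ρ)) (H : LSC N r1 r2) :
    ∃ ε₀ > 0, ∃ C > 0, ∃ F : Set C(Circle, N), F.Finite ∧
      ∀ l > 0, ∀ ε, 0 < ε → ε < ε₀ → ∀ f : C(Circle, N), gapEnergy ε f ≤ ENNReal.ofReal l →
        ∃ k : ℕ, (k : ℝ) ≤ C * l ∧ ∃ (p : N) (S : Set (LG p)) (δ : Path p p),
          (∀ s ∈ S, ∃ ρ : Path p p, LG.mk ρ = s ∧ lc ρ ∈ F) ∧ PC S k (LG.mk δ) ∧
            f.Homotopic (lc δ) := by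
  classical
  -- finite net
  obtain ⟨m, a, hcov⟩ : ∃ (m : ℕ) (a : Fin m → N), ∀ p, ∃ i, edist p (a i) < ENNReal.ofReal ρ := by
    obtain ⟨t, ht⟩ := (isCompact_univ : IsCompact (univ : Set N)).elim_finite_subcover
      (fun x : N => Metric.eball x (ENNReal.ofReal ρ)) (fun x => Metric.isOpen_eball)
      (fun x _ => mem_iUnion.mpr ⟨x, Metric.mem_eball_self (ENNReal.ofReal_pos.mpr hρ)⟩)
    refine ⟨t.card, fun i => (t.equivFin.symm i : N), fun p => ?_⟩
    have hp := ht (mem_univ p)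
    simp only [mem_iUnion] at hp
    obtain ⟨x, hx, hpx⟩ := hp
    refine ⟨t.equivFin ⟨x, hx⟩, ?_⟩
    change edist p ((t.equivFin.symm (t.equivFin ⟨x, hx⟩) : t) : N) < _
    rw [Equiv.symm_apply_apply]
    exact hpx
  -- representatives
  have hrep : ∀ (i : Fin m) (s : LG (a i)), ∃ δ : Path (a i) (a i), LG.mk δ = s := fun i s => LG.mk_surj s
  choose rep hrep using hrep
  set F : Set C(Circle, N) := ⋃ i : Fin m, (fun s => lc (rep i s)) '' (SS (gg H a (a i))) with hF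
  have hFfin : F.Finite := Set.finite_iUnion fun i => (SS_finite _).image _
  refine ⟨ρ / 6, by positivity, 1800 * m / ρ + 1, by positivity, F, hFfin, ?_⟩
  intro l hl ε hε hε0 f hE
  -- the number of colourings
  set n := ⌊ρ / (3 * ε)⌋₊ with hn
  have hn1 : (n : ℝ) ≤ ρ / (3 * ε) := Nat.floor_le (by positivity)
  have hn2 : ρ / (6 * ε) ≤ n := by
    have h1 : ρ / (3 * ε) < n + 1 := Nat.lt_floor_add_one _
    have h2 : 1 ≤ ρ / (6 * ε) := by
      rw [le_div_iff₀ (by positivity)]; linarith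
    have h3 : ρ / (3 * ε) = 2 * (ρ / (6 * ε)) := by field_simp; ring
    linarith
  have hn0 : 0 < n := by
    have : 0 < ρ / (6 * ε) := by positivity
    have : (0 : ℝ) < n := lt_of_lt_of_le this hn2
    exact_mod_cast this
  have hn3 : 3 * ε * n ≤ ρ := by
    rw [le_div_iff₀ (by positivity)] at hn1
    linarith
  -- the scale
  obtain ⟨δ, hδ, hmod⟩ := lift_modulus f hε
  obtain ⟨K, hK⟩ : ∃ K : ℕ, 2 * L K ≤ δ := by
    obtain ⟨K, hK⟩ := pow_unbounded_of_one_lt (4 * π / δ) (by norm_num : (1 : ℝ) < 2)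
    refine ⟨K, ?_⟩
    unfold L
    rw [div_lt_iff₀ hδ] at hK
    rw [← mul_div_assoc, div_le_iff₀ (by positivity)]
    linarith
  obtain ⟨X0, hX0, hfar⟩ := sampling f hε K
  set q : ℕ → ℕ → N := fun k j => f (Circle.exp (X0 (k, j % 2 ^ k))) with hq
  have hqper : ∀ k j, q k (j + 2 ^ k) = q k j := by
    intro k j
    simp only [hq, Nat.add_mod_right]
  set X : ℕ → ℝ := fun j => X0 (K, j % 2 ^ K) + ((j / 2 ^ K : ℕ) : ℝ) * (2 * π) with hX
  have hqX : ∀ j, q K j = lift f (X j) := by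
    intro j
    change f (Circle.exp (X0 (K, j % 2 ^ K))) =
      f (Circle.exp (X0 (K, j % 2 ^ K) + ((j / 2 ^ K : ℕ) : ℝ) * (2 * π)))
    congr 1
    exact (Circle.periodic_exp.nat_mul _ _).symm
  have hXpos : ∀ j : ℕ, L K * j ≤ X j ∧ X j < L K * (j + 1) := by
    intro j
    have h1 := hX0 (K, j % 2 ^ K)
    have hdm := Nat.mod_add_div j (2 ^ K)
    have hdm' : ((j % 2 ^ K : ℕ) : ℝ) + 2 ^ K * ((j / 2 ^ K : ℕ) : ℝ) = j := by exact_mod_cast hdm
    have hL2 : L K * 2 ^ K = 2 * π := by unfold L; field_simp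
    have h2 := h1.1
    have h3 := h1.2
    simp only at h2 h3
    simp only [hX]
    have h4 : ((j / 2 ^ K : ℕ) : ℝ) * (2 * π) = L K * (2 ^ K * ((j / 2 ^ K : ℕ) : ℝ)) := by
      rw [← hL2]; ring
    rw [h4]
    constructor
    · rw [← hdm']
      nlinarith
    · calc X0 (K, j % 2 ^ K) + L K * (2 ^ K * ((j / 2 ^ K : ℕ) : ℝ))
          < L K * (((j % 2 ^ K : ℕ) : ℝ) + 1) + L K * (2 ^ K * ((j / 2 ^ K : ℕ) : ℝ)) := by linarith
        _ = L K * ((((j % 2 ^ K : ℕ) : ℝ) + 2 ^ K * ((j / 2 ^ K : ℕ) : ℝ)) + 1) := by ring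
        _ = _ := by rw [hdm']
  have hXstep : ∀ j (t : I), edist (lift f (X j)) (seg (lift f) (X j) (X (j + 1)) t) ≤
      ENNReal.ofReal ε := by
    intro j t
    rw [seg_apply]
    apply hmod
    have h1 := hXpos j
    have h2 := hXpos (j + 1)
    push_cast at h2
    have hLp := L_pos K
    have e1 : X j - ((1 - t) * X j + t * X (j + 1)) = t * (X j - X (j + 1)) := by ring
    rw [e1, abs_mul, abs_of_nonneg t.2.1]
    have h3 : |X j - X (j + 1)| ≤ 2 * L K := by
      rw [abs_le]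
      constructor <;> nlinarith
    calc (t : ℝ) * |X j - X (j + 1)| ≤ 1 * (2 * L K) :=
          mul_le_mul t.2.2 h3 (abs_nonneg _) zero_le_one
      _ ≤ δ := by linarith
  have hKq : ∀ j, edist (q K j) (q K (j + 1)) ≤ ENNReal.ofReal ε := by
    intro j
    have := hXstep j 1
    rw [Path.target] at this
    rw [hqX, hqX]
    exact this
  -- base point
  obtain ⟨i0, hi0⟩ := hcov (lift f 0)
  set p0 := a i0 with hp0
  have hJ : ∀ x, Joined p0 (lift f x) := by
    intro x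
    have h1 : edist (lift f 0) p0 < r2 := by
      rw [hr2]
      exact hi0.trans_le (ENNReal.ofReal_le_ofReal (by linarith))
    exact (show Joined (lift f 0) p0 from ⟨H.sh h1⟩).symm.trans ⟨seg (lift f) 0 x⟩
  obtain ⟨c, cnt, hc, hPC, hcnt⟩ := core_comb a (gg H a p0) (r := 5 * ρ) hρ hε hcov le_rfl
    (by linarith) (gg_one H a p0) (fun i j k hij hjk hik => gg_mul H a p0 i j k
      (by rw [hr2]; exact hij) (by rw [hr2]; exact hjk) (by rw [hr2]; exact hik))
    hn0 hn3 q hqper K hKq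
  have hrepS : ∀ s ∈ SS (gg H a p0), ∃ ρ : Path p0 p0, LG.mk ρ = s ∧ lc ρ ∈ F := fun s hs =>
    ⟨rep i0 s, hrep i0 s, mem_iUnion.mpr ⟨i0, ⟨s, hs, rfl⟩⟩⟩
  obtain ⟨δ', hδ'⟩ := LG.mk_surj (rp (fun j => gg H a p0 (c (q K j)) (c (q K (j + 1)))) (2 ^ K))
  have hXn : X (2 ^ K) = X 0 + 2 * π := by
    simp only [hX]
    rw [Nat.mod_self, Nat.div_self (by positivity), Nat.zero_mod, Nat.zero_div]
    push_cast
    ring
  have hhom : f.Homotopic (lc δ') := by
    refine class_eq H a p0 f c hρ hε (by linarith) hr2 hc hJ X hXstep (2 ^ K) hXn δ' ?_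
    rw [hδ']
    congr 1
    ext j
    rw [hqX, hqX]
  refine ⟨cnt, ?_, p0, SS (gg H a p0), δ', hrepS, by rw [hδ']; exact hPC, hhom⟩
  -- the bound
  have hfar' : ε * (farCount ε q K : ℝ) ≤ 150 * l := by
    have h1 : ENNReal.ofReal ε * (farCount ε q K : ℝ≥0∞) ≤ ENNReal.ofReal (150 * l) := by
      refine hfar.trans ?_
      rw [ENNReal.ofReal_mul (by norm_num)]
      refine mul_le_mul' (by norm_num) hE
    rw [← ENNReal.ofReal_natCast, ← ENNReal.ofReal_mul hε.le,
      ENNReal.ofReal_le_ofReal_iff (by positivity)] at h1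
    exact h1
  have hcnt' : (n : ℝ) * cnt ≤ 2 * m * farCount ε q K := by exact_mod_cast hcnt
  have h1 : ρ / (6 * ε) * cnt ≤ 2 * m * farCount ε q K :=
    (mul_le_mul_of_nonneg_right hn2 (Nat.cast_nonneg _)).trans hcnt'
  have h2 : ρ / 6 * cnt ≤ 2 * m * (150 * l) := by
    have h3 : ρ / 6 * cnt = ε * (ρ / (6 * ε) * cnt) := by field_simp
    rw [h3]
    calc ε * (ρ / (6 * ε) * cnt) ≤ ε * (2 * m * farCount ε q K) := by gcongr
      _ = 2 * m * (ε * farCount ε q K) := by ring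
      _ ≤ _ := by gcongr
  have h4 : (cnt : ℝ) ≤ 1800 * m / ρ * l := by
    rw [div_mul_eq_mul_div, le_div_iff₀ hρ]
    nlinarith
  nlinarith

end Pool.Agent.X154.Hur
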