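import Mathlib

set_option autoImplicit false

/-!
The Klein model of hyperbolic space of curvature `-K`, domains with smooth boundary in it, their
normal curvatures, and balls rolling inside them.
-/

namespace Pool.Agent.X154.Kl

open Set Filter Topology Metric
open scoped ContDiff RealInnerProductSpace

variable {E : Type*} [NormedAddCommGroup E] [InnerProductSpace ℝ E]

/-- The Riemannian metric of hyperbolic space of curvature `-K` in the Klein model, the open unit
ball of `E`, at the point `p`. -/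
noncomputable def met (K : ℝ) (p v w : E) : ℝ :=
  (⟪v, w⟫ / (1 - ‖p‖ ^ 2) + ⟪p, v⟫ * ⟪p, w⟫ / (1 - ‖p‖ ^ 2) ^ 2) / K

/-- The distance of hyperbolic space of curvature `-K` in the Klein model. -/
noncomputable def hdist (K : ℝ) (p q : E) : ℝ :=
  Real.arcosh ((1 - ⟪p, q⟫) / √((1 - ‖p‖ ^ 2) * (1 - ‖q‖ ^ 2))) / √K

/-- The covariant derivative `∇_{γ'} γ'` at time `t` of the velocity of the curve `γ`, in the Klein
model (it does not depend on the curvature `-K`). -/
noncomputable def acc (γ : ℝ → E) (t : ℝ) : E :=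
  deriv (deriv γ) t + (2 * ⟪γ t, deriv γ t⟫ / (1 - ‖γ t‖ ^ 2)) • deriv γ t

/-- A compact domain in the Klein model: nonempty interior, connected smooth boundary. -/
structure IsDom (D : Set E) : Prop where
  subset_ball : D ⊆ ball 0 1
  compact : IsCompact D
  interior_nonempty : (interior D).Nonempty
  connected : IsConnected (frontier D)
  smooth : ∀ s ∈ frontier D, ∃ G : E → ℝ, ContDiff ℝ ∞ G ∧ fderiv ℝ G s ≠ 0 ∧
    ∀ᶠ p in 𝓝 s, (p ∈ D ↔ G p ≤ 0)

/-- `ν` is the inward unit normal of `D` at the boundary point `s`: it has length one, it is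
orthogonal to the velocities at `s` of the curves in the boundary, and it points into `D`. -/
structure IsInwardNormal (K : ℝ) (D : Set E) (s ν : E) : Prop where
  unit : met K s ν ν = 1
  orth : ∀ (γ : ℝ → E) (v : E), γ 0 = s → HasDerivAt γ v 0 → (∀ᶠ t in 𝓝 0, γ t ∈ frontier D) →
    met K s v ν = 0
  inward : ∀ᶠ t in 𝓝[>] (0 : ℝ), s + t • ν ∈ D

/-- All normal curvatures of the boundary of `D` with respect to the inward unit normal `ν` are at
most `lam`: for all curves `γ` in the boundary,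
`B(γ', γ') = ⟨∇_{γ'} γ', ν⟩ ≤ lam * ⟨γ', γ'⟩`. -/
def NormalCurvLE (K : ℝ) (D : Set E) (lam : ℝ) : Prop :=
  ∀ γ : ℝ → E, ContDiffAt ℝ 2 γ 0 → (∀ᶠ t in 𝓝 0, γ t ∈ frontier D) →
    ∀ ν, IsInwardNormal K D (γ 0) ν →
      met K (γ 0) (acc γ 0) ν ≤ lam * met K (γ 0) (deriv γ 0) (deriv γ 0)

/-- All normal curvatures of the boundary of `D` with respect to the inward unit normal are at
least `μ`: `D` is `μ`-convex. -/
def NormalCurvGE (K : ℝ) (D : Set E) (μ : ℝ) : Prop :=
  ∀ γ : ℝ → E, ContDiffAt ℝ 2 γ 0 → (∀ᶠ t in 𝓝 0, γ t ∈ frontier D) →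
    ∀ ν, IsInwardNormal K D (γ 0) ν →
      μ * met K (γ 0) (deriv γ 0) (deriv γ 0) ≤ met K (γ 0) (acc γ 0) ν

/-- A ball of radius `R` rolls freely inside `D`: for every boundary point `s` with inward unit
normal `ν`, the closed geodesic ball of radius `R` around the point `b = exp_s (R ν)`, that is the
point of the geodesic ray (a Euclidean ray, in the Klein model) from `s` in direction `ν` with
distance `R` from `s`, lies in `D`. -/
def RollsFreely (K : ℝ) (D : Set E) (R : ℝ) : Prop :=
  ∀ s ∈ frontier D, ∀ ν, IsInwardNormal K D s ν → ∀ τ : ℝ, 0 ≤ τ → ‖s + τ • ν‖ < 1 →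
    hdist K s (s + τ • ν) = R → ∀ q : E, ‖q‖ < 1 → hdist K (s + τ • ν) q ≤ R → q ∈ D

/-- `sn_c` -/
noncomputable def sn (c t : ℝ) : ℝ :=
  if 0 < c then Real.sin (t * √c) / √c else if c = 0 then t else Real.sinh (t * √(-c)) / √(-c)

/-- `ct_c = sn_c' / sn_c` -/
noncomputable def ct (c t : ℝ) : ℝ := deriv (sn c) t / sn c t

end Pool.Agent.X154.Kl
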