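import Pool.Agent.X154.Kl

set_option autoImplicit false

namespace Pool.Agent.X154.Kl

open Set Filter Topology Metric
open scoped ContDiff RealInnerProductSpace

variable {E : Type*} [NormedAddCommGroup E] [InnerProductSpace ℝ E]

noncomputable def AA (p : E) : ℝ := 1 - ‖p‖ ^ 2
noncomputable def BB (e p : E) : ℝ := 1 / 16 - ⟪e, p⟫ ^ 2
noncomputable def GG (e p : E) : ℝ := 1 / 256 - BB e p * AA p

/-- the domain -/
def DD (e : E) : Set E := {p | 0 ≤ AA p ∧ 0 ≤ BB e p ∧ GG e p ≤ 0}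

theorem AA_cont : Continuous (AA : E → ℝ) := by unfold AA; fun_prop
theorem BB_cont (e : E) : Continuous (BB e) := by unfold BB; fun_prop
theorem GG_cont (e : E) : Continuous (GG e) := by
  have h1 : Continuous (AA : E → ℝ) := AA_cont
  have h2 := BB_cont e
  unfold GG; fun_prop

theorem AA_le (p : E) : AA p ≤ 1 := by unfold AA; nlinarith [sq_nonneg ‖p‖]
theorem BB_le (e p : E) : BB e p ≤ 1 / 16 := by unfold BB; nlinarith [sq_nonneg ⟪e, p⟫]

theorem pos_of_mem {e p : E} (h : p ∈ DD e) : 0 < AA p ∧ 0 < BB e p := by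
  obtain ⟨h1, h2, h3⟩ := h
  unfold GG at h3
  constructor
  · rcases h1.lt_or_eq with h | h
    · exact h
    · rw [← h] at h3; norm_num at h3
  · rcases h2.lt_or_eq with h | h
    · exact h
    · rw [← h] at h3; norm_num at h3

theorem DD_closed (e : E) : IsClosed (DD e) := by
  have h1 : IsClosed {p : E | 0 ≤ AA p} := isClosed_le continuous_const AA_cont
  have h2 : IsClosed {p : E | 0 ≤ BB e p} := isClosed_le continuous_const (BB_cont e)
  have h3 : IsClosed {p : E | GG e p ≤ 0} := isClosed_le (GG_cont e) continuous_const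
  exact h1.inter (h2.inter h3)

theorem DD_ball (e : E) : DD e ⊆ ball 0 1 := by
  intro p hp
  have := (pos_of_mem hp).1
  unfold AA at this
  rw [mem_ball_zero_iff]
  nlinarith [norm_nonneg p]

theorem DD_convex (e : E) : Convex ℝ (DD e) := by
  intro p hp q hq a b ha hb hab
  obtain ⟨h1, h2, h3⟩ := hp
  obtain ⟨k1, k2, k3⟩ := hq
  have hA : a * AA p + b * AA q ≤ AA (a • p + b • q) := by
    have h : AA (a • p + b • q) - (a * AA p + b * AA q) = a * b * ‖p - q‖ ^ 2 := by
      unfold AA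
      rw [norm_add_sq_real, norm_sub_sq_real, norm_smul, norm_smul, real_inner_smul_left,
        real_inner_smul_right, mul_pow, mul_pow, Real.norm_eq_abs, Real.norm_eq_abs, sq_abs, sq_abs]
      have hb' : b = 1 - a := by linarith
      rw [hb']; ring
    have : 0 ≤ a * b * ‖p - q‖ ^ 2 := by positivity
    linarith
  have hB : a * BB e p + b * BB e q ≤ BB e (a • p + b • q) := by
    have h : BB e (a • p + b • q) - (a * BB e p + b * BB e q) = a * b * (⟪e, p⟫ - ⟪e, q⟫) ^ 2 := by
      unfold BB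
      rw [inner_add_right, real_inner_smul_right, real_inner_smul_right]
      have hb' : b = 1 - a := by linarith
      rw [hb']; ring
    have : 0 ≤ a * b * (⟪e, p⟫ - ⟪e, q⟫) ^ 2 := by positivity
    linarith
  have hA0 : 0 ≤ a * AA p + b * AA q := by positivity
  have hB0 : 0 ≤ a * BB e p + b * BB e q := by positivity
  refine ⟨hA0.trans hA, hB0.trans hB, ?_⟩
  unfold GG at *
  have hprod : (a * BB e p + b * BB e q) * (a * AA p + b * AA q) ≤
      BB e (a • p + b • q) * AA (a • p + b • q) := mul_le_mul hB hA hA0 (hB0.trans hB)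
  set u := BB e p
  set v := AA p
  set u' := BB e q
  set v' := AA q
  have hc : 2 * (1 / 256) ≤ u * v' + u' * v := by
    have h5 : (2 * (1 / 256)) ^ 2 ≤ (u * v' + u' * v) ^ 2 := by
      have h6 : (1 / 256 : ℝ) * (1 / 256) ≤ (u * v) * (u' * v') :=
        mul_le_mul (by linarith) (by linarith) (by norm_num) (by positivity)
      nlinarith [sq_nonneg (u * v' - u' * v)]
    have h7 : 0 ≤ u * v' + u' * v := by positivity
    nlinarith
  have h8 : (a * u + b * u') * (a * v + b * v') = a ^ 2 * (u * v) + b ^ 2 * (u' * v') +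
      a * b * (u * v' + u' * v) := by ring
  have h9 : a ^ 2 * (1 / 256) ≤ a ^ 2 * (u * v) := mul_le_mul_of_nonneg_left (by linarith) (by positivity)
  have h10 : b ^ 2 * (1 / 256) ≤ b ^ 2 * (u' * v') :=
    mul_le_mul_of_nonneg_left (by linarith) (by positivity)
  have h11 : a * b * (2 * (1 / 256)) ≤ a * b * (u * v' + u' * v) :=
    mul_le_mul_of_nonneg_left hc (by positivity)
  have h12 : (a + b) ^ 2 = 1 := by rw [hab]; norm_num
  nlinarith

theorem mem_interior {e p : E} (hA : 0 < AA p) (hB : 0 < BB e p) (hG : GG e p < 0) :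
    p ∈ interior (DD e) := by
  rw [mem_interior_iff_mem_nhds]
  have h1 : ∀ᶠ q in 𝓝 p, 0 < AA q := (AA_cont.tendsto p).eventually_const_lt hA
  have h2 : ∀ᶠ q in 𝓝 p, 0 < BB e q := ((BB_cont e).tendsto p).eventually_const_lt hB
  have h3 : ∀ᶠ q in 𝓝 p, GG e q < 0 := ((GG_cont e).tendsto p).eventually_lt_const hG
  filter_upwards [h1, h2, h3] with q a b c
  exact ⟨a.le, b.le, c.le⟩

theorem norm_pos_of_bdry {e p : E} (hA : 0 < AA p) (hB : 0 < BB e p) (hG : GG e p = 0) :
    0 < ‖p‖ := by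
  rw [norm_pos_iff]
  rintro rfl
  unfold GG AA BB at hG
  norm_num at hG

theorem mem_frontier_iff {e p : E} : p ∈ frontier (DD e) ↔ 0 < AA p ∧ 0 < BB e p ∧ GG e p = 0 := by
  rw [(DD_closed e).frontier_eq]
  change p ∈ DD e ∧ p ∉ interior (DD e) ↔ _
  constructor
  · rintro ⟨h1, h2⟩
    obtain ⟨hA, hB⟩ := pos_of_mem h1
    refine ⟨hA, hB, ?_⟩
    by_contra h
    exact h2 (mem_interior hA hB (lt_of_le_of_ne h1.2.2 h))
  · rintro ⟨hA, hB, hG⟩
    refine ⟨⟨hA.le, hB.le, hG.le⟩, ?_⟩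
    intro hi
    rw [mem_interior_iff_mem_nhds] at hi
    have hc : Tendsto (fun t : ℝ => t • p) (𝓝 1) (𝓝 p) := by
      have : Continuous (fun t : ℝ => t • p) := by fun_prop
      simpa using this.tendsto 1
    have h1 : ∀ᶠ t in 𝓝[>] (1 : ℝ), t • p ∈ DD e := (hc.mono_left nhdsWithin_le_nhds).eventually hi
    obtain ⟨t, ht, ht1⟩ := (h1.and self_mem_nhdsWithin).exists
    have ht1 : 1 < t := ht1
    obtain ⟨h2, h3, h4⟩ := ht
    have hn := norm_pos_of_bdry hA hB hG
    have hAt : AA (t • p) < AA p := by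
      unfold AA
      rw [norm_smul, Real.norm_eq_abs, mul_pow, sq_abs]
      have : 0 < (t ^ 2 - 1) * ‖p‖ ^ 2 := by
        have : 0 < t ^ 2 - 1 := by nlinarith
        positivity
      nlinarith
    have hBt : BB e (t • p) ≤ BB e p := by
      unfold BB
      rw [real_inner_smul_right, mul_pow]
      have : 0 ≤ (t ^ 2 - 1) * ⟪e, p⟫ ^ 2 := by
        have : 0 < t ^ 2 - 1 := by nlinarith
        positivity
      nlinarith
    unfold GG at h4 hG
    have h5 : BB e (t • p) * AA (t • p) ≤ BB e p * AA (t • p) := mul_le_mul_of_nonneg_right hBt h2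
    have h6 : BB e p * AA (t • p) < BB e p * AA p := mul_lt_mul_of_pos_left hAt hB
    linarith

/-- the derivative of `GG` -/
noncomputable def dG (e p : E) : E →L[ℝ] ℝ :=
  (2 * BB e p) • innerSL ℝ p + (2 * ⟪e, p⟫ * AA p) • innerSL ℝ e

theorem dG_apply (e p v : E) :
    dG e p v = 2 * BB e p * ⟪p, v⟫ + 2 * ⟪e, p⟫ * AA p * ⟪e, v⟫ := by
  simp [dG]

theorem GG_hasStrict (e p : E) : HasStrictFDerivAt (GG e) (dG e p) p := by
  have hA : HasStrictFDerivAt (AA : E → ℝ) (-(2 • innerSL ℝ p)) p := by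
    have := (hasStrictFDerivAt_norm_sq p).const_sub 1
    exact this
  have hi : HasStrictFDerivAt (fun q : E => ⟪e, q⟫) (innerSL ℝ e) p :=
    (innerSL ℝ e).hasStrictFDerivAt
  have hB : HasStrictFDerivAt (BB e) (-((2 * ⟪e, p⟫) • innerSL ℝ e)) p := by
    have := (hi.pow 2).const_sub (1 / 16)
    convert! this using 1
    ext v
    simp
  have := (hB.mul hA).const_sub (1 / 256)
  convert! this using 1
  ext v
  rw [dG_apply]
  simp
  ring

theorem GG_contDiff (e : E) : ContDiff ℝ ∞ (GG e) := by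
  unfold GG AA BB
  have h1 : ContDiff ℝ ∞ (fun p : E => ‖p‖ ^ 2) := contDiff_norm_sq ℝ
  have h2 : ContDiff ℝ ∞ (fun p : E => ⟪e, p⟫) := contDiff_const.inner ℝ contDiff_id
  fun_prop

theorem dG_ne {e p : E} (hA : 0 < AA p) (hB : 0 < BB e p) (hG : GG e p = 0) : 0 < dG e p p := by
  have hn := norm_pos_of_bdry hA hB hG
  rw [dG_apply, real_inner_self_eq_norm_sq]
  have : 0 ≤ 2 * ⟪e, p⟫ * AA p * ⟪e, p⟫ := by
    have : 2 * ⟪e, p⟫ * AA p * ⟪e, p⟫ = 2 * AA p * ⟪e, p⟫ ^ 2 := by ring
    rw [this]; positivity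
  have : 0 < 2 * BB e p * ‖p‖ ^ 2 := by positivity
  linarith

/-- the implicit function theorem: a curve in the level set with given velocity -/
theorem exists_curve [CompleteSpace E] {f : E → ℝ} {f' : E →L[ℝ] ℝ} {s v : E}
    (hf : HasStrictFDerivAt f f' s) (h0 : f' ≠ 0) (hv : f' v = 0) :
    ∃ γ : ℝ → E, γ 0 = s ∧ HasDerivAt γ v 0 ∧ ∀ᶠ t in 𝓝 0, f (γ t) = f s := by
  have hr : f'.range = ⊤ := by
    rw [LinearMap.range_eq_top]
    obtain ⟨w, hw⟩ : ∃ w, f' w ≠ 0 := by
      by_contra h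
      push Not at h
      exact h0 (ContinuousLinearMap.ext h)
    intro y
    refine ⟨(y / f' w) • w, ?_⟩
    simp [hw]
  let v' : f'.ker := ⟨v, hv⟩
  refine ⟨fun t => hf.implicitFunction f f' hr (f s) (t • v'), ?_, ?_, ?_⟩
  · simp
  · have h1 := (hf.to_implicitFunction hr).hasFDerivAt
    have h2 : HasDerivAt (fun t : ℝ => t • v') v' 0 := by
      simpa using (hasDerivAt_id (0 : ℝ)).smul_const v'
    have h3 : HasFDerivAt (hf.implicitFunction f f' hr (f s)) f'.ker.subtypeL ((0 : ℝ) • v') := by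
      rw [zero_smul]; exact h1
    have := h3.comp_hasDerivAt (0 : ℝ) h2
    exact this
  · have h1 := hf.map_implicitFunction_eq hr
    have h2 : Tendsto (fun t : ℝ => (f s, t • v')) (𝓝 0) (𝓝 (f s, 0)) := by
      have : Continuous (fun t : ℝ => (f s, t • v')) := by fun_prop
      simpa using this.tendsto 0
    filter_upwards [h2.eventually h1] with t ht
    exact ht

end Pool.Agent.X154.Kl
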