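import Pool.Agent.X154.KlA

set_option autoImplicit false

namespace Pool.Agent.X154.Kl

open Set Filter Topology Metric
open scoped ContDiff RealInnerProductSpace

/-! ### The inequality in one variable -/

noncomputable def Mz (z : ℝ) : ℝ := z ^ 3 + 1 - z - (2 * z - 1) ^ 2 / 16

theorem Mz_pos {z : ℝ} (h0 : 0 ≤ z) : 0 < Mz z := by
  unfold Mz
  nlinarith [sq_nonneg (z - 3 / 5), mul_nonneg h0 (sq_nonneg (z - 3 / 5))]

theorem Mz_le {z : ℝ} (h0 : 0 ≤ z) (h1 : z ≤ 1) : Mz z ≤ 1 := by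
  unfold Mz
  nlinarith [sq_nonneg (2 * z - 1), mul_nonneg h0 (mul_nonneg (sub_nonneg.mpr h1) (by linarith : 0 ≤ 1 + z))]

theorem poly_pos {z : ℝ} (h0 : 0 < z) (h1 : z ≤ 1) :
    z ^ 3 * (Mz z + 3 - 2 * z) ^ 2 ≤ 9 * Mz z ^ 3 := by
  have h : 9 * Mz z ^ 3 - z ^ 3 * (Mz z + 3 - 2 * z) ^ 2 =
      (30375/4096) * z ^ 0 * (1 - z) ^ 9 + (200475/4096) * z ^ 1 * (1 - z) ^ 8 + (8505/64) * z ^ 2 * (1 - z) ^ 7 + (100683/512) * z ^ 3 * (1 - z) ^ 6 + (362763/2048) * z ^ 4 * (1 - z) ^ 5 + (186571/2048) * z ^ 5 * (1 - z) ^ 4 + (9647/512) * z ^ 6 * (1 - z) ^ 3 + (723/128) * z ^ 7 * (1 - z) ^ 2 + (7051/4096) * z ^ 8 * (1 - z) ^ 1 + (14999/4096) * z ^ 9 * (1 - z) ^ 0 := by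
    unfold Mz; ring
  have h2 : 0 ≤ 1 - z := by linarith
  have : 0 ≤ 9 * Mz z ^ 3 - z ^ 3 * (Mz z + 3 - 2 * z) ^ 2 := by rw [h]; positivity
  linarith

/-- the algebraic core: `A B = 1/256`, `y² = 1/16 - B`, `X2 = 1 - A - y²` -/
theorem core {A B y2 X2 Dn : ℝ} (hA : 0 < A) (hA1 : A ≤ 1) (hB : 0 < B) (hAB : B * A = 1 / 256)
    (hy : y2 = 1 / 16 - B) (hX : X2 = 1 - A - y2)
    (hy0 : 0 ≤ y2) (hX0 : 0 ≤ X2)
    (hDn : Dn = B ^ 2 * X2 + y2 * (A + B) ^ 2 + A * X2 * y2) :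
    0 < Dn ∧ Dn ≤ 4096 * B ^ 2 ∧ (B * Dn + (1 / 16 + 2 * y2) * X2 * A * B) ^ 2 ≤ 9 * Dn ^ 3 := by
  set z := 16 * B with hz
  have hz0 : 0 < z := by positivity
  have hz1 : z ≤ 1 := by rw [hz]; linarith
  have hz16 : 1 / 16 ≤ z := by
    rw [hz]
    nlinarith
  have hBz : B = z / 16 := by rw [hz]; ring
  have hAz : A = 1 / (16 * z) := by
    rw [hz]; field_simp; linarith
  have hM := Mz_pos hz0.le
  have hM1 := Mz_le hz0.le hz1
  have hD : Dn = Mz z / (256 * z) := by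
    rw [hDn, hX, hy, hAz, hBz]
    unfold Mz
    field_simp
    ring
  have hX1 : X2 ≤ 1 := by rw [hX]; linarith
  refine ⟨by rw [hD]; positivity, ?_, ?_⟩
  · rw [hD, div_le_iff₀ (by positivity), hBz]
    have : (1 / 16) ^ 3 ≤ z ^ 3 := by gcongr
    nlinarith
  · have hy' : 1 / 16 + 2 * y2 = (3 - 2 * z) / 16 := by rw [hy, hBz]; ring
    have h1 : B * Dn + (1 / 16 + 2 * y2) * X2 * A * B = (Mz z + (3 - 2 * z) * X2) / 4096 := by
      rw [hy', hD, hBz, hAz]
      field_simp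
      ring
    have h2 : 0 ≤ Mz z + (3 - 2 * z) * X2 := by
      have : 0 ≤ 3 - 2 * z := by linarith
      positivity
    have h3 : Mz z + (3 - 2 * z) * X2 ≤ Mz z + 3 - 2 * z := by
      have : 0 ≤ 3 - 2 * z := by linarith
      nlinarith
    rw [h1]
    have h4 : ((Mz z + (3 - 2 * z) * X2) / 4096) ^ 2 ≤ ((Mz z + 3 - 2 * z) / 4096) ^ 2 := by
      gcongr
    refine h4.trans ?_
    have h5 := poly_pos hz0 hz1
    rw [hD, div_pow, div_pow, mul_div_assoc', div_le_div_iff₀ (by norm_num) (by positivity)]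
    have : (256 * z) ^ 3 = 4096 ^ 2 * z ^ 3 := by ring
    rw [this]
    nlinarith

variable {E : Type*} [NormedAddCommGroup E] [InnerProductSpace ℝ E]

/-! ### The domain -/

theorem isDom [FiniteDimensional ℝ E] (hd : 1 < Module.finrank ℝ E) (e : E) :
    IsDom (DD e) := by
  have hc : IsCompact (DD e) := Metric.isCompact_of_isClosed_isBounded (DD_closed e)
    (Metric.isBounded_ball.subset (DD_ball e))
  have hi : (interior (DD e)).Nonempty := by
    refine ⟨0, mem_interior ?_ ?_ ?_⟩ <;> norm_num [AA, BB, GG]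
  refine ⟨DD_ball e, hc, hi, ?_, ?_⟩
  · obtain ⟨h, -, -, h3⟩ := exists_homeomorph_image_interior_closure_frontier_eq_unitBall
      (DD_convex e) hi hc.isBounded
    have h4 : frontier (DD e) = h.symm '' sphere 0 1 := by
      rw [← h3, ← Set.image_comp]; simp
    rw [h4]
    refine IsConnected.image ?_ _ h.symm.continuous.continuousOn
    apply isConnected_sphere _ _ zero_le_one
    rw [← Module.finrank_eq_rank]
    exact_mod_cast hd
  · intro s hs
    obtain ⟨hA, hB, hG⟩ := mem_frontier_iff.mp hs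
    refine ⟨GG e, GG_contDiff e, ?_, ?_⟩
    · rw [(GG_hasStrict e s).hasFDerivAt.fderiv]
      intro h0
      have := dG_ne hA hB hG
      rw [h0] at this
      simp at this
    · have h1 : ∀ᶠ q in 𝓝 s, 0 < AA q := (AA_cont.tendsto s).eventually_const_lt hA
      have h2 : ∀ᶠ q in 𝓝 s, 0 < BB e q := ((BB_cont e).tendsto s).eventually_const_lt hB
      filter_upwards [h1, h2] with p hp hp'
      exact ⟨fun h => h.2.2, fun h => ⟨hp.le, hp'.le, h⟩⟩

/-! ### The normal -/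

noncomputable def nn (K : ℝ) (e p : E) : E :=
  (K * AA p) • ((2 * BB e p) • p + (2 * ⟪e, p⟫ * AA p) • e -
    (2 * BB e p * ‖p‖ ^ 2 + 2 * AA p * ⟪e, p⟫ ^ 2) • p)

theorem met_comm (K : ℝ) (p v w : E) : met K p v w = met K p w v := by
  unfold met
  rw [real_inner_comm, mul_comm ⟪p, v⟫]

theorem met_nn {K : ℝ} (hK : 0 < K) {e p : E} (hA : 0 < AA p) (w : E) :
    met K p (nn K e p) w = dG e p w := by
  unfold met nn
  rw [dG_apply]
  have h1 : 1 - ‖p‖ ^ 2 = AA p := rfl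
  rw [h1]
  have h2 : ‖p‖ ^ 2 = 1 - AA p := by unfold AA; ring
  simp only [real_inner_smul_left, real_inner_smul_right, inner_sub_left, inner_add_left,
    inner_sub_right, inner_add_right]
  rw [real_inner_self_eq_norm_sq, real_inner_comm p e, h2]
  field_simp
  ring

theorem met_add_left (K : ℝ) (p u v w : E) : met K p (u + v) w = met K p u w + met K p v w := by
  unfold met
  rw [inner_add_left, inner_add_right]; ring

theorem met_smul_left (K : ℝ) (p : E) (c : ℝ) (v w : E) : met K p (c • v) w = c * met K p v w := by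
  unfold met
  rw [real_inner_smul_left, real_inner_smul_right]; ring

theorem normal_eq [CompleteSpace E] {K : ℝ} (hK : 0 < K) {e s ν : E} (hs : s ∈ frontier (DD e))
    (hν : IsInwardNormal K (DD e) s ν) :
    ∃ c : ℝ, 0 < c ∧ (∀ w, met K s w ν = -c * dG e s w) ∧ c ^ 2 * dG e s (nn K e s) = 1 := by
  obtain ⟨hA, hB, hG⟩ := mem_frontier_iff.mp hs
  have hpos := dG_ne hA hB hG
  have h0 : dG e s ≠ 0 := by
    intro h; rw [h] at hpos; simp at hpos
  have hker : ∀ v, dG e s v = 0 → met K s v ν = 0 := by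
    intro v hv
    obtain ⟨γ, g1, g2, g3⟩ := exists_curve (GG_hasStrict e s) h0 hv
    refine hν.orth γ v g1 g2 ?_
    have hcont : Tendsto γ (𝓝 0) (𝓝 s) := by
      have := g2.continuousAt
      unfold ContinuousAt at this
      rwa [g1] at this
    have h1 : ∀ᶠ q in 𝓝 s, 0 < AA q := (AA_cont.tendsto s).eventually_const_lt hA
    have h2 : ∀ᶠ q in 𝓝 s, 0 < BB e q := ((BB_cont e).tendsto s).eventually_const_lt hB
    filter_upwards [g3, hcont.eventually h1, hcont.eventually h2] with t a b c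
    rw [mem_frontier_iff]
    exact ⟨b, c, by rw [a, hG]⟩
  set c := -(met K s s ν / dG e s s) with hc
  have hw : ∀ w, met K s w ν = -c * dG e s w := by
    intro w
    have h1 := hker (w + (-(dG e s w / dG e s s)) • s) (by
      rw [map_add, map_smul, smul_eq_mul]
      field_simp
      ring)
    rw [met_add_left, met_smul_left] at h1
    rw [hc]
    field_simp
    field_simp at h1
    linarith
  have hle : dG e s ν ≤ 0 := by
    have h1 : HasDerivAt (fun t : ℝ => GG e (s + t • ν)) (dG e s ν) 0 := by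
      have h2 : HasDerivAt (fun t : ℝ => s + t • ν) ν 0 := by
        simpa using ((hasDerivAt_id (0 : ℝ)).smul_const ν).const_add s
      have h3 : HasFDerivAt (GG e) (dG e s) (s + (0 : ℝ) • ν) := by
        rw [zero_smul, add_zero]; exact (GG_hasStrict e s).hasFDerivAt
      exact h3.comp_hasDerivAt (0 : ℝ) h2
    have h4 := h1.hasDerivWithinAt (s := Ioi 0)
    rw [hasDerivWithinAt_iff_tendsto_slope' (by simp)] at h4
    refine le_of_tendsto h4 ?_
    filter_upwards [hν.inward, self_mem_nhdsWithin] with t ht ht0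
    have ht0 : 0 < t := ht0
    rw [slope_def_field, zero_smul, add_zero, hG, sub_zero, sub_zero]
    exact div_nonpos_of_nonpos_of_nonneg ht.2.2 ht0.le
  have h1 := hw ν
  rw [hν.unit] at h1
  have hcpos : 0 < c := by
    by_contra h
    push Not at h
    have : 0 ≤ c * dG e s ν := mul_nonneg_of_nonpos_of_nonpos h hle
    linarith
  refine ⟨c, hcpos, hw, ?_⟩
  have h2 := hw (nn K e s)
  rw [met_nn hK hA] at h2
  rw [h2] at h1
  linarith

/-- the value of `|∇G|²` -/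
noncomputable def Dn (e p : E) : ℝ :=
  BB e p ^ 2 * (‖p‖ ^ 2 - ⟪e, p⟫ ^ 2) + ⟪e, p⟫ ^ 2 * (AA p + BB e p) ^ 2 +
    AA p * (‖p‖ ^ 2 - ⟪e, p⟫ ^ 2) * ⟪e, p⟫ ^ 2

theorem dG_nn {K : ℝ} {e p : E} (he : ‖e‖ = 1) :
    dG e p (nn K e p) = 4 * K * AA p ^ 2 * Dn e p := by
  rw [dG_apply]
  unfold nn Dn
  have h2 : ‖p‖ ^ 2 = 1 - AA p := by unfold AA; ring
  simp only [real_inner_smul_right, inner_sub_right, inner_add_right]
  rw [real_inner_self_eq_norm_sq, real_inner_self_eq_norm_sq, real_inner_comm e p, h2, he]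
  ring

end Pool.Agent.X154.Kl
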