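import Pool.Agent.X154.KlB

set_option autoImplicit false

namespace Pool.Agent.X154.Kl

open Set Filter Topology Metric
open scoped ContDiff RealInnerProductSpace

variable {E : Type*} [NormedAddCommGroup E] [InnerProductSpace ℝ E]

theorem curve_eqs {e : E} {γ : ℝ → E} (hγ : ContDiffAt ℝ 2 γ 0)
    (hf : ∀ᶠ t in 𝓝 0, γ t ∈ frontier (DD e)) :
    dG e (γ 0) (deriv γ 0) = 0 ∧
    2 * BB e (γ 0) * ‖deriv γ 0‖ ^ 2 + 2 * AA (γ 0) * ⟪e, deriv γ 0⟫ ^ 2 -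
      8 * ⟪e, γ 0⟫ * ⟪e, deriv γ 0⟫ * ⟪γ 0, deriv γ 0⟫ + dG e (γ 0) (deriv (deriv γ) 0) = 0 := by
  have h1 : ∀ᶠ t in 𝓝 0, HasDerivAt γ (deriv γ t) t := by
    have h : ∀ᶠ t in 𝓝 (0 : ℝ), ContDiffAt ℝ 2 γ t := hγ.eventually (by simp)
    filter_upwards [h] with t ht
    exact (ht.differentiableAt (by norm_num)).hasDerivAt
  have h2 : HasDerivAt (deriv γ) (deriv (deriv γ) 0) 0 := by
    have h : ContDiffAt ℝ 1 (deriv γ) 0 := by
      have h7 : ContDiffAt ℝ 1 (fderiv ℝ γ) 0 := hγ.fderiv_right (by norm_num)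
      have h8 : ContDiffAt ℝ 1 (fun t => fderiv ℝ γ t 1) 0 := h7.clm_apply contDiffAt_const
      exact h8
    exact (h.differentiableAt (by norm_num)).hasDerivAt
  have hG : ∀ᶠ t in 𝓝 0, GG e (γ t) = 0 := hf.mono fun t ht => (mem_frontier_iff.mp ht).2.2
  have h3 : ∀ᶠ t in 𝓝 0, dG e (γ t) (deriv γ t) = 0 := by
    filter_upwards [h1, eventually_eventually_nhds.mpr hG] with t a b
    have h4 : HasDerivAt (fun t => GG e (γ t)) (dG e (γ t) (deriv γ t)) t :=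
      (GG_hasStrict e (γ t)).hasFDerivAt.comp_hasDerivAt t a
    have h5 : (fun t => GG e (γ t)) =ᶠ[𝓝 t] fun _ => 0 := b
    have h6 : HasDerivAt (fun t => GG e (γ t)) 0 t := (hasDerivAt_const t (0 : ℝ)).congr_of_eventuallyEq h5
    exact h4.unique h6
  refine ⟨h3.self_of_nhds, ?_⟩
  have hγ0 := h1.self_of_nhds
  have hy : HasDerivAt (fun t => ⟪e, γ t⟫) ⟪e, deriv γ 0⟫ 0 := by
    have := (hasDerivAt_const (0 : ℝ) e).inner ℝ hγ0
    simpa using this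
  have hy' : HasDerivAt (fun t => ⟪e, deriv γ t⟫) ⟪e, deriv (deriv γ) 0⟫ 0 := by
    have := (hasDerivAt_const (0 : ℝ) e).inner ℝ h2
    simpa using this
  have hn : HasDerivAt (fun t => ⟪γ t, deriv γ t⟫)
      (⟪γ 0, deriv (deriv γ) 0⟫ + ⟪deriv γ 0, deriv γ 0⟫) 0 := hγ0.inner ℝ h2
  have hA : HasDerivAt (fun t => AA (γ t)) (-(2 * ⟪γ 0, deriv γ 0⟫)) 0 := by
    have := (hγ0.norm_sq).const_sub 1
    exact this
  have hB : HasDerivAt (fun t => BB e (γ t)) (-(2 * ⟪e, γ 0⟫ * ⟪e, deriv γ 0⟫)) 0 := by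
    have := (hy.pow 2).const_sub (1 / 16)
    convert! this using 1
    ring
  have h4 := ((hB.const_mul 2).mul hn).add (((hy.const_mul 2).mul hA).mul hy')
  have h5 : (fun t => 2 * BB e (γ t) * ⟪γ t, deriv γ t⟫ + 2 * ⟪e, γ t⟫ * AA (γ t) * ⟪e, deriv γ t⟫)
      =ᶠ[𝓝 0] fun _ => 0 := by
    filter_upwards [h3] with t ht
    rw [dG_apply] at ht
    exact ht
  have h6 := h4.unique ((hasDerivAt_const (0 : ℝ) (0 : ℝ)).congr_of_eventuallyEq h5)
  rw [dG_apply]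
  rw [real_inner_self_eq_norm_sq] at h6
  simp only [Pi.mul_apply] at h6
  linear_combination h6

theorem scalar {A B y w q V X2 D c K : ℝ} (hK : 0 < K) (hA : 0 < A) (hB : 0 < B)
    (hy : y ^ 2 = 1 / 16 - B) (hX0 : 0 ≤ X2)
    (hV : w ^ 2 ≤ V)
    (e1 : 2 * B * q + 2 * y * A * w = 0) (hcs : (q - y * w) ^ 2 ≤ X2 * (V - w ^ 2))
    (hD : D = B ^ 2 * X2 + y ^ 2 * (A + B) ^ 2 + A * X2 * y ^ 2)
    (hD0 : 0 < D) (hD1 : D ≤ 4096 * B ^ 2)
    (hD2 : (B * D + (1 / 16 + 2 * y ^ 2) * X2 * A * B) ^ 2 ≤ 9 * D ^ 3)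
    (hc : 0 < c) (hcn : c ^ 2 * (4 * K * A ^ 2 * D) = 1) :
    c * (2 * B * V + 2 * A * w ^ 2 - 8 * y * w * q) ≤ 3 * √K * ((V / A + q ^ 2 / A ^ 2) / K) ∧
    √K / 64 * ((V / A + q ^ 2 / A ^ 2) / K) ≤ c * (2 * B * V + 2 * A * w ^ 2 - 8 * y * w * q) := by
  have hq : q = -(y * A * w / B) := by
    field_simp
    linarith
  set g := V / A + q ^ 2 / A ^ 2 with hg
  have hV0 : 0 ≤ V := (sq_nonneg w).trans hV
  have hg0 : 0 ≤ g := by positivity
  set T := B * g + (1 / 16 + 2 * y ^ 2) * w ^ 2 / B with hT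
  have h1 : 2 * B * V + 2 * A * w ^ 2 - 8 * y * w * q = 2 * A * T := by
    rw [hT, hg, hq]
    field_simp
    have : y ^ 2 = 1 / 16 - B := hy
    ring_nf
    rw [this]
    ring
  set d := √D with hd
  have hdp : 0 < d := Real.sqrt_pos.mpr hD0
  have hdd : d ^ 2 = D := Real.sq_sqrt hD0.le
  have hk : 0 < √K := Real.sqrt_pos.mpr hK
  have hkk : √K ^ 2 = K := Real.sq_sqrt hK.le
  set m := 2 * A * c * √K with hm
  have hmp : 0 < m := by positivity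
  have hmd : m * d = 1 := by
    have : (m * d) ^ 2 = 1 ^ 2 := by
      rw [mul_pow, hdd, hm, mul_pow, hkk]
      linarith
    exact (pow_left_inj₀ (by positivity) (by norm_num) two_ne_zero).mp this
  have hwD : w ^ 2 * D ≤ X2 * A * B ^ 2 * g := by
    have h2 : X2 * A * B ^ 2 * g = B ^ 2 * X2 * V + X2 * (B * q) ^ 2 / A := by
      rw [hg]; field_simp
    have h3 : (B * q) ^ 2 = y ^ 2 * A ^ 2 * w ^ 2 := by
      rw [hq]; field_simp
    have h4 : B ^ 2 * (q - y * w) ^ 2 = y ^ 2 * (A + B) ^ 2 * w ^ 2 := by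
      rw [hq]; field_simp; ring
    have h5 : B ^ 2 * (q - y * w) ^ 2 ≤ B ^ 2 * (X2 * (V - w ^ 2)) :=
      mul_le_mul_of_nonneg_left hcs (by positivity)
    rw [h2, h3, hD]
    have h6 : X2 * (y ^ 2 * A ^ 2 * w ^ 2) / A = X2 * y ^ 2 * A * w ^ 2 := by field_simp
    rw [h6]
    nlinarith
  have hup : T ≤ 3 * d * g := by
    have h2 : B * D + (1 / 16 + 2 * y ^ 2) * X2 * A * B ≤ 3 * d ^ 3 := by
      have h3 : (B * D + (1 / 16 + 2 * y ^ 2) * X2 * A * B) ^ 2 ≤ (3 * d ^ 3) ^ 2 := by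
        have : (3 * d ^ 3) ^ 2 = 9 * D ^ 3 := by rw [← hdd]; ring
        rw [this]; exact hD2
      exact (abs_le_of_sq_le_sq' h3 (by positivity)).2
    have h4 : T * D ≤ 3 * d * g * D := by
      have h5 : T * D = B * g * D + (1 / 16 + 2 * y ^ 2) / B * (w ^ 2 * D) := by
        rw [hT]; ring
      have h6 : (1 / 16 + 2 * y ^ 2) / B * (w ^ 2 * D) ≤
          (1 / 16 + 2 * y ^ 2) / B * (X2 * A * B ^ 2 * g) :=
        mul_le_mul_of_nonneg_left hwD (by positivity)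
      have h7 : (1 / 16 + 2 * y ^ 2) / B * (X2 * A * B ^ 2 * g) =
          (1 / 16 + 2 * y ^ 2) * X2 * A * B * g := by field_simp
      have h8 : (B * D + (1 / 16 + 2 * y ^ 2) * X2 * A * B) * g ≤ 3 * d ^ 3 * g :=
        mul_le_mul_of_nonneg_right h2 hg0
      have h9 : 3 * d * g * D = 3 * d ^ 3 * g := by rw [← hdd]; ring
      rw [h5, h9]
      linarith
    exact le_of_mul_le_mul_right h4 hD0
  have hlo : d / 64 * g ≤ T := by
    have h2 : d ≤ 64 * B := by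
      have : d ^ 2 ≤ (64 * B) ^ 2 := by rw [hdd]; linarith
      exact (abs_le_of_sq_le_sq' this (by positivity)).2
    have h3 : d / 64 * g ≤ B * g := mul_le_mul_of_nonneg_right (by linarith) hg0
    have h4 : 0 ≤ (1 / 16 + 2 * y ^ 2) * w ^ 2 / B := by positivity
    linarith
  have hmT : c * (2 * A * T) = m * T / √K := by
    rw [hm]; field_simp
  have hgk : g / K = g / √K / √K := by
    rw [div_div, ← sq, hkk]
  rw [h1, hmT, hgk]
  constructor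
  · have h3 : m * T ≤ 3 * g := by
      calc m * T ≤ m * (3 * d * g) := mul_le_mul_of_nonneg_left hup hmp.le
        _ = 3 * (m * d) * g := by ring
        _ = 3 * g := by rw [hmd]; ring
    have h4 : 3 * √K * (g / √K / √K) = 3 * g / √K := by field_simp
    rw [h4]
    gcongr
  · have h3 : 1 / 64 * g ≤ m * T := by
      calc 1 / 64 * g = (m * d) / 64 * g := by rw [hmd]
        _ = m * (d / 64 * g) := by ring
        _ ≤ m * T := mul_le_mul_of_nonneg_left hlo hmp.le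
    have h4 : √K / 64 * (g / √K / √K) = 1 / 64 * g / √K := by field_simp
    rw [h4]
    gcongr

/-- the second fundamental form along a curve in the boundary -/
theorem second_form [CompleteSpace E] {K : ℝ} (hK : 0 < K) {e : E} (he : ‖e‖ = 1) {γ : ℝ → E}
    (hγ : ContDiffAt ℝ 2 γ 0) (hf : ∀ᶠ t in 𝓝 0, γ t ∈ frontier (DD e)) {ν : E}
    (hν : IsInwardNormal K (DD e) (γ 0) ν) :
    met K (γ 0) (acc γ 0) ν ≤ 3 * √K * met K (γ 0) (deriv γ 0) (deriv γ 0) ∧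
    √K / 64 * met K (γ 0) (deriv γ 0) (deriv γ 0) ≤ met K (γ 0) (acc γ 0) ν := by
  obtain ⟨e1, e2⟩ := curve_eqs hγ hf
  have hs := hf.self_of_nhds
  obtain ⟨hA, hB, hG⟩ := mem_frontier_iff.mp hs
  obtain ⟨c, hc, hw, hcn⟩ := normal_eq hK hs hν
  rw [dG_nn he] at hcn
  set p := γ 0 with hp
  set v := deriv γ 0 with hv
  set a := deriv (deriv γ) 0 with ha
  have hacc : met K p (acc γ 0) ν = c * (2 * BB e p * ‖v‖ ^ 2 + 2 * AA p * ⟪e, v⟫ ^ 2 -
      8 * ⟪e, p⟫ * ⟪e, v⟫ * ⟪p, v⟫) := by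
    unfold acc
    rw [met_add_left, met_smul_left, hw, hw, e1]
    linear_combination (-c) * e2
  rw [dG_apply] at e1
  -- scalars
  have hA1 := AA_le p
  have hAB : BB e p * AA p = 1 / 256 := by unfold GG at hG; linarith
  have hy : ⟪e, p⟫ ^ 2 = 1 / 16 - BB e p := by unfold BB; ring
  have hX : ‖p‖ ^ 2 - ⟪e, p⟫ ^ 2 = 1 - AA p - ⟪e, p⟫ ^ 2 := by unfold AA; ring
  have hcs0 : ⟪e, p⟫ ^ 2 ≤ ‖p‖ ^ 2 := by
    have := abs_real_inner_le_norm e p
    rw [he, one_mul] at this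
    rw [← sq_abs]
    gcongr
  have hX0 : 0 ≤ ‖p‖ ^ 2 - ⟪e, p⟫ ^ 2 := by linarith
  obtain ⟨hD0, hD1, hD2⟩ := core hA hA1 hB hAB hy hX (sq_nonneg _) hX0 (Dn := Dn e p) rfl
  -- Cauchy-Schwarz for the components orthogonal to `e`
  have hcs : (⟪p, v⟫ - ⟪e, p⟫ * ⟪e, v⟫) ^ 2 ≤
      (‖p‖ ^ 2 - ⟪e, p⟫ ^ 2) * (‖v‖ ^ 2 - ⟪e, v⟫ ^ 2) := by
    have h1 := abs_real_inner_le_norm (p - ⟪e, p⟫ • e) (v - ⟪e, v⟫ • e)
    have h2 : ⟪p - ⟪e, p⟫ • e, v - ⟪e, v⟫ • e⟫ = ⟪p, v⟫ - ⟪e, p⟫ * ⟪e, v⟫ := by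
      simp only [inner_sub_left, inner_sub_right, real_inner_smul_left, real_inner_smul_right]
      rw [real_inner_self_eq_norm_sq, he, real_inner_comm e p]; ring
    have h3 : ∀ q : E, ‖q - ⟪e, q⟫ • e‖ ^ 2 = ‖q‖ ^ 2 - ⟪e, q⟫ ^ 2 := by
      intro q
      rw [norm_sub_sq_real, real_inner_smul_right, norm_smul, he, mul_one, Real.norm_eq_abs, sq_abs,
        real_inner_comm]
      ring
    rw [h2] at h1
    rw [← h3 p, ← h3 v, ← mul_pow, ← sq_abs]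
    gcongr
  have hmet : met K p v v = (‖v‖ ^ 2 / AA p + ⟪p, v⟫ ^ 2 / AA p ^ 2) / K := by
    unfold met AA
    rw [real_inner_self_eq_norm_sq]; ring
  have hV : ⟪e, v⟫ ^ 2 ≤ ‖v‖ ^ 2 := by
    have := abs_real_inner_le_norm e v
    rw [he, one_mul] at this
    rw [← sq_abs]
    gcongr
  rw [hmet, hacc]
  exact scalar hK hA hB hy hX0 hV e1 hcs rfl hD0 hD1 hD2 hc hcn

end Pool.Agent.X154.Kl
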