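import Pool.Agent.X154.KlC

set_option autoImplicit false

namespace Pool.Agent.X154.Kl

open Set Filter Topology Metric
open scoped ContDiff RealInnerProductSpace

variable {E : Type*} [NormedAddCommGroup E] [InnerProductSpace ℝ E]

theorem tanh_mono : StrictMono Real.tanh := by
  intro a b h
  rw [Real.tanh_eq_sinh_div_cosh, Real.tanh_eq_sinh_div_cosh,
    div_lt_div_iff₀ (Real.cosh_pos _) (Real.cosh_pos _)]
  have := Real.sinh_pos_iff.mpr (sub_pos.mpr h)
  rw [Real.sinh_sub] at this
  linarith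

theorem one_sub_tanh_sq (a : ℝ) : 1 - Real.tanh a ^ 2 = 1 / Real.cosh a ^ 2 := by
  rw [Real.tanh_eq_sinh_div_cosh]
  have h := Real.cosh_sq a
  have h0 := Real.cosh_pos a
  field_simp
  linarith

theorem hdist_axis {K : ℝ} {e : E} (he : ‖e‖ = 1) (a b : ℝ) :
    hdist K (Real.tanh a • e) (Real.tanh b • e) = |a - b| / √K := by
  unfold hdist
  congr 1
  have ha := Real.cosh_pos a
  have hb := Real.cosh_pos b
  rw [norm_smul, norm_smul, he, mul_one, mul_one, Real.norm_eq_abs, Real.norm_eq_abs, sq_abs, sq_abs,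
    real_inner_smul_left, real_inner_smul_right, real_inner_self_eq_norm_sq, he, one_sub_tanh_sq,
    one_sub_tanh_sq]
  have h1 : √(1 / Real.cosh a ^ 2 * (1 / Real.cosh b ^ 2)) = 1 / (Real.cosh a * Real.cosh b) := by
    rw [show 1 / Real.cosh a ^ 2 * (1 / Real.cosh b ^ 2) = (1 / (Real.cosh a * Real.cosh b)) ^ 2 by
      field_simp]
    exact Real.sqrt_sq (by positivity)
  rw [h1]
  have h2 : (1 - Real.tanh a * (Real.tanh b * 1 ^ 2)) / (1 / (Real.cosh a * Real.cosh b)) =
      Real.cosh (a - b) := by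
    rw [Real.cosh_sub, Real.tanh_eq_sinh_div_cosh, Real.tanh_eq_sinh_div_cosh]
    field_simp
  rw [h2, ← Real.cosh_abs]
  exact Real.arcosh_cosh (abs_nonneg _)

theorem axis_AA {e : E} (he : ‖e‖ = 1) (x : ℝ) : AA (x • e) = 1 - x ^ 2 := by
  unfold AA
  rw [norm_smul, he, mul_one, Real.norm_eq_abs, sq_abs]

theorem axis_BB {e : E} (he : ‖e‖ = 1) (x : ℝ) : BB e (x • e) = 1 / 16 - x ^ 2 := by
  unfold BB
  rw [real_inner_smul_right, real_inner_self_eq_norm_sq, he]; ring

/-- half the width of the domain at the waist -/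
theorem exists_w : ∃ w : ℝ, 0 < w ∧ w < 1 / 4 ∧ (1 / 16 - w ^ 2) * (1 - w ^ 2) = 1 / 256 := by
  have h0 : (15 : ℝ) < √229 := by
    rw [Real.lt_sqrt (by norm_num)]; norm_num
  have h1 : √229 < (17 : ℝ) := by
    rw [Real.sqrt_lt' (by norm_num)]; norm_num
  have h2 : √(229 : ℝ) ^ 2 = 229 := Real.sq_sqrt (by norm_num)
  have hu : 0 < (17 - √229) / 32 := by linarith
  have hs : √((17 - √229) / 32) ^ 2 = (17 - √229) / 32 := Real.sq_sqrt hu.le
  refine ⟨√((17 - √229) / 32), Real.sqrt_pos.mpr hu, ?_, ?_⟩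
  · rw [Real.sqrt_lt' (by norm_num)]; linarith
  · rw [hs]; nlinarith

theorem mem_axis {e : E} (he : ‖e‖ = 1) {w x : ℝ} (hw : 0 < w) (hw4 : w < 1 / 4)
    (hw2 : (1 / 16 - w ^ 2) * (1 - w ^ 2) = 1 / 256) (hx : x ^ 2 ≤ w ^ 2) : x • e ∈ DD e := by
  have h1 : w ^ 2 < 1 / 16 := by nlinarith
  refine ⟨?_, ?_, ?_⟩
  · rw [axis_AA he]; linarith
  · rw [axis_BB he]; linarith
  · unfold GG
    rw [axis_AA he, axis_BB he]
    have : (1 / 16 - w ^ 2) * (1 - w ^ 2) ≤ (1 / 16 - x ^ 2) * (1 - x ^ 2) :=
      mul_le_mul (by linarith) (by linarith) (by linarith) (by linarith)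
    linarith

theorem not_mem_axis {e : E} (he : ‖e‖ = 1) {w x : ℝ} (hw : 0 < w) (hw4 : w < 1 / 4)
    (hw2 : (1 / 16 - w ^ 2) * (1 - w ^ 2) = 1 / 256) (hx : w < x) : x • e ∉ DD e := by
  rintro ⟨h1, h2, h3⟩
  unfold GG at h3
  rw [axis_AA he] at h1 h3
  rw [axis_BB he] at h2 h3
  have h4 : w ^ 2 < x ^ 2 := by nlinarith
  have h5 : (1 / 16 - x ^ 2) * (1 - x ^ 2) ≤ (1 / 16 - x ^ 2) * (1 - w ^ 2) :=
    mul_le_mul_of_nonneg_left (by linarith) h2
  have h6 : (1 / 16 - x ^ 2) * (1 - w ^ 2) < (1 / 16 - w ^ 2) * (1 - w ^ 2) :=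
    mul_lt_mul_of_pos_right (by linarith) (by nlinarith)
  linarith

theorem frontier_axis {e : E} (he : ‖e‖ = 1) {w : ℝ} (hw : 0 < w) (hw4 : w < 1 / 4)
    (hw2 : (1 / 16 - w ^ 2) * (1 - w ^ 2) = 1 / 256) : (-w) • e ∈ frontier (DD e) := by
  rw [mem_frontier_iff, axis_AA he, axis_BB he]
  unfold GG
  rw [axis_AA he, axis_BB he]
  have h1 : w ^ 2 < 1 / 16 := by nlinarith
  refine ⟨by nlinarith, by nlinarith, by linear_combination -hw2⟩

theorem normal_axis {K : ℝ} (hK : 0 < K) {e : E} (he : ‖e‖ = 1) {w : ℝ} (hw : 0 < w)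
    (hw4 : w < 1 / 4) (hw2 : (1 / 16 - w ^ 2) * (1 - w ^ 2) = 1 / 256) :
    IsInwardNormal K (DD e) ((-w) • e) ((√K * (1 - w ^ 2)) • e) := by
  have h1 : w ^ 2 < 1 / 16 := by nlinarith
  have hkk : √K ^ 2 = K := Real.sq_sqrt hK.le
  have hk : 0 < √K := Real.sqrt_pos.mpr hK
  have hn : 1 - ‖(-w) • e‖ ^ 2 = 1 - w ^ 2 := by
    have := axis_AA he (-w)
    unfold AA at this
    rw [this]; ring
  have h2 : (1 - w ^ 2) ≠ 0 := by linarith
  refine ⟨?_, ?_, ?_⟩
  · unfold met
    rw [hn]
    simp only [real_inner_smul_left, real_inner_smul_right]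
    rw [real_inner_self_eq_norm_sq, he]
    field_simp
    rw [hkk]; ring
  · intro γ v g1 g2 g3
    have h3 : HasDerivAt (fun t => GG e (γ t)) (dG e ((-w) • e) v) 0 := by
      have h4 : HasFDerivAt (GG e) (dG e ((-w) • e)) (γ 0) := by
        rw [g1]; exact (GG_hasStrict e _).hasFDerivAt
      exact h4.comp_hasDerivAt (0 : ℝ) g2
    have h5 : (fun t => GG e (γ t)) =ᶠ[𝓝 0] fun _ => 0 := by
      filter_upwards [g3] with t ht
      exact (mem_frontier_iff.mp ht).2.2
    have h6 := h3.unique ((hasDerivAt_const (0 : ℝ) (0 : ℝ)).congr_of_eventuallyEq h5)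
    rw [dG_apply, axis_AA he, axis_BB he, real_inner_smul_left, real_inner_smul_right,
      real_inner_self_eq_norm_sq, he] at h6
    have h7 : ⟪e, v⟫ = 0 := by
      have h8 : (-2 * w * (1 / 16 - w ^ 2 + (1 - w ^ 2))) * ⟪e, v⟫ = 0 := by
        linear_combination h6
      rcases mul_eq_zero.mp h8 with h9 | h9
      · exfalso
        have : 0 < w * (1 / 16 - w ^ 2 + (1 - w ^ 2)) := by
          apply mul_pos hw; linarith
        linarith
      · exact h9
    unfold met
    rw [real_inner_smul_right, real_inner_smul_left, real_inner_comm, h7]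
    ring
  · have hc : Tendsto (fun t : ℝ => -w + t * (√K * (1 - w ^ 2))) (𝓝[>] 0) (𝓝 (-w)) := by
      have : Continuous (fun t : ℝ => -w + t * (√K * (1 - w ^ 2))) := by fun_prop
      have := (this.tendsto 0).mono_left (nhdsWithin_le_nhds (s := Ioi 0))
      simpa using this
    have h3 : ∀ᶠ t in 𝓝[>] (0 : ℝ), -w + t * (√K * (1 - w ^ 2)) < w :=
      hc.eventually_lt_const (by linarith)
    filter_upwards [h3, self_mem_nhdsWithin] with t ht ht0
    have ht0 : 0 < t := ht0
    rw [smul_smul, ← add_smul]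
    apply mem_axis he hw hw4 hw2
    have h4 : 0 < t * (√K * (1 - w ^ 2)) := by
      have : 0 < 1 - w ^ 2 := by linarith
      positivity
    nlinarith

theorem not_rolls {K : ℝ} (hK : 0 < K) {e : E} (he : ‖e‖ = 1) {R : ℝ}
    (hR : 3 / 10 < √K * R) : ¬ RollsFreely K (DD e) R := by
  obtain ⟨w, hw, hw4, hw2⟩ := exists_w
  intro hroll
  have hk : 0 < √K := Real.sqrt_pos.mpr hK
  have h1 : w ^ 2 < 1 / 16 := by nlinarith
  set ρ := √K * R with hρ
  set h := Real.artanh w with hh
  have hwm : w ∈ Ioo (-1 : ℝ) 1 := ⟨by linarith, by linarith⟩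
  have hth : Real.tanh h = w := Real.tanh_artanh hwm
  have hth' : Real.tanh (-h) = -w := by rw [Real.tanh_neg, hth]
  have hmono : StrictMono Real.tanh := tanh_mono
  have hh3 : h < 3 / 10 := by
    rw [← hmono.lt_iff_lt, hth]
    have h2 : Real.cosh (3 / 10) < 12 / 10 := by
      have h3 := Real.cosh_le_exp_half_sq (3 / 10)
      have h4 : Real.exp ((3 / 10) ^ 2 / 2) < 12 / 10 := by
        have h5 := Real.exp_bound_div_one_sub_of_interval' (x := (3 / 10) ^ 2 / 2) (by norm_num)
          (by norm_num)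
        refine h5.trans_le ?_
        norm_num
      linarith
    have h3 : 3 / 10 ≤ Real.sinh (3 / 10) := Real.self_le_sinh_iff.mpr (by norm_num)
    have h4 : 1 / 4 < Real.tanh (3 / 10) := by
      rw [Real.tanh_eq_sinh_div_cosh, lt_div_iff₀ (Real.cosh_pos _)]
      linarith
    linarith
  have hs : (-w) • e = Real.tanh (-h) • e := by rw [hth']
  set τ := (Real.tanh (-h + ρ) + w) / (√K * (1 - w ^ 2)) with hτ
  have hden : 0 < √K * (1 - w ^ 2) := by
    have : 0 < 1 - w ^ 2 := by linarith
    positivity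
  have hτ0 : 0 ≤ τ := by
    have : Real.tanh (-h) < Real.tanh (-h + ρ) := hmono (by linarith)
    rw [hth'] at this
    apply div_nonneg _ hden.le
    linarith
  have hb : (-w) • e + τ • ((√K * (1 - w ^ 2)) • e) = Real.tanh (-h + ρ) • e := by
    rw [smul_smul, ← add_smul, hτ, div_mul_cancel₀ _ hden.ne']
    congr 1
    ring
  have hlt : ∀ x : ℝ, ‖Real.tanh x • e‖ < 1 := by
    intro x
    rw [norm_smul, he, mul_one, Real.norm_eq_abs]
    exact Real.abs_tanh_lt_one x
  have hkR : |ρ| / √K = R := by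
    rw [abs_of_pos (by linarith), hρ]; field_simp
  have key := hroll _ (frontier_axis he hw hw4 hw2) _ (normal_axis hK he hw hw4 hw2) τ hτ0
    (by rw [hb]; exact hlt _)
    (by
      rw [hb, hs, hdist_axis he]
      rw [show -h - (-h + ρ) = -ρ by ring, abs_neg]
      exact hkR)
    (Real.tanh (-h + 2 * ρ) • e) (hlt _)
    (by
      rw [hb, hdist_axis he]
      rw [show -h + ρ - (-h + 2 * ρ) = -ρ by ring, abs_neg, hkR])
  refine not_mem_axis he hw hw4 hw2 ?_ key
  rw [← hth]
  exact hmono (by linarith)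

/-! ### The constants -/

theorem exists_R {c K : ℝ} (hK : 0 < K) (hcK : 4096 * |c| ≤ K) :
    ∃ R : ℝ, 0 < R ∧ (0 < c → R * √c < Real.pi) ∧ ct c R = 3 * √K ∧ 3 / 10 < √K * R := by
  have hk : 0 < √K := Real.sqrt_pos.mpr hK
  have hsq : √|c| ≤ √K / 64 := by
    rw [Real.sqrt_le_left (by positivity), div_pow, Real.sq_sqrt hK.le]
    linarith
  rcases lt_trichotomy c 0 with hc | hc | hc
  · -- c < 0
    have hm : 0 < √(-c) := Real.sqrt_pos.mpr (by linarith)
    rw [abs_of_neg hc] at hsq
    set m := √(-c) with hmdef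
    set t := m / (3 * √K) with ht
    have ht0 : 0 < t := by positivity
    have ht1 : t ≤ 1 / 192 := by
      rw [ht, div_le_iff₀ (by positivity)]; linarith
    have htm : t ∈ Ioo (-1 : ℝ) 1 := ⟨by linarith, by linarith⟩
    have hx0 : 0 < Real.artanh t := Real.artanh_pos ⟨ht0, by linarith⟩
    have hlow : 9 / 10 * t < Real.artanh t := by
      rw [Real.artanh_eq_half_log ⟨by linarith, by linarith⟩]
      have h1 : (0 : ℝ) < (1 + t) / (1 - t) := div_pos (by linarith) (by linarith)
      have h2 := Real.one_sub_inv_le_log_of_pos h1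
      have h3 : 1 - ((1 + t) / (1 - t))⁻¹ = 2 * t / (1 + t) := by
        have : (1 : ℝ) - t ≠ 0 := by linarith
        field_simp
        ring
      rw [h3] at h2
      have h4 : 2 * (9 / 10 * t) < 2 * t / (1 + t) := by
        rw [lt_div_iff₀ (by linarith)]
        nlinarith
      linarith
    refine ⟨Real.artanh t / m, by positivity, fun h => absurd h (by linarith), ?_, ?_⟩
    · have hsn : sn c = fun t => Real.sinh (t * m) / m := by
        ext t
        unfold sn
        rw [if_neg (by linarith), if_neg (by linarith)]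
      have hd : HasDerivAt (sn c) (Real.cosh (Real.artanh t / m * m)) (Real.artanh t / m) := by
        rw [hsn]
        have h1 : HasDerivAt (fun y : ℝ => y * m) m (Real.artanh t / m) := by
          simpa using (hasDerivAt_id (Real.artanh t / m)).mul_const m
        have h2 := (h1.sinh).div_const m
        convert! h2 using 1
        field_simp
      unfold ct
      rw [hd.deriv, hsn]
      simp only
      rw [div_mul_cancel₀ _ hm.ne']
      have h3 := Real.tanh_artanh htm
      rw [Real.tanh_eq_sinh_div_cosh] at h3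
      have h5 := Real.cosh_pos (Real.artanh t)
      have h4 : Real.sinh (Real.artanh t) = t * Real.cosh (Real.artanh t) := by
        rwa [div_eq_iff h5.ne'] at h3
      rw [h4]
      have h6 : t * (3 * √K) = m := by rw [ht]; field_simp
      rw [← h6]
      field_simp
    · have h1 : √K * (Real.artanh t / m) = Real.artanh t / (3 * t) := by
        rw [ht]; field_simp
      rw [h1, lt_div_iff₀ (by positivity)]
      linarith
  · -- c = 0
    subst hc
    refine ⟨1 / (3 * √K), by positivity, fun h => absurd h (lt_irrefl _), ?_, ?_⟩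
    · have hsn : sn 0 = fun t => t := by
        ext t
        unfold sn
        simp
      unfold ct
      rw [hsn]
      simp
    · have : √K * (1 / (3 * √K)) = 1 / 3 := by field_simp
      rw [this]; norm_num
  · -- c > 0
    have hm : 0 < √c := Real.sqrt_pos.mpr hc
    rw [abs_of_pos hc] at hsq
    set m := √c with hmdef
    set t := m / (3 * √K) with ht
    have ht0 : 0 < t := by positivity
    have ht1 : t ≤ 1 / 192 := by
      rw [ht, div_le_iff₀ (by positivity)]; linarith
    have hx0 : 0 < Real.arctan t := Real.arctan_pos.mpr ht0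
    have hx1 : Real.arctan t < Real.pi / 2 := Real.arctan_lt_pi_div_two t
    have hlow : 9 / 10 * t < Real.arctan t := by
      have h1 := Real.sin_le hx0.le
      rw [Real.sin_arctan] at h1
      refine lt_of_lt_of_le ?_ h1
      have h2 : √(1 + t ^ 2) < 10 / 9 := by
        rw [Real.sqrt_lt' (by norm_num)]
        nlinarith
      rw [lt_div_iff₀ (by positivity)]
      nlinarith
    refine ⟨Real.arctan t / m, by positivity, fun _ => ?_, ?_, ?_⟩
    · rw [div_mul_cancel₀ _ hm.ne']
      linarith [Real.pi_pos]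
    · have hsn : sn c = fun t => Real.sin (t * m) / m := by
        ext t
        unfold sn
        rw [if_pos hc]
      have hd : HasDerivAt (sn c) (Real.cos (Real.arctan t / m * m)) (Real.arctan t / m) := by
        rw [hsn]
        have h1 : HasDerivAt (fun y : ℝ => y * m) m (Real.arctan t / m) := by
          simpa using (hasDerivAt_id (Real.arctan t / m)).mul_const m
        have h2 := (h1.sin).div_const m
        convert! h2 using 1
        field_simp
      unfold ct
      rw [hd.deriv, hsn]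
      simp only
      rw [div_mul_cancel₀ _ hm.ne', Real.sin_arctan, Real.cos_arctan, ht]
      have h5 : 0 < √(1 + (m / (3 * √K)) ^ 2) := by positivity
      field_simp
    · have h1 : √K * (Real.arctan t / m) = Real.arctan t / (3 * t) := by
        rw [ht]; field_simp
      rw [h1, lt_div_iff₀ (by positivity)]
      linarith

end Pool.Agent.X154.Kl
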