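import Mathlib
import Pool.Agent.Helper27.Har.P_global_ode

set_option autoImplicit false

/-!
Linear second order equations `f'' = q f` on the line: existence, uniqueness, dependence on `q`.
-/

namespace Pool.Agent.X154.SolM

open Set Filter Topology

/-- `f'' = q f`, with `g = f'` -/
structure Sl (q f g : ℝ → ℝ) : Prop where
  hf : ∀ t, HasDerivAt f (g t) t
  hg : ∀ t, HasDerivAt g (q t * f t) t

namespace Sl

variable {q f g : ℝ → ℝ}

theorem cf (h : Sl q f g) : Continuous f := continuous_iff_continuousAt.mpr fun t => (h.hf t).continuousAt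
theorem cg (h : Sl q f g) : Continuous g := continuous_iff_continuousAt.mpr fun t => (h.hg t).continuousAt

theorem shift (h : Sl q f g) (c : ℝ) :
    Sl (fun t => q (t + c)) (fun t => f (t + c)) (fun t => g (t + c)) :=
  ⟨fun t => (h.hf (t + c)).comp_add_const t c, fun t => (h.hg (t + c)).comp_add_const t c⟩

theorem reflect (h : Sl q f g) : Sl (fun t => q (-t)) (fun t => f (-t)) (fun t => -g (-t)) := by
  constructor
  · intro t
    have h1 : HasDerivAt (fun s : ℝ => -s) (-1) t := hasDerivAt_neg t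
    have := (h.hf (-t)).comp t h1
    convert! this using 1
    ring
  · intro t
    have h1 : HasDerivAt (fun s : ℝ => -s) (-1) t := hasDerivAt_neg t
    have := ((h.hg (-t)).comp t h1).neg
    convert! this using 1
    ring

theorem neg (h : Sl q f g) : Sl q (fun t => -f t) (fun t => -g t) :=
  ⟨fun t => (h.hf t).neg, fun t => by have := (h.hg t).neg; convert! this using 1; ring⟩

end Sl

theorem gron {h h' : ℝ → ℝ × ℝ} {K ε R : ℝ} (hh : ∀ t, HasDerivAt h (h' t) t) (h0 : h 0 = 0)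
    (hb : ∀ t ∈ Ico (0 : ℝ) R, ‖h' t‖ ≤ K * ‖h t‖ + ε) :
    ∀ t ∈ Icc (0 : ℝ) R, ‖h t‖ ≤ gronwallBound 0 K ε t := by
  intro t ht
  have := norm_le_gronwallBound_of_norm_deriv_right_le (f := h) (f' := h') (δ := 0) (K := K)
    (ε := ε) (a := 0) (b := R) (fun t _ => (hh t).continuousAt.continuousWithinAt)
    (fun t _ => (hh t).hasDerivWithinAt) (by rw [h0, norm_zero]) hb t ht
  simpa using this

/-- dependence on the coefficient -/
theorem close {q₁ q₂ f₁ g₁ f₂ g₂ : ℝ → ℝ} (h₁ : Sl q₁ f₁ g₁) (h₂ : Sl q₂ f₂ g₂)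
    (e0 : f₁ 0 = f₂ 0) (e1 : g₁ 0 = g₂ 0) {K B ε R : ℝ} (hK : 1 ≤ K) (hB : 0 ≤ B) (hε : 0 ≤ ε)
    (hq : ∀ t ∈ Icc (0 : ℝ) R, |q₁ t| ≤ K) (hqq : ∀ t ∈ Icc (0 : ℝ) R, |q₁ t - q₂ t| ≤ ε)
    (hf : ∀ t ∈ Icc (0 : ℝ) R, |f₂ t| ≤ B) :
    ∀ t ∈ Icc (0 : ℝ) R, |f₁ t - f₂ t| ≤ ε * (B * Real.exp (K * R)) ∧
      |g₁ t - g₂ t| ≤ ε * (B * Real.exp (K * R)) := by
  intro t ht
  have hh : ∀ t, HasDerivAt (fun t => (f₁ t - f₂ t, g₁ t - g₂ t))
      (g₁ t - g₂ t, q₁ t * f₁ t - q₂ t * f₂ t) t := fun t =>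
    ((h₁.hf t).sub (h₂.hf t)).prodMk ((h₁.hg t).sub (h₂.hg t))
  have key := gron (K := K) (ε := ε * B) (R := R) hh (by simp [e0, e1]) (by
    intro t ht
    have ht' : t ∈ Icc (0 : ℝ) R := Ico_subset_Icc_self ht
    rw [Prod.norm_def]
    have hn1 : |f₁ t - f₂ t| ≤ ‖(f₁ t - f₂ t, g₁ t - g₂ t)‖ := norm_fst_le (f₁ t - f₂ t, g₁ t - g₂ t)
    have hn2 : |g₁ t - g₂ t| ≤ ‖(f₁ t - f₂ t, g₁ t - g₂ t)‖ := norm_snd_le (f₁ t - f₂ t, g₁ t - g₂ t)
    set n := ‖(f₁ t - f₂ t, g₁ t - g₂ t)‖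
    have hn0 : 0 ≤ n := norm_nonneg _
    apply max_le
    · rw [Real.norm_eq_abs]
      have : n ≤ K * n := by nlinarith
      have : 0 ≤ ε * B := by positivity
      linarith
    · rw [Real.norm_eq_abs]
      have e : q₁ t * f₁ t - q₂ t * f₂ t = q₁ t * (f₁ t - f₂ t) + (q₁ t - q₂ t) * f₂ t := by ring
      rw [e]
      refine (abs_add_le _ _).trans ?_
      rw [abs_mul, abs_mul]
      have a1 : |q₁ t| * |f₁ t - f₂ t| ≤ K * n :=
        mul_le_mul (hq t ht') hn1 (abs_nonneg _) (by linarith)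
      have a2 : |q₁ t - q₂ t| * |f₂ t| ≤ ε * B :=
        mul_le_mul (hqq t ht') (hf t ht') (abs_nonneg _) hε
      linarith) t ht
  have hg : gronwallBound 0 K (ε * B) t ≤ ε * (B * Real.exp (K * R)) := by
    rw [gronwallBound_of_K_ne_0 (by linarith)]
    have h1 : ε * B / K * (Real.exp (K * t) - 1) ≤ ε * B * Real.exp (K * R) := by
      have h2 : ε * B / K ≤ ε * B := div_le_self (by positivity) hK
      have h3 : Real.exp (K * t) - 1 ≤ Real.exp (K * R) := by
        have : Real.exp (K * t) ≤ Real.exp (K * R) := by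
          apply Real.exp_le_exp.mpr
          exact mul_le_mul_of_nonneg_left ht.2 (by linarith)
        linarith
      have h4 : 0 ≤ Real.exp (K * t) - 1 := by
        have := Real.one_le_exp (x := K * t) (by have := ht.1; positivity)
        linarith
      exact mul_le_mul h2 h3 h4 (by positivity)
    linarith
  rw [Prod.norm_def] at key
  have k1 := (le_max_left _ _).trans key
  have k2 := (le_max_right _ _).trans key
  rw [Real.norm_eq_abs] at k1 k2
  exact ⟨k1.trans hg, k2.trans hg⟩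

theorem zero_of_zero_right {q f g : ℝ → ℝ} (h : Sl q f g) (hq : Continuous q) (e0 : f 0 = 0)
    (e1 : g 0 = 0) : ∀ t, 0 ≤ t → f t = 0 ∧ g t = 0 := by
  intro t ht
  obtain ⟨K, hK⟩ := (isCompact_Icc (a := (0 : ℝ)) (b := t)).exists_bound_of_continuousOn hq.continuousOn
  have h2 : Sl q (fun _ => 0) (fun _ => 0) :=
    ⟨fun t => hasDerivAt_const _ _, fun t => by simpa using hasDerivAt_const t (0 : ℝ)⟩
  have := close h h2 e0 e1 (K := max 1 K) (B := 0) (ε := 0) (R := t) (le_max_left _ _) le_rfl le_rfl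
    (fun s hs => (hK s hs).trans (le_max_right _ _)) (fun s _ => by simp) (fun s _ => by simp) t
    ⟨ht, le_rfl⟩
  simpa using this

theorem zero_of_zero {q f g : ℝ → ℝ} (h : Sl q f g) (hq : Continuous q) {t₀ : ℝ} (e0 : f t₀ = 0)
    (e1 : g t₀ = 0) (t : ℝ) : f t = 0 ∧ g t = 0 := by
  have hs := h.shift t₀
  have hqs : Continuous (fun t => q (t + t₀)) := hq.comp (continuous_id.add continuous_const)
  rcases le_total t₀ t with ht | ht
  · have := zero_of_zero_right hs hqs (by simpa using e0) (by simpa using e1) (t - t₀) (by linarith)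
    simpa using this
  · have hr := hs.reflect
    have hqr : Continuous (fun t => q (-t + t₀)) := hqs.comp continuous_neg
    have := zero_of_zero_right hr hqr (by simpa using e0) (by simpa using e1) (t₀ - t) (by linarith)
    simpa using this

theorem unique {q f₁ g₁ f₂ g₂ : ℝ → ℝ} (h₁ : Sl q f₁ g₁) (h₂ : Sl q f₂ g₂) (hq : Continuous q)
    {t₀ : ℝ} (e0 : f₁ t₀ = f₂ t₀) (e1 : g₁ t₀ = g₂ t₀) (t : ℝ) : f₁ t = f₂ t ∧ g₁ t = g₂ t := by
  have h : Sl q (fun t => f₁ t - f₂ t) (fun t => g₁ t - g₂ t) :=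
    ⟨fun t => (h₁.hf t).sub (h₂.hf t), fun t => by
      have := (h₁.hg t).sub (h₂.hg t); convert! this using 1; ring⟩
  have := zero_of_zero h hq (t₀ := t₀) (by simp [e0]) (by simp [e1]) t
  exact ⟨sub_eq_zero.mp this.1, sub_eq_zero.mp this.2⟩

/-- existence for a bounded coefficient -/
theorem exists_bdd {q : ℝ → ℝ} (hq : Continuous q) {K : ℝ} (hK : ∀ t, |q t| ≤ K) (a b : ℝ) :
    ∃ f g, Sl q f g ∧ f 0 = a ∧ g 0 = b := by
  obtain ⟨ξ, h0, h1⟩ := Haraux.global_ode (E := ℝ × ℝ) (fun t z => (z.2, q t * z.1))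
    (Real.toNNReal (max 1 K)) (by
      intro t
      apply LipschitzWith.of_dist_le_mul
      intro z w
      rw [Real.coe_toNNReal _ (by positivity), Prod.dist_eq, Prod.dist_eq]
      simp only [Real.dist_eq]
      have h1 : |z.1 - w.1| ≤ max |z.1 - w.1| |z.2 - w.2| := le_max_left _ _
      have h2 : |z.2 - w.2| ≤ max |z.1 - w.1| |z.2 - w.2| := le_max_right _ _
      set n := max |z.1 - w.1| |z.2 - w.2|
      have hn : 0 ≤ n := (abs_nonneg _).trans h1
      apply max_le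
      · have : 1 * n ≤ max 1 K * n := mul_le_mul_of_nonneg_right (le_max_left _ _) hn
        linarith
      · rw [← mul_sub, abs_mul]
        exact mul_le_mul ((hK t).trans (le_max_right _ _)) h1 (abs_nonneg _) (by positivity))
    (by
      have : Continuous fun p : ℝ × (ℝ × ℝ) => (p.2.2, q p.1 * p.2.1) := by fun_prop
      exact this) (a, b)
  refine ⟨fun t => (ξ t).1, fun t => (ξ t).2, ⟨fun t => ?_, fun t => ?_⟩, by simp [h0], by simp [h0]⟩
  · exact (h1 t).fst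
  · exact (h1 t).snd

theorem exists_sol {q : ℝ → ℝ} (hq : Continuous q) (a b : ℝ) :
    ∃ f g, Sl q f g ∧ f 0 = a ∧ g 0 = b := by
  -- truncations
  let cl : ℕ → ℝ → ℝ := fun n t => max (-((n : ℝ) + 1)) (min ((n : ℝ) + 1) t)
  have hcl : ∀ n, Continuous (cl n) := fun n => by fun_prop
  have hcl2 : ∀ (n : ℕ) (t : ℝ), |t| ≤ (n : ℝ) + 1 → cl n t = t := by
    intro n t ht
    have := abs_le.mp ht
    simp only [cl]
    rw [min_eq_right this.2, max_eq_right this.1]
  have hcl3 : ∀ (n : ℕ) (t : ℝ), cl n t ∈ Icc (-((n : ℝ) + 1)) ((n : ℝ) + 1) := by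
    intro n t
    have hn : (0 : ℝ) ≤ n := n.cast_nonneg
    exact ⟨le_max_left _ _, max_le (by linarith) (min_le_left _ _)⟩
  have hex : ∀ n : ℕ, ∃ f g, Sl (fun t => q (cl n t)) f g ∧ f 0 = a ∧ g 0 = b := by
    intro n
    obtain ⟨K, hK⟩ := (isCompact_Icc (a := -((n : ℝ) + 1)) (b := (n : ℝ) + 1)).exists_bound_of_continuousOn
      hq.continuousOn
    exact exists_bdd (hq.comp (hcl n)) (K := K) (fun t => hK _ (hcl3 n t)) a b
  choose F G hS hF0 hG0 using hex
  -- they agree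
  have hag : ∀ (n m : ℕ) (t : ℝ), n ≤ m → |t| ≤ (n : ℝ) + 1 → F n t = F m t ∧ G n t = G m t := by
    intro n m t hnm ht
    have hnm' : (n : ℝ) ≤ m := by exact_mod_cast hnm
    have right : ∀ (q₁ q₂ f₁ g₁ f₂ g₂ : ℝ → ℝ), Sl q₁ f₁ g₁ → Sl q₂ f₂ g₂ → f₁ 0 = f₂ 0 →
        g₁ 0 = g₂ 0 → Continuous q₁ → Continuous f₂ → (∀ s ∈ Icc (0 : ℝ) ((n : ℝ) + 1), q₁ s = q₂ s) →
        ∀ s ∈ Icc (0 : ℝ) ((n : ℝ) + 1), f₁ s = f₂ s ∧ g₁ s = g₂ s := by
      intro q₁ q₂ f₁ g₁ f₂ g₂ s₁ s₂ e0 e1 c₁ c₂ hqq s hs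
      obtain ⟨K, hK⟩ := (isCompact_Icc (a := (0 : ℝ)) (b := (n : ℝ) + 1)).exists_bound_of_continuousOn
        c₁.continuousOn
      obtain ⟨B, hB⟩ := (isCompact_Icc (a := (0 : ℝ)) (b := (n : ℝ) + 1)).exists_bound_of_continuousOn
        c₂.continuousOn
      have := close s₁ s₂ e0 e1 (K := max 1 K) (B := max 0 B) (ε := 0) (R := (n : ℝ) + 1)
        (le_max_left _ _) (le_max_left _ _) le_rfl
        (fun u hu => (hK u hu).trans (le_max_right _ _)) (fun u hu => by rw [hqq u hu]; simp)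
        (fun u hu => (hB u hu).trans (le_max_right _ _)) s hs
      rw [zero_mul] at this
      exact ⟨sub_eq_zero.mp (abs_eq_zero.mp (le_antisymm this.1 (abs_nonneg _))),
        sub_eq_zero.mp (abs_eq_zero.mp (le_antisymm this.2 (abs_nonneg _)))⟩
    have hb := abs_le.mp ht
    rcases le_total 0 t with h0 | h0
    · exact right _ _ _ _ _ _ (hS n) (hS m) (by rw [hF0, hF0]) (by rw [hG0, hG0])
        (hq.comp (hcl n)) (hS m).cf (by
          intro s hs
          have h1 : |s| ≤ (n : ℝ) + 1 := by rw [abs_of_nonneg hs.1]; exact hs.2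
          show q (cl n s) = q (cl m s)
          rw [hcl2 n s h1, hcl2 m s (by linarith)]) t ⟨h0, hb.2⟩
    · have := right _ _ _ _ _ _ (hS n).reflect (hS m).reflect (by simp [hF0]) (by simp [hG0])
        ((hq.comp (hcl n)).comp continuous_neg) (hS m).reflect.cf (by
          intro s hs
          have h1 : |(-s)| ≤ (n : ℝ) + 1 := by rw [abs_neg, abs_of_nonneg hs.1]; exact hs.2
          show q (cl n (-s)) = q (cl m (-s))
          rw [hcl2 n _ h1, hcl2 m _ (by linarith)]) (-t) ⟨by linarith, by linarith⟩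
      simpa using this
  refine ⟨fun t => F ⌈|t|⌉₊ t, fun t => G ⌈|t|⌉₊ t, ?_, by simp [hF0], by simp [hG0]⟩
  have hloc : ∀ t : ℝ, ∀ᶠ s in 𝓝 t, F ⌈|s|⌉₊ s = F (⌈|t|⌉₊ + 1) s ∧ G ⌈|s|⌉₊ s = G (⌈|t|⌉₊ + 1) s := by
    intro t
    have h1 : ∀ᶠ s in 𝓝 t, |s| < |t| + 1 := (continuous_abs.tendsto t).eventually (gt_mem_nhds (by linarith))
    filter_upwards [h1] with s hs
    apply hag
    · apply Nat.ceil_le.mpr
      push_cast
      linarith [Nat.le_ceil |t|]
    · linarith [Nat.le_ceil |s|]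
  constructor
  · intro t
    have h1 := (hS (⌈|t|⌉₊ + 1)).hf t
    have h2 := hloc t
    have h3 := h2.self_of_nhds
    show HasDerivAt _ (G ⌈|t|⌉₊ t) t
    rw [h3.2]
    exact h1.congr_of_eventuallyEq (h2.mono fun s hs => hs.1)
  · intro t
    have h1 := (hS (⌈|t|⌉₊ + 1)).hg t
    have h2 := hloc t
    have h3 := h2.self_of_nhds
    show HasDerivAt _ (q t * F ⌈|t|⌉₊ t) t
    rw [h3.1]
    change HasDerivAt _ (q (cl _ t) * _) t at h1
    rw [hcl2 _ t (by push_cast; linarith [Nat.le_ceil |t|])] at h1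
    exact h1.congr_of_eventuallyEq (h2.mono fun s hs => hs.2)

/-! ### Monotonicity -/

theorem mono_of {f f' : ℝ → ℝ} (h : ∀ t, HasDerivAt f (f' t) t) {a b : ℝ} (hab : a ≤ b)
    (h0 : ∀ t ∈ Ioo a b, 0 ≤ f' t) : f a ≤ f b := by
  have hm : MonotoneOn f (Icc a b) := by
    apply monotoneOn_of_deriv_nonneg (convex_Icc a b)
    · exact fun t _ => (h t).continuousAt.continuousWithinAt
    · exact fun t _ => (h t).differentiableAt.differentiableWithinAt
    · intro t ht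
      rw [interior_Icc] at ht
      rw [(h t).deriv]
      exact h0 t ht
  exact hm ⟨le_rfl, hab⟩ ⟨hab, le_rfl⟩ hab

theorem smono_of {f f' : ℝ → ℝ} (h : ∀ t, HasDerivAt f (f' t) t) {a b : ℝ} (hab : a < b)
    (h0 : ∀ t ∈ Ioo a b, 0 < f' t) : f a < f b := by
  have hm : StrictMonoOn f (Icc a b) := by
    apply strictMonoOn_of_deriv_pos (convex_Icc a b)
    · exact fun t _ => (h t).continuousAt.continuousWithinAt
    · intro t ht
      rw [interior_Icc] at ht
      rw [(h t).deriv]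
      exact h0 t ht
  exact hm ⟨le_rfl, hab.le⟩ ⟨hab.le, le_rfl⟩ hab

theorem first_zero {f : ℝ → ℝ} (hf : Continuous f) {a c : ℝ} (hac : a ≤ c) (ha : 0 < f a)
    (hc : f c ≤ 0) : ∃ b, a < b ∧ b ≤ c ∧ f b = 0 ∧ ∀ t ∈ Ico a b, 0 < f t := by
  set S := {t ∈ Icc a c | f t ≤ 0} with hS
  have hSc : IsCompact S := isCompact_Icc.inter_right (isClosed_le hf continuous_const)
  have hSn : S.Nonempty := ⟨c, ⟨hac, le_rfl⟩, hc⟩
  have hm := hSc.sInf_mem hSn
  set b := sInf S with hb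
  have hlt : ∀ t ∈ Ico a b, 0 < f t := by
    intro t ht
    by_contra hn
    push Not at hn
    have : b ≤ t := csInf_le hSc.bddBelow ⟨⟨ht.1, ht.2.le.trans hm.1.2⟩, hn⟩
    linarith [ht.2]
  have hab : a < b := by
    rcases hm.1.1.lt_or_eq with h | h
    · exact h
    · exfalso
      have := hm.2
      rw [← h] at this
      linarith
  refine ⟨b, hab, hm.1.2, le_antisymm hm.2 ?_, hlt⟩
  have h1 : Tendsto f (𝓝[<] b) (𝓝 (f b)) := hf.continuousAt.mono_left nhdsWithin_le_nhds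
  refine ge_of_tendsto h1 ?_
  filter_upwards [Ioo_mem_nhdsLT hab] with t ht
  exact (hlt t ⟨ht.1.le, ht.2⟩).le

/-- once positive and nondecreasing in a region where `q > 0`, always so -/
theorem stay_pos {q f g : ℝ → ℝ} (h : Sl q f g) {t₁ : ℝ} (hf : 0 < f t₁) (hg : 0 ≤ g t₁)
    (hq : ∀ t, t₁ ≤ t → 0 < q t) : (∀ t, t₁ ≤ t → 0 < f t) ∧ (∀ t, t₁ < t → 0 < g t) := by
  have hpos : ∀ t, t₁ ≤ t → 0 < f t := by
    intro t ht
    by_contra hn
    push Not at hn
    obtain ⟨b, hb1, hb2, hb3, hb4⟩ := first_zero h.cf ht hf hn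
    have hg' : ∀ s ∈ Ioo t₁ b, 0 ≤ g s := by
      intro s hs
      have := mono_of h.hg hs.1.le (fun u hu => mul_nonneg (hq u hu.1.le).le
        (hb4 u ⟨hu.1.le, hu.2.trans hs.2⟩).le)
      linarith
    have := mono_of h.hf hb1.le hg'
    linarith
  refine ⟨hpos, fun t ht => ?_⟩
  have := smono_of h.hg ht (fun u hu => mul_pos (hq u hu.1.le) (hpos u hu.1.le))
  linarith

end Pool.Agent.X154.SolM
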