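import Pool.Agent.X154.SolA

set_option autoImplicit false

/-!
The ground state of `-f'' + κ cosh(2 t) f = E f`.
-/

namespace Pool.Agent.X154.SolM

open Set Filter Topology

/-- the coefficient -/
noncomputable def qq (κ E t : ℝ) : ℝ := κ * Real.cosh (2 * t) - E

theorem qq_cont (κ E : ℝ) : Continuous (qq κ E) := by
  unfold qq
  fun_prop

noncomputable def fE (κ E : ℝ) : ℝ → ℝ := Classical.choose (exists_sol (qq_cont κ E) 1 0)
noncomputable def gE (κ E : ℝ) : ℝ → ℝ :=
  Classical.choose (Classical.choose_spec (exists_sol (qq_cont κ E) 1 0))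

theorem slE (κ E : ℝ) : Sl (qq κ E) (fE κ E) (gE κ E) :=
  (Classical.choose_spec (Classical.choose_spec (exists_sol (qq_cont κ E) 1 0))).1
theorem fE0 (κ E : ℝ) : fE κ E 0 = 1 :=
  (Classical.choose_spec (Classical.choose_spec (exists_sol (qq_cont κ E) 1 0))).2.1
theorem gE0 (κ E : ℝ) : gE κ E 0 = 0 :=
  (Classical.choose_spec (Classical.choose_spec (exists_sol (qq_cont κ E) 1 0))).2.2

theorem qq_even (κ E t : ℝ) : qq κ E (-t) = qq κ E t := by
  unfold qq
  rw [mul_neg, Real.cosh_neg]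

theorem fE_even (κ E t : ℝ) : fE κ E (-t) = fE κ E t := by
  have h1 := (slE κ E).reflect
  have h2 : Sl (qq κ E) (fun t => fE κ E (-t)) (fun t => -gE κ E (-t)) := by
    have : (fun t => qq κ E (-t)) = qq κ E := funext (qq_even κ E)
    rwa [this] at h1
  exact (unique h2 (slE κ E) (qq_cont κ E) (t₀ := 0) (by simp) (by simp [gE0]) t).1

/-- continuity in the parameter -/
theorem cont_E (κ E₀ : ℝ) (hκ : 0 ≤ κ) {R ε : ℝ} (hε : 0 < ε) :
    ∃ δ > 0, ∀ E, |E - E₀| < δ → ∀ t ∈ Icc (0 : ℝ) R,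
      |fE κ E t - fE κ E₀ t| < ε ∧ |gE κ E t - gE κ E₀ t| < ε := by
  obtain ⟨B, hB⟩ := (isCompact_Icc (a := (0 : ℝ)) (b := R)).exists_bound_of_continuousOn
    (slE κ E₀).cf.continuousOn
  set K : ℝ := 1 + κ * Real.cosh (2 * R) + |E₀| + 1 with hK
  have hcosh : 0 < Real.cosh (2 * R) := Real.cosh_pos _
  have hK1 : 1 ≤ K := by
    have : 0 ≤ κ * Real.cosh (2 * R) := by positivity
    have := abs_nonneg E₀
    rw [hK]; linarith
  set C : ℝ := max 0 B * Real.exp (K * R) with hC
  have hC0 : 0 ≤ C := by positivity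
  refine ⟨min 1 (ε / (C + 1)), by positivity, fun E hE t ht => ?_⟩
  have hE1 : |E - E₀| < 1 := hE.trans_le (min_le_left _ _)
  have hE2 : |E - E₀| < ε / (C + 1) := hE.trans_le (min_le_right _ _)
  have key := close (slE κ E) (slE κ E₀) (by rw [fE0, fE0]) (by rw [gE0, gE0]) (K := K)
    (B := max 0 B) (ε := |E - E₀|) (R := R) hK1 (le_max_left _ _) (abs_nonneg _) (by
      intro s hs
      unfold qq
      have h1 : Real.cosh (2 * s) ≤ Real.cosh (2 * R) := by
        rw [Real.cosh_le_cosh, abs_of_nonneg (by linarith [hs.1]), abs_of_nonneg (by linarith [hs.1, hs.2])]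
        linarith [hs.2]
      have h2 : 0 < Real.cosh (2 * s) := Real.cosh_pos _
      have h3 : κ * Real.cosh (2 * s) ≤ κ * Real.cosh (2 * R) := mul_le_mul_of_nonneg_left h1 hκ
      have h4 : 0 ≤ κ * Real.cosh (2 * s) := by positivity
      have h5 := abs_lt.mp hE1
      have h6 := neg_abs_le E₀
      have h7 := le_abs_self E₀
      rw [abs_le, hK]
      constructor <;> linarith) (by
      intro s _
      unfold qq
      rw [show κ * Real.cosh (2 * s) - E - (κ * Real.cosh (2 * s) - E₀) = -(E - E₀) by ring, abs_neg])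
    (fun s hs => (hB s hs).trans (le_max_right _ _)) t ht
  have h8 : |E - E₀| * C < ε := by
    have : |E - E₀| * C ≤ |E - E₀| * (C + 1) := by nlinarith [abs_nonneg (E - E₀)]
    have h9 : |E - E₀| * (C + 1) < ε := by rwa [lt_div_iff₀ (by positivity)] at hE2
    linarith
  exact ⟨key.1.trans_lt h8, key.2.trans_lt h8⟩

/-- the parameters without zeros -/
def PP (κ : ℝ) : Set ℝ := {E | ∀ t, 0 ≤ t → 0 < fE κ E t}

theorem zero_mem {κ : ℝ} (hκ : 0 < κ) : (0 : ℝ) ∈ PP κ := by
  intro t ht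
  refine (stay_pos (slE κ 0) (t₁ := 0) (by rw [fE0]; norm_num) (by rw [gE0]) ?_).1 t ht
  intro s _
  unfold qq
  have := Real.cosh_pos (2 * s)
  rw [sub_zero]
  positivity

theorem upper {κ : ℝ} (hκ : 0 < κ) {E : ℝ} (hE : E ∈ PP κ) {S : ℝ} (hS : 0 < S) :
    E ≤ κ * Real.cosh (2 * S) + (Real.pi / (2 * S)) ^ 2 := by
  by_contra hn
  push Not at hn
  set ω := Real.pi / (2 * S) with hω
  have hω0 : 0 < ω := by positivity
  have hc : ∀ t, HasDerivAt (fun t => Real.cos (ω * t)) (-(ω * Real.sin (ω * t))) t := by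
    intro t
    have h1 : HasDerivAt (fun t => ω * t) ω t := by simpa using (hasDerivAt_id t).const_mul ω
    convert! h1.cos using 1
    ring
  have hs : ∀ t, HasDerivAt (fun t => -(ω * Real.sin (ω * t))) (-(ω ^ 2 * Real.cos (ω * t))) t := by
    intro t
    have h1 : HasDerivAt (fun t => ω * t) ω t := by simpa using (hasDerivAt_id t).const_mul ω
    convert! (h1.sin.const_mul ω).neg using 1
    ring
  have h := slE κ E
  have hW : ∀ t, HasDerivAt (fun t => fE κ E t * (-(ω * Real.sin (ω * t))) - gE κ E t * Real.cos (ω * t))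
      ((E - κ * Real.cosh (2 * t) - ω ^ 2) * (fE κ E t * Real.cos (ω * t))) t := by
    intro t
    convert! ((h.hf t).mul (hs t)).sub ((h.hg t).mul (hc t)) using 1
    unfold qq
    ring
  have := smono_of hW hS (by
    intro t ht
    have h1 : 0 < fE κ E t := hE t ht.1.le
    have h2 : 0 < Real.cos (ω * t) := by
      apply Real.cos_pos_of_mem_Ioo
      constructor
      · have : 0 < ω * t := mul_pos hω0 ht.1
        linarith [Real.pi_pos]
      · have : ω * t < ω * S := mul_lt_mul_of_pos_left ht.2 hω0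
        have e : ω * S = Real.pi / 2 := by rw [hω]; field_simp
        linarith
    have h3 : Real.cosh (2 * t) ≤ Real.cosh (2 * S) := by
      rw [Real.cosh_le_cosh, abs_of_nonneg (by linarith [ht.1]), abs_of_nonneg (by linarith)]
      linarith [ht.2]
    have h4 : κ * Real.cosh (2 * t) ≤ κ * Real.cosh (2 * S) := mul_le_mul_of_nonneg_left h3 hκ.le
    apply mul_pos
    · linarith
    · positivity)
  have e : ω * S = Real.pi / 2 := by rw [hω]; field_simp
  simp only [mul_zero, Real.sin_zero, neg_zero, gE0, zero_mul, sub_zero, e, Real.sin_pi_div_two,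
    Real.cos_pi_div_two, mul_one, mul_neg] at this
  have h1 : 0 < fE κ E S := hE S hS.le
  have h2 : 0 < fE κ E S * ω := by positivity
  linarith

/-- the ground energy -/
noncomputable def EE (κ : ℝ) : ℝ := sSup (PP κ)

theorem bdd {κ : ℝ} (hκ : 0 < κ) : BddAbove (PP κ) :=
  ⟨_, fun _ hE => upper hκ hE (S := 1) one_pos⟩

theorem EE_le {κ : ℝ} (hκ : 0 < κ) {S : ℝ} (hS : 0 < S) :
    EE κ ≤ κ * Real.cosh (2 * S) + (Real.pi / (2 * S)) ^ 2 :=
  csSup_le ⟨0, zero_mem hκ⟩ fun _ hE => upper hκ hE hS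

theorem EE_nonneg {κ : ℝ} (hκ : 0 < κ) : 0 ≤ EE κ := le_csSup (bdd hκ) (zero_mem hκ)

theorem EE_near {κ : ℝ} (hκ : 0 < κ) {δ : ℝ} (hδ : 0 < δ) : ∃ E ∈ PP κ, |E - EE κ| < δ := by
  obtain ⟨E, hE, hE2⟩ := exists_lt_of_lt_csSup ⟨0, zero_mem hκ⟩ (show EE κ - δ < sSup (PP κ) by
    unfold EE; linarith)
  refine ⟨E, hE, ?_⟩
  have : E ≤ EE κ := le_csSup (bdd hκ) hE
  rw [abs_lt]
  constructor <;> linarith

theorem EE_mem {κ : ℝ} (hκ : 0 < κ) : EE κ ∈ PP κ := by
  intro t ht
  by_contra hn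
  push Not at hn
  obtain ⟨b, hb0, -, hb, hpos⟩ := first_zero (slE κ (EE κ)).cf ht (by rw [fE0]; norm_num) hn
  have hg : gE κ (EE κ) b ≠ 0 := by
    intro hg
    have := (zero_of_zero (slE κ (EE κ)) (qq_cont κ _) hb hg 0).1
    rw [fE0] at this
    norm_num at this
  -- the derivative is negative
  have hgn : gE κ (EE κ) b < 0 := by
    refine lt_of_le_of_ne ?_ hg
    by_contra hg'
    push Not at hg'
    have hd := (slE κ (EE κ)).hf b
    have h1 : ∀ᶠ s in 𝓝[<] b, fE κ (EE κ) s < 0 := by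
      have := hd.hasDerivWithinAt (s := Iio b)
      rw [hasDerivWithinAt_iff_tendsto_slope' (by simp)] at this
      filter_upwards [this.eventually (lt_mem_nhds hg'), self_mem_nhdsWithin] with s hs hs2
      rw [slope_def_field, hb, sub_zero] at hs
      have hs3 : s - b < 0 := by simp only [mem_Iio] at hs2; linarith
      by_contra hh
      push Not at hh
      exact absurd (div_nonpos_of_nonneg_of_nonpos hh hs3.le) (not_le.mpr (by
        exact hs))
    obtain ⟨s, hs1, hs2⟩ := (h1.and (Ioo_mem_nhdsLT hb0)).exists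
    exact absurd (hpos s ⟨hs2.1.le, hs2.2⟩) (not_lt.mpr hs1.le)
  -- slightly to the right it is negative
  obtain ⟨s, hs, hsb⟩ : ∃ s, fE κ (EE κ) s < 0 ∧ b < s := by
    have hd := ((slE κ (EE κ)).hf b).hasDerivWithinAt (s := Ioi b)
    rw [hasDerivWithinAt_iff_tendsto_slope' (by simp)] at hd
    obtain ⟨s, hs, hs2⟩ := ((hd.eventually (gt_mem_nhds hgn)).and self_mem_nhdsWithin).exists
    have hs2' : b < s := hs2
    refine ⟨s, ?_, hs2'⟩
    rw [slope_def_field, hb, sub_zero] at hs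
    have hs3 : 0 < s - b := by linarith
    by_contra hh
    push Not at hh
    exact absurd (div_nonneg hh hs3.le) (not_le.mpr hs)
  obtain ⟨δ, hδ, hδ2⟩ := cont_E κ (EE κ) hκ.le (R := s) (ε := -fE κ (EE κ) s) (by linarith)
  obtain ⟨E, hE, hE2⟩ := EE_near hκ hδ
  have h1 := (hδ2 E hE2 s ⟨by linarith, le_rfl⟩).1
  have h2 := hE s (by linarith)
  rw [abs_lt] at h1
  linarith

/-- the derivative is negative where the coefficient is positive -/
theorem g_neg {κ : ℝ} (hκ : 0 < κ) {t₁ : ℝ} (h0 : 0 ≤ t₁) (ht : ∀ t, t₁ ≤ t → 1 ≤ qq κ (EE κ) t) :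
    gE κ (EE κ) t₁ < 0 := by
  by_contra hn
  push Not at hn
  have h := slE κ (EE κ)
  have hpos := EE_mem hκ
  have hst := stay_pos h (hpos t₁ h0) hn (fun t h => by linarith [ht t h])
  set t₂ := t₁ + 1 with ht2
  have hg2 : 0 < gE κ (EE κ) t₂ := hst.2 _ (by linarith)
  -- minimum on the interval
  obtain ⟨c, hc, hcm⟩ := (isCompact_Icc (a := (0 : ℝ)) (b := t₂)).exists_isMinOn
    ⟨0, by simp; linarith⟩ h.cf.continuousOn
  have hcpos : 0 < fE κ (EE κ) c := hpos c hc.1
  obtain ⟨δ, hδ, hδ2⟩ := cont_E κ (EE κ) hκ.le (R := t₂) (ε := min (fE κ (EE κ) c) (gE κ (EE κ) t₂))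
    (by positivity)
  set E := EE κ + min (δ / 2) (1 / 2) with hE
  have hm : 0 < min (δ / 2) (1 / 2) := by positivity
  have hm1 : min (δ / 2) (1 / 2) ≤ δ / 2 := min_le_left _ _
  have hm2 : min (δ / 2) (1 / 2) ≤ 1 / 2 := min_le_right _ _
  have hE1 : |E - EE κ| < δ := by
    rw [hE, add_sub_cancel_left, abs_of_pos hm]
    linarith
  have hEP : E ∈ PP κ := by
    have a1 : ∀ t ∈ Icc 0 t₂, 0 < fE κ E t := by
      intro t ht
      have h1 := (hδ2 E hE1 t ht).1
      have h2 : fE κ (EE κ) c ≤ fE κ (EE κ) t := hcm ht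
      rw [abs_lt] at h1
      have h3 := min_le_left (fE κ (EE κ) c) (gE κ (EE κ) t₂)
      linarith
    have a2 : 0 < gE κ E t₂ := by
      have h1 := (hδ2 E hE1 t₂ ⟨by linarith, le_rfl⟩).2
      rw [abs_lt] at h1
      have h3 := min_le_right (fE κ (EE κ) c) (gE κ (EE κ) t₂)
      linarith
    intro t h0
    rcases le_total t t₂ with h | h
    · exact a1 t ⟨h0, h⟩
    · refine (stay_pos (slE κ E) (a1 t₂ ⟨by linarith, le_rfl⟩) a2.le ?_).1 t h
      intro s hs
      have := ht s (by linarith)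
      unfold qq at this ⊢
      rw [hE]
      linarith
  have : E ≤ EE κ := le_csSup (bdd hκ) hEP
  rw [hE] at this
  linarith

theorem qq_large {κ : ℝ} (hκ : 0 < κ) (E M : ℝ) : ∃ t₁, 0 ≤ t₁ ∧ ∀ t, t₁ ≤ t → M ≤ qq κ E t := by
  refine ⟨max 0 ((M + E) / κ), le_max_left _ _, fun t ht => ?_⟩
  have h0 : 0 ≤ t := (le_max_left _ _).trans ht
  have h1 : (M + E) / κ ≤ t := (le_max_right _ _).trans ht
  unfold qq
  have h2 : t ≤ Real.cosh (2 * t) := by
    have a1 := Real.self_le_sinh_iff.mpr (show 0 ≤ 2 * t by linarith)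
    have a2 := Real.sinh_lt_cosh (2 * t)
    linarith
  have h3 : κ * t ≤ κ * Real.cosh (2 * t) := mul_le_mul_of_nonneg_left h2 hκ.le
  rw [div_le_iff₀ hκ] at h1
  linarith

theorem EE_pos {κ : ℝ} (hκ : 0 < κ) : 0 < EE κ := by
  refine lt_of_le_of_ne (EE_nonneg hκ) ?_
  intro h0
  obtain ⟨t₁, h1, h2⟩ := qq_large hκ (EE κ) 1
  have h3 := g_neg hκ (t₁ := t₁ + 1) (by linarith) (fun t ht => h2 t (by linarith))
  have h4 := (stay_pos (slE κ (EE κ)) (t₁ := 0) (by rw [fE0]; norm_num) (by rw [gE0]) (by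
    intro t _
    unfold qq
    rw [← h0]
    have := Real.cosh_pos (2 * t)
    rw [sub_zero]
    positivity)).2 (t₁ + 1) (by linarith)
  linarith

/-- superexponential decay to the right -/
theorem decay_right {κ : ℝ} (hκ : 0 < κ) (M : ℝ) (hM : 1 ≤ M) :
    ∃ C t₁, 0 ≤ t₁ ∧ 0 ≤ C ∧ ∀ t, t₁ ≤ t → fE κ (EE κ) t ≤ C * Real.exp (-(M * t)) ∧
      |gE κ (EE κ) t| ≤ C * Real.exp (-(M * t)) := by
  have h := slE κ (EE κ)
  have hpos := EE_mem hκ
  obtain ⟨t₁, h0, h1⟩ := qq_large hκ (EE κ) (M ^ 2)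
  have hM2 : 1 ≤ M ^ 2 := by nlinarith
  have hneg : ∀ t, t₁ ≤ t → gE κ (EE κ) t < 0 := fun t ht =>
    g_neg hκ (by linarith) (fun s hs => by linarith [h1 s (by linarith)])
  have hdecr : ∀ s t, t₁ ≤ s → s ≤ t → fE κ (EE κ) t ≤ fE κ (EE κ) s := by
    intro s t hs hst
    have := mono_of (f := fun t => -fE κ (EE κ) t) (fun t => (h.hf t).neg) hst (by
      intro u hu
      have := hneg u (by linarith [hu.1])
      linarith)
    linarith
  -- `g + M f ≤ 0`
  have hd : ∀ t, HasDerivAt (fun t => (gE κ (EE κ) t + M * fE κ (EE κ) t) * Real.exp (-(M * t)))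
      ((qq κ (EE κ) t - M ^ 2) * fE κ (EE κ) t * Real.exp (-(M * t))) t := by
    intro t
    have e1 : HasDerivAt (fun t : ℝ => -(M * t)) (-M) t := by
      convert! ((hasDerivAt_id t).const_mul M).neg using 1
      ring
    convert! ((h.hg t).add ((h.hf t).const_mul M)).mul e1.exp using 1
    simp only [Pi.add_apply]
    ring
  have hG : ∀ t, t₁ ≤ t → gE κ (EE κ) t + M * fE κ (EE κ) t ≤ 0 := by
    intro t ht
    by_contra hn
    push Not at hn
    have hgr : ∀ s, t ≤ s → (gE κ (EE κ) t + M * fE κ (EE κ) t) * Real.exp (-(M * t)) ≤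
        (gE κ (EE κ) s + M * fE κ (EE κ) s) * Real.exp (-(M * s)) := by
      intro s hs
      refine mono_of hd hs ?_
      intro u hu
      have a1 := h1 u (by linarith [hu.1])
      have a2 := hpos u (by linarith [hu.1])
      have a3 := Real.exp_pos (-(M * u))
      apply mul_nonneg (mul_nonneg (by linarith) a2.le) a3.le
    have hgr2 : ∀ s, t ≤ s → (gE κ (EE κ) t + M * fE κ (EE κ) t) * Real.exp (M * (s - t)) ≤
        M * fE κ (EE κ) t := by
      intro s hs
      have b1 := hgr s hs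
      have b2 : (gE κ (EE κ) s + M * fE κ (EE κ) s) ≤ M * fE κ (EE κ) t := by
        have c1 := hneg s (by linarith)
        have c2 := hdecr t s ht hs
        nlinarith
      have b3 := mul_le_mul_of_nonneg_right b2 (Real.exp_pos (-(M * s))).le
      have b4 : (gE κ (EE κ) t + M * fE κ (EE κ) t) * Real.exp (-(M * t)) ≤
          M * fE κ (EE κ) t * Real.exp (-(M * s)) := b1.trans b3
      have b5 := mul_le_mul_of_nonneg_right b4 (Real.exp_pos (M * s)).le
      rw [mul_assoc, mul_assoc (M * fE κ (EE κ) t), ← Real.exp_add, ← Real.exp_add] at b5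
      rw [show -(M * t) + M * s = M * (s - t) by ring, show -(M * s) + M * s = 0 by ring,
        Real.exp_zero, mul_one] at b5
      exact b5
    -- contradiction
    set a := gE κ (EE κ) t + M * fE κ (EE κ) t with ha
    set b := M * fE κ (EE κ) t with hb
    have hb0 : 0 < b := by
      have := hpos t (by linarith)
      positivity
    have := hgr2 (t + b / a) (by have : 0 ≤ b / a := by positivity
                                 linarith)
    rw [add_sub_cancel_left] at this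
    have h5 : M * (b / a) + 1 ≤ Real.exp (M * (b / a)) := Real.add_one_le_exp _
    have h6 : a * (M * (b / a) + 1) ≤ a * Real.exp (M * (b / a)) := mul_le_mul_of_nonneg_left h5 hn.le
    have h7 : a * (M * (b / a) + 1) = M * b + a := by field_simp
    nlinarith
  -- `f e^{M t}` nonincreasing
  have hf : ∀ t, t₁ ≤ t → fE κ (EE κ) t ≤ fE κ (EE κ) t₁ * Real.exp (M * t₁) * Real.exp (-(M * t)) := by
    intro t ht
    have hd2 : ∀ t, HasDerivAt (fun t => -(fE κ (EE κ) t * Real.exp (M * t)))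
        (-((gE κ (EE κ) t + M * fE κ (EE κ) t) * Real.exp (M * t))) t := by
      intro t
      have e1 : HasDerivAt (fun t : ℝ => M * t) M t := by simpa using (hasDerivAt_id t).const_mul M
      convert! ((h.hf t).mul e1.exp).neg using 1
      ring
    have := mono_of hd2 ht (by
      intro u hu
      have a1 := hG u hu.1.le
      have a3 := Real.exp_pos (M * u)
      nlinarith)
    have h5 : fE κ (EE κ) t * Real.exp (M * t) ≤ fE κ (EE κ) t₁ * Real.exp (M * t₁) := by linarith
    have h6 := mul_le_mul_of_nonneg_right h5 (Real.exp_pos (-(M * t))).le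
    rw [mul_assoc, ← Real.exp_add, show M * t + -(M * t) = 0 by ring, Real.exp_zero, mul_one] at h6
    exact h6
  set C₀ := fE κ (EE κ) t₁ * Real.exp (M * t₁) with hC0
  have hC0' : 0 ≤ C₀ := by have := hpos t₁ h0; positivity
  refine ⟨C₀ * Real.exp M, t₁ + 1, by linarith, by positivity, fun t ht => ⟨?_, ?_⟩⟩
  · refine (hf t (by linarith)).trans ?_
    have : 1 ≤ Real.exp M := Real.one_le_exp (by linarith)
    have h3 := Real.exp_pos (-(M * t))
    have : C₀ * 1 ≤ C₀ * Real.exp M := mul_le_mul_of_nonneg_left this hC0'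
    nlinarith
  · -- `|g t| ≤ f (t-1) - f t`
    have a1 : gE κ (EE κ) t < 0 := hneg t (by linarith)
    rw [abs_of_neg a1]
    have hgm : ∀ u, u ∈ Ioo (t - 1) t → gE κ (EE κ) u ≤ gE κ (EE κ) t := by
      intro u hu
      refine mono_of h.hg hu.2.le ?_
      intro v hv
      have b1 := h1 v (by linarith [hu.1, hv.1])
      have b2 := hpos v (by linarith [hu.1, hv.1])
      apply mul_nonneg (by linarith) b2.le
    have a2 := mono_of (f := fun u => gE κ (EE κ) t * u - fE κ (EE κ) u)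
      (f' := fun u => gE κ (EE κ) t - gE κ (EE κ) u) (fun u => by
        convert! ((hasDerivAt_id u).const_mul (gE κ (EE κ) t)).sub (h.hf u) using 1
        ring) (a := t - 1) (b := t) (by linarith) (fun u hu => by
          linarith [hgm u hu])
    have a3 := hf (t - 1) (by linarith)
    have a4 := hpos t (by linarith)
    have a5 : Real.exp (-(M * (t - 1))) = Real.exp M * Real.exp (-(M * t)) := by
      rw [← Real.exp_add]; congr 1; ring
    rw [a5] at a3
    have a6 : C₀ * (Real.exp M * Real.exp (-(M * t))) = C₀ * Real.exp M * Real.exp (-(M * t)) := by ring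
    linarith

/-- the ground state -/
theorem ground {κ : ℝ} (hκ : 0 < κ) : ∃ (E : ℝ) (ψ ψ' : ℝ → ℝ), 0 < E ∧ Sl (qq κ E) ψ ψ' ∧
    (∀ t, 0 < ψ t) ∧ (∀ t, ψ (-t) = ψ t) ∧
    (∀ S, 0 < S → E ≤ κ * Real.cosh (2 * S) + (Real.pi / (2 * S)) ^ 2) ∧
    ∀ M : ℝ, ∃ C, 0 ≤ C ∧ ∀ t, |ψ t| ≤ C * Real.exp (-(M * |t|)) ∧ |ψ' t| ≤ C * Real.exp (-(M * |t|)) := by
  have h := slE κ (EE κ)
  have hodd : ∀ t, gE κ (EE κ) (-t) = -gE κ (EE κ) t := by
    intro t
    have h1 := (h.hf t)
    have h2 := h.reflect.hf t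
    have h3 : (fun t => fE κ (EE κ) (-t)) = fE κ (EE κ) := funext (fE_even κ _)
    rw [h3] at h2
    have := h2.unique h1
    linarith
  have key : ∀ M : ℝ, ∃ C, 0 ≤ C ∧ ∀ t, 0 ≤ t → |fE κ (EE κ) t| ≤ C * Real.exp (-(M * t)) ∧
      |gE κ (EE κ) t| ≤ C * Real.exp (-(M * t)) := by
    intro M
    obtain ⟨C, t₁, h0, hC, h1⟩ := decay_right hκ (max 1 M) (le_max_left _ _)
    obtain ⟨B₁, hB₁⟩ := (isCompact_Icc (a := (0 : ℝ)) (b := t₁)).exists_bound_of_continuousOn h.cf.continuousOn
    obtain ⟨B₂, hB₂⟩ := (isCompact_Icc (a := (0 : ℝ)) (b := t₁)).exists_bound_of_continuousOn h.cg.continuousOn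
    refine ⟨C + max 0 (max B₁ B₂) * Real.exp (|M| * t₁), by positivity, fun t ht => ?_⟩
    have hBB : 0 ≤ max 0 (max B₁ B₂) := le_max_left _ _
    rcases le_total t t₁ with hle | hle
    · have e1 : 1 ≤ Real.exp (|M| * t₁) * Real.exp (-(M * t)) := by
        rw [← Real.exp_add]
        apply Real.one_le_exp
        have : M * t ≤ |M| * t₁ :=
          (mul_le_mul_of_nonneg_right (le_abs_self M) ht).trans (mul_le_mul_of_nonneg_left hle (abs_nonneg M))
        linarith
      have e2 : max 0 (max B₁ B₂) ≤ (C + max 0 (max B₁ B₂) * Real.exp (|M| * t₁)) * Real.exp (-(M * t)) := by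
        have : max 0 (max B₁ B₂) * 1 ≤ max 0 (max B₁ B₂) * (Real.exp (|M| * t₁) * Real.exp (-(M * t))) :=
          mul_le_mul_of_nonneg_left e1 hBB
        have h3 : 0 ≤ C * Real.exp (-(M * t)) := by positivity
        nlinarith
      have f1 := hB₁ t ⟨ht, hle⟩
      have f2 := hB₂ t ⟨ht, hle⟩
      rw [Real.norm_eq_abs] at f1 f2
      have g1 : max B₁ B₂ ≤ max 0 (max B₁ B₂) := le_max_right _ _
      have g2 := le_max_left B₁ B₂
      have g3 := le_max_right B₁ B₂
      exact ⟨by linarith, by linarith⟩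
    · have f := h1 t hle
      have hp := EE_mem hκ t ht
      have e1 : Real.exp (-(max 1 M * t)) ≤ Real.exp (-(M * t)) := by
        apply Real.exp_le_exp.mpr
        have : M * t ≤ max 1 M * t := mul_le_mul_of_nonneg_right (le_max_right _ _) ht
        linarith
      have e2 : C * Real.exp (-(max 1 M * t)) ≤ C * Real.exp (-(M * t)) := mul_le_mul_of_nonneg_left e1 hC
      have e3 : 0 ≤ max 0 (max B₁ B₂) * Real.exp (|M| * t₁) * Real.exp (-(M * t)) := by positivity
      have e4 : (C + max 0 (max B₁ B₂) * Real.exp (|M| * t₁)) * Real.exp (-(M * t)) =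
        C * Real.exp (-(M * t)) + max 0 (max B₁ B₂) * Real.exp (|M| * t₁) * Real.exp (-(M * t)) := by ring
      rw [e4, abs_of_pos hp]
      exact ⟨by linarith [f.1], by linarith [f.2]⟩
  refine ⟨EE κ, fE κ (EE κ), gE κ (EE κ), EE_pos hκ, h, ?_, fE_even κ _, fun S hS => EE_le hκ hS, ?_⟩
  · intro t
    rcases le_total 0 t with ht | ht
    · exact EE_mem hκ t ht
    · rw [← fE_even]
      exact EE_mem hκ (-t) (by linarith)
  · intro M
    obtain ⟨C, hC, hk⟩ := key M
    refine ⟨C, hC, fun t => ?_⟩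
    rcases le_total 0 t with ht | ht
    · rw [abs_of_nonneg ht]
      exact hk t ht
    · rw [abs_of_nonpos ht]
      have := hk (-t) (by linarith)
      rwa [fE_even, hodd, abs_neg] at this

end Pool.Agent.X154.SolM
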