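import Pool.Agent.X154.SolB

set_option autoImplicit false

/-!
Bounded solutions of `u'' = Q u`.
-/

namespace Pool.Agent.X154.SolM

open Set Filter Topology

theorem unbdd {u v : ℝ → ℝ} (h : ∀ t, HasDerivAt u (v t) t) {B : ℝ} (hB : ∀ t, |u t| ≤ B) {t₂ c : ℝ}
    (hc : 0 < c) (hv : ∀ t, t₂ ≤ t → c ≤ v t) : False := by
  set s := t₂ + (2 * |B| + 1) / c with hs
  have h0 : 0 < (2 * |B| + 1) / c := by positivity
  have h1 := mono_of (f := fun t => u t - c * t) (f' := fun t => v t - c) (fun t => by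
    convert! (h t).sub ((hasDerivAt_id t).const_mul c) using 1
    ring) (a := t₂) (b := s) (by linarith) (fun t ht => by linarith [hv t ht.1.le])
  have h2 : c * s = c * t₂ + (2 * |B| + 1) := by
    rw [hs]; field_simp
  have h3 := abs_le.mp (hB t₂)
  have h4 := abs_le.mp (hB s)
  have h5 := le_abs_self B
  linarith

/-- comparison, to the right -/
theorem comp_right {Q R u v P P' : ℝ → ℝ} (hu : Sl Q u v) (hP : Sl R P P') (hpos : ∀ t, 0 < P t)
    (hP0 : Tendsto P atTop (𝓝 0)) (hP1 : Tendsto P' atTop (𝓝 0)) (hQR : ∀ t, R t < Q t)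
    {B : ℝ} (hB : ∀ t, |u t| ≤ B) {t₀ : ℝ} (h0 : 0 < u t₀) (hw : 0 ≤ v t₀ * P t₀ - u t₀ * P' t₀) :
    False := by
  have hwd : ∀ t, HasDerivAt (fun t => v t * P t - u t * P' t) ((Q t - R t) * (u t * P t)) t := by
    intro t
    convert! ((hu.hg t).mul (hP.hf t)).sub ((hu.hf t).mul (hP.hg t)) using 1
    ring
  have hqd : ∀ t, HasDerivAt (fun t => u t / P t) ((v t * P t - u t * P' t) / P t ^ 2) t := fun t =>
    (hu.hf t).div (hP.hf t) (hpos t).ne'
  have hup : ∀ t, t₀ ≤ t → 0 < u t := by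
    intro t ht
    by_contra hn
    push Not at hn
    obtain ⟨b, hb1, hb2, hb3, hb4⟩ := first_zero hu.cf ht h0 hn
    have hw' : ∀ s ∈ Ioo t₀ b, 0 ≤ v s * P s - u s * P' s := by
      intro s hs
      have := mono_of hwd hs.1.le (fun x hx => mul_nonneg (by linarith [hQR x])
        (mul_nonneg (hb4 x ⟨hx.1.le, hx.2.trans hs.2⟩).le (hpos x).le))
      linarith
    have := mono_of hqd hb1.le (fun s hs => div_nonneg (hw' s hs) (by positivity))
    simp only [hb3, zero_div] at this
    have h5 : 0 < u t₀ / P t₀ := div_pos h0 (hpos _)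
    linarith
  have hw1 := smono_of hwd (show t₀ < t₀ + 1 by linarith) (fun x hx => mul_pos (by linarith [hQR x])
    (mul_pos (hup x hx.1.le) (hpos x)))
  set c := v (t₀ + 1) * P (t₀ + 1) - u (t₀ + 1) * P' (t₀ + 1) with hc
  have hc0 : 0 < c := by linarith
  have hw2 : ∀ t, t₀ + 1 ≤ t → c ≤ v t * P t - u t * P' t := by
    intro t ht
    exact mono_of hwd ht (fun x hx => mul_nonneg (by linarith [hQR x])
        (mul_nonneg (hup x (by linarith [hx.1])).le (hpos x).le))
  have e1 : ∀ᶠ t in atTop, P t < c / 2 := hP0.eventually (gt_mem_nhds (by positivity))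
  have e2 : ∀ᶠ t in atTop, |P' t| < c / (2 * (|B| + 1)) := by
    have := hP1.abs
    rw [abs_zero] at this
    exact this.eventually (gt_mem_nhds (by positivity))
  obtain ⟨t₂, ht₂⟩ := eventually_atTop.mp ((e1.and e2).and (eventually_ge_atTop (t₀ + 1)))
  refine unbdd hu.hf hB (t₂ := t₂) one_pos (fun t ht => ?_)
  obtain ⟨⟨a1, a2⟩, a3⟩ := ht₂ t ht
  have b1 := hw2 t a3
  have b2 : |u t * P' t| ≤ c / 2 := by
    rw [abs_mul]
    have : |u t| * |P' t| ≤ (|B| + 1) * (c / (2 * (|B| + 1))) :=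
      mul_le_mul ((hB t).trans (by linarith [le_abs_self B])) a2.le (abs_nonneg _) (by positivity)
    have e : (|B| + 1) * (c / (2 * (|B| + 1))) = c / 2 := by field_simp
    linarith
  have b3 := abs_le.mp b2
  have b4 : c / 2 ≤ v t * P t := by linarith
  by_contra hn
  push Not at hn
  have b5 := hpos t
  nlinarith

/-- no bounded solutions below the ground state -/
theorem no_bdd {κ E : ℝ} {ψ ψ' : ℝ → ℝ} (hψ : Sl (qq κ E) ψ ψ') (hpos : ∀ t, 0 < ψ t)
    (hev : ∀ t, ψ (-t) = ψ t)
    (hdec : ∃ C, 0 ≤ C ∧ ∀ t, |ψ t| ≤ C * Real.exp (-(1 * |t|)) ∧ |ψ' t| ≤ C * Real.exp (-(1 * |t|)))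
    {Q u v : ℝ → ℝ} (hu : Sl Q u v) (t₀ : ℝ) (hQ : ∀ t, κ * Real.cosh (2 * (t - t₀)) - E < Q t)
    {B : ℝ} (hB : ∀ t, |u t| ≤ B) (t : ℝ) : u t = 0 := by
  obtain ⟨C, hC, hd⟩ := hdec
  have lim : ∀ (F : ℝ → ℝ), (∀ t, |F t| ≤ C * Real.exp (-(1 * |t|))) → ∀ a, Tendsto (fun t => F (t + a)) atTop (𝓝 0) := by
    intro F hF a
    have h1 : Tendsto (fun t : ℝ => C * Real.exp (-(1 * |t|))) atTop (𝓝 0) := by
      have : Tendsto (fun t : ℝ => Real.exp (-(1 * |t|))) atTop (𝓝 0) := by
        apply Real.tendsto_exp_atBot.comp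
        apply tendsto_neg_atTop_atBot.comp
        simp only [one_mul]
        exact tendsto_abs_atTop_atTop
      simpa using this.const_mul C
    have h2 : Tendsto F atTop (𝓝 0) := squeeze_zero_norm hF h1
    exact h2.comp (tendsto_atTop_add_const_right _ _ tendsto_id)
  have hodd : ∀ t, ψ' (-t) = -ψ' t := by
    intro t
    have h1 := (hψ.hf t)
    have h2 := hψ.reflect.hf t
    have h3 : (fun t => ψ (-t)) = ψ := funext hev
    rw [h3] at h2
    have := h2.unique h1
    linarith
  -- main claim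
  have main : ∀ (u v Q : ℝ → ℝ), Sl Q u v → (∀ t, |u t| ≤ B) → ∀ t₀, (∀ t, κ * Real.cosh (2 * (t - t₀)) - E < Q t) →
      ∀ s, 0 < u s → v s * ψ (s - t₀) - u s * ψ' (s - t₀) < 0 := by
    intro u v Q hu hB t₀ hQ s hs
    by_contra hn
    push Not at hn
    have hP := hψ.shift (-t₀)
    refine comp_right hu hP (fun t => hpos _) (lim ψ (fun t => (hd t).1) (-t₀))
      (lim ψ' (fun t => (hd t).2) (-t₀)) ?_ hB hs ?_
    · intro t
      have := hQ t
      unfold qq
      rwa [← sub_eq_add_neg]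
    · rw [← sub_eq_add_neg]
      exact hn
  have key : ∀ (u v : ℝ → ℝ), Sl Q u v → (∀ t, |u t| ≤ B) → ∀ s, ¬ 0 < u s := by
    intro u v hu hB s hs
    have h1 := main u v Q hu hB t₀ hQ s hs
    have h2 := main (fun t => u (-t)) (fun t => -v (-t)) (fun t => Q (-t)) hu.reflect (fun t => hB _)
      (-t₀) (fun t => by
        have := hQ (-t)
        rw [show 2 * (-t - t₀) = -(2 * (t - -t₀)) by ring, Real.cosh_neg] at this
        exact this) (-s) (by simpa using hs)
    simp only [neg_neg] at h2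
    rw [show -s - -t₀ = -(s - t₀) by ring, hev, hodd] at h2
    linarith
  have k1 := key u v hu hB t
  have k2 := key (fun t => -u t) (fun t => -v t) hu.neg (fun t => by simpa using hB t) t
  linarith

/-- no bounded solutions for a positive constant -/
theorem no_bdd_const {c : ℝ} (hc : 0 < c) {u v : ℝ → ℝ} (hu : Sl (fun _ => c) u v)
    {B : ℝ} (hB : ∀ t, |u t| ≤ B) (t : ℝ) : u t = 0 := by
  have main : ∀ (u v : ℝ → ℝ), Sl (fun _ => c) u v → (∀ t, |u t| ≤ B) → ∀ s, 0 < u s → v s < 0 := by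
    intro u v hu hB s hs
    by_contra hn
    push Not at hn
    have h1 := stay_pos hu hs hn (fun _ _ => hc)
    refine unbdd hu.hf hB (t₂ := s + 1) (h1.2 (s + 1) (by linarith)) (fun t ht => ?_)
    exact mono_of hu.hg ht (fun x hx => mul_nonneg hc.le (h1.1 x (by linarith [hx.1])).le)
  have key : ∀ (u v : ℝ → ℝ), Sl (fun _ => c) u v → (∀ t, |u t| ≤ B) → ∀ s, ¬ 0 < u s := by
    intro u v hu hB s hs
    have h1 := main u v hu hB s hs
    have h2 := main (fun t => u (-t)) (fun t => -v (-t)) hu.reflect (fun t => hB _) (-s) (by simpa using hs)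
    simp only [neg_neg] at h2
    linarith
  have k1 := key u v hu hB t
  have k2 := key (fun t => -u t) (fun t => -v t) hu.neg (fun t => by simpa using hB t) t
  linarith

/-- periodic solutions with small frequency -/
theorem no_per {μ T : ℝ} (hμ : 0 < μ) (hT : 0 < T) (hμT : μ < (2 * Real.pi / T) ^ 2) {u v : ℝ → ℝ}
    (hu : Sl (fun _ => -μ) u v) (hper : ∀ t, u (t + T) = u t) (t : ℝ) : u t = 0 := by
  set ω := Real.sqrt μ with hω
  have hω0 : 0 < ω := Real.sqrt_pos.mpr hμ
  have hω2 : ω ^ 2 = μ := Real.sq_sqrt hμ.le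
  have hex : Sl (fun _ => -μ) (fun t => u 0 * Real.cos (ω * t) + v 0 / ω * Real.sin (ω * t))
      (fun t => -(u 0 * ω * Real.sin (ω * t)) + v 0 * Real.cos (ω * t)) := by
    constructor
    · intro t
      have h1 : HasDerivAt (fun t => ω * t) ω t := by simpa using (hasDerivAt_id t).const_mul ω
      convert! (h1.cos.const_mul (u 0)).add (h1.sin.const_mul (v 0 / ω)) using 1
      field_simp
    · intro t
      have h1 : HasDerivAt (fun t => ω * t) ω t := by simpa using (hasDerivAt_id t).const_mul ω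
      convert! (h1.sin.const_mul (u 0 * ω)).neg.add (h1.cos.const_mul (v 0)) using 1
      rw [← hω2]
      field_simp
      ring
  have hun := fun t => unique hu hex continuous_const (t₀ := 0) (by simp) (by simp) t
  have hperv : v T = v 0 := by
    have h1 := hu.hf 0
    have h2 := (hu.shift T).hf 0
    have h3 : (fun t => u (t + T)) = u := funext hper
    rw [h3] at h2
    have := h2.unique h1
    simpa using this
  have hperu : u T = u 0 := by simpa using hper 0
  rw [(hun T).1] at hperu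
  rw [(hun T).2] at hperv
  set A := u 0
  set θ := ω * T with hθ
  have hθ0 : 0 < θ := by positivity
  have hθ1 : θ < 2 * Real.pi := by
    have : ω < 2 * Real.pi / T := by
      rw [← hω2] at hμT
      exact lt_of_pow_lt_pow_left₀ 2 (by positivity) hμT
    rwa [lt_div_iff₀ hT] at this
  have hcos : Real.cos θ < 1 := by
    refine lt_of_le_of_ne (Real.cos_le_one _) ?_
    intro h
    have := (Real.cos_eq_one_iff_of_lt_of_lt (by linarith) hθ1).mp h
    linarith
  set b := v 0 / ω with hb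
  have hvb : v 0 = b * ω := by rw [hb]; field_simp
  rw [hvb] at hperv
  have e1 : A * (Real.cos θ - 1) + b * Real.sin θ = 0 := by linarith
  have e2 : -(A * Real.sin θ) + b * (Real.cos θ - 1) = 0 := by
    have : ω * (-(A * Real.sin θ) + b * (Real.cos θ - 1)) = 0 := by linarith
    exact (mul_eq_zero.mp this).resolve_left hω0.ne'
  have hs := Real.sin_sq_add_cos_sq θ
  have hdet : 0 < (Real.cos θ - 1) ^ 2 + Real.sin θ ^ 2 := by nlinarith
  have hA : A = 0 := by
    have : A * ((Real.cos θ - 1) ^ 2 + Real.sin θ ^ 2) = 0 := by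
      linear_combination (Real.cos θ - 1) * e1 - Real.sin θ * e2
    exact (mul_eq_zero.mp this).resolve_right hdet.ne'
  have hB : b = 0 := by
    have : b * ((Real.cos θ - 1) ^ 2 + Real.sin θ ^ 2) = 0 := by
      linear_combination (Real.cos θ - 1) * e2 + Real.sin θ * e1
    exact (mul_eq_zero.mp this).resolve_right hdet.ne'
  rw [(hun t).1, hA, hB]
  ring

end Pool.Agent.X154.SolM
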