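import Mathlib

set_option autoImplicit false

/-!
Riemannian metrics on `ℝⁿ` in coordinates, and closed quotients of them.
-/

namespace Pool.Agent.X154.SolM

open scoped ContDiff Matrix

/-- `i`-th partial derivative -/
noncomputable def pd {F : Type} [NormedAddCommGroup F] [NormedSpace ℝ F] {n : ℕ} (i : Fin n)
    (f : (Fin n → ℝ) → F) (x : Fin n → ℝ) : F := fderiv ℝ f x (Pi.single i 1)

/-- a smooth Riemannian metric on `ℝⁿ`, given by its matrix `g x` in the coordinates -/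
structure IsMetric {n : ℕ} (g : (Fin n → ℝ) → Matrix (Fin n) (Fin n) ℝ) : Prop where
  smooth : ∀ i j, ContDiff ℝ ∞ (fun x => g x i j)
  posDef : ∀ x, (g x).PosDef

/-- the scalar product of two tangent vectors at `x` -/
def inner {n : ℕ} (g : (Fin n → ℝ) → Matrix (Fin n) (Fin n) ℝ) (x v w : Fin n → ℝ) : ℝ :=
  v ⬝ᵥ (g x).mulVec w

/-- the Christoffel symbol `Γ^k_{ij}` -/
noncomputable def christoffel {n : ℕ} (g : (Fin n → ℝ) → Matrix (Fin n) (Fin n) ℝ) (k i j : Fin n)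
    (x : Fin n → ℝ) : ℝ :=
  1 / 2 * ∑ l, (g x)⁻¹ k l *
    (pd i (fun y => g y j l) x + pd j (fun y => g y i l) x - pd l (fun y => g y i j) x)

/-- the Ricci tensor
`R_{ij} = ∂_k Γ^k_{ij} - ∂_j Γ^k_{ik} + Γ^k_{kl} Γ^l_{ij} - Γ^k_{jl} Γ^l_{ik}` -/
noncomputable def ricci {n : ℕ} (g : (Fin n → ℝ) → Matrix (Fin n) (Fin n) ℝ) (i j : Fin n)
    (x : Fin n → ℝ) : ℝ :=
  ∑ k, (pd k (christoffel g k i j) x - pd j (christoffel g k i k) x +
    ∑ l, (christoffel g k k l x * christoffel g l i j x - christoffel g k j l x * christoffel g l i k x))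

/-- the Laplace-Beltrami operator `(det g)^(-1/2) ∂_i ((det g)^(1/2) g^{ij} ∂_j f)` -/
noncomputable def laplace {n : ℕ} (g : (Fin n → ℝ) → Matrix (Fin n) (Fin n) ℝ) (f : (Fin n → ℝ) → ℝ)
    (x : Fin n → ℝ) : ℝ :=
  (√(g x).det)⁻¹ * ∑ i, pd i (fun y => √(g y).det * ∑ j, (g y)⁻¹ i j * pd j f y) x

/-- `Γ` is a group of isometries of the metric `g` on `ℝⁿ`, acting freely, properly discontinuously
and cocompactly: `ℝⁿ / Γ` is a closed Riemannian manifold -/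
structure IsClosedQuotient {n : ℕ} (g : (Fin n → ℝ) → Matrix (Fin n) (Fin n) ℝ)
    (Γ : Subgroup (Equiv.Perm (Fin n → ℝ))) : Prop where
  smooth : ∀ γ ∈ Γ, ContDiff ℝ ∞ γ
  isometry : ∀ γ ∈ Γ, ∀ x v w, inner g (γ x) (fderiv ℝ γ x v) (fderiv ℝ γ x w) = inner g x v w
  free : ∀ γ ∈ Γ, ∀ x, γ x = x → γ = 1
  proper : ∀ K : Set (Fin n → ℝ), IsCompact K → {γ | γ ∈ Γ ∧ (γ '' K ∩ K).Nonempty}.Finite
  cocompact : ∃ K : Set (Fin n → ℝ), IsCompact K ∧ ∀ x, ∃ γ ∈ Γ, γ x ∈ K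

/-- the volume of `ℝⁿ / Γ` is `V`: it is the Riemannian volume of a measurable set that meets every
orbit exactly once -/
def HasVolume {n : ℕ} (g : (Fin n → ℝ) → Matrix (Fin n) (Fin n) ℝ)
    (Γ : Subgroup (Equiv.Perm (Fin n → ℝ))) (V : ℝ) : Prop :=
  ∃ D : Set (Fin n → ℝ), MeasurableSet D ∧ (∀ x, ∃! γ : Equiv.Perm (Fin n → ℝ), γ ∈ Γ ∧ γ x ∈ D) ∧
    ∫⁻ x in D, ENNReal.ofReal √(g x).det = ENNReal.ofReal V

/-- `f` is (the lift to `ℝⁿ` of) a smooth function on `ℝⁿ / Γ` with `-Δ f = μ f` -/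
def Eigen {n : ℕ} (g : (Fin n → ℝ) → Matrix (Fin n) (Fin n) ℝ)
    (Γ : Subgroup (Equiv.Perm (Fin n → ℝ))) (μ : ℝ) (f : (Fin n → ℝ) → ℝ) : Prop :=
  ContDiff ℝ ∞ f ∧ (∀ γ ∈ Γ, ∀ x, f (γ x) = f x) ∧ ∀ x, -laplace g f x = μ * f x

/-- the metric `e^(2t) dx² + e^(-2t) dy² + dt² + ds²` on `ℝ⁴ = {(x, y, t, s)}`, a left invariant
metric of the solvable Lie group `Sol³ × ℝ` -/
noncomputable def solMetric (x : Fin 4 → ℝ) : Matrix (Fin 4) (Fin 4) ℝ :=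
  Matrix.diagonal ![Real.exp (2 * x 2), Real.exp (-(2 * x 2)), 1, 1]

end Pool.Agent.X154.SolM
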