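import Pool.Agent.X154.SolC
import Pool.Agent.X154.SolDef
import Pool.Agent.H66R2.RZ_Par

set_option autoImplicit false

/-!
Fourier coefficients along a period.
-/

namespace Pool.Agent.X154.SolM

open scoped ContDiff Real
open Set Filter Topology MeasureTheory Complex

abbrev X4 := Fin 4 → ℝ

theorem pd_smooth {F : Type} [NormedAddCommGroup F] [NormedSpace ℝ F] {n : ℕ} (i : Fin n)
    {f : (Fin n → ℝ) → F} (hf : ContDiff ℝ ∞ f) : ContDiff ℝ ∞ (pd i f) :=
  (hf.fderiv_right (m := ∞) (by simp)).clm_apply contDiff_const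

/-- derivative along a line -/
theorem hasDerivAt_line {F : Type} [NormedAddCommGroup F] [NormedSpace ℝ F] {n : ℕ} (i : Fin n)
    {f : (Fin n → ℝ) → F} (hf : ContDiff ℝ ∞ f) (x : Fin n → ℝ) (s : ℝ) :
    HasDerivAt (fun s : ℝ => f (x + s • Pi.single i 1)) (pd i f (x + s • Pi.single i 1)) s := by
  have h1 : HasFDerivAt f (fderiv ℝ f (x + s • Pi.single i 1)) (x + s • Pi.single i 1) :=
    ((hf.differentiable (by simp)) _).hasFDerivAt
  have h2 : HasDerivAt (fun s : ℝ => x + s • (Pi.single i 1 : Fin n → ℝ)) (Pi.single i 1) s := by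
    simpa using ((hasDerivAt_id s).smul_const (Pi.single i 1 : Fin n → ℝ)).const_add x
  exact h1.comp_hasDerivAt s h2

theorem pd_eq_of {F : Type} [NormedAddCommGroup F] [NormedSpace ℝ F] {n : ℕ} (i : Fin n)
    {f : (Fin n → ℝ) → F} (hf : ContDiff ℝ ∞ f) (x : Fin n → ℝ) {c : F}
    (h : HasDerivAt (fun s : ℝ => f (x + s • Pi.single i 1)) c 0) : pd i f x = c := by
  have := (hasDerivAt_line i hf x 0).unique h
  simpa using this

/-- Fourier coefficient along `w` -/
noncomputable def Av (w : X4) (n : ℤ) (G : X4 → ℂ) (z : X4) : ℂ :=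
  ∫ r in (0 : ℝ)..1, Complex.exp (-(2 * π * n * r) * I) * G (z + r • w)

theorem Av_smooth (w : X4) (n : ℤ) {G : X4 → ℂ} (hG : ContDiff ℝ ∞ G) : ContDiff ℝ ∞ (Av w n G) := by
  refine Pool.Agent.H66R2.RZPar.contDiff_int 0 1 X4 ℂ
    (fun p => Complex.exp (-(2 * π * n * (p.2 : ℝ)) * I) * G (p.1 + p.2 • w)) ?_
  apply ContDiff.mul
  · apply ContDiff.cexp
    apply ContDiff.mul _ contDiff_const
    apply ContDiff.neg
    apply ContDiff.mul contDiff_const
    exact Complex.ofRealCLM.contDiff.comp contDiff_snd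
  · exact hG.comp (contDiff_fst.add (contDiff_snd.smul contDiff_const))

theorem Av_cont (w : X4) (n : ℤ) {G : X4 → ℂ} (hG : Continuous G) (z : X4) :
    Continuous (fun r : ℝ => Complex.exp (-(2 * π * n * r) * I) * G (z + r • w)) := by
  fun_prop

theorem Av_bound (w : X4) (n : ℤ) {G : X4 → ℂ} {B : ℝ} (hB : ∀ z, ‖G z‖ ≤ B) (z : X4) :
    ‖Av w n G z‖ ≤ B := by
  have := intervalIntegral.norm_integral_le_of_norm_le_const (a := (0 : ℝ)) (b := 1) (C := B)
    (f := fun r : ℝ => Complex.exp (-(2 * π * n * r) * I) * G (z + r • w)) (by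
      intro r _
      rw [norm_mul]
      have : ‖Complex.exp (-(2 * π * n * r) * I)‖ = 1 := by
        have := Complex.norm_exp_ofReal_mul_I (-(2 * π * n * r))
        push_cast at this
        exact this
      rw [this, one_mul]
      exact hB _)
  simpa [Av] using this

theorem hasDerivAt_intC (R R' : ℝ × ℝ → ℂ) (hR : Continuous R) (hR' : Continuous R')
    (hd : ∀ x t, HasDerivAt (fun z => R (z, t)) (R' (x, t)) x) (x : ℝ) :
    HasDerivAt (fun z => ∫ t in (0 : ℝ)..1, R (z, t)) (∫ t in (0 : ℝ)..1, R' (x, t)) x := by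
  have hK : IsCompact (Metric.closedBall x 1 ×ˢ Set.uIcc (0 : ℝ) 1) :=
    (isCompact_closedBall x 1).prod isCompact_uIcc
  obtain ⟨C, hC⟩ := hK.exists_bound_of_continuousOn hR'.continuousOn
  refine (intervalIntegral.hasDerivAt_integral_of_dominated_loc_of_deriv_le
    (F := fun z t => R (z, t)) (F' := fun z t => R' (z, t)) (bound := fun _ => C)
    (Metric.closedBall_mem_nhds x one_pos) ?_ ?_ ?_ ?_ ?_ ?_).2
  · refine Filter.Eventually.of_forall fun z => ?_
    exact (hR.comp (Continuous.prodMk_right z)).aestronglyMeasurable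
  · exact (hR.comp (Continuous.prodMk_right x)).intervalIntegrable _ _
  · exact (hR'.comp (Continuous.prodMk_right x)).aestronglyMeasurable
  · refine Filter.Eventually.of_forall fun t ht z hz => ?_
    exact hC (z, t) ⟨hz, Set.uIoc_subset_uIcc ht⟩
  · exact intervalIntegrable_const
  · refine Filter.Eventually.of_forall fun t _ z _ => hd z t

theorem pd_Av (w : X4) (n : ℤ) {G : X4 → ℂ} (hG : ContDiff ℝ ∞ G) (i : Fin 4) :
    pd i (Av w n G) = Av w n (pd i G) := by
  funext z
  apply pd_eq_of i (Av_smooth w n hG)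
  have hc := hG.continuous
  have hc' := (pd_smooth i hG).continuous
  have := hasDerivAt_intC
    (fun p => Complex.exp (-(2 * π * n * (p.2 : ℝ)) * I) * G (z + p.1 • Pi.single i 1 + p.2 • w))
    (fun p => Complex.exp (-(2 * π * n * (p.2 : ℝ)) * I) * pd i G (z + p.1 • Pi.single i 1 + p.2 • w))
    (by fun_prop) (by fun_prop) (by
      intro x t
      have h1 := hasDerivAt_line i hG (z + t • w) x
      have h2 := h1.const_mul (Complex.exp (-(2 * π * n * (t : ℝ)) * I))
      simp only [add_right_comm z (t • w)] at h2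
      exact h2) 0
  simpa [Av] using this

theorem Av_mul (w : X4) (n : ℤ) {G : X4 → ℂ} {v : X4} {c : ℂ} (h : ∀ z, G (z + v) = c * G z) (z : X4) :
    Av w n G (z + v) = c * Av w n G z := by
  unfold Av
  rw [← intervalIntegral.integral_const_mul]
  congr 1
  funext r
  rw [add_right_comm, h]
  ring

theorem Av_self (w : X4) (n : ℤ) {G : X4 → ℂ} (hper : ∀ z, G (z + w) = G z) (s : ℝ) (z : X4) :
    Av w n G (z + s • w) = Complex.exp (2 * π * n * s * I) * Av w n G z := by
  set φ : ℝ → ℂ := fun r => Complex.exp (-(2 * π * n * r) * I) * G (z + r • w) with hφ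
  have hp : Function.Periodic φ 1 := by
    intro r
    simp only [hφ]
    rw [add_smul, one_smul, ← add_assoc, hper]
    congr 1
    have : (-(2 * π * n * ((r + 1 : ℝ) : ℂ)) * I) = -(2 * π * n * r) * I + (-n : ℤ) * (2 * π * I) := by
      push_cast; ring
    rw [this, Complex.exp_add, Complex.exp_int_mul_two_pi_mul_I, mul_one]
  have h1 : Av w n G (z + s • w) = ∫ r in (0 : ℝ)..1, Complex.exp (2 * π * n * s * I) * φ (r + s) := by
    unfold Av
    congr 1
    funext r
    simp only [hφ]
    rw [← mul_assoc, ← Complex.exp_add, add_smul, add_comm (r • w), add_assoc]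
    congr 2
    push_cast
    ring
  rw [h1, intervalIntegral.integral_const_mul, intervalIntegral.integral_comp_add_right (f := φ)]
  congr 1
  have := hp.intervalIntegral_add_eq s 0
  rw [zero_add, add_comm 1 s, this, zero_add]
  rfl

theorem Av_inj (w : X4) {G : X4 → ℂ} (hG : Continuous G) (hper : ∀ z, G (z + w) = G z) (z : X4)
    (h : ∀ n : ℤ, Av w n G z = 0) : G z = 0 := by
  have : Fact ((0 : ℝ) < 1) := ⟨one_pos⟩
  set φ : ℝ → ℂ := fun r => G (z + r • w) with hφ
  have hφc : Continuous φ := by fun_prop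
  have hcont : Continuous (AddCircle.liftIco 1 0 φ) :=
    AddCircle.liftIco_zero_continuous (by simp [hφ, hper]) hφc.continuousOn
  set Φ : C(AddCircle (1 : ℝ), ℂ) := ⟨AddCircle.liftIco 1 0 φ, hcont⟩ with hΦ
  have hco : ∀ n : ℤ, fourierCoeff Φ n = 0 := by
    intro n
    rw [fourierCoeff_eq_intervalIntegral _ n 0]
    have e : (∫ x in (0 : ℝ)..0 + 1, @fourier 1 (-n) (x : AddCircle (1 : ℝ)) • Φ x) =
        ∫ r in (0 : ℝ)..0 + 1, Complex.exp (-(2 * π * n * r) * I) * G (z + r • w) := by
      refine intervalIntegral.integral_congr_Ioo_of_le (by norm_num) fun x hx => ?_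
      have h1 : Φ (x : AddCircle (1 : ℝ)) = φ x := by
        simp only [hΦ, ContinuousMap.coe_mk]
        exact AddCircle.liftIco_zero_coe_apply ⟨hx.1.le, by linarith [hx.2]⟩
      rw [h1, fourier_coe_apply, smul_eq_mul]
      congr 2
      push_cast
      ring
    rw [e, zero_add]
    have := h n
    unfold Av at this
    rw [this]
    simp
  have hs : Summable (fourierCoeff Φ) := by
    have : (fourierCoeff Φ : ℤ → ℂ) = fun _ => 0 := funext hco
    rw [this]
    exact summable_zero
  have := has_pointwise_sum_fourier_series_of_summable hs (0 : AddCircle (1 : ℝ))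
  simp only [hco, zero_smul] at this
  have h2 := this.unique hasSum_zero
  have h3 : Φ (0 : AddCircle (1 : ℝ)) = φ 0 := by
    simp only [hΦ, ContinuousMap.coe_mk]
    exact AddCircle.liftIco_zero_coe_apply (x := (0 : ℝ)) ⟨le_rfl, one_pos⟩
  rw [h3] at h2
  simpa [hφ] using h2

/-- invariance of the integral over the torus under a hyperbolic automorphism -/
theorem torus_step (G : ℝ → ℝ → ℂ) (hG : Continuous (Function.uncurry G)) (h1 : ∀ a b, G (a + 1) b = G a b)
    (h2 : ∀ a b, G a (b + 1) = G a b) :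
    ∫ a in (0 : ℝ)..1, ∫ b in (0 : ℝ)..1, G (3 * a + b) (-a) = ∫ a in (0 : ℝ)..1, ∫ b in (0 : ℝ)..1, G a b := by
  have e1 : ∀ a : ℝ, ∫ b in (0 : ℝ)..1, G (3 * a + b) (-a) = ∫ b in (0 : ℝ)..1, G b (-a) := by
    intro a
    rw [intervalIntegral.integral_comp_add_left (f := fun x => G x (-a))]
    have hp : Function.Periodic (fun x => G x (-a)) 1 := fun x => h1 x _
    have := hp.intervalIntegral_add_eq (3 * a) 0
    rw [zero_add] at this
    rw [add_zero]
    exact this
  simp only [e1]
  rw [intervalIntegral.integral_comp_neg (f := fun x => ∫ b in (0 : ℝ)..1, G b x)]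
  have hp : Function.Periodic (fun x => ∫ b in (0 : ℝ)..1, G b x) 1 := by
    intro x
    simp only [h2]
  have := hp.intervalIntegral_add_eq (-1) 0
  rw [zero_add, show (-1 : ℝ) + 1 = -0 by norm_num] at this
  rw [this]
  refine intervalIntegral_intervalIntegral_swap (F := fun x y => G y x) ?_
  have hc : Continuous (Function.uncurry (fun x y => G y x)) := hG.comp continuous_swap
  have : IntegrableOn (Function.uncurry (fun x y => G y x)) (Set.uIcc (0 : ℝ) 1 ×ˢ Set.uIcc (0 : ℝ) 1) :=
    hc.continuousOn.integrableOn_compact (isCompact_uIcc.prod isCompact_uIcc)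
  exact this.mono_set (Set.prod_mono Set.uIoc_subset_uIcc Set.uIoc_subset_uIcc)

end Pool.Agent.X154.SolM
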