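import Pool.Agent.X154.SolD

set_option autoImplicit false

/-!
Eigenfunctions below the ground energy vanish.
-/

namespace Pool.Agent.X154.SolM

open scoped ContDiff Real
open Set Filter Topology MeasureTheory Complex

noncomputable def al : ℝ := (3 + √5) / 2
noncomputable def be : ℝ := (3 - √5) / 2
noncomputable def ta : ℝ := Real.log al

theorem s5 : √5 ^ 2 = (5 : ℝ) := Real.sq_sqrt (by norm_num)
theorem s5_pos : (0 : ℝ) < √5 := by positivity
theorem s5_lt : √5 < (3 : ℝ) := by
  have h := s5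
  nlinarith [s5_pos]
theorem al_mul_be : al * be = 1 := by
  unfold al be
  linear_combination (-1 / 4) * s5
theorem al_add_be : al + be = 3 := by unfold al be; ring
theorem al_sub_be : al - be = √5 := by unfold al be; ring
theorem be_pos : 0 < be := by unfold be; linarith [s5_lt]
theorem al_pos : 0 < al := by unfold al; linarith [s5_pos]
theorem one_lt_al : 1 < al := by unfold al; linarith [s5_pos]
theorem ta_pos : 0 < ta := Real.log_pos one_lt_al
theorem exp_ta : Real.exp ta = al := Real.exp_log al_pos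
theorem be_eq : be = al⁻¹ := by
  have := al_mul_be
  field_simp [al_pos.ne']
  linarith
theorem exp_neg_ta : Real.exp (-ta) = be := by rw [Real.exp_neg, exp_ta, be_eq]

noncomputable def w1 (δ : ℝ) : X4 := ![1 / (δ * √5), -(1 / (δ * √5)), 0, 0]
noncomputable def w2 (δ : ℝ) : X4 := ![al / (δ * √5), -(be / (δ * √5)), 0, 0]
def w3 (l : ℝ) : X4 := ![0, 0, 0, l]

theorem e0_eq {δ : ℝ} (hδ : 0 < δ) : (Pi.single 0 1 : X4) = (-(δ * be)) • w1 δ + δ • w2 δ := by
  have h5 := s5_pos
  have h := al_sub_be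
  funext i
  fin_cases i <;> simp [w1, w2]
  · field_simp; linarith
  · field_simp; ring

theorem e1_eq {δ : ℝ} (hδ : 0 < δ) : (Pi.single 1 1 : X4) = (-(δ * al)) • w1 δ + δ • w2 δ := by
  have h5 := s5_pos
  have h := al_sub_be
  funext i
  fin_cases i <;> simp [w1, w2]
  · field_simp; ring
  · field_simp; linarith

theorem e3_eq {l : ℝ} (hl : 0 < l) : (Pi.single 3 1 : X4) = (1 / l) • w3 l := by
  funext i
  fin_cases i <;> simp [w3]
  field_simp

/-- the Laplacian -/
noncomputable def LapC (G : X4 → ℂ) (z : X4) : ℂ :=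
  (Real.exp (-(2 * z 2)) : ℂ) * pd 0 (pd 0 G) z + (Real.exp (2 * z 2) : ℂ) * pd 1 (pd 1 G) z +
    pd 2 (pd 2 G) z + pd 3 (pd 3 G) z

theorem LapC_Av {w : X4} (hw : w 2 = 0) (n : ℤ) {G : X4 → ℂ} (hG : ContDiff ℝ ∞ G) (z : X4) :
    LapC (Av w n G) z = Av w n (LapC G) z := by
  unfold LapC
  simp only [pd_Av w n hG, pd_Av w n (pd_smooth _ hG)]
  unfold Av
  have c : ∀ i, Continuous (pd i (pd i G)) := fun i => (pd_smooth i (pd_smooth i hG)).continuous
  have e : ∀ r : ℝ, (z + r • w) 2 = z 2 := by intro r; simp [hw]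
  simp only [e, mul_add]
  have ci : ∀ (i : Fin 4) (k : ℂ), IntervalIntegrable (fun r : ℝ => Complex.exp (-(2 * π * n * r) * I) *
      (k * pd i (pd i G) (z + r • w))) volume 0 1 := fun i k => by
    have := c i
    apply Continuous.intervalIntegrable
    fun_prop
  have ci' : ∀ (i : Fin 4), IntervalIntegrable (fun r : ℝ => Complex.exp (-(2 * π * n * r) * I) *
      (pd i (pd i G) (z + r • w))) volume 0 1 := fun i => by
    have := c i
    apply Continuous.intervalIntegrable
    fun_prop
  rw [intervalIntegral.integral_add (((ci 0 _).add (ci 1 _)).add (ci' 2)) (ci' 3),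
    intervalIntegral.integral_add ((ci 0 _).add (ci 1 _)) (ci' 2),
    intervalIntegral.integral_add (ci 0 _) (ci 1 _), ← intervalIntegral.integral_const_mul,
    ← intervalIntegral.integral_const_mul]
  congr 4
  · funext r; ring
  · funext r; ring

theorem Av_smul (w : X4) (n : ℤ) (G : X4 → ℂ) (c : ℂ) (z : X4) :
    Av w n (fun z => c * G z) z = c * Av w n G z := by
  unfold Av
  rw [← intervalIntegral.integral_const_mul]
  congr 1
  funext r
  ring

theorem pd_of_line {G : X4 → ℂ} (hG : ContDiff ℝ ∞ G) (i : Fin 4) (c : ℂ)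
    (h : ∀ (z : X4) (s : ℝ), G (z + s • Pi.single i 1) = Complex.exp (c * s) * G z) :
    pd i G = fun z => c * G z := by
  funext z
  apply pd_eq_of i hG
  simp only [h]
  have h1 : HasDerivAt (fun s : ℝ => c * (s : ℂ)) c 0 := by
    have := (Complex.ofRealCLM.hasDerivAt (x := (0 : ℝ))).const_mul c
    simpa using this
  have h2 := (h1.cexp).mul_const (G z)
  simpa using h2

theorem pd_pd_of_line {G : X4 → ℂ} (hG : ContDiff ℝ ∞ G) (i : Fin 4) (c : ℂ)
    (h : ∀ (z : X4) (s : ℝ), G (z + s • Pi.single i 1) = Complex.exp (c * s) * G z) (z : X4) :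
    pd i (pd i G) z = c ^ 2 * G z := by
  have h1 := pd_of_line hG i c h
  have h2 : pd i (pd i G) = fun z => c * pd i G z := by
    apply pd_of_line (pd_smooth i hG) i c
    intro z s
    rw [h1]
    simp only [h]
    ring
  rw [h2, h1]
  ring

/-- a nonzero mode has norm at least one -/
theorem norm_ge (p q : ℤ) (h : p ≠ 0 ∨ q ≠ 0) : 1 ≤ |((q : ℝ) - p * be) * (q - p * al)| := by
  have e : ((q : ℝ) - p * be) * (q - p * al) = ((q ^ 2 - 3 * p * q + p ^ 2 : ℤ) : ℝ) := by
    push_cast
    linear_combination (p : ℝ) ^ 2 * al_mul_be - (p : ℝ) * q * al_add_be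
  rw [e]
  have hne : q ^ 2 - 3 * p * q + p ^ 2 ≠ 0 := by
    intro h0
    by_cases hp : p = 0
    · subst hp
      simp at h0
      exact (h.resolve_left (by simp)) h0
    · have hirr : Irrational (√5) := by
        have := Nat.Prime.irrational_sqrt (p := 5) (by norm_num)
        exact_mod_cast this
      apply hirr
      have h1 : ((q ^ 2 - 3 * p * q + p ^ 2 : ℤ) : ℝ) = 0 := by exact_mod_cast h0
      rw [← e] at h1
      have hp' : (p : ℝ) ≠ 0 := by exact_mod_cast hp
      rcases mul_eq_zero.mp h1 with h2 | h2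
      · refine ⟨3 - 2 * q / p, ?_⟩
        push_cast
        unfold be at h2
        field_simp
        linarith
      · refine ⟨2 * q / p - 3, ?_⟩
        push_cast
        unfold al at h2
        field_simp
        linarith
  rw [← Int.cast_abs]
  exact_mod_cast Int.one_le_abs hne

theorem pot_ge {a b : ℝ} (hab : 1 ≤ |a * b|) : ∃ t₀ : ℝ, ∀ t : ℝ,
    2 * Real.cosh (2 * (t - t₀)) ≤ Real.exp (-(2 * t)) * a ^ 2 + Real.exp (2 * t) * b ^ 2 := by
  have ha : a ≠ 0 := by rintro rfl; simp at hab; linarith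
  have hb : b ≠ 0 := by rintro rfl; simp at hab; linarith
  have ha' : 0 < |a| := abs_pos.mpr ha
  have hb' : 0 < |b| := abs_pos.mpr hb
  set t₀ := Real.log (|a| / |b|) / 2 with ht₀
  have h2 : Real.exp (2 * t₀) = |a| / |b| := by
    rw [ht₀, mul_div_cancel₀ _ two_ne_zero, Real.exp_log (by positivity)]
  have h3 : Real.exp (-(2 * t₀)) = |b| / |a| := by
    rw [Real.exp_neg, h2, inv_div]
  refine ⟨t₀, fun t => ?_⟩
  have e1 : Real.exp (-(2 * t)) * a ^ 2 + Real.exp (2 * t) * b ^ 2 =
      |a * b| * (2 * Real.cosh (2 * (t - t₀))) := by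
    rw [Real.cosh_eq, show 2 * (t - t₀) = 2 * t + -(2 * t₀) by ring,
      show -(2 * t + -(2 * t₀)) = -(2 * t) + 2 * t₀ by ring, Real.exp_add, Real.exp_add, h2, h3,
      abs_mul, ← sq_abs a, ← sq_abs b]
    field_simp
    ring
  rw [e1]
  have := Real.cosh_pos (2 * (t - t₀))
  nlinarith

/-- integral over the torus of a function of `x, y` -/
noncomputable def TI (δ : ℝ) (k : ℝ → ℝ → ℂ) : ℂ :=
  ∫ a in (0 : ℝ)..1, ∫ b in (0 : ℝ)..1, k ((a + al * b) / (δ * √5)) (-((a + be * b) / (δ * √5)))

theorem TI_step {δ : ℝ} (k : ℝ → ℝ → ℂ) (hk : Continuous (Function.uncurry k))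
    (h1 : ∀ x y, k (x + 1 / (δ * √5)) (y + -(1 / (δ * √5))) = k x y)
    (h2 : ∀ x y, k (x + al / (δ * √5)) (y + -(be / (δ * √5))) = k x y) :
    TI δ (fun x y => k (be * x) (al * y)) = TI δ k := by
  unfold TI
  have hc : Continuous (Function.uncurry fun a b : ℝ => k ((a + al * b) / (δ * √5)) (-((a + be * b) / (δ * √5)))) := by
    exact hk.comp (f := fun p : ℝ × ℝ => ((p.1 + al * p.2) / (δ * √5), -((p.1 + be * p.2) / (δ * √5))))
      (by fun_prop)
  rw [← torus_step _ hc]
  · congr 1
    funext a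
    congr 1
    funext b
    have e1 : be * (a + al * b) = 3 * a + b + al * -a := by
      linear_combination b * al_mul_be + a * al_add_be
    have e2 : al * (a + be * b) = 3 * a + b + be * -a := by
      linear_combination b * al_mul_be + a * al_add_be
    show k (be * ((a + al * b) / (δ * √5))) (al * -((a + be * b) / (δ * √5))) = _
    rw [mul_neg, ← mul_div_assoc, ← mul_div_assoc, e1, e2]
  · intro a b
    rw [← h1 ((a + al * b) / (δ * √5)) (-((a + be * b) / (δ * √5)))]
    congr 1 <;> ring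
  · intro a b
    rw [← h2 ((a + al * b) / (δ * √5)) (-((a + be * b) / (δ * √5)))]
    congr 1 <;> ring

theorem TI_pow {δ : ℝ} (i : ℕ) : ∀ (k : ℝ → ℝ → ℂ), Continuous (Function.uncurry k) →
    (∀ x y, k (x + 1 / (δ * √5)) (y + -(1 / (δ * √5))) = k x y) →
    (∀ x y, k (x + al / (δ * √5)) (y + -(be / (δ * √5))) = k x y) →
    TI δ (fun x y => k (be ^ i * x) (al ^ i * y)) = TI δ k := by
  induction i with
  | zero => intro k _ _ _; simp
  | succ i ih =>
    intro k hk h1 h2
    have h2' : ∀ x y, k (x + -(al / (δ * √5))) (y + be / (δ * √5)) = k x y := by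
      intro x y
      rw [← h2]
      congr 1 <;> ring
    rw [← TI_step k hk h1 h2, ← ih (fun x y => k (be * x) (al * y))]
    · congr 1
      funext x y
      congr 1 <;> ring
    · exact hk.comp (f := fun p : ℝ × ℝ => (be * p.1, al * p.2)) (by fun_prop)
    · intro x y
      rw [← h1 (be * x) (al * y), ← h1 (be * x + _), ← h1 (be * x + _ + _), ← h2' (be * x + _ + _ + _)]
      congr 1
      · linear_combination (1 / (δ * √5)) * al_add_be
      · linear_combination (-1 / (δ * √5)) * al_add_be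
    · intro x y
      rw [← h1 (be * x) (al * y)]
      congr 1
      · linear_combination (1 / (δ * √5)) * al_mul_be
      · linear_combination (-1 / (δ * √5)) * al_mul_be

end Pool.Agent.X154.SolM
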