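import Pool.Agent.X154.SolE

set_option autoImplicit false

/-!
Eigenfunctions below the ground energy vanish: the theorem.
-/

namespace Pool.Agent.X154.SolM

open scoped ContDiff Real
open Set Filter Topology MeasureTheory Complex

theorem coord (z : X4) : z = z 2 • (Pi.single 2 1 : X4) + z 0 • (Pi.single 0 1 : X4) + z 1 • (Pi.single 1 1 : X4) +
    z 3 • (Pi.single 3 1 : X4) := by
  funext i
  fin_cases i <;> simp

/-- one Fourier mode -/
theorem mode {δ l E μ : ℝ} {ψ ψ' : ℝ → ℝ} (hδ : 0 < δ) (hl : 0 < l)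
    (hψ : Sl (qq (8 * π ^ 2 * δ ^ 2) E) ψ ψ') (hpos : ∀ t, 0 < ψ t) (hev : ∀ t, ψ (-t) = ψ t)
    (hdec : ∃ C, 0 ≤ C ∧ ∀ t, |ψ t| ≤ C * Real.exp (-(1 * |t|)) ∧ |ψ' t| ≤ C * Real.exp (-(1 * |t|)))
    (hμ : 0 < μ) (hμE : μ < E) (hEl : E < (2 * π / l) ^ 2) {T : ℝ} (hT : 0 < T) (hET : E < (2 * π / T) ^ 2)
    (p q m : ℤ) {H : X4 → ℂ} (hH : ContDiff ℝ ∞ H)
    (h1 : ∀ (z : X4) (s : ℝ), H (z + s • w1 δ) = Complex.exp (2 * π * p * s * I) * H z)
    (h2 : ∀ (z : X4) (s : ℝ), H (z + s • w2 δ) = Complex.exp (2 * π * q * s * I) * H z)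
    (h3 : ∀ (z : X4) (s : ℝ), H (z + s • w3 l) = Complex.exp (2 * π * m * s * I) * H z)
    {B : ℝ} (hB : ∀ z, ‖H z‖ ≤ B) (hL : ∀ z, LapC H z = -μ * H z)
    (hper : p = 0 → q = 0 → m = 0 → ∀ t : ℝ, H (0 + (t + T) • Pi.single 2 1) = H (0 + t • Pi.single 2 1))
    (z : X4) : H z = 0 := by
  set η : ℝ := q - p * be with hη
  set η' : ℝ := q - p * al with hη'
  have l0 : ∀ (z : X4) (s : ℝ), H (z + s • Pi.single 0 1) = Complex.exp (2 * π * δ * η * I * s) * H z := by
    intro z s
    rw [e0_eq hδ, smul_add, smul_smul, smul_smul, ← add_assoc, h2, h1, ← mul_assoc, ← Complex.exp_add]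
    congr 2
    push_cast [hη]
    ring
  have l1 : ∀ (z : X4) (s : ℝ), H (z + s • Pi.single 1 1) = Complex.exp (2 * π * δ * η' * I * s) * H z := by
    intro z s
    rw [e1_eq hδ, smul_add, smul_smul, smul_smul, ← add_assoc, h2, h1, ← mul_assoc, ← Complex.exp_add]
    congr 2
    push_cast [hη']
    ring
  have l3 : ∀ (z : X4) (s : ℝ), H (z + s • Pi.single 3 1) = Complex.exp (2 * π * (m / l) * I * s) * H z := by
    intro z s
    rw [e3_eq hl, smul_smul, h3]
    congr 2
    push_cast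
    ring
  set W : ℝ → ℝ := fun t => 4 * π ^ 2 * δ ^ 2 * (Real.exp (-(2 * t)) * η ^ 2 + Real.exp (2 * t) * η' ^ 2) +
    4 * π ^ 2 * (m / l) ^ 2 with hW
  set u : ℝ → ℂ := fun t => H (0 + t • Pi.single 2 1) with hu
  set v : ℝ → ℂ := fun t => pd 2 H (0 + t • Pi.single 2 1) with hv
  have du : ∀ t, HasDerivAt u (v t) t := fun t => hasDerivAt_line 2 hH 0 t
  have dv : ∀ t, HasDerivAt v (((W t - μ : ℝ) : ℂ) * u t) t := by
    intro t
    have := hasDerivAt_line 2 (pd_smooth 2 hH) 0 t
    convert! this using 1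
    have hLt := hL (0 + t • Pi.single 2 1)
    unfold LapC at hLt
    rw [pd_pd_of_line hH 0 _ l0, pd_pd_of_line hH 1 _ l1, pd_pd_of_line hH 3 _ l3] at hLt
    have e2 : (0 + t • (Pi.single 2 1 : X4)) 2 = t := by simp
    rw [e2] at hLt
    have hI : I ^ 2 = -1 := Complex.I_sq
    simp only [hu, hW]
    push_cast
    push_cast at hLt
    linear_combination -hLt + (4 * π ^ 2 * δ ^ 2 * (Complex.exp (-(2 * t)) * η ^ 2 + Complex.exp (2 * t) * η' ^ 2) +
      4 * π ^ 2 * (m / l) ^ 2) * H (0 + t • Pi.single 2 1) * hI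
  have hBu : ∀ t, ‖u t‖ ≤ B := fun t => hB _
  -- the real solutions vanish
  have key : ∀ (a b : ℝ → ℝ), Sl (fun t => W t - μ) a b → (∀ t, |a t| ≤ B) →
      (p = 0 → q = 0 → m = 0 → ∀ t, a (t + T) = a t) → ∀ t, a t = 0 := by
    intro a b hab haB hap
    by_cases hpq : p ≠ 0 ∨ q ≠ 0
    · obtain ⟨t₀, ht₀⟩ := pot_ge (norm_ge p q hpq)
      refine no_bdd hψ hpos hev hdec hab t₀ (fun t => ?_) haB
      have h5 := ht₀ t
      have h6 : 0 ≤ 4 * π ^ 2 * ((m : ℝ) / l) ^ 2 := by positivity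
      have h7 : 4 * π ^ 2 * δ ^ 2 * (2 * Real.cosh (2 * (t - t₀))) ≤
        4 * π ^ 2 * δ ^ 2 * (Real.exp (-(2 * t)) * η ^ 2 + Real.exp (2 * t) * η' ^ 2) :=
        mul_le_mul_of_nonneg_left h5 (by positivity)
      simp only [hW]
      linarith
    · push Not at hpq
      obtain ⟨hp, hq⟩ := hpq
      have e : (fun t => W t - μ) = fun _ => 4 * π ^ 2 * ((m : ℝ) / l) ^ 2 - μ := by
        funext t
        simp only [hW, hη, hη', hp, hq]
        push_cast
        ring
      rw [e] at hab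
      by_cases hm : m = 0
      · subst hm
        have e' : (fun _ : ℝ => 4 * π ^ 2 * (((0 : ℤ) : ℝ) / l) ^ 2 - μ) = fun _ => -μ := by
          funext t
          simp
        rw [e'] at hab
        exact no_per hμ hT (hμE.trans hET) hab (hap hp hq rfl)
      · refine no_bdd_const ?_ hab haB
        have h1 : (1 : ℝ) ≤ (m : ℝ) ^ 2 := by
          have : (1 : ℤ) ≤ m ^ 2 := by
            have := Int.one_le_abs hm
            nlinarith [sq_abs m]
          exact_mod_cast this
        have h2 : 4 * π ^ 2 * ((m : ℝ) / l) ^ 2 = (2 * π / l) ^ 2 * m ^ 2 := by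
          field_simp
          ring
        rw [h2]
        have h3 : 0 < (2 * π / l) ^ 2 := by positivity
        nlinarith
  have hre : ∀ t, (u t).re = 0 := by
    refine key (fun t => (u t).re) (fun t => (v t).re) ⟨fun t => ?_, fun t => ?_⟩ (fun t => ?_) ?_
    · exact Complex.reCLM.hasFDerivAt.comp_hasDerivAt t (du t)
    · have := Complex.reCLM.hasFDerivAt.comp_hasDerivAt t (dv t)
      convert! this using 1
      simp
    · exact (Complex.abs_re_le_norm _).trans (hBu t)
    · intro a b c t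
      simp only [hu]
      rw [hper a b c]
  have him : ∀ t, (u t).im = 0 := by
    refine key (fun t => (u t).im) (fun t => (v t).im) ⟨fun t => ?_, fun t => ?_⟩ (fun t => ?_) ?_
    · exact Complex.imCLM.hasFDerivAt.comp_hasDerivAt t (du t)
    · have := Complex.imCLM.hasFDerivAt.comp_hasDerivAt t (dv t)
      convert! this using 1
      simp
    · exact (Complex.abs_im_le_norm _).trans (hBu t)
    · intro a b c t
      simp only [hu]
      rw [hper a b c]
  have hu0 : ∀ t, u t = 0 := fun t => Complex.ext (hre t) (him t)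
  have := hu0 (z 2)
  simp only [hu, zero_add] at this
  rw [coord z, l3, l1, l0, this]
  simp

theorem lower {δ l E μ : ℝ} {ψ ψ' : ℝ → ℝ} (hδ : 0 < δ) (hl : 0 < l)
    (hψ : Sl (qq (8 * π ^ 2 * δ ^ 2) E) ψ ψ') (hpos : ∀ t, 0 < ψ t) (hev : ∀ t, ψ (-t) = ψ t)
    (hdec : ∃ C, 0 ≤ C ∧ ∀ t, |ψ t| ≤ C * Real.exp (-(1 * |t|)) ∧ |ψ' t| ≤ C * Real.exp (-(1 * |t|)))
    (hμ : 0 < μ) (hμE : μ < E) (hEl : E < (2 * π / l) ^ 2) {T : ℝ} (hT : 0 < T) (hET : E < (2 * π / T) ^ 2)
    {j : ℕ} {F : X4 → ℂ} (hF : ContDiff ℝ ∞ F) (h1 : ∀ z, F (z + w1 δ) = F z) (h2 : ∀ z, F (z + w2 δ) = F z)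
    (h3 : ∀ z, F (z + w3 l) = F z) {B : ℝ} (hB : ∀ z, ‖F z‖ ≤ B)
    (hinv : ∀ z : X4, F ![be ^ j * z 0, al ^ j * z 1, z 2 + T, z 3] = F z)
    (hL : ∀ z, LapC F z = -μ * F z) (z : X4) : F z = 0 := by
  have s3 : ∀ m, ContDiff ℝ ∞ (Av (w3 l) m F) := fun m => Av_smooth _ _ hF
  have s2 : ∀ q m, ContDiff ℝ ∞ (Av (w2 δ) q (Av (w3 l) m F)) := fun q m => Av_smooth _ _ (s3 m)
  have s1 : ∀ p q m, ContDiff ℝ ∞ (Av (w1 δ) p (Av (w2 δ) q (Av (w3 l) m F))) := fun p q m => Av_smooth _ _ (s2 q m)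
  have one : ∀ {G : X4 → ℂ} {v : X4}, (∀ z, G (z + v) = G z) → ∀ (w : X4) (n : ℤ) (z : X4), Av w n G (z + v) = Av w n G z := by
    intro G v h w n z
    have := Av_mul w n (c := 1) (by simpa using h) z
    simpa using this
  have key : ∀ p q m z, Av (w1 δ) p (Av (w2 δ) q (Av (w3 l) m F)) z = 0 := by
    intro p q m
    refine mode hδ hl hψ hpos hev hdec hμ hμE hEl hT hET p q m (s1 p q m) ?_ ?_ ?_ (B := B) ?_ ?_ ?_
    · intro z s
      exact Av_self _ _ (one (one h1 _ _) _ _) s z
    · intro z s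
      exact Av_mul _ _ (fun z => Av_self _ _ (one h2 _ _) s z) z
    · intro z s
      exact Av_mul _ _ (Av_mul _ _ (fun z => Av_self _ _ h3 s z)) z
    · exact Av_bound _ _ (Av_bound _ _ (Av_bound _ _ hB))
    · intro z
      rw [LapC_Av (by simp [w1]) _ (s2 q m)]
      have e2 : LapC (Av (w2 δ) q (Av (w3 l) m F)) = fun z => (-μ : ℂ) * (Av (w2 δ) q (Av (w3 l) m F)) z := by
        funext z
        rw [LapC_Av (by simp [w2]) _ (s3 m)]
        have e3 : LapC (Av (w3 l) m F) = fun z => (-μ : ℂ) * (Av (w3 l) m F) z := by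
          funext z
          rw [LapC_Av (by simp [w3]) _ hF]
          have e4 : LapC F = fun z => (-μ : ℂ) * F z := by
            funext z
            rw [hL]
          rw [e4, Av_smul]
        rw [e3, Av_smul]
      rw [e2, Av_smul]
    · intro hp hq hm t
      subst hp hq hm
      set G := Av (w3 l) 0 F with hG
      have hGc : Continuous G := (s3 0).continuous
      have g1 : ∀ z, G (z + w1 δ) = G z := one h1 _ _
      have g2 : ∀ z, G (z + w2 δ) = G z := one h2 _ _
      have g4 : ∀ z : X4, G ![be ^ j * z 0, al ^ j * z 1, z 2 + T, z 3] = G z := by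
        intro z
        simp only [hG]
        unfold Av
        congr 1
        funext r
        congr 1
        rw [← hinv (z + r • w3 l)]
        congr 1
        funext i
        fin_cases i <;> simp [w3]
      have hTI : ∀ t : ℝ, Av (w1 δ) 0 (Av (w2 δ) 0 G) (0 + t • Pi.single 2 1) =
          TI δ (fun x y => G ![x, y, t, 0]) := by
        intro t
        unfold TI Av
        simp only [Int.cast_zero, mul_zero, zero_mul, neg_zero, Complex.exp_zero, one_mul]
        congr 1
        funext a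
        congr 1
        funext b
        congr 1
        funext i
        simp only [Pi.add_apply, Pi.smul_apply, Pi.zero_apply, smul_eq_mul, w1, w2]
        fin_cases i <;> simp
        · ring
        · ring
      rw [hTI, hTI]
      have e5 : (fun x y => G ![x, y, t, 0]) = fun x y => G ![be ^ j * x, al ^ j * y, t + T, 0] := by
        funext x y
        have := g4 ![x, y, t, 0]
        simp only [Matrix.cons_val_zero, Matrix.cons_val_one, Matrix.cons_val] at this
        exact this.symm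
      rw [e5]
      symm
      refine TI_pow j (fun x y => G ![x, y, t + T, 0]) ?_ ?_ ?_
      · refine hGc.comp (f := fun p : ℝ × ℝ => ![p.1, p.2, t + T, 0]) ?_
        refine continuous_pi fun i => ?_
        fin_cases i
        · exact continuous_fst
        · exact continuous_snd
        · exact continuous_const
        · exact continuous_const
      · intro x y
        rw [← g1 ![x, y, t + T, 0]]
        congr 1
        funext i
        fin_cases i <;> simp [w1]
      · intro x y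
        rw [← g2 ![x, y, t + T, 0]]
        congr 1
        funext i
        fin_cases i <;> simp [w2]
  have k2 : ∀ q m z, Av (w2 δ) q (Av (w3 l) m F) z = 0 := fun q m z =>
    Av_inj (w1 δ) (s2 q m).continuous (one (one h1 _ _) _ _) z (fun p => key p q m z)
  have k3 : ∀ m z, Av (w3 l) m F z = 0 := fun m z =>
    Av_inj (w2 δ) (s3 m).continuous (one h2 _ _) z (fun q => k2 q m z)
  exact Av_inj (w3 l) hF.continuous h3 z (fun m => k3 m z)

end Pool.Agent.X154.SolM
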