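import Pool.Agent.X154.SolF

set_option autoImplicit false

/-!
Smooth theta-like series.
-/

namespace Pool.Agent.X154.SolM

open scoped ContDiff Real
open Set Filter Topology

theorem al_zpow (n : ℤ) : al ^ n = Real.exp (n * ta) := by
  rw [mul_comm, Real.exp_mul, exp_ta]
  simp
theorem be_zpow (n : ℤ) : be ^ n = Real.exp (-(n * ta)) := by
  rw [show -((n : ℝ) * ta) = (-ta) * n by ring, Real.exp_mul, exp_neg_ta]
  simp

def Dec (Φ : ℝ → ℝ) : Prop := ∀ M : ℝ, ∃ C, 0 ≤ C ∧ ∀ t, |Φ t| ≤ C * Real.exp (-(M * |t|))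
def ExpT (w : ℤ → ℝ) : Prop := ∃ C K : ℝ, ∀ n, |w n| ≤ C * Real.exp (K * |(n : ℝ)|)

theorem ExpT.al {w : ℤ → ℝ} (h : ExpT w) (c : ℝ) : ExpT (fun n => w n * (c * al ^ n)) := by
  obtain ⟨C, K, h⟩ := h
  refine ⟨C * |c|, K + ta, fun n => ?_⟩
  have h0 : |w n * (c * SolM.al ^ n)| = |w n| * (|c| * Real.exp (n * ta)) := by
    rw [abs_mul, abs_mul, al_zpow, abs_of_pos (Real.exp_pos _)]
  rw [h0]
  have h1 : Real.exp (n * ta) ≤ Real.exp (ta * |(n : ℝ)|) := by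
    apply Real.exp_le_exp.mpr
    have := le_abs_self (n : ℝ)
    nlinarith [ta_pos]
  have h2 : |c| * Real.exp (n * ta) ≤ |c| * Real.exp (ta * |(n : ℝ)|) :=
    mul_le_mul_of_nonneg_left h1 (abs_nonneg _)
  calc |w n| * (|c| * Real.exp (n * ta)) ≤ (C * Real.exp (K * |(n : ℝ)|)) * (|c| * Real.exp (ta * |(n : ℝ)|)) :=
        mul_le_mul (h n) h2 (by positivity) ((abs_nonneg _).trans (h n))
    _ = C * |c| * Real.exp ((K + ta) * |(n : ℝ)|) := by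
        rw [add_mul, Real.exp_add]; ring

theorem ExpT.be {w : ℤ → ℝ} (h : ExpT w) (c : ℝ) : ExpT (fun n => w n * (c * be ^ n)) := by
  obtain ⟨C, K, h⟩ := h
  refine ⟨C * |c|, K + ta, fun n => ?_⟩
  have h0 : |w n * (c * SolM.be ^ n)| = |w n| * (|c| * Real.exp (-(n * ta))) := by
    rw [abs_mul, abs_mul, be_zpow, abs_of_pos (Real.exp_pos _)]
  rw [h0]
  have h1 : Real.exp (-(n * ta)) ≤ Real.exp (ta * |(n : ℝ)|) := by
    apply Real.exp_le_exp.mpr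
    have := neg_abs_le (n : ℝ)
    nlinarith [ta_pos]
  have h2 : |c| * Real.exp (-(n * ta)) ≤ |c| * Real.exp (ta * |(n : ℝ)|) :=
    mul_le_mul_of_nonneg_left h1 (abs_nonneg _)
  calc |w n| * (|c| * Real.exp (-(n * ta))) ≤ (C * Real.exp (K * |(n : ℝ)|)) * (|c| * Real.exp (ta * |(n : ℝ)|)) :=
        mul_le_mul (h n) h2 (by positivity) ((abs_nonneg _).trans (h n))
    _ = C * |c| * Real.exp ((K + ta) * |(n : ℝ)|) := by
        rw [add_mul, Real.exp_add]; ring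

theorem summ_exp : Summable (fun n : ℤ => Real.exp (-|(n : ℝ)|)) := by
  have h1 : Summable (fun n : ℕ => Real.exp (-(n : ℝ))) := by
    have := summable_geometric_of_lt_one (r := Real.exp (-1)) (Real.exp_pos _).le (by
      rw [Real.exp_lt_one_iff]; norm_num)
    refine this.congr fun n => ?_
    rw [← Real.exp_nat_mul]
    congr 1
    ring
  refine Summable.of_nat_of_neg ?_ ?_
  · simpa using h1
  · simpa using h1

theorem bound {Φ : ℝ → ℝ} (hΦ : Dec Φ) {w : ℤ → ℝ} (hw : ExpT w) (R : ℝ) :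
    ∃ C, 0 ≤ C ∧ ∀ (n : ℤ) (t : ℝ), |t| ≤ R → |w n| * |Φ (t - n * ta)| ≤ C * Real.exp (-|(n : ℝ)|) := by
  obtain ⟨C₁, K, h1⟩ := hw
  have hC₁ : 0 ≤ C₁ := by
    have := (abs_nonneg _).trans (h1 0)
    simpa using this
  set M := (|K| + 1) / ta with hM
  have hM0 : 0 < M := by have := ta_pos; positivity
  obtain ⟨C₂, hC₂, h2⟩ := hΦ M
  refine ⟨C₁ * C₂ * Real.exp (M * R), by positivity, fun n t ht => ?_⟩
  have h3 : |(n : ℝ)| * ta - R ≤ |t - n * ta| := by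
    have a1 : |(n : ℝ) * ta| = |(n : ℝ)| * ta := by rw [abs_mul, abs_of_pos ta_pos]
    have a2 := abs_sub_abs_le_abs_sub ((n : ℝ) * ta) t
    rw [a1, abs_sub_comm] at a2
    linarith
  have h4 : Real.exp (-(M * |t - n * ta|)) ≤ Real.exp (M * R) * Real.exp (-((|K| + 1) * |(n : ℝ)|)) := by
    rw [← Real.exp_add]
    apply Real.exp_le_exp.mpr
    have a3 := mul_le_mul_of_nonneg_left h3 hM0.le
    have a4 : M * (|(n : ℝ)| * ta - R) = (|K| + 1) * |(n : ℝ)| - M * R := by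
      rw [hM]
      field_simp [ta_pos.ne']
    linarith
  have h5 : Real.exp (K * |(n : ℝ)|) * Real.exp (-((|K| + 1) * |(n : ℝ)|)) ≤ Real.exp (-|(n : ℝ)|) := by
    rw [← Real.exp_add]
    apply Real.exp_le_exp.mpr
    have := mul_le_mul_of_nonneg_right (le_abs_self K) (abs_nonneg (n : ℝ))
    linarith
  calc |w n| * |Φ (t - n * ta)| ≤ (C₁ * Real.exp (K * |(n : ℝ)|)) * (C₂ * (Real.exp (M * R) * Real.exp (-((|K| + 1) * |(n : ℝ)|)))) :=
        mul_le_mul (h1 n) ((h2 _).trans (mul_le_mul_of_nonneg_left h4 hC₂)) (abs_nonneg _) (by positivity)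
    _ = C₁ * C₂ * Real.exp (M * R) * (Real.exp (K * |(n : ℝ)|) * Real.exp (-((|K| + 1) * |(n : ℝ)|))) := by ring
    _ ≤ C₁ * C₂ * Real.exp (M * R) * Real.exp (-|(n : ℝ)|) := mul_le_mul_of_nonneg_left h5 (by positivity)

/-- the phase -/
noncomputable def th (δ : ℝ) (n : ℤ) (z : X4) : ℝ := 2 * π * δ * (al ^ n * z 0 + be ^ n * z 1)

/-- one term -/
noncomputable def term (δ : ℝ) (Φ : ℝ → ℝ) (φ : ℝ) (w : ℤ → ℝ) (n : ℤ) (z : X4) : ℝ :=
  w n * Φ (z 2 - n * ta) * Real.cos (th δ n z + φ)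

/-- the series -/
noncomputable def SS (δ : ℝ) (Φ : ℝ → ℝ) (φ : ℝ) (w : ℤ → ℝ) (z : X4) : ℝ := ∑' n : ℤ, term δ Φ φ w n z

theorem term_le (δ : ℝ) (Φ : ℝ → ℝ) (φ : ℝ) (w : ℤ → ℝ) (n : ℤ) (z : X4) :
    |term δ Φ φ w n z| ≤ |w n| * |Φ (z 2 - n * ta)| := by
  unfold term
  rw [abs_mul, abs_mul]
  have := Real.abs_cos_le_one (th δ n z + φ)
  have h2 : 0 ≤ |w n| * |Φ (z 2 - n * ta)| := by positivity
  nlinarith

theorem term_summ (δ : ℝ) {Φ : ℝ → ℝ} (hΦ : Dec Φ) (φ : ℝ) {w : ℤ → ℝ} (hw : ExpT w) (z : X4) :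
    Summable (fun n => term δ Φ φ w n z) := by
  obtain ⟨C, hC, hb⟩ := bound hΦ hw |z 2|
  refine Summable.of_norm_bounded (summ_exp.mul_left C) (fun n => ?_)
  exact (term_le _ _ _ _ _ _).trans (hb n _ le_rfl)

abbrev P (i : Fin 4) : X4 →L[ℝ] ℝ := ContinuousLinearMap.proj i

/-- derivative of a term -/
noncomputable def dterm (δ : ℝ) (Φ Φ' : ℝ → ℝ) (φ : ℝ) (w : ℤ → ℝ) (n : ℤ) (z : X4) : X4 →L[ℝ] ℝ :=
  term δ Φ (φ + π / 2) (fun n => w n * (2 * π * δ * al ^ n)) n z • P 0 +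
  term δ Φ (φ + π / 2) (fun n => w n * (2 * π * δ * be ^ n)) n z • P 1 +
  term δ Φ' φ w n z • P 2

theorem term_hasFDerivAt (δ : ℝ) {Φ Φ' : ℝ → ℝ} (hd : ∀ t, HasDerivAt Φ (Φ' t) t) (φ : ℝ) (w : ℤ → ℝ) (n : ℤ)
    (z : X4) : HasFDerivAt (term δ Φ φ w n) (dterm δ Φ Φ' φ w n z) z := by
  have p : ∀ i, HasFDerivAt (fun z : X4 => z i) (P i) z := fun i => (P i).hasFDerivAt
  have h1 : HasFDerivAt (fun z : X4 => z 2 - n * ta) (P 2) z := (p 2).sub_const _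
  have h2 : HasFDerivAt (fun z : X4 => Φ (z 2 - n * ta)) (Φ' (z 2 - n * ta) • P 2) z :=
    (hd _).comp_hasFDerivAt z h1
  have h3 : HasFDerivAt (fun z : X4 => th δ n z + φ) ((2 * π * δ) • (al ^ n • P 0 + be ^ n • P 1)) z :=
    ((((p 0).const_mul (al ^ n)).add ((p 1).const_mul (be ^ n))).const_mul (2 * π * δ)).add_const φ
  have h4 := h3.cos
  have h5 := (h2.const_mul (w n)).mul h4
  have e : Real.cos (th δ n z + (φ + π / 2)) = -Real.sin (th δ n z + φ) := by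
    rw [← add_assoc, Real.cos_add_pi_div_two]
  refine (h5.congr_fderiv ?_)
  unfold dterm term
  rw [e]
  ext v
  simp only [add_apply, smul_apply, smul_eq_mul]
  ring

theorem dterm_tsum (δ : ℝ) {Φ Φ' : ℝ → ℝ} (hΦ : Dec Φ) (hΦ' : Dec Φ') (φ : ℝ) {w : ℤ → ℝ} (hw : ExpT w) (z : X4) :
    ∑' n, dterm δ Φ Φ' φ w n z =
      SS δ Φ (φ + π / 2) (fun n => w n * (2 * π * δ * al ^ n)) z • P 0 +
      SS δ Φ (φ + π / 2) (fun n => w n * (2 * π * δ * be ^ n)) z • P 1 + SS δ Φ' φ w z • P 2 := by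
  have s1 := (term_summ δ hΦ (φ + π / 2) (hw.al (2 * π * δ)) z).smul_const (P 0)
  have s2 := (term_summ δ hΦ (φ + π / 2) (hw.be (2 * π * δ)) z).smul_const (P 1)
  have s3 := (term_summ δ hΦ' φ hw z).smul_const (P 2)
  unfold dterm SS
  rw [(s1.add s2).tsum_add s3, s1.tsum_add s2]
  congr 1
  · congr 1
    · exact (term_summ δ hΦ (φ + π / 2) (hw.al (2 * π * δ)) z).tsum_smul_const (P 0)
    · exact (term_summ δ hΦ (φ + π / 2) (hw.be (2 * π * δ)) z).tsum_smul_const (P 1)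
  · exact (term_summ δ hΦ' φ hw z).tsum_smul_const (P 2)

theorem SS_hasFDerivAt (δ : ℝ) {Φ Φ' : ℝ → ℝ} (hd : ∀ t, HasDerivAt Φ (Φ' t) t) (hΦ : Dec Φ) (hΦ' : Dec Φ')
    (φ : ℝ) {w : ℤ → ℝ} (hw : ExpT w) (z : X4) :
    HasFDerivAt (SS δ Φ φ w)
      (SS δ Φ (φ + π / 2) (fun n => w n * (2 * π * δ * al ^ n)) z • P 0 +
      SS δ Φ (φ + π / 2) (fun n => w n * (2 * π * δ * be ^ n)) z • P 1 + SS δ Φ' φ w z • P 2) z := by
  rw [← dterm_tsum δ hΦ hΦ' φ hw z]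
  set R := |z 2| + 1 with hR
  set s : Set X4 := {z | |z 2| < R} with hs
  have hso : IsOpen s := isOpen_lt (by fun_prop) continuous_const
  have hsc : Convex ℝ s := by
    have : s = (P 2) ⁻¹' (Metric.ball 0 R) := by
      ext y
      simp [hs]
    rw [this]
    exact (convex_ball 0 R).is_linear_preimage (P 2).isLinear
  obtain ⟨C1, hC1, b1⟩ := bound hΦ (hw.al (2 * π * δ)) R
  obtain ⟨C2, hC2, b2⟩ := bound hΦ (hw.be (2 * π * δ)) R
  obtain ⟨C3, hC3, b3⟩ := bound hΦ' hw R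
  have hz : z ∈ s := by simp [hs, hR]
  refine hasFDerivAt_tsum_of_isPreconnected
    (u := fun n : ℤ => (C1 * ‖P 0‖ + C2 * ‖P 1‖ + C3 * ‖P 2‖) * Real.exp (-|(n : ℝ)|)) (s := s)
    (summ_exp.mul_left _) hso hsc.isPreconnected (fun n x _ => term_hasFDerivAt δ hd φ w n x) ?_ hz
    (term_summ δ hΦ φ hw z) hz
  intro n x hx
  have hx' : |x 2| ≤ R := le_of_lt hx
  have a1 := (term_le δ Φ (φ + π / 2) (fun n => w n * (2 * π * δ * al ^ n)) n x).trans (b1 n _ hx')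
  have a2 := (term_le δ Φ (φ + π / 2) (fun n => w n * (2 * π * δ * be ^ n)) n x).trans (b2 n _ hx')
  have a3 := (term_le δ Φ' φ w n x).trans (b3 n _ hx')
  unfold dterm
  refine (norm_add_le _ _).trans ?_
  have h12 := norm_add_le (term δ Φ (φ + π / 2) (fun n => w n * (2 * π * δ * al ^ n)) n x • P 0)
    (term δ Φ (φ + π / 2) (fun n => w n * (2 * π * δ * be ^ n)) n x • P 1)
  rw [norm_smul, norm_smul] at h12
  rw [norm_smul, Real.norm_eq_abs]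
  rw [Real.norm_eq_abs, Real.norm_eq_abs] at h12
  have c1 := mul_le_mul_of_nonneg_right a1 (norm_nonneg (P 0))
  have c2 := mul_le_mul_of_nonneg_right a2 (norm_nonneg (P 1))
  have c3 := mul_le_mul_of_nonneg_right a3 (norm_nonneg (P 2))
  linarith

/-- the class of the ground state -/
structure Good (κ E : ℝ) (ψ ψ' : ℝ → ℝ) : Prop where
  sl : Sl (qq κ E) ψ ψ'
  d0 : Dec ψ
  d1 : Dec ψ'

theorem Good.d2 {κ E : ℝ} {ψ ψ' : ℝ → ℝ} (h : Good κ E ψ ψ') : Dec (fun t => qq κ E t * ψ t) := by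
  intro M
  obtain ⟨C, hC, hb⟩ := h.d0 (M + 2)
  refine ⟨(|κ| + |E|) * C, by positivity, fun t => ?_⟩
  rw [abs_mul]
  have h1 : |qq κ E t| ≤ (|κ| + |E|) * Real.exp (2 * |t|) := by
    unfold qq
    have a1 : Real.cosh (2 * t) ≤ Real.exp (2 * |t|) := by
      rw [← Real.cosh_abs, abs_mul, abs_two]
      rw [Real.cosh_eq]
      have : Real.exp (-(2 * |t|)) ≤ Real.exp (2 * |t|) := Real.exp_le_exp.mpr (by have := abs_nonneg t; linarith)
      linarith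
    have a2 : 1 ≤ Real.exp (2 * |t|) := Real.one_le_exp (by positivity)
    have a3 := Real.cosh_pos (2 * t)
    calc |κ * Real.cosh (2 * t) - E| ≤ |κ * Real.cosh (2 * t)| + |E| := abs_sub _ _
      _ = |κ| * Real.cosh (2 * t) + |E| := by rw [abs_mul, abs_of_pos a3]
      _ ≤ (|κ| + |E|) * Real.exp (2 * |t|) := by
        nlinarith [abs_nonneg κ, abs_nonneg E]
  calc |qq κ E t| * |ψ t| ≤ ((|κ| + |E|) * Real.exp (2 * |t|)) * (C * Real.exp (-((M + 2) * |t|))) :=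
        mul_le_mul h1 (hb t) (abs_nonneg _) (by positivity)
    _ = (|κ| + |E|) * C * (Real.exp (2 * |t|) * Real.exp (-((M + 2) * |t|))) := by ring
    _ = (|κ| + |E|) * C * Real.exp (-(M * |t|)) := by
        rw [← Real.exp_add]; congr 2; ring

theorem SS_qq (δ : ℝ) {κ E : ℝ} {ψ ψ' : ℝ → ℝ} (h : Good κ E ψ ψ') (φ : ℝ) {w : ℤ → ℝ} (hw : ExpT w) (z : X4) :
    SS δ (fun t => qq κ E t * ψ t) φ w z =
      (κ / 2) * Real.exp (2 * z 2) * SS δ ψ φ (fun n => w n * (1 * be ^ n) * (1 * be ^ n)) z +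
      (κ / 2) * Real.exp (-(2 * z 2)) * SS δ ψ φ (fun n => w n * (1 * al ^ n) * (1 * al ^ n)) z -
      E * SS δ ψ φ w z := by
  have s1 := (term_summ δ h.d0 φ ((hw.be 1).be 1) z).mul_left ((κ / 2) * Real.exp (2 * z 2))
  have s2 := (term_summ δ h.d0 φ ((hw.al 1).al 1) z).mul_left ((κ / 2) * Real.exp (-(2 * z 2)))
  have s3 := (term_summ δ h.d0 φ hw z).mul_left E
  unfold SS
  rw [← tsum_mul_left, ← tsum_mul_left, ← tsum_mul_left, ← s1.tsum_add s2, ← (s1.add s2).tsum_sub s3]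
  congr 1
  funext n
  unfold term qq
  beta_reduce
  rw [Real.cosh_eq, be_zpow, al_zpow]
  have e1 : Real.exp (2 * (z 2 - n * ta)) = Real.exp (2 * z 2) * (Real.exp (-(n * ta)) * Real.exp (-(n * ta))) := by
    rw [← Real.exp_add, ← Real.exp_add]; congr 1; ring
  have e2 : Real.exp (-(2 * (z 2 - n * ta))) = Real.exp (-(2 * z 2)) * (Real.exp (n * ta) * Real.exp (n * ta)) := by
    rw [← Real.exp_add, ← Real.exp_add]; congr 1; ring
  rw [e1, e2]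
  ring

theorem contDiff_proj_exp (c : ℝ) (m : ℕ) : ContDiff ℝ m (fun z : X4 => Real.exp (c * z 2)) := by
  fun_prop

/-- the series are smooth -/
theorem SS_contDiff_nat (δ : ℝ) {κ E : ℝ} {ψ ψ' : ℝ → ℝ} (h : Good κ E ψ ψ') (m : ℕ) :
    ∀ (φ : ℝ) (w : ℤ → ℝ), ExpT w → ContDiff ℝ m (SS δ ψ φ w) ∧ ContDiff ℝ m (SS δ ψ' φ w) := by
  induction m with
  | zero =>
    intro φ w hw
    have e : ((0 : ℕ) : WithTop ℕ∞) = 0 := rfl
    rw [e, contDiff_zero, contDiff_zero]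
    constructor
    · exact continuous_iff_continuousAt.mpr fun z =>
        (SS_hasFDerivAt δ h.sl.hf h.d0 h.d1 φ hw z).continuousAt
    · exact continuous_iff_continuousAt.mpr fun z =>
        (SS_hasFDerivAt δ h.sl.hg h.d1 h.d2 φ hw z).continuousAt
  | succ m ih =>
    intro φ w hw
    have e : (((m + 1 : ℕ) : ℕ) : WithTop ℕ∞) = (m : WithTop ℕ∞) + 1 := by norm_num
    rw [e, contDiff_succ_iff_hasFDerivAt, contDiff_succ_iff_hasFDerivAt]
    have a := hw.al (2 * π * δ)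
    have b := hw.be (2 * π * δ)
    constructor
    · refine ⟨_, ?_, fun z => SS_hasFDerivAt δ h.sl.hf h.d0 h.d1 φ hw z⟩
      exact (((ih _ _ a).1.smul contDiff_const).add ((ih _ _ b).1.smul contDiff_const)).add
        ((ih _ _ hw).2.smul contDiff_const)
    · refine ⟨_, ?_, fun z => SS_hasFDerivAt δ h.sl.hg h.d1 h.d2 φ hw z⟩
      have e2 : SS δ (fun t => qq κ E t * ψ t) φ w = fun z =>
        (κ / 2) * Real.exp (2 * z 2) * SS δ ψ φ (fun n => w n * (1 * be ^ n) * (1 * be ^ n)) z +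
        (κ / 2) * Real.exp (-(2 * z 2)) * SS δ ψ φ (fun n => w n * (1 * al ^ n) * (1 * al ^ n)) z -
        E * SS δ ψ φ w z := funext fun z => SS_qq δ h φ hw z
      have c1 := (ih φ _ ((hw.be 1).be 1)).1
      have c2 := (ih φ _ ((hw.al 1).al 1)).1
      have c3 := (ih φ _ hw).1
      have x1 : ContDiff ℝ m (fun z : X4 => Real.exp (2 * z 2)) := by fun_prop
      have x2 : ContDiff ℝ m (fun z : X4 => Real.exp (-(2 * z 2))) := by fun_prop
      have c4 : ContDiff ℝ m (SS δ (fun t => qq κ E t * ψ t) φ w) := by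
        rw [e2]
        exact (((contDiff_const.mul x1).mul c1).add ((contDiff_const.mul x2).mul c2)).sub
          (contDiff_const.mul c3)
      exact (((ih _ _ a).2.smul contDiff_const).add ((ih _ _ b).2.smul contDiff_const)).add
        (c4.smul contDiff_const)

theorem SS_contDiff (δ : ℝ) {κ E : ℝ} {ψ ψ' : ℝ → ℝ} (h : Good κ E ψ ψ') (φ : ℝ) {w : ℤ → ℝ} (hw : ExpT w) :
    ContDiff ℝ ∞ (SS δ ψ φ w) := by
  rw [contDiff_infty]
  intro m
  exact (SS_contDiff_nat δ h m φ w hw).1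

theorem pd_SS (δ : ℝ) {Φ Φ' : ℝ → ℝ} (hd : ∀ t, HasDerivAt Φ (Φ' t) t) (hΦ : Dec Φ) (hΦ' : Dec Φ')
    (φ : ℝ) {w : ℤ → ℝ} (hw : ExpT w) :
    pd 0 (SS δ Φ φ w) = SS δ Φ (φ + π / 2) (fun n => w n * (2 * π * δ * al ^ n)) ∧
    pd 1 (SS δ Φ φ w) = SS δ Φ (φ + π / 2) (fun n => w n * (2 * π * δ * be ^ n)) ∧
    pd 2 (SS δ Φ φ w) = SS δ Φ' φ w ∧ pd 3 (SS δ Φ φ w) = 0 := by
  refine ⟨?_, ?_, ?_, ?_⟩ <;> funext z <;> unfold pd <;>
    rw [(SS_hasFDerivAt δ hd hΦ hΦ' φ hw z).fderiv] <;> simp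

/-- the Laplace equation -/
theorem SS_lap (δ : ℝ) {E : ℝ} {ψ ψ' : ℝ → ℝ} (h : Good (8 * π ^ 2 * δ ^ 2) E ψ ψ') {w : ℤ → ℝ} (hw : ExpT w)
    (z : X4) : Real.exp (-(2 * z 2)) * pd 0 (pd 0 (SS δ ψ 0 w)) z +
      Real.exp (2 * z 2) * pd 1 (pd 1 (SS δ ψ 0 w)) z + pd 2 (pd 2 (SS δ ψ 0 w)) z +
      pd 3 (pd 3 (SS δ ψ 0 w)) z = -E * SS δ ψ 0 w z := by
  obtain ⟨a0, a1, a2, a3⟩ := pd_SS δ h.sl.hf h.d0 h.d1 0 hw
  rw [a0, a1, a2, a3]
  rw [(pd_SS δ h.sl.hf h.d0 h.d1 (0 + π / 2) (hw.al (2 * π * δ))).1,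
    (pd_SS δ h.sl.hf h.d0 h.d1 (0 + π / 2) (hw.be (2 * π * δ))).2.1,
    (pd_SS δ h.sl.hg h.d1 h.d2 0 hw).2.2.1, SS_qq δ h 0 hw]
  have e3 : pd 3 (0 : X4 → ℝ) z = 0 := by
    unfold pd
    simp
  rw [e3]
  have k1 : SS δ ψ (0 + π / 2 + π / 2) (fun n => w n * (2 * π * δ * al ^ n) * (2 * π * δ * al ^ n)) z =
      -(4 * π ^ 2 * δ ^ 2) * SS δ ψ 0 (fun n => w n * (1 * al ^ n) * (1 * al ^ n)) z := by
    unfold SS
    rw [← tsum_mul_left]
    congr 1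
    funext n
    unfold term
    rw [show th δ n z + (0 + π / 2 + π / 2) = th δ n z + 0 + π by ring, Real.cos_add_pi]
    ring
  have k2 : SS δ ψ (0 + π / 2 + π / 2) (fun n => w n * (2 * π * δ * be ^ n) * (2 * π * δ * be ^ n)) z =
      -(4 * π ^ 2 * δ ^ 2) * SS δ ψ 0 (fun n => w n * (1 * be ^ n) * (1 * be ^ n)) z := by
    unfold SS
    rw [← tsum_mul_left]
    congr 1
    funext n
    unfold term
    rw [show th δ n z + (0 + π / 2 + π / 2) = th δ n z + 0 + π by ring, Real.cos_add_pi]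
    ring
  rw [k1, k2]
  ring

end Pool.Agent.X154.SolM
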