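import Pool.Agent.X154.SolG

set_option autoImplicit false

/-!
Invariance and independence of the series.
-/

namespace Pool.Agent.X154.SolM

open scoped ContDiff Real
open Set Filter Topology

theorem U_int (n : ℤ) : (∃ m : ℤ, al ^ n - be ^ n = m * √5) ∧ ∃ m : ℤ, al ^ (n + 1) - be ^ (n + 1) = m * √5 := by
  have ha := al_pos.ne'
  have hb := be_pos.ne'
  have ra : ∀ n : ℤ, al ^ (n + 1 + 1) = 3 * al ^ (n + 1) - al ^ n := by
    intro n
    rw [zpow_add_one₀ ha, zpow_add_one₀ ha]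
    have : al ^ 2 = 3 * al - 1 := by
      linear_combination al * al_add_be - al_mul_be
    linear_combination al ^ n * this
  have rb : ∀ n : ℤ, be ^ (n + 1 + 1) = 3 * be ^ (n + 1) - be ^ n := by
    intro n
    rw [zpow_add_one₀ hb, zpow_add_one₀ hb]
    have : be ^ 2 = 3 * be - 1 := by
      linear_combination be * al_add_be - al_mul_be
    linear_combination be ^ n * this
  induction n using Int.induction_on with
  | zero =>
    refine ⟨⟨0, by simp⟩, ⟨1, ?_⟩⟩
    rw [zero_add, zpow_one, zpow_one, al_sub_be]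
    simp
  | succ i ih =>
    obtain ⟨⟨m, hm⟩, ⟨m', hm'⟩⟩ := ih
    refine ⟨⟨m', hm'⟩, ⟨3 * m' - m, ?_⟩⟩
    rw [ra, rb]
    push_cast
    linear_combination 3 * hm' - hm
  | pred i ih =>
    obtain ⟨⟨m, hm⟩, ⟨m', hm'⟩⟩ := ih
    refine ⟨⟨3 * m - m', ?_⟩, ⟨m, by rw [sub_add_cancel]; exact hm⟩⟩
    have e1 := ra (-(i : ℤ) - 1)
    have e2 := rb (-(i : ℤ) - 1)
    rw [sub_add_cancel] at e1 e2
    push_cast
    linear_combination 3 * hm - hm' + e1 - e2

theorem th_add (δ : ℝ) (hδ : 0 < δ) (n : ℤ) (z : X4) (a b c l : ℝ) :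
    th δ n (z + a • w1 δ + b • w2 δ + c • w3 l) = th δ n z +
      2 * π * ((a * (al ^ n - be ^ n) + b * (al ^ (n + 1) - be ^ (n + 1))) / √5) := by
  have h5 := s5_pos.ne'
  unfold th
  rw [zpow_add_one₀ al_pos.ne', zpow_add_one₀ be_pos.ne']
  simp only [Pi.add_apply, Pi.smul_apply, smul_eq_mul, w1, w2, w3]
  simp
  field_simp
  ring

theorem th_add_int (δ : ℝ) (hδ : 0 < δ) (n : ℤ) (z : X4) (a b : ℤ) (c l : ℝ) : ∃ k : ℤ,
    th δ n (z + (a : ℝ) • w1 δ + (b : ℝ) • w2 δ + c • w3 l) = th δ n z + k * (2 * π) := by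
  obtain ⟨⟨m, hm⟩, ⟨m', hm'⟩⟩ := U_int n
  refine ⟨a * m + b * m', ?_⟩
  rw [th_add δ hδ, hm, hm']
  have h5 := s5_pos.ne'
  push_cast
  field_simp

theorem SS_lattice (δ : ℝ) (hδ : 0 < δ) (Φ : ℝ → ℝ) (φ : ℝ) (w : ℤ → ℝ) (z : X4) (a b : ℤ) (c l : ℝ) :
    SS δ Φ φ w (z + (a : ℝ) • w1 δ + (b : ℝ) • w2 δ + c • w3 l) = SS δ Φ φ w z := by
  unfold SS
  congr 1
  funext n
  unfold term
  obtain ⟨k, hk⟩ := th_add_int δ hδ n z a b c l
  rw [hk, show th δ n z + k * (2 * π) + φ = th δ n z + φ + k * (2 * π) by ring, Real.cos_add_int_mul_two_pi]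
  have : (z + (a : ℝ) • w1 δ + (b : ℝ) • w2 δ + c • w3 l) 2 = z 2 := by
    simp only [Pi.add_apply, Pi.smul_apply, smul_eq_mul, w1, w2, w3]
    simp
  rw [this]

/-- the hyperbolic isometry -/
noncomputable def hyp (k : ℤ) (z : X4) : X4 := ![be ^ k * z 0, al ^ k * z 1, z 2 + k * ta, z 3]

theorem al_be_zpow (n : ℤ) : al ^ n * be ^ n = 1 := by
  rw [← mul_zpow, al_mul_be, one_zpow]

theorem th_hyp (δ : ℝ) (n k : ℤ) (z : X4) : th δ n (hyp k z) = th δ (n - k) z := by
  unfold th hyp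
  have ha := al_pos.ne'
  have hb := be_pos.ne'
  have e1 : al ^ (n - k) = al ^ n * be ^ k := by
    rw [zpow_sub₀ ha, div_eq_mul_inv]
    congr 1
    exact (eq_inv_of_mul_eq_one_right (al_be_zpow k)).symm
  have e2 : be ^ (n - k) = be ^ n * al ^ k := by
    rw [zpow_sub₀ hb, div_eq_mul_inv]
    congr 1
    exact (eq_inv_of_mul_eq_one_left (al_be_zpow k)).symm
  rw [e1, e2]
  simp only [Matrix.cons_val_zero, Matrix.cons_val_one]
  ring

theorem SS_hyp (δ : ℝ) (Φ : ℝ → ℝ) (φ : ℝ) (w : ℤ → ℝ) (k : ℤ) (hw : ∀ n, w (n - k) = w n) (z : X4) :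
    SS δ Φ φ w (hyp k z) = SS δ Φ φ w z := by
  unfold SS
  rw [← (Equiv.subRight k).tsum_eq (fun n => term δ Φ φ w n z)]
  congr 1
  funext n
  unfold term
  have e : (Equiv.subRight k) n = n - k := rfl
  have e2 : hyp k z 2 - n * ta = z 2 - (n - k : ℤ) * ta := by
    have : hyp k z 2 = z 2 + k * ta := by simp [hyp]
    rw [this]
    push_cast
    ring
  rw [th_hyp, e, hw, e2]

/-- indicator of a residue class -/
noncomputable def wi (j : ℕ) (i : ℤ) (n : ℤ) : ℝ := if (j : ℤ) ∣ n - i then 1 else 0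

theorem wi_exp (j : ℕ) (i : ℤ) : ExpT (wi j i) := by
  refine ⟨1, 0, fun n => ?_⟩
  unfold wi
  split_ifs <;> simp

theorem wi_per (j : ℕ) (i k n : ℤ) : wi j i (n - j * k) = wi j i n := by
  unfold wi
  have : (j : ℤ) ∣ n - j * k - i ↔ (j : ℤ) ∣ n - i := by
    rw [show n - j * k - i = (n - i) - j * k by ring]
    exact dvd_sub_left (dvd_mul_right _ _)
  simp only [this]

theorem wi_self {j : ℕ} (i i' : Fin j) : wi j (i : ℕ) ((i' : ℕ) : ℤ) = if i = i' then 1 else 0 := by
  unfold wi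
  have : (j : ℤ) ∣ ((i' : ℕ) : ℤ) - ((i : ℕ) : ℤ) ↔ i = i' := by
    constructor
    · intro h
      have h1 := Int.eq_zero_of_abs_lt_dvd h (by
        rw [abs_lt]
        have := i.2
        have := i'.2
        constructor <;> omega)
      apply Fin.ext
      omega
    · rintro rfl
      simp
  simp only [this]

theorem exists_K : ∃ K : ℤ → ℤ, ∀ n, 2 * (al ^ n - be ^ n) + (al ^ (n + 1) - be ^ (n + 1)) = K n * √5 := by
  have : ∀ n : ℤ, ∃ k : ℤ, 2 * (al ^ n - be ^ n) + (al ^ (n + 1) - be ^ (n + 1)) = k * √5 := by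
    intro n
    obtain ⟨⟨m, hm⟩, ⟨m', hm'⟩⟩ := U_int n
    refine ⟨2 * m + m', ?_⟩
    rw [hm, hm']
    push_cast
    ring
  choose K hK using this
  exact ⟨K, hK⟩

theorem K_inj {K : ℤ → ℤ} (hK : ∀ n, 2 * (al ^ n - be ^ n) + (al ^ (n + 1) - be ^ (n + 1)) = K n * √5)
    (n m : ℤ) (h : K n = K m ∨ K n = -K m) : n = m := by
  have ha := al_pos
  have hb := be_pos
  have hK' : ∀ n, (2 + al) * al ^ n - (2 + be) * be ^ n = K n * √5 := by
    intro n
    rw [← hK, zpow_add_one₀ ha.ne', zpow_add_one₀ hb.ne']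
    ring
  have b1 : be < 1 := by
    have h1 := al_mul_be
    have h2 := one_lt_al
    nlinarith
  rcases h with h | h
  · -- strictly monotone
    have hm : StrictMono (fun n : ℤ => (2 + al) * al ^ n - (2 + be) * be ^ n) := by
      intro x y hxy
      have h1 : al ^ x < al ^ y := zpow_lt_zpow_right₀ one_lt_al hxy
      have h2 : be ^ y < be ^ x := zpow_lt_zpow_right_of_lt_one₀ hb b1 hxy
      have h3 : (2 + al) * al ^ x < (2 + al) * al ^ y := mul_lt_mul_of_pos_left h1 (by linarith)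
      have h4 : (2 + be) * be ^ y < (2 + be) * be ^ x := mul_lt_mul_of_pos_left h2 (by linarith)
      simp only
      linarith
    apply hm.injective
    simp only
    rw [hK', hK', h]
  · exfalso
    have h1 : (2 + al) * (al ^ n + al ^ m) = (2 + be) * (be ^ n + be ^ m) := by
      have e1 := hK' n
      have e2 := hK' m
      rw [h] at e1
      push_cast at e1
      linarith
    have h2 : be ^ n + be ^ m = (al ^ n + al ^ m) * be ^ (n + m) := by
      rw [zpow_add₀ hb.ne']
      linear_combination (-be ^ m) * al_be_zpow n - be ^ n * al_be_zpow m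
    rw [h2] at h1
    have h3 : 0 < al ^ n + al ^ m := by positivity
    have h4 : (2 + al) = (2 + be) * be ^ (n + m) := by
      have : (al ^ n + al ^ m) * (2 + al) = (al ^ n + al ^ m) * ((2 + be) * be ^ (n + m)) := by linarith
      exact mul_left_cancel₀ h3.ne' this
    rcases le_or_gt 0 (n + m) with h5 | h5
    · have h6 : be ^ (n + m) ≤ 1 := zpow_le_one₀ hb b1.le h5
      have h7 : be < al := b1.trans one_lt_al
      nlinarith
    · have h6 : be ^ (-1 : ℤ) ≤ be ^ (n + m) := zpow_le_zpow_right_of_le_one₀ hb b1.le (by omega)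
      have h7 : be ^ (-1 : ℤ) = al := by
        rw [zpow_neg_one, be_eq, inv_inv]
      rw [h7] at h6
      have h8 : (2 + be) * al ≤ 2 + al := by
        rw [h4]
        exact mul_le_mul_of_nonneg_left h6 (by linarith)
      have h9 : (2 + be) * al = 2 * al + 1 := by linear_combination al_mul_be
      rw [h9] at h8
      linarith [one_lt_al]

theorem int_cos (k : ℤ) : ∫ r in (0 : ℝ)..1, Real.cos (2 * π * k * r) = if k = 0 then 1 else 0 := by
  split_ifs with h
  · simp [h]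
  · have hk : (2 * π * (k : ℝ)) ≠ 0 := by
      have : (k : ℝ) ≠ 0 := by exact_mod_cast h
      positivity
    rw [intervalIntegral.integral_comp_mul_left (fun x => Real.cos x) hk, integral_cos]
    rw [mul_zero, mul_one, Real.sin_zero, show 2 * π * (k : ℝ) = (2 * k : ℤ) * π by push_cast; ring,
      Real.sin_int_mul_pi]
    simp

theorem int_cos_cos (k l : ℤ) : ∫ r in (0 : ℝ)..1, Real.cos (2 * π * k * r) * Real.cos (2 * π * l * r) =
    ((if k - l = 0 then 1 else 0) + (if k + l = 0 then 1 else 0)) / 2 := by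
  have h : ∀ r : ℝ, Real.cos (2 * π * k * r) * Real.cos (2 * π * l * r) =
      (Real.cos (2 * π * (k - l : ℤ) * r) + Real.cos (2 * π * (k + l : ℤ) * r)) / 2 := by
    intro r
    push_cast
    rw [show 2 * π * ((k : ℝ) - l) * r = 2 * π * k * r - 2 * π * l * r by ring,
      show 2 * π * ((k : ℝ) + l) * r = 2 * π * k * r + 2 * π * l * r by ring, Real.cos_sub, Real.cos_add]
    ring
  simp only [h]
  rw [intervalIntegral.integral_div, intervalIntegral.integral_add, int_cos, int_cos]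
  · apply Continuous.intervalIntegrable; fun_prop
  · apply Continuous.intervalIntegrable; fun_prop

/-- the functions -/
noncomputable def ff (δ : ℝ) (ψ : ℝ → ℝ) (j : ℕ) (i : Fin j) : X4 → ℝ := SS δ ψ 0 (wi j (i : ℕ))

theorem coefInt {δ : ℝ} (hδ : 0 < δ) {ψ : ℝ → ℝ} (hψ : Dec ψ) {w : ℤ → ℝ} (hw : ExpT w) {K : ℤ → ℤ}
    (hK : ∀ n, 2 * (al ^ n - be ^ n) + (al ^ (n + 1) - be ^ (n + 1)) = K n * √5) (m : ℤ) :
    ∫ r in (0 : ℝ)..1, SS δ ψ 0 w (r • ((2 : ℝ) • w1 δ + w2 δ)) * Real.cos (2 * π * K m * r) =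
      w m * ψ (-(m * ta)) * ∫ r in (0 : ℝ)..1, Real.cos (2 * π * K m * r) * Real.cos (2 * π * K m * r) := by
  have h5 := s5_pos.ne'
  have hth : ∀ (n : ℤ) (r : ℝ), th δ n (r • ((2 : ℝ) • w1 δ + w2 δ)) = 2 * π * K n * r := by
    intro n r
    have := th_add δ hδ n 0 (r * 2) r 0 0
    have e : (0 : X4) + (r * 2) • w1 δ + r • w2 δ + (0 : ℝ) • w3 0 = r • ((2 : ℝ) • w1 δ + w2 δ) := by
      rw [zero_smul, add_zero, zero_add, smul_add, smul_smul]
    rw [e] at this
    rw [this]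
    have e2 : r * 2 * (al ^ n - be ^ n) + r * (al ^ (n + 1) - be ^ (n + 1)) = r * (K n * √5) := by
      rw [← hK]; ring
    rw [e2]
    have e3 : th δ n 0 = 0 := by unfold th; simp
    rw [e3]
    field_simp
    ring
  have hz2 : ∀ r : ℝ, (r • ((2 : ℝ) • w1 δ + w2 δ)) 2 = 0 := by
    intro r
    simp [w1, w2]
  have hterm : ∀ (n : ℤ) (r : ℝ), term δ ψ 0 w n (r • ((2 : ℝ) • w1 δ + w2 δ)) =
      w n * ψ (-(n * ta)) * Real.cos (2 * π * K n * r) := by
    intro n r
    unfold term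
    rw [hth, hz2, add_zero, zero_sub]
  set F : ℤ → C(ℝ, ℝ) := fun n => ⟨fun r => w n * ψ (-(n * ta)) * Real.cos (2 * π * K n * r) *
    Real.cos (2 * π * K m * r), by fun_prop⟩ with hF
  obtain ⟨C, hC, hb⟩ := bound hψ hw 0
  have hs : Summable fun i : ℤ => ‖(F i).restrict (⟨Set.uIcc (0 : ℝ) 1, isCompact_uIcc⟩ : TopologicalSpace.Compacts ℝ)‖ := by
    refine Summable.of_nonneg_of_le (fun _ => norm_nonneg _) (fun n => ?_) (summ_exp.mul_left C)
    rw [ContinuousMap.norm_le _ (by positivity)]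
    intro r
    have h1 := hb n 0 (by simp)
    rw [zero_sub] at h1
    simp only [hF, ContinuousMap.restrict_apply, ContinuousMap.coe_mk, Real.norm_eq_abs]
    rw [abs_mul, abs_mul, abs_mul]
    have c1 := Real.abs_cos_le_one (2 * π * K n * r)
    have c2 := Real.abs_cos_le_one (2 * π * K m * r)
    calc |w n| * |ψ (-(n * ta))| * |Real.cos (2 * π * K n * r)| * |Real.cos (2 * π * K m * r)| ≤
        |w n| * |ψ (-(n * ta))| * 1 * 1 := by gcongr
      _ ≤ _ := by rw [mul_one, mul_one]; exact h1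
  have key := intervalIntegral.hasSum_intervalIntegral_of_summable_norm hs
  have e1 : ∀ r : ℝ, ∑' n, F n r = SS δ ψ 0 w (r • ((2 : ℝ) • w1 δ + w2 δ)) * Real.cos (2 * π * K m * r) := by
    intro r
    unfold SS
    rw [← tsum_mul_right]
    congr 1
    funext n
    rw [hterm]
    rfl
  simp only [e1] at key
  rw [← key.tsum_eq]
  rw [tsum_eq_single m]
  · simp only [hF, ContinuousMap.coe_mk]
    rw [← intervalIntegral.integral_const_mul]
    congr 1
    funext r
    ring
  · intro n hn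
    simp only [hF, ContinuousMap.coe_mk]
    have : ∀ r : ℝ, w n * ψ (-(n * ta)) * Real.cos (2 * π * K n * r) * Real.cos (2 * π * K m * r) =
      w n * ψ (-(n * ta)) * (Real.cos (2 * π * K n * r) * Real.cos (2 * π * K m * r)) := fun r => by ring
    simp only [this]
    rw [intervalIntegral.integral_const_mul, int_cos_cos]
    have h1 : K n - K m ≠ 0 := fun h => hn (K_inj hK n m (Or.inl (by omega)))
    have h2 : K n + K m ≠ 0 := fun h => hn (K_inj hK n m (Or.inr (by omega)))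
    simp [h1, h2]

theorem ff_indep {δ : ℝ} (hδ : 0 < δ) {ψ : ℝ → ℝ} (hψ : Dec ψ) (hpos : ∀ t, 0 < ψ t)
    (j : ℕ) (hcont : ∀ i : Fin j, Continuous (ff δ ψ j i)) : LinearIndependent ℝ (ff δ ψ j) := by
  rw [Fintype.linearIndependent_iff]
  intro c hc0 i
  obtain ⟨K, hK⟩ := exists_K
  set m : ℤ := ((i : ℕ) : ℤ) with hm
  have h1 : ∫ r in (0 : ℝ)..1, (∑ k, c k * ff δ ψ j k (r • ((2 : ℝ) • w1 δ + w2 δ))) * Real.cos (2 * π * K m * r) = 0 := by
    have : ∀ z, ∑ k, c k * ff δ ψ j k z = 0 := by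
      intro z
      have := congrFun hc0 z
      simpa using this
    simp [this]
  simp only [Finset.sum_mul] at h1
  rw [intervalIntegral.integral_finsetSum] at h1
  · simp only [mul_assoc (c _)] at h1
    simp only [intervalIntegral.integral_const_mul] at h1
    have h2 : ∀ k : Fin j, ∫ r in (0 : ℝ)..1, ff δ ψ j k (r • ((2 : ℝ) • w1 δ + w2 δ)) * Real.cos (2 * π * K m * r) =
        (if k = i then 1 else 0) * ψ (-(m * ta)) * ∫ r in (0 : ℝ)..1, Real.cos (2 * π * K m * r) * Real.cos (2 * π * K m * r) := by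
      intro k
      unfold ff
      rw [coefInt hδ hψ (wi_exp j _) hK m, wi_self]
    simp only [h2] at h1
    rw [Finset.sum_eq_single i] at h1
    · rw [if_pos rfl, one_mul, int_cos_cos] at h1
      have h3 := hpos (-(m * ta))
      have h4 : (0 : ℝ) < ((if K m - K m = 0 then 1 else 0) + (if K m + K m = 0 then 1 else 0)) / 2 := by
        rw [if_pos (by ring)]
        split_ifs <;> norm_num
      have h5 := mul_pos h3 h4
      exact (mul_eq_zero.mp h1).resolve_right h5.ne'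
    · intro k _ hk
      rw [if_neg hk]
      ring
    · simp
  · intro k _
    apply Continuous.intervalIntegrable
    have := hcont k
    fun_prop

end Pool.Agent.X154.SolM
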