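import Pool.Agent.X154.SolDef
import Pool.Agent.X154.SolD

set_option autoImplicit false

/-!
The metric: Christoffel symbols, Ricci tensor, Laplacian.
-/

namespace Pool.Agent.X154.SolM

open scoped ContDiff Matrix

theorem det_solMetric (x : Fin 4 → ℝ) : (solMetric x).det = 1 := by
  unfold solMetric
  rw [Matrix.det_diagonal, Fin.prod_univ_four]
  simp [← Real.exp_add]

theorem inv_solMetric (x : Fin 4 → ℝ) :
    (solMetric x)⁻¹ = Matrix.diagonal ![Real.exp (-(2 * x 2)), Real.exp (2 * x 2), 1, 1] := by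
  apply Matrix.inv_eq_right_inv
  unfold solMetric
  rw [Matrix.diagonal_mul_diagonal, ← Matrix.diagonal_one]
  congr 1
  funext i
  fin_cases i <;> simp [← Real.exp_add]

theorem isMetric_sol : IsMetric solMetric where
  smooth := by
    intro i j
    unfold solMetric
    fin_cases i <;> fin_cases j <;> simp [Matrix.diagonal] <;> first | exact contDiff_const | fun_prop
  posDef := by
    intro x
    unfold solMetric
    apply Matrix.PosDef.diagonal
    intro i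
    fin_cases i <;> simp [Real.exp_pos]

theorem pd_exp (l : Fin 4) (c : ℝ) (x : Fin 4 → ℝ) :
    pd l (fun y : Fin 4 → ℝ => Real.exp (c * y 2)) x = if l = 2 then c * Real.exp (c * x 2) else 0 := by
  have h1 : HasFDerivAt (fun y : Fin 4 → ℝ => y 2) (ContinuousLinearMap.proj (R := ℝ) (φ := fun _ : Fin 4 => ℝ) 2) x :=
    (ContinuousLinearMap.proj (R := ℝ) (φ := fun _ : Fin 4 => ℝ) 2).hasFDerivAt
  have h2 := (h1.const_mul c).exp
  unfold pd
  rw [h2.fderiv]
  fin_cases l <;> simp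
  ring

theorem pd_const (l : Fin 4) (c : ℝ) (x : Fin 4 → ℝ) : pd l (fun _ : Fin 4 → ℝ => c) x = 0 := by
  unfold pd
  simp

theorem pd_form (l : Fin 4) (a b c : ℝ) (x : Fin 4 → ℝ) :
    pd l (fun y : Fin 4 → ℝ => a + b * Real.exp (2 * y 2) + c * Real.exp (-(2 * y 2))) x =
      if l = 2 then 2 * b * Real.exp (2 * x 2) - 2 * c * Real.exp (-(2 * x 2)) else 0 := by
  have h1 : HasFDerivAt (fun y : Fin 4 → ℝ => y 2) (ContinuousLinearMap.proj (R := ℝ) (φ := fun _ : Fin 4 => ℝ) 2) x :=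
    (ContinuousLinearMap.proj (R := ℝ) (φ := fun _ : Fin 4 => ℝ) 2).hasFDerivAt
  have h2 := (((h1.const_mul 2).exp.const_mul b).const_add a).add ((h1.const_mul 2).neg.exp.const_mul c)
  have h3 : HasFDerivAt (fun y : Fin 4 → ℝ => a + b * Real.exp (2 * y 2) + c * Real.exp (-(2 * y 2))) _ x := h2
  unfold pd
  rw [h3.fderiv]
  fin_cases l <;> simp
  ring

theorem pd_g (l i j : Fin 4) (x : Fin 4 → ℝ) : pd l (fun y => solMetric y i j) x =
    if i = j ∧ l = 2 then ![2 * Real.exp (2 * x 2), -(2 * Real.exp (-(2 * x 2))), 0, 0] i else 0 := by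
  have e : (fun y : Fin 4 → ℝ => solMetric y i j) = fun y => (if i = j then ![0, 0, 1, 1] i else 0) +
      (if i = j then ![1, 0, 0, 0] i else 0) * Real.exp (2 * y 2) +
      (if i = j then ![0, 1, 0, 0] i else 0) * Real.exp (-(2 * y 2)) := by
    funext y
    unfold solMetric
    fin_cases i <;> fin_cases j <;> simp [Matrix.diagonal]
  rw [e, pd_form]
  fin_cases i <;> fin_cases j <;> fin_cases l <;> simp

def ca : Fin 4 → Fin 4 → Fin 4 → ℝ := ![![![0, 0, 1, 0], ![0, 0, 0, 0], ![1, 0, 0, 0], ![0, 0, 0, 0]],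
  ![![0, 0, 0, 0], ![0, 0, -1, 0], ![0, -1, 0, 0], ![0, 0, 0, 0]],
  ![![0, 0, 0, 0], ![0, 0, 0, 0], ![0, 0, 0, 0], ![0, 0, 0, 0]],
  ![![0, 0, 0, 0], ![0, 0, 0, 0], ![0, 0, 0, 0], ![0, 0, 0, 0]]]
def cb : Fin 4 → Fin 4 → Fin 4 → ℝ := ![![![0, 0, 0, 0], ![0, 0, 0, 0], ![0, 0, 0, 0], ![0, 0, 0, 0]],
  ![![0, 0, 0, 0], ![0, 0, 0, 0], ![0, 0, 0, 0], ![0, 0, 0, 0]],
  ![![-1, 0, 0, 0], ![0, 0, 0, 0], ![0, 0, 0, 0], ![0, 0, 0, 0]],
  ![![0, 0, 0, 0], ![0, 0, 0, 0], ![0, 0, 0, 0], ![0, 0, 0, 0]]]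
def cc : Fin 4 → Fin 4 → Fin 4 → ℝ := ![![![0, 0, 0, 0], ![0, 0, 0, 0], ![0, 0, 0, 0], ![0, 0, 0, 0]],
  ![![0, 0, 0, 0], ![0, 0, 0, 0], ![0, 0, 0, 0], ![0, 0, 0, 0]],
  ![![0, 0, 0, 0], ![0, 1, 0, 0], ![0, 0, 0, 0], ![0, 0, 0, 0]],
  ![![0, 0, 0, 0], ![0, 0, 0, 0], ![0, 0, 0, 0], ![0, 0, 0, 0]]]

theorem christoffel_sol (k i j : Fin 4) : christoffel solMetric k i j =
    fun y => ca k i j + cb k i j * Real.exp (2 * y 2) + cc k i j * Real.exp (-(2 * y 2)) := by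
  funext x
  have ee : Real.exp (-(2 * x 2)) * Real.exp (2 * x 2) = 1 := by rw [← Real.exp_add]; simp
  unfold christoffel
  rw [inv_solMetric]
  simp only [pd_g, Fin.sum_univ_four]
  fin_cases k <;> fin_cases i <;> fin_cases j <;> simp [ca, cb, cc, Matrix.diagonal] <;> linarith

theorem ricci_sol (i j : Fin 4) (x : Fin 4 → ℝ) :
    ricci solMetric i j x = if i = 2 ∧ j = 2 then -2 else 0 := by
  have ee : Real.exp (-(2 * x 2)) * Real.exp (2 * x 2) = 1 := by rw [← Real.exp_add]; simp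
  unfold ricci
  simp only [christoffel_sol, pd_form, Fin.sum_univ_four]
  fin_cases i <;> fin_cases j <;> simp [ca, cb, cc] <;> linarith

theorem laplace_sol {f : (Fin 4 → ℝ) → ℝ} (hf : ContDiff ℝ ∞ f) (x : Fin 4 → ℝ) :
    laplace solMetric f x = Real.exp (-(2 * x 2)) * pd 0 (pd 0 f) x + Real.exp (2 * x 2) * pd 1 (pd 1 f) x +
      pd 2 (pd 2 f) x + pd 3 (pd 3 f) x := by
  unfold laplace
  simp only [det_solMetric, Real.sqrt_one, inv_one, one_mul, inv_solMetric, Fin.sum_univ_four]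
  have s : ∀ i, ContDiff ℝ ∞ (pd i f) := fun i => pd_smooth i hf
  have e0 : pd 0 (fun y : Fin 4 → ℝ => Real.exp (-(2 * y 2)) * pd 0 f y) x = Real.exp (-(2 * x 2)) * pd 0 (pd 0 f) x := by
    have hs : ContDiff ℝ ∞ (fun y : Fin 4 → ℝ => Real.exp (-(2 * y 2)) * pd 0 f y) := by
      have : ContDiff ℝ ∞ (fun y : Fin 4 → ℝ => Real.exp (-(2 * y 2))) := by fun_prop
      exact this.mul (s 0)
    apply pd_eq_of 0 hs
    have h := (hasDerivAt_line 0 (s 0) x 0).const_mul (Real.exp (-(2 * x 2)))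
    simp only [zero_smul, add_zero] at h
    convert! h using 1
    funext r
    simp
  have e1 : pd 1 (fun y : Fin 4 → ℝ => Real.exp (2 * y 2) * pd 1 f y) x = Real.exp (2 * x 2) * pd 1 (pd 1 f) x := by
    have hs : ContDiff ℝ ∞ (fun y : Fin 4 → ℝ => Real.exp (2 * y 2) * pd 1 f y) := by
      have : ContDiff ℝ ∞ (fun y : Fin 4 → ℝ => Real.exp (2 * y 2)) := by fun_prop
      exact this.mul (s 1)
    apply pd_eq_of 1 hs
    have h := (hasDerivAt_line 1 (s 1) x 0).const_mul (Real.exp (2 * x 2))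
    simp only [zero_smul, add_zero] at h
    convert! h using 1
    funext r
    simp
  simp [Matrix.diagonal]
  rw [e0, e1]

end Pool.Agent.X154.SolM
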