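import Pool.Agent.X154.SolH
import Pool.Agent.X154.SolI

set_option autoImplicit false

/-!
The group.
-/

namespace Pool.Agent.X154.SolM

open scoped ContDiff Real Matrix
open Set Filter Topology MeasureTheory

/-- linear part -/
noncomputable def Lc (n : ℤ) : X4 →L[ℝ] X4 := ContinuousLinearMap.pi fun i => (![be ^ n, al ^ n, 1, 1] i : ℝ) • P i

theorem Lc_apply (n : ℤ) (v : X4) : Lc n v = ![be ^ n * v 0, al ^ n * v 1, v 2, v 3] := by
  funext i
  unfold Lc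
  fin_cases i <;> simp

theorem hyp_eq (n : ℤ) (z : X4) : hyp n z = Lc n z + ![0, 0, n * ta, 0] := by
  rw [Lc_apply]
  funext i
  unfold hyp
  fin_cases i <;> simp

theorem hyp_add (n : ℤ) (z v : X4) : hyp n (z + v) = hyp n z + Lc n v := by
  rw [hyp_eq, hyp_eq, map_add]
  abel

theorem hyp_hyp (n m : ℤ) (z : X4) : hyp n (hyp m z) = hyp (n + m) z := by
  unfold hyp
  rw [zpow_add₀ al_pos.ne', zpow_add₀ be_pos.ne']
  funext i
  fin_cases i <;> simp <;> ring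

theorem hyp_zero (z : X4) : hyp 0 z = z := by
  funext i
  unfold hyp
  fin_cases i <;> simp

theorem Lc_w3 (n : ℤ) (l : ℝ) : Lc n (w3 l) = w3 l := by
  rw [Lc_apply]
  funext i
  fin_cases i <;> simp [w3]

theorem Lc_zero (v : X4) : Lc 0 v = v := by
  rw [Lc_apply]
  funext i
  fin_cases i <;> simp

theorem Lc_add (n m : ℤ) (v : X4) : Lc (n + m) v = Lc n (Lc m v) := by
  rw [Lc_apply, Lc_apply, Lc_apply, zpow_add₀ al_pos.ne', zpow_add₀ be_pos.ne']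
  funext i
  fin_cases i <;> simp <;> ring

theorem Lc_one_w1 (δ : ℝ) : Lc 1 (w1 δ) = (3 : ℝ) • w1 δ + (-1 : ℝ) • w2 δ := by
  rw [Lc_apply]
  have h := al_add_be
  funext i
  fin_cases i <;> simp [w1, w2]
  · rw [show be = 3 - al by linarith]; ring
  · rw [show al = 3 - be by linarith]; ring

theorem Lc_one_w2 (δ : ℝ) : Lc 1 (w2 δ) = w1 δ := by
  rw [Lc_apply]
  have h := al_mul_be
  funext i
  fin_cases i <;> simp [w1, w2]
  · rw [← mul_div_assoc, mul_comm be, h, one_div, mul_inv]; ring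
  · rw [← mul_div_assoc, h, one_div, mul_inv]; ring

theorem Lc_neg_one_w1 (δ : ℝ) : Lc (-1) (w1 δ) = w2 δ := by
  rw [← Lc_one_w2, ← Lc_add, neg_add_cancel, Lc_zero]

theorem Lc_neg_one_w2 (δ : ℝ) : Lc (-1) (w2 δ) = (-1 : ℝ) • w1 δ + (3 : ℝ) • w2 δ := by
  have h : Lc 1 ((-1 : ℝ) • w1 δ + (3 : ℝ) • w2 δ) = w2 δ := by
    rw [map_add, map_smul, map_smul, Lc_one_w1, Lc_one_w2]
    module
  rw [← h, ← Lc_add, neg_add_cancel, Lc_zero]
  rw [h]

/-- the lattice is invariant -/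
theorem lat_inv (δ : ℝ) (n : ℤ) : ∀ a b : ℤ, ∃ a' b' : ℤ, Lc n ((a : ℝ) • w1 δ + (b : ℝ) • w2 δ) =
    (a' : ℝ) • w1 δ + (b' : ℝ) • w2 δ := by
  induction n using Int.induction_on with
  | zero => intro a b; exact ⟨a, b, Lc_zero _⟩
  | succ i ih =>
    intro a b
    obtain ⟨a', b', h⟩ := ih (3 * a + b) (-a)
    refine ⟨a', b', ?_⟩
    rw [Lc_add, map_add, map_smul, map_smul, Lc_one_w1, Lc_one_w2, ← h]
    congr 1
    push_cast
    module
  | pred i ih =>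
    intro a b
    obtain ⟨a', b', h⟩ := ih (-b) (a + 3 * b)
    refine ⟨a', b', ?_⟩
    rw [sub_eq_add_neg, Lc_add, map_add, map_smul, map_smul, Lc_neg_one_w1, Lc_neg_one_w2, ← h]
    congr 1
    push_cast
    module

/-- the maps of the group -/
noncomputable def ge (δ l : ℝ) (j : ℕ) (k a b c : ℤ) (z : X4) : X4 :=
  hyp (j * k) z + (a : ℝ) • w1 δ + (b : ℝ) • w2 δ + (c : ℝ) • w3 l

theorem ge_comp (δ l : ℝ) (j : ℕ) (k a b c k' a' b' c' : ℤ) : ∃ a'' b'' : ℤ, ∀ z,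
    ge δ l j k a b c (ge δ l j k' a' b' c' z) = ge δ l j (k + k') a'' b'' (c + c') z := by
  obtain ⟨x, y, h⟩ := lat_inv δ (j * k) a' b'
  refine ⟨x + a, y + b, fun z => ?_⟩
  unfold ge
  rw [add_assoc (hyp _ z), hyp_add, hyp_add, map_smul, Lc_w3, h, hyp_hyp, mul_add]
  push_cast
  module

/-- the group -/
noncomputable def Gam (δ l : ℝ) (j : ℕ) : Subgroup (Equiv.Perm X4) where
  carrier := {φ | ∃ k a b c : ℤ, ∀ z, φ z = ge δ l j k a b c z}
  mul_mem' := by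
    rintro φ φ' ⟨k, a, b, c, h⟩ ⟨k', a', b', c', h'⟩
    obtain ⟨a'', b'', e⟩ := ge_comp δ l j k a b c k' a' b' c'
    refine ⟨k + k', a'', b'', c + c', fun z => ?_⟩
    rw [Equiv.Perm.mul_apply, h', h, e]
  one_mem' := by
    refine ⟨0, 0, 0, 0, fun z => ?_⟩
    unfold ge
    simp [hyp_zero]
  inv_mem' := by
    rintro φ ⟨k, a, b, c, h⟩
    obtain ⟨x, y, e⟩ := lat_inv δ (-(j * k)) (-a) (-b)
    refine ⟨-k, x, y, -c, fun z => ?_⟩
    obtain ⟨w, rfl⟩ := φ.surjective z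
    rw [show φ⁻¹ (φ w) = w from φ.symm_apply_apply w, h]
    unfold ge
    rw [add_assoc (hyp _ w), hyp_add, hyp_add, map_smul, Lc_w3, hyp_hyp]
    have e2 : Lc (j * -k) ((a : ℝ) • w1 δ + (b : ℝ) • w2 δ) = -((x : ℝ) • w1 δ + (y : ℝ) • w2 δ) := by
      rw [← e, ← map_neg, mul_neg]
      congr 1
      push_cast
      module
    rw [e2, mul_neg, neg_add_cancel, hyp_zero]
    push_cast
    module

theorem mem_Gam {δ l : ℝ} {j : ℕ} {φ : Equiv.Perm X4} :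
    φ ∈ Gam δ l j ↔ ∃ k a b c : ℤ, ∀ z, φ z = ge δ l j k a b c z := Iff.rfl

theorem exists_perm (δ l : ℝ) (j : ℕ) (k a b c : ℤ) : ∃ φ ∈ Gam δ l j, ∀ z, φ z = ge δ l j k a b c z := by
  obtain ⟨x, y, e⟩ := lat_inv δ (-(j * k)) (-a) (-b)
  have h1 : ∀ z, ge δ l j (-k) x y (-c) (ge δ l j k a b c z) = z := by
    intro z
    unfold ge
    rw [add_assoc (hyp _ z), hyp_add, hyp_add, map_smul, Lc_w3, hyp_hyp]
    have e2 : Lc (j * -k) ((a : ℝ) • w1 δ + (b : ℝ) • w2 δ) = -((x : ℝ) • w1 δ + (y : ℝ) • w2 δ) := by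
      rw [← e, ← map_neg, mul_neg]
      congr 1
      push_cast
      module
    rw [e2, mul_neg, neg_add_cancel, hyp_zero]
    push_cast
    module
  have h2 : ∀ z, ge δ l j k a b c (ge δ l j (-k) x y (-c) z) = z := by
    intro z
    have hi : Function.Injective (ge δ l j (-k) x y (-c)) := by
      intro u v huv
      unfold ge at huv
      have h3 : hyp (j * -k) u = hyp (j * -k) v := by
        have := add_right_cancel (add_right_cancel (add_right_cancel huv))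
        exact this
      have h4 := congrArg (hyp (j * k)) h3
      rw [hyp_hyp, hyp_hyp, mul_neg, add_neg_cancel, hyp_zero, hyp_zero] at h4
      exact h4
    apply hi
    rw [h1]
  exact ⟨⟨ge δ l j k a b c, ge δ l j (-k) x y (-c), h1, h2⟩, ⟨k, a, b, c, fun z => rfl⟩, fun z => rfl⟩

/-- lattice coordinates -/
noncomputable def s1 (δ : ℝ) (z : X4) : ℝ := -(δ * be) * z 0 + -(δ * al) * z 1
noncomputable def s2 (δ : ℝ) (z : X4) : ℝ := δ * z 0 + δ * z 1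

theorem s_ge (δ l : ℝ) (hδ : 0 < δ) (j : ℕ) (k a b c : ℤ) (z : X4) :
    s1 δ (ge δ l j k a b c z) = s1 δ (hyp (j * k) z) + a ∧
    s2 δ (ge δ l j k a b c z) = s2 δ (hyp (j * k) z) + b ∧
    (ge δ l j k a b c z) 2 = z 2 + k * (j * ta) ∧
    (ge δ l j k a b c z) 3 = z 3 + c * l := by
  have h5 := s5_pos.ne'
  have h := al_sub_be
  have hm : al * be = 1 := al_mul_be
  refine ⟨?_, ?_, ?_, ?_⟩
  · unfold s1 ge
    simp only [Pi.add_apply, Pi.smul_apply, smul_eq_mul, w1, w2, w3]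
    simp
    field_simp
    linear_combination (a : ℝ) * h
  · unfold s2 ge
    simp only [Pi.add_apply, Pi.smul_apply, smul_eq_mul, w1, w2, w3]
    simp
    field_simp
    linear_combination (b : ℝ) * h
  · unfold ge hyp
    simp only [Pi.add_apply, Pi.smul_apply, smul_eq_mul, w1, w2, w3]
    simp
    ring
  · unfold ge hyp
    simp only [Pi.add_apply, Pi.smul_apply, smul_eq_mul, w1, w2, w3]
    simp

theorem ge_inj (δ l : ℝ) (hδ : 0 < δ) (hl : 0 < l) {j : ℕ} (hj : 0 < j) {k a b c k' a' b' c' : ℤ} {z : X4}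
    (h : ge δ l j k a b c z = ge δ l j k' a' b' c' z) : k = k' ∧ a = a' ∧ b = b' ∧ c = c' := by
  obtain ⟨e1, e2, e3, e4⟩ := s_ge δ l hδ j k a b c z
  obtain ⟨f1, f2, f3, f4⟩ := s_ge δ l hδ j k' a' b' c' z
  rw [h] at e1 e2 e3 e4
  have hT : 0 < (j : ℝ) * ta := mul_pos (by exact_mod_cast hj) ta_pos
  have hk : k = k' := by
    have : (k : ℝ) * (j * ta) = k' * (j * ta) := by linarith
    exact_mod_cast mul_right_cancel₀ hT.ne' this
  subst hk
  refine ⟨rfl, ?_, ?_, ?_⟩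
  · have : (a : ℝ) = a' := by linarith
    exact_mod_cast this
  · have : (b : ℝ) = b' := by linarith
    exact_mod_cast this
  · have : (c : ℝ) * l = c' * l := by linarith
    exact_mod_cast mul_right_cancel₀ hl.ne' this

theorem ge_hasFDerivAt (δ l : ℝ) (j : ℕ) (k a b c : ℤ) (z : X4) :
    HasFDerivAt (ge δ l j k a b c) (Lc (j * k)) z := by
  have e : ge δ l j k a b c = fun z => Lc (j * k) z + (![0, 0, ((j * k : ℤ) : ℝ) * ta, 0] + (a : ℝ) • w1 δ + (b : ℝ) • w2 δ + (c : ℝ) • w3 l) := by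
    funext z
    unfold ge
    rw [hyp_eq]
    push_cast
    abel
  rw [e]
  exact (Lc (j * k)).hasFDerivAt.add_const _

theorem ge_smooth (δ l : ℝ) (j : ℕ) (k a b c : ℤ) : ContDiff ℝ ∞ (ge δ l j k a b c) := by
  have e : ge δ l j k a b c = fun z => Lc (j * k) z + (![0, 0, ((j * k : ℤ) : ℝ) * ta, 0] + (a : ℝ) • w1 δ + (b : ℝ) • w2 δ + (c : ℝ) • w3 l) := by
    funext z
    unfold ge
    rw [hyp_eq]
    push_cast
    abel
  rw [e]
  exact (Lc (j * k)).contDiff.add contDiff_const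

theorem inner_sol (x v w : X4) : inner solMetric x v w =
    Real.exp (2 * x 2) * (v 0 * w 0) + Real.exp (-(2 * x 2)) * (v 1 * w 1) + v 2 * w 2 + v 3 * w 3 := by
  unfold inner solMetric
  simp [Matrix.mulVec_diagonal, dotProduct, Fin.sum_univ_four]
  ring

theorem ge_isometry (δ l : ℝ) (hδ : 0 < δ) (j : ℕ) (k a b c : ℤ) (x v w : X4) :
    inner solMetric (ge δ l j k a b c x) (fderiv ℝ (ge δ l j k a b c) x v) (fderiv ℝ (ge δ l j k a b c) x w) =
      inner solMetric x v w := by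
  rw [(ge_hasFDerivAt δ l j k a b c x).fderiv, inner_sol, inner_sol, (s_ge δ l hδ j k a b c x).2.2.1,
    Lc_apply, Lc_apply]
  simp only [Matrix.cons_val_zero, Matrix.cons_val_one, Matrix.cons_val]
  have e1 : Real.exp (2 * (x 2 + k * (j * ta))) * (be ^ ((j : ℤ) * k) * be ^ ((j : ℤ) * k)) = Real.exp (2 * x 2) := by
    rw [be_zpow, ← Real.exp_add, ← Real.exp_add]
    congr 1
    push_cast
    ring
  have e2 : Real.exp (-(2 * (x 2 + k * (j * ta)))) * (al ^ ((j : ℤ) * k) * al ^ ((j : ℤ) * k)) = Real.exp (-(2 * x 2)) := by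
    rw [al_zpow, ← Real.exp_add, ← Real.exp_add]
    congr 1
    push_cast
    ring
  linear_combination (v 0 * w 0) * e1 + (v 1 * w 1) * e2

/-- the fundamental domain -/
def Dom (δ l : ℝ) (j : ℕ) : Set X4 :=
  {z | s1 δ z ∈ Ico (0 : ℝ) 1 ∧ s2 δ z ∈ Ico (0 : ℝ) 1 ∧ z 2 ∈ Ico (0 : ℝ) (j * ta) ∧ z 3 ∈ Ico (0 : ℝ) l}

theorem exUn (a : ℝ) (ha : 0 < a) (b : ℝ) : ∃ m : ℤ, b + m * a ∈ Ico 0 a ∧ ∀ n : ℤ, b + n * a ∈ Ico 0 a → n = m := by
  obtain ⟨m, hm, hu⟩ := existsUnique_add_zsmul_mem_Ico ha b 0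
  simp only [zero_add, zsmul_eq_mul] at hm hu
  exact ⟨m, hm, hu⟩

theorem dom_unique (δ l : ℝ) (hδ : 0 < δ) (hl : 0 < l) {j : ℕ} (hj : 0 < j) (x : X4) :
    ∃! γ : Equiv.Perm X4, γ ∈ Gam δ l j ∧ γ x ∈ Dom δ l j := by
  have hT : 0 < (j : ℝ) * ta := mul_pos (by exact_mod_cast hj) ta_pos
  obtain ⟨k, hk, uk⟩ := exUn _ hT (x 2)
  obtain ⟨a, ha, ua⟩ := exUn 1 one_pos (s1 δ (hyp (j * k) x))
  obtain ⟨b, hb, ub⟩ := exUn 1 one_pos (s2 δ (hyp (j * k) x))
  obtain ⟨c, hc, uc⟩ := exUn l hl (x 3)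
  simp only [mul_one] at ha ua hb ub
  obtain ⟨φ, hφ, hφ2⟩ := exists_perm δ l j k a b c
  refine ⟨φ, ⟨hφ, ?_⟩, ?_⟩
  · rw [hφ2]
    obtain ⟨e1, e2, e3, e4⟩ := s_ge δ l hδ j k a b c x
    exact ⟨by rw [e1]; exact ha, by rw [e2]; exact hb, by rw [e3]; exact hk, by rw [e4]; exact hc⟩
  · rintro ψ ⟨⟨k', a', b', c', hψ⟩, hψ2⟩
    rw [hψ] at hψ2
    obtain ⟨e1, e2, e3, e4⟩ := s_ge δ l hδ j k' a' b' c' x
    obtain ⟨d1, d2, d3, d4⟩ := hψ2
    rw [e3] at d3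
    have hk' := uk k' d3
    subst hk'
    rw [e1] at d1
    rw [e2] at d2
    rw [e4] at d4
    have ha' := ua a' d1
    have hb' := ub b' d2
    have hc' := uc c' d4
    subst ha' hb' hc'
    apply Equiv.ext
    intro z
    rw [hψ, hφ2]

end Pool.Agent.X154.SolM
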