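import Pool.Agent.X154.SolJ

set_option autoImplicit false

/-!
The quotient is closed; its volume.
-/

namespace Pool.Agent.X154.SolM

open scoped ContDiff Real Matrix ENNReal
open Set Filter Topology MeasureTheory

/-- the matrix of lattice coordinates -/
noncomputable def Am (δ : ℝ) : Matrix (Fin 4) (Fin 4) ℝ :=
  !![-(δ * be), -(δ * al), 0, 0; δ, δ, 0, 0; 0, 0, 1, 0; 0, 0, 0, 1]

theorem det_Am (δ : ℝ) : (Am δ).det = δ ^ 2 * √5 := by
  have h := al_sub_be
  unfold Am
  simp [Matrix.det_succ_row_zero, Fin.sum_univ_succ, Fin.succAbove]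
  rw [← h]
  ring

theorem Am_apply (δ : ℝ) (z : X4) : Matrix.toLin' (Am δ) z = ![s1 δ z, s2 δ z, z 2, z 3] := by
  rw [Matrix.toLin'_apply]
  funext i
  unfold Am s1 s2
  fin_cases i <;> simp [Matrix.mulVec, dotProduct, Fin.sum_univ_four]

theorem Dom_eq (δ l : ℝ) (j : ℕ) : Dom δ l j = Matrix.toLin' (Am δ) ⁻¹'
    (Set.pi Set.univ fun i => Ico ((0 : X4) i) (![1, 1, j * ta, l] i)) := by
  ext z
  rw [mem_preimage, Am_apply]
  simp only [Dom, mem_ofPred_eq, Set.mem_pi, mem_univ, true_imp_iff]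
  constructor
  · rintro ⟨h1, h2, h3, h4⟩ i
    fin_cases i
    · exact h1
    · exact h2
    · exact h3
    · exact h4
  · intro h
    exact ⟨h 0, h 1, h 2, h 3⟩

theorem meas_Dom (δ l : ℝ) (j : ℕ) : MeasurableSet (Dom δ l j) := by
  rw [Dom_eq]
  apply (LinearMap.continuous_of_finiteDimensional (Matrix.toLin' (Am δ))).measurable
  exact MeasurableSet.univ_pi fun i => measurableSet_Ico

theorem vol_Dom (δ l : ℝ) (hδ : 0 < δ) (hl : 0 < l) {j : ℕ} (hj : 0 < j) :
    volume (Dom δ l j) = ENNReal.ofReal (j * ta * l / (δ ^ 2 * √5)) := by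
  have hT : 0 < (j : ℝ) * ta := mul_pos (by exact_mod_cast hj) ta_pos
  have h5 := s5_pos
  rw [Dom_eq, Measure.addHaar_preimage_linearMap _ (by
    rw [LinearMap.det_toLin', det_Am]
    positivity), LinearMap.det_toLin', det_Am, Real.volume_pi_Ico, Fin.prod_univ_four]
  simp only [Matrix.cons_val_zero, Matrix.cons_val_one, Matrix.cons_val, Pi.zero_apply, sub_zero,
    ENNReal.ofReal_one, one_mul]
  rw [← ENNReal.ofReal_mul hT.le, ← ENNReal.ofReal_mul (by positivity)]
  congr 1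
  rw [abs_of_pos (by positivity)]
  field_simp

/-- compact set meeting all orbits -/
theorem cocompact (δ l : ℝ) (hδ : 0 < δ) (hl : 0 < l) {j : ℕ} (hj : 0 < j) :
    ∃ K : Set X4, IsCompact K ∧ ∀ x, ∃ γ ∈ Gam δ l j, γ x ∈ K := by
  have h5 := s5_pos
  refine ⟨(fun p : X4 => p 0 • w1 δ + p 1 • w2 δ + p 2 • (Pi.single 2 1 : X4) + p 3 • (Pi.single 3 1 : X4)) ''
    (Icc (0 : X4) ![1, 1, j * ta, l]), ?_, ?_⟩
  · apply isCompact_Icc.image
    fun_prop
  · intro x
    obtain ⟨γ, ⟨h1, h2⟩, -⟩ := dom_unique δ l hδ hl hj x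
    refine ⟨γ, h1, ?_⟩
    set z := γ x
    obtain ⟨a1, a2, a3, a4⟩ := h2
    refine ⟨![s1 δ z, s2 δ z, z 2, z 3], ⟨?_, ?_⟩, ?_⟩
    · intro i
      fin_cases i
      · exact a1.1
      · exact a2.1
      · exact a3.1
      · exact a4.1
    · intro i
      fin_cases i
      · exact a1.2.le
      · exact a2.2.le
      · exact a3.2.le
      · exact a4.2.le
    · have h := al_sub_be
      simp only [Matrix.cons_val_zero, Matrix.cons_val_one, Matrix.cons_val]
      conv_rhs => rw [coord z, e0_eq hδ, e1_eq hδ]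
      unfold s1 s2
      module

theorem free_Gam (δ l : ℝ) (hδ : 0 < δ) (hl : 0 < l) {j : ℕ} (hj : 0 < j) :
    ∀ γ ∈ Gam δ l j, ∀ x, γ x = x → γ = 1 := by
  rintro γ ⟨k, a, b, c, h⟩ x hx
  have h0 : ge δ l j 0 0 0 0 x = x := by
    unfold ge
    simp [hyp_zero]
  obtain ⟨rfl, rfl, rfl, rfl⟩ := ge_inj δ l hδ hl hj (z := x) (k := k) (a := a) (b := b) (c := c) (k' := 0)
    (a' := 0) (b' := 0) (c' := 0) (by rw [h0, ← h, hx])
  apply Equiv.ext
  intro z
  rw [h]
  unfold ge
  simp [hyp_zero]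

theorem proper_Gam (δ l : ℝ) (hδ : 0 < δ) (hl : 0 < l) {j : ℕ} (hj : 0 < j) (K : Set X4) (hK : IsCompact K) :
    {γ | γ ∈ Gam δ l j ∧ (γ '' K ∩ K).Nonempty}.Finite := by
  classical
  obtain ⟨R, hR⟩ := hK.exists_bound_of_continuousOn (f := fun z : X4 => z) continuousOn_id
  have hT : 0 < (j : ℝ) * ta := mul_pos (by exact_mod_cast hj) ta_pos
  have hcoord : ∀ z ∈ K, ∀ i, |z i| ≤ R := fun z hz i => (norm_le_pi_norm z i).trans (hR z hz)
  set B : ℝ := 2 * |R| / (j * ta) + 3 * δ * (|R| * (1 + Real.exp (2 * |R|))) + 2 * |R| / l with hB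
  -- the choice
  let p : Equiv.Perm X4 → ℤ × ℤ × ℤ × ℤ := fun γ =>
    if h : γ ∈ Gam δ l j then (h.choose, h.choose_spec.choose, h.choose_spec.choose_spec.choose,
      h.choose_spec.choose_spec.choose_spec.choose) else 0
  have hp : ∀ γ ∈ Gam δ l j, ∀ z, γ z = ge δ l j (p γ).1 (p γ).2.1 (p γ).2.2.1 (p γ).2.2.2 z := by
    intro γ h
    have e : p γ = (h.choose, h.choose_spec.choose, h.choose_spec.choose_spec.choose,
      h.choose_spec.choose_spec.choose_spec.choose) := dif_pos h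
    rw [e]
    exact h.choose_spec.choose_spec.choose_spec.choose_spec
  set N : ℤ := ⌈B⌉ with hN
  refine Set.Finite.of_injOn (f := p) (t := (Set.Icc (-N) N) ×ˢ (Set.Icc (-N) N) ×ˢ (Set.Icc (-N) N) ×ˢ (Set.Icc (-N) N))
    ?_ ?_ ?_
  · rintro γ ⟨hγ, y, ⟨z, hz, rfl⟩, hy⟩
    have h := hp γ hγ z
    set k := (p γ).1
    set a := (p γ).2.1
    set b := (p γ).2.2.1
    set c := (p γ).2.2.2
    obtain ⟨e1, e2, e3, e4⟩ := s_ge δ l hδ j k a b c z
    rw [← h] at e1 e2 e3 e4
    have hz' := hcoord z hz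
    have hy' := hcoord _ hy
    have hRR : R ≤ |R| := le_abs_self R
    have hR0 : 0 ≤ |R| := abs_nonneg R
    have q1 : 0 ≤ 2 * |R| / (j * ta) := by positivity
    have q2 : 0 ≤ 3 * δ * (|R| * (1 + Real.exp (2 * |R|))) := by positivity
    have q3 : 0 ≤ 2 * |R| / l := by positivity
    have mem : ∀ m : ℤ, |(m : ℝ)| ≤ B → m ∈ Set.Icc (-N) N := by
      intro m hm
      have h1 := abs_le.mp hm
      have h2 := Int.le_ceil B
      constructor
      · have : (-(N : ℝ)) ≤ m := by rw [hN]; linarith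
        exact_mod_cast this
      · have : (m : ℝ) ≤ N := by rw [hN]; linarith
        exact_mod_cast this
    have hk1 : |(k : ℝ) * (j * ta)| ≤ 2 * |R| := by
      have a1 := abs_le.mp (hz' 2)
      have a2 := abs_le.mp (hy' 2)
      rw [abs_le]
      constructor <;> linarith
    have hk : |(k : ℝ)| ≤ 2 * |R| / (j * ta) := by
      rw [le_div_iff₀ hT]
      rwa [abs_mul, abs_of_pos hT] at hk1
    have hc : |(c : ℝ)| ≤ 2 * |R| / l := by
      rw [le_div_iff₀ hl]
      have a1 := abs_le.mp (hz' 3)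
      have a2 := abs_le.mp (hy' 3)
      have : |(c : ℝ) * l| ≤ 2 * |R| := by
        rw [abs_le]
        constructor <;> linarith
      rwa [abs_mul, abs_of_pos hl] at this
    -- bound for the hyperbolic image
    have hexp : ∀ x : ℝ, |x| ≤ 2 * |R| → Real.exp x ≤ Real.exp (2 * |R|) := fun x hx =>
      Real.exp_le_exp.mpr ((le_abs_self x).trans hx)
    have hh0 : |hyp (j * k) z 0| ≤ |R| * Real.exp (2 * |R|) := by
      have : hyp (j * k) z 0 = be ^ ((j : ℤ) * k) * z 0 := by simp [hyp]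
      rw [this, abs_mul, be_zpow, abs_of_pos (Real.exp_pos _), mul_comm]
      refine mul_le_mul ((hz' 0).trans hRR) (hexp _ ?_) (Real.exp_pos _).le hR0
      rw [abs_neg]
      push_cast
      rw [show (j : ℝ) * k * ta = k * (j * ta) by ring]
      exact hk1
    have hh1 : |hyp (j * k) z 1| ≤ |R| * Real.exp (2 * |R|) := by
      have : hyp (j * k) z 1 = al ^ ((j : ℤ) * k) * z 1 := by simp [hyp]
      rw [this, abs_mul, al_zpow, abs_of_pos (Real.exp_pos _), mul_comm]
      refine mul_le_mul ((hz' 1).trans hRR) (hexp _ ?_) (Real.exp_pos _).le hR0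
      push_cast
      rw [show (j : ℝ) * k * ta = k * (j * ta) by ring]
      exact hk1
    have bs : ∀ u : X4, ∀ Q : ℝ, |u 0| ≤ Q → |u 1| ≤ Q → |s1 δ u| ≤ 3 * δ * Q ∧ |s2 δ u| ≤ 3 * δ * Q := by
      intro u Q h0 h1
      have hQ : 0 ≤ Q := (abs_nonneg _).trans h0
      have a0 := abs_le.mp h0
      have a1 := abs_le.mp h1
      have hbe := be_pos
      have hal := al_pos
      have hab := al_add_be
      constructor
      · unfold s1
        have c1 : |-(δ * be) * u 0| ≤ δ * be * Q := by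
          rw [abs_mul, abs_neg, abs_of_pos (by positivity)]
          exact mul_le_mul_of_nonneg_left h0 (by positivity)
        have c2 : |-(δ * al) * u 1| ≤ δ * al * Q := by
          rw [abs_mul, abs_neg, abs_of_pos (by positivity)]
          exact mul_le_mul_of_nonneg_left h1 (by positivity)
        have c3 : δ * be * Q + δ * al * Q = 3 * δ * Q := by rw [← hab]; ring
        exact (abs_add_le _ _).trans (by linarith)
      · unfold s2
        have c1 : |δ * u 0| ≤ δ * Q := by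
          rw [abs_mul, abs_of_pos hδ]
          exact mul_le_mul_of_nonneg_left h0 hδ.le
        have c2 : |δ * u 1| ≤ δ * Q := by
          rw [abs_mul, abs_of_pos hδ]
          exact mul_le_mul_of_nonneg_left h1 hδ.le
        have : 0 ≤ δ * Q := by positivity
        exact (abs_add_le _ _).trans (by linarith)
    have b1 := bs (γ z) |R| ((hy' 0).trans hRR) ((hy' 1).trans hRR)
    have b2 := bs (hyp (j * k) z) _ hh0 hh1
    have ha : |(a : ℝ)| ≤ 3 * δ * (|R| * (1 + Real.exp (2 * |R|))) := by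
      have e : (a : ℝ) = s1 δ (γ z) - s1 δ (hyp (j * k) z) := by linarith
      rw [e]
      have := abs_sub (s1 δ (γ z)) (s1 δ (hyp (j * k) z))
      linarith [b1.1, b2.1]
    have hb : |(b : ℝ)| ≤ 3 * δ * (|R| * (1 + Real.exp (2 * |R|))) := by
      have e : (b : ℝ) = s2 δ (γ z) - s2 δ (hyp (j * k) z) := by linarith
      rw [e]
      have := abs_sub (s2 δ (γ z)) (s2 δ (hyp (j * k) z))
      linarith [b1.2, b2.2]
    exact ⟨mem _ (by rw [hB]; linarith), mem _ (by rw [hB]; linarith), mem _ (by rw [hB]; linarith),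
      mem _ (by rw [hB]; linarith)⟩
  · rintro γ ⟨hγ, -⟩ γ' ⟨hγ', -⟩ h
    apply Equiv.ext
    intro z
    rw [hp γ hγ, hp γ' hγ', h]
  · exact (Set.finite_Icc _ _).prod ((Set.finite_Icc _ _).prod ((Set.finite_Icc _ _).prod (Set.finite_Icc _ _)))

theorem closed_Gam (δ l : ℝ) (hδ : 0 < δ) (hl : 0 < l) {j : ℕ} (hj : 0 < j) :
    IsClosedQuotient solMetric (Gam δ l j) where
  smooth := by
    rintro γ ⟨k, a, b, c, h⟩
    have : (γ : X4 → X4) = ge δ l j k a b c := funext h
    rw [this]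
    exact ge_smooth δ l j k a b c
  isometry := by
    rintro γ ⟨k, a, b, c, h⟩ x v w
    have : (γ : X4 → X4) = ge δ l j k a b c := funext h
    rw [this]
    exact ge_isometry δ l hδ j k a b c x v w
  free := free_Gam δ l hδ hl hj
  proper := proper_Gam δ l hδ hl hj
  cocompact := cocompact δ l hδ hl hj

theorem volume_Gam (δ l : ℝ) (hδ : 0 < δ) (hl : 0 < l) {j : ℕ} (hj : 0 < j) :
    HasVolume solMetric (Gam δ l j) (j * ta * l / (δ ^ 2 * √5)) := by
  refine ⟨Dom δ l j, meas_Dom δ l j, dom_unique δ l hδ hl hj, ?_⟩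
  simp only [det_solMetric, Real.sqrt_one, ENNReal.ofReal_one, lintegral_one, Measure.restrict_apply_univ]
  exact vol_Dom δ l hδ hl hj

end Pool.Agent.X154.SolM
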