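import Pool.Agent.X154.SolK

set_option autoImplicit false

/-!
Compact quotients of `Sol³ × ℝ` of fixed volume with first eigenvalue of large multiplicity.
-/

namespace Pool.Agent.X154.SolM

open scoped ContDiff Real Matrix
open Set Filter Topology MeasureTheory

theorem ric_sol (x v : Fin 4 → ℝ) :
    -2 * inner solMetric x v v ≤ ∑ i, ∑ j, ricci solMetric i j x * v i * v j := by
  rw [inner_sol]
  simp only [ricci_sol, Fin.sum_univ_four]
  simp
  have h1 := Real.exp_pos (2 * x 2)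
  have h2 := Real.exp_pos (-(2 * x 2))
  have a1 : 0 ≤ Real.exp (2 * x 2) * (v 0 * v 0) := by have := mul_self_nonneg (v 0); positivity
  have a2 : 0 ≤ Real.exp (-(2 * x 2)) * (v 1 * v 1) := by have := mul_self_nonneg (v 1); positivity
  have a3 := mul_self_nonneg (v 3)
  linarith

theorem pd_ofReal {f : X4 → ℝ} (hf : ContDiff ℝ ∞ f) (i : Fin 4) :
    pd i (fun z => (f z : ℂ)) = fun z => ((pd i f z : ℝ) : ℂ) := by
  funext z
  apply pd_eq_of i (Complex.ofRealCLM.contDiff.comp hf)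
  have h := hasDerivAt_line i hf z 0
  have := Complex.ofRealCLM.hasFDerivAt.comp_hasDerivAt (0 : ℝ) h
  simpa using! this

theorem LapC_ofReal {f : X4 → ℝ} (hf : ContDiff ℝ ∞ f) (z : X4) :
    LapC (fun z => (f z : ℂ)) z = ((laplace solMetric f z : ℝ) : ℂ) := by
  rw [laplace_sol hf]
  unfold LapC
  rw [pd_ofReal hf, pd_ofReal hf, pd_ofReal hf, pd_ofReal hf, pd_ofReal (pd_smooth 0 hf),
    pd_ofReal (pd_smooth 1 hf), pd_ofReal (pd_smooth 2 hf), pd_ofReal (pd_smooth 3 hf)]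
  push_cast
  rfl

theorem bounded_of {δ l : ℝ} (hδ : 0 < δ) (hl : 0 < l) {j : ℕ} (hj : 0 < j) {f : X4 → ℝ} (hf : Continuous f)
    (hinv : ∀ γ ∈ Gam δ l j, ∀ x, f (γ x) = f x) : ∃ B, ∀ z, |f z| ≤ B := by
  obtain ⟨K, hK, hc⟩ := cocompact δ l hδ hl hj
  obtain ⟨B, hB⟩ := hK.exists_bound_of_continuousOn hf.continuousOn
  refine ⟨B, fun z => ?_⟩
  obtain ⟨γ, hγ, hz⟩ := hc z
  rw [← hinv γ hγ z]
  exact hB _ hz

theorem lower_eigen {δ l E μ : ℝ} {ψ ψ' : ℝ → ℝ} (hδ : 0 < δ) (hl : 0 < l) {j : ℕ} (hj : 0 < j)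
    (hψ : Sl (qq (8 * π ^ 2 * δ ^ 2) E) ψ ψ') (hpos : ∀ t, 0 < ψ t) (hev : ∀ t, ψ (-t) = ψ t)
    (hdec : ∃ C, 0 ≤ C ∧ ∀ t, |ψ t| ≤ C * Real.exp (-(1 * |t|)) ∧ |ψ' t| ≤ C * Real.exp (-(1 * |t|)))
    (hμ : 0 < μ) (hμE : μ < E) (hEl : E < (2 * π / l) ^ 2) (hET : E < (2 * π / (j * ta)) ^ 2)
    {f : X4 → ℝ} (hf : Eigen solMetric (Gam δ l j) μ f) : f = 0 := by
  obtain ⟨hs, hinv, heq⟩ := hf
  have hT : 0 < (j : ℝ) * ta := mul_pos (by exact_mod_cast hj) ta_pos
  obtain ⟨B, hB⟩ := bounded_of hδ hl hj hs.continuous hinv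
  have hi : ∀ k a b c z, f (ge δ l j k a b c z) = f z := by
    intro k a b c z
    obtain ⟨φ, h1, h2⟩ := exists_perm δ l j k a b c
    rw [← h2, hinv φ h1]
  have key := lower (F := fun z => (f z : ℂ)) (j := j) hδ hl hψ hpos hev hdec hμ hμE hEl hT hET
    (Complex.ofRealCLM.contDiff.comp hs) ?_ ?_ ?_ (B := B) ?_ ?_ ?_
  · funext z
    have := key z
    exact_mod_cast this
  · intro z
    have := hi 0 1 0 0 z
    simp only [ge, mul_zero, hyp_zero, Int.cast_one, Int.cast_zero, one_smul, zero_smul, add_zero] at this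
    simp only [this]
  · intro z
    have := hi 0 0 1 0 z
    simp only [ge, mul_zero, hyp_zero, Int.cast_one, Int.cast_zero, one_smul, zero_smul, add_zero] at this
    simp only [this]
  · intro z
    have := hi 0 0 0 1 z
    simp only [ge, mul_zero, hyp_zero, Int.cast_one, Int.cast_zero, one_smul, zero_smul, add_zero] at this
    simp only [this]
  · intro z
    rw [Complex.norm_real]
    exact hB z
  · intro z
    have := hi 1 0 0 0 z
    simp only [ge, hyp, Int.cast_zero, zero_smul, add_zero, mul_one, zpow_natCast, Int.cast_natCast] at this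
    simp only [this]
  · intro z
    rw [LapC_ofReal hs]
    have := heq z
    have h2 : laplace solMetric f z = -μ * f z := by linarith
    rw [h2]
    push_cast
    rfl

theorem ff_eigen {δ l E : ℝ} {ψ ψ' : ℝ → ℝ} (hδ : 0 < δ) {j : ℕ}
    (h : Good (8 * π ^ 2 * δ ^ 2) E ψ ψ') (i : Fin j) : Eigen solMetric (Gam δ l j) E (ff δ ψ j i) := by
  have hs : ContDiff ℝ ∞ (ff δ ψ j i) := SS_contDiff δ h 0 (wi_exp j _)
  refine ⟨hs, ?_, ?_⟩
  · rintro γ ⟨k, a, b, c, hγ⟩ x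
    rw [hγ]
    unfold ff ge
    rw [SS_lattice δ hδ, SS_hyp]
    exact wi_per j _ k
  · intro x
    rw [laplace_sol hs]
    have := SS_lap δ h (wi_exp j (i : ℕ)) x
    unfold ff
    rw [this]
    ring

theorem main : ∀ V : ℝ, 0 < V → ∀ N : ℕ, ∃ Γ : Subgroup (Equiv.Perm (Fin 4 → ℝ)),
      IsClosedQuotient solMetric Γ ∧ HasVolume solMetric Γ V ∧
      ∃ lam : ℝ, 0 < lam ∧ (∀ μ, 0 < μ → μ < lam → ∀ f, Eigen solMetric Γ μ f → f = 0) ∧
        ∃ f : Fin N → (Fin 4 → ℝ) → ℝ, LinearIndependent ℝ f ∧ ∀ i, Eigen solMetric Γ lam (f i) := by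
  intro V hV N
  set j := N + 1 with hj
  have hj0 : 0 < j := by omega
  set T : ℝ := (j : ℝ) * ta with hT
  have hT0 : 0 < T := mul_pos (by exact_mod_cast hj0) ta_pos
  have h5 := s5_pos
  have hcosh := Real.cosh_pos (2 * T)
  set ε : ℝ := min (T ^ 2 / (V * √5)) (1 / (32 * T ^ 2 * Real.cosh (2 * T))) with hε
  have hε0 : 0 < ε := by positivity
  set δ := √ε with hδ
  have hδ0 : 0 < δ := Real.sqrt_pos.mpr hε0
  have hδ2 : δ ^ 2 = ε := Real.sq_sqrt hε0.le
  have c1 : δ ^ 2 * (V * √5) ≤ T ^ 2 := by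
    rw [hδ2, ← le_div_iff₀ (by positivity)]
    exact min_le_left _ _
  have c2 : δ ^ 2 * (32 * T ^ 2 * Real.cosh (2 * T)) ≤ 1 := by
    rw [hδ2, ← le_div_iff₀ (by positivity)]
    exact min_le_right _ _
  set l := V * (δ ^ 2 * √5) / T with hl
  have hl0 : 0 < l := by positivity
  have hlT : l ≤ T := by
    rw [hl, div_le_iff₀ hT0]
    nlinarith
  have hκ : 0 < 8 * π ^ 2 * δ ^ 2 := by positivity
  obtain ⟨E, ψ, ψ', hE, hsl, hpos, hev, hup, hdec⟩ := ground hκ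
  have hπ := Real.pi_pos
  have hET : E < (2 * π / T) ^ 2 := by
    have h1 := hup T hT0
    have h2 : 8 * π ^ 2 * δ ^ 2 * Real.cosh (2 * T) ≤ (π / (2 * T)) ^ 2 := by
      have e : 8 * π ^ 2 * δ ^ 2 * Real.cosh (2 * T) =
          (π / (2 * T)) ^ 2 * (δ ^ 2 * (32 * T ^ 2 * Real.cosh (2 * T))) := by
        field_simp
        ring
      rw [e]
      have : 0 ≤ (π / (2 * T)) ^ 2 := by positivity
      nlinarith
    have h3 : (2 * π / T) ^ 2 = 16 * (π / (2 * T)) ^ 2 := by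
      field_simp
      ring
    have h4 : 0 < (π / (2 * T)) ^ 2 := by positivity
    rw [h3]
    linarith
  have hEl : E < (2 * π / l) ^ 2 := by
    refine hET.trans_le ?_
    have : 2 * π / T ≤ 2 * π / l := div_le_div_of_nonneg_left (by positivity) hl0 hlT
    exact pow_le_pow_left₀ (by positivity) this 2
  have hgood : Good (8 * π ^ 2 * δ ^ 2) E ψ ψ' := by
    refine ⟨hsl, fun M => ?_, fun M => ?_⟩
    · obtain ⟨C, hC, h⟩ := hdec M
      exact ⟨C, hC, fun t => (h t).1⟩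
    · obtain ⟨C, hC, h⟩ := hdec M
      exact ⟨C, hC, fun t => (h t).2⟩
  refine ⟨Gam δ l j, closed_Gam δ l hδ0 hl0 hj0, ?_, E, hE, ?_, ?_⟩
  · have := volume_Gam δ l hδ0 hl0 hj0
    have e : (j : ℝ) * ta * l / (δ ^ 2 * √5) = V := by
      rw [hl, ← hT]
      field_simp
    rwa [e] at this
  · intro μ hμ hμE f hf
    exact lower_eigen hδ0 hl0 hj0 hsl hpos hev (hdec 1) hμ hμE hEl (by rwa [← hT]) hf
  · refine ⟨fun i => ff δ ψ j (Fin.castSucc i), ?_, fun i => ff_eigen hδ0 hgood _⟩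
    have := ff_indep hδ0 hgood.d0 hpos j (fun i => (ff_eigen (l := l) hδ0 hgood i).1.continuous)
    exact this.comp _ (Fin.castSucc_injective N)

end Pool.Agent.X154.SolM
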